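import Pool.Agent.Lib.MP_bbe012_lc.PT.Th
import Pool.Agent.Lib.MP_bbe012_lc.PP.Sem
import Pool.Agent.Lib.MP_bbe012_lc.PP.SDefs

/-!
# Stage 3: the expansions of the integrals, norms, values
-/

namespace Pool.Agent.Lib.MP_bbe012_lc.PT

open MvPolynomial Pool.Agent.Lib.MP_bbe012_lc.PP

/-- The formal inverse of the chart. -/
noncomputable def CD.phi {n : ℕ} {R : Type} [CommRing R] (c : CD n R) :
    Fin n → PowerSeries (MvPolynomial (Fin n) R) :=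
  Classical.choose (exists_phi c)

theorem CD.phi_spec {n : ℕ} {R : Type} [CommRing R] (c : CD n R) : IsPhi c c.phi :=
  Classical.choose_spec (exists_phi c)

/-- The inverse of `Q(t, φ)`. -/
noncomputable def CD.h {n : ℕ} {R : Type} [CommRing R] (c : CD n R) : PowerSeries (MvPolynomial (Fin n) R) :=
  PowerSeries.invOfUnit (th c.phi c.Q) 1

/-- The expansion of the integral over the cube of `(G / Q ^ K)(t, φ(u, t))`. -/
noncomputable def PhiT {n : ℕ} (c : CD n ℚ) (G : TP n ℚ) (K : ℕ) : PowerSeries ℚ :=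
  LamS n (th c.phi G * c.h ^ K)

/-- The norm `∑ |c_m| 4 ^ |m|`. -/
noncomputable def nW {m : ℕ} (p : MvPolynomial (Fin m) ℚ) : ℚ :=
  ∑ u ∈ p.support, |coeff u p| * 4 ^ (∑ i, u i)

/-- The smallness condition. -/
structure Small {n : ℕ} (c : CD n ℚ) (ρ : ℚ) : Prop where
  nonneg : 0 ≤ ρ
  le_one : ρ ≤ 1
  pq : ∀ l, ρ * (nW (c.p l) + nW (c.q l)) ≤ 1 / 8
  s : ρ * nW c.s ≤ 1 / 2

/-- `∑ k, ‖f_k‖ ρ ^ k ≤ b`. -/
def RB (n : ℕ) (ρ b : ℚ) (f : PowerSeries (MvPolynomial (Fin n) ℚ)) : Prop :=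
  ∀ K, ∑ k ∈ Finset.range K, l1M (PowerSeries.coeff k f) * ρ ^ k ≤ b

/-- The coefficient of `t ^ k` is integral of degree at most `e k + b`. -/
structure DI (n e b : ℕ) (f : PowerSeries (MvPolynomial (Fin n) ℚ)) : Prop where
  deg : ∀ k, (PowerSeries.coeff k f).totalDegree ≤ e * k + b
  int : ∀ k m, ∃ z : ℤ, coeff m (PowerSeries.coeff k f) = z

/-- The real point `(τ, φ(u, τ))`. -/
noncomputable def pts {n : ℕ} (c : CD n ℚ) (τ : ℚ) (u : Fin n → ℝ) : Fin (n + 1) → ℝ :=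
  Fin.cons (τ : ℝ) fun l => evx n τ u (c.phi l)

/-- The value of the integral at `τ`. -/
noncomputable def JT {n : ℕ} (c : CD n ℚ) (G : TP n ℚ) (K : ℕ) (τ : ℚ) : ℝ :=
  ∫ u in Set.Icc (0 : Fin n → ℝ) 1, aeval (pts c τ u) G / aeval (pts c τ u) c.Q ^ K

/-- The domain of integration at `τ`. -/
def sig {n : ℕ} (c : CD n ℚ) (τ : ℚ) : Set (Fin n → ℝ) :=
  {x | ∀ l, (-1 ≤ x l ∧ x l ≤ 2) ∧ 0 ≤ aeval (pt n τ x) (c.A l) ∧
    aeval (pt n τ x) (c.A l) ≤ aeval (pt n τ x) (c.B l)}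

/-- Vanishing of the value at `τ` has an algebraic reason. -/
def GoodT {n : ℕ} (c : CD n ℚ) (τ : ℚ) : Prop :=
  Small c |τ| ∧ ∀ (G : TP n ℚ) (K : ℕ), ev τ (PhiT c G K) = 0 →
    ∃ (j : ℕ) (U : TP n ℚ), PhiT c (G * c.Q ^ j + (X 0 - C τ) * U) (K + j) = 0

end Pool.Agent.Lib.MP_bbe012_lc.PT
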