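import Pool.Agent.Lib.MP_bbe012_lc.PT.Th

/-!
# Stage 3: chain rules
-/

namespace Pool.Agent.Lib.MP_bbe012_lc.PT

open MvPolynomial Pool.Agent.Lib.MP_bbe012_lc.PP

variable {n : ℕ} {R : Type} [CommRing R]

theorem coeff_du (l : Fin n) (f : PowerSeries (MvPolynomial (Fin n) R)) (k : ℕ) :
    PowerSeries.coeff k (du l f) = pderiv l (PowerSeries.coeff k f) := by
  rw [du, PowerSeries.coeff_mk]

theorem du_add (l : Fin n) (f g : PowerSeries (MvPolynomial (Fin n) R)) : du l (f + g) = du l f + du l g := by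
  ext1 k
  rw [coeff_du, map_add, map_add, map_add, coeff_du, coeff_du]

/-- Proof: `PowerSeries.coeff_mul`, see `phidx_mul` in PP/PhiL.lean. -/
theorem du_mul (l : Fin n) (f g : PowerSeries (MvPolynomial (Fin n) R)) :
    du l (f * g) = du l f * g + f * du l g := by
  ext1 k
  rw [coeff_du, PowerSeries.coeff_mul, map_sum, map_add, PowerSeries.coeff_mul,
    PowerSeries.coeff_mul, ← Finset.sum_add_distrib]
  refine Finset.sum_congr rfl fun p _ => ?_
  rw [pderiv_mul, coeff_du, coeff_du]

theorem du_C (l : Fin n) (a : MvPolynomial (Fin n) R) : du l (PowerSeries.C a) = PowerSeries.C (pderiv l a) := by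
  ext1 k
  rw [coeff_du, PowerSeries.coeff_C, PowerSeries.coeff_C]
  split_ifs
  · rfl
  · rw [map_zero]

theorem du_X (l : Fin n) : du l (PowerSeries.X : PowerSeries (MvPolynomial (Fin n) R)) = 0 := by
  ext1 k
  rw [coeff_du, PowerSeries.coeff_X, map_zero]
  split_ifs
  · rw [← C_1, pderiv_C]
  · rw [map_zero]

/-- The two derivations commute. -/
theorem du_derivative (l : Fin n) (f : PowerSeries (MvPolynomial (Fin n) R)) :
    du l (PowerSeries.derivative (MvPolynomial (Fin n) R) f) =
      PowerSeries.derivative (MvPolynomial (Fin n) R) (du l f) := by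
  ext1 k
  rw [coeff_du, PowerSeries.coeff_derivative, PowerSeries.coeff_derivative, coeff_du, pderiv_mul]
  have h1 : pderiv l ((k : MvPolynomial (Fin n) R) + 1) = 0 := by
    rw [map_add, Derivation.map_natCast, Derivation.map_one_eq_zero, add_zero]
  rw [h1, mul_zero, add_zero]

private theorem ChT_du_zero (l : Fin n) : du l (0 : PowerSeries (MvPolynomial (Fin n) R)) = 0 := by
  ext1 k
  rw [coeff_du, map_zero, map_zero]

private theorem ChT_du_one (l : Fin n) : du l (1 : PowerSeries (MvPolynomial (Fin n) R)) = 0 := by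
  have h := du_C (R := R) l 1
  rw [map_one] at h
  rw [h, Derivation.map_one_eq_zero, map_zero]

private theorem ChT_X (φ : Fin n → PowerSeries (MvPolynomial (Fin n) R))
    (d : Fin n → PowerSeries (MvPolynomial (Fin n) R)) (m : Fin n) :
    ∑ j : Fin n, th φ (pderiv j.succ (X m.succ : TP n R)) * d j = d m := by
  rw [Finset.sum_eq_single m]
  · rw [pderiv_X_self, map_one, one_mul]
  · intro j _ hj
    rw [pderiv_X_of_ne (fun h => hj (Fin.succ_injective _ h).symm), map_zero, zero_mul]
  · intro h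
    exact absurd (Finset.mem_univ m) h

private theorem ChT_X0 (φ : Fin n → PowerSeries (MvPolynomial (Fin n) R))
    (d : Fin n → PowerSeries (MvPolynomial (Fin n) R)) :
    ∑ j : Fin n, th φ (pderiv j.succ (X 0 : TP n R)) * d j = 0 := by
  refine Finset.sum_eq_zero fun j _ => ?_
  rw [pderiv_X_of_ne (Fin.succ_ne_zero j).symm, map_zero, zero_mul]

private theorem ChT_sum_mul (φ : Fin n → PowerSeries (MvPolynomial (Fin n) R))
    (d : Fin n → PowerSeries (MvPolynomial (Fin n) R)) (p : TP n R) (i : Fin (n + 1)) :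
    ∑ j : Fin n, th φ (pderiv j.succ (p * X i)) * d j =
      (∑ j : Fin n, th φ (pderiv j.succ p) * d j) * th φ (X i) +
        th φ p * ∑ j : Fin n, th φ (pderiv j.succ (X i)) * d j := by
  rw [Finset.sum_mul, Finset.mul_sum, ← Finset.sum_add_distrib]
  refine Finset.sum_congr rfl fun j _ => ?_
  rw [pderiv_mul, map_add, map_mul, map_mul]
  ring

private theorem ChT_sum_add (φ : Fin n → PowerSeries (MvPolynomial (Fin n) R))
    (d : Fin n → PowerSeries (MvPolynomial (Fin n) R)) (p q : TP n R) :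
    ∑ j : Fin n, th φ (pderiv j.succ (p + q)) * d j =
      ∑ j : Fin n, th φ (pderiv j.succ p) * d j + ∑ j : Fin n, th φ (pderiv j.succ q) * d j := by
  rw [← Finset.sum_add_distrib]
  refine Finset.sum_congr rfl fun j _ => ?_
  rw [map_add, map_add, add_mul]

private theorem ChT_sum_C (φ : Fin n → PowerSeries (MvPolynomial (Fin n) R))
    (d : Fin n → PowerSeries (MvPolynomial (Fin n) R)) (a : R) :
    ∑ j : Fin n, th φ (pderiv j.succ (C a : TP n R)) * d j = 0 := by
  refine Finset.sum_eq_zero fun j _ => ?_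
  rw [pderiv_C, map_zero, zero_mul]

/-- Proof: `MvPolynomial.induction_on`. -/
theorem du_th_gen (φ : Fin n → PowerSeries (MvPolynomial (Fin n) R)) (l : Fin n) (G : TP n R) :
    du l (th φ G) = ∑ j : Fin n, th φ (pderiv j.succ G) * du l (φ j) := by
  induction G using MvPolynomial.induction_on with
  | C a => rw [ChT_sum_C, th_C, du_C, pderiv_C, map_zero]
  | add p q hp hq => rw [ChT_sum_add, map_add, du_add, hp, hq]
  | mul_X p i hp =>
    rw [ChT_sum_mul, map_mul, du_mul, hp]
    congr 2
    refine Fin.cases ?_ (fun m => ?_) i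
    · rw [ChT_X0, th_X0, du_X]
    · rw [ChT_X, th_Xs]

/-- Proof: `MvPolynomial.induction_on`. -/
theorem dt_th_gen (φ : Fin n → PowerSeries (MvPolynomial (Fin n) R)) (G : TP n R) :
    PowerSeries.derivative (MvPolynomial (Fin n) R) (th φ G) = th φ (pderiv 0 G) +
      ∑ j : Fin n, th φ (pderiv j.succ G) * PowerSeries.derivative (MvPolynomial (Fin n) R) (φ j) := by
  induction G using MvPolynomial.induction_on with
  | C a =>
    rw [ChT_sum_C, th_C, pderiv_C, map_zero, add_zero]
    exact PowerSeries.derivative_C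
  | add p q hp hq =>
    rw [ChT_sum_add, map_add, map_add, hp, hq, map_add, map_add]
    ring
  | mul_X p i hp =>
    rw [ChT_sum_mul, map_mul, Derivation.leibniz, smul_eq_mul, smul_eq_mul, hp, pderiv_mul,
      map_add, map_mul, map_mul]
    have h1 : PowerSeries.derivative (MvPolynomial (Fin n) R) (th φ (X i)) =
        th φ (pderiv 0 (X i)) + ∑ j : Fin n, th φ (pderiv j.succ (X i)) *
          PowerSeries.derivative (MvPolynomial (Fin n) R) (φ j) := by
      refine Fin.cases ?_ (fun m => ?_) i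
      · rw [ChT_X0, th_X0, pderiv_X_self, map_one, add_zero]
        exact PowerSeries.derivative_X
      · rw [ChT_X, th_Xs, pderiv_X_of_ne (Fin.succ_ne_zero m), map_zero, zero_add]
    rw [h1]
    ring

/-- The constant coefficient of the Jacobian matrix. -/
private theorem ChT_jac (c : CD n R) (i j : Fin n) :
    atZD n R (c.jac i j.succ) = (1 : Matrix (Fin n) (Fin n) (MvPolynomial (Fin n) R)) i j := by
  have h0 : atZD n R (X 0) = 0 := by
    rw [atZD, aeval_X]
    rfl
  have hB : atZD n R (c.B i) = 1 := by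
    rw [CD.B, map_add, map_one, map_mul, h0, zero_mul, add_zero]
  have hdB : atZD n R (pderiv j.succ (c.B i)) = 0 := by
    rw [CD.B, map_add, Derivation.map_one_eq_zero, zero_add, pderiv_mul,
      pderiv_X_of_ne (Fin.succ_ne_zero j).symm, zero_mul, zero_add, map_mul, h0, zero_mul]
  have hdA : atZD n R (pderiv j.succ (c.A i)) =
      (1 : Matrix (Fin n) (Fin n) (MvPolynomial (Fin n) R)) i j := by
    rw [CD.A, map_add, pderiv_mul, pderiv_X_of_ne (Fin.succ_ne_zero j).symm, zero_mul, zero_add,
      map_add, map_mul, h0, zero_mul, add_zero]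
    by_cases h : i = j
    · rw [h, pderiv_X_self, map_one, Matrix.one_apply_eq]
    · rw [pderiv_X_of_ne (fun h' => h (Fin.succ_injective _ h')), map_zero,
        Matrix.one_apply_ne h]
  rw [CD.jac, map_sub, map_mul, map_mul, hB, hdB, hdA, one_mul, mul_zero, sub_zero]

/-- The Jacobian matrix is invertible. -/
private theorem ChT_inv (c : CD n R) {φ : Fin n → PowerSeries (MvPolynomial (Fin n) R)}
    (hφ : IsPhi c φ) (x : Fin n → PowerSeries (MvPolynomial (Fin n) R))
    (hx : ∀ i, ∑ j : Fin n, th φ (c.jac i j.succ) * x j = 0) (j : Fin n) : x j = 0 := by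
  obtain ⟨M, hM⟩ : ∃ M : Matrix (Fin n) (Fin n) (PowerSeries (MvPolynomial (Fin n) R)),
      M = Matrix.of fun i j => th φ (c.jac i j.succ) := ⟨_, rfl⟩
  have h1 : M.mulVec x = 0 := by
    funext i
    rw [hM]
    exact hx i
  have h2 : PowerSeries.constantCoeff M.det = 1 := by
    rw [RingHom.map_det]
    have h3 : (PowerSeries.constantCoeff (R := MvPolynomial (Fin n) R)).mapMatrix M = 1 := by
      ext1 i j
      rw [RingHom.mapMatrix_apply, Matrix.map_apply, hM, Matrix.of_apply, cc_th hφ.c0, ChT_jac]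
    rw [h3, Matrix.det_one]
  have h3 : IsUnit M.det := by
    rw [PowerSeries.isUnit_iff_constantCoeff, h2]
    exact isUnit_one
  have h4 : M.det • x = 0 := by
    have h5 : M.adjugate.mulVec (M.mulVec x) = M.det • x := by
      rw [Matrix.mulVec_mulVec, Matrix.adjugate_mul, Matrix.smul_mulVec, Matrix.one_mulVec]
    rw [← h5, h1, Matrix.mulVec_zero]
  have h5 := congrFun h4 j
  rw [Pi.smul_apply, Pi.zero_apply, smul_eq_mul] at h5
  exact (h3.mul_right_eq_zero).1 h5

/-- Proof. Apply `du l` to `IsPhi.eq i`: `∑ j, th (∂_j A_i) * du l (φ j) = δ_li * th B_i + C (X i) * ∑ j, th (∂_j B_i) * du l (φ j)`; multiply by `th B_i` and use `C (X i) * th B_i = th A_i`: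
`∑ j, th (jac i j) * du l (φ j) = δ_li * th (B_i) ^ 2`. With `Ok.v`: `∑ j, th (jac i j) * (th Q * du l (φ j) - th (V l j)) = 0` for all `i`. The matrix `(th (jac i j))` has determinant with constant coefficient
`1` (`cc_th`: `atZD (jac i j.succ) = δ_ij`), a unit (`PowerSeries.isUnit_iff_constantCoeff`), so the vector is `0` (`Matrix.adjugate`: multiply by the adjugate). -/
theorem Q_mul_du {c : CD n R} (hc : c.Ok) {φ : Fin n → PowerSeries (MvPolynomial (Fin n) R)} (hφ : IsPhi c φ)
    (l j : Fin n) : th φ c.Q * du l (φ j) = th φ (c.V l j) := by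
  refine sub_eq_zero.1 (ChT_inv c hφ (fun j => th φ c.Q * du l (φ j) - th φ (c.V l j))
    (fun i => ?_) j)
  have h1 := congrArg (du l) (hφ.eq i)
  rw [du_th_gen, du_mul, du_C, du_th_gen] at h1
  have h2 := congrArg (th φ) (hc.v l i)
  rw [map_sum] at h2
  simp only [map_mul] at h2
  have h3 : ∑ j : Fin n, th φ (c.jac i j.succ) * (th φ c.Q * du l (φ j) - th φ (c.V l j)) =
      th φ c.Q * (th φ (c.B i) * ∑ j : Fin n, th φ (pderiv j.succ (c.A i)) * du l (φ j) -
        th φ (c.A i) * ∑ j : Fin n, th φ (pderiv j.succ (c.B i)) * du l (φ j)) -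
      ∑ j : Fin n, th φ (c.V l j) * th φ (c.jac i j.succ) := by
    rw [Finset.mul_sum, Finset.mul_sum, ← Finset.sum_sub_distrib, Finset.mul_sum,
      ← Finset.sum_sub_distrib]
    refine Finset.sum_congr rfl fun j _ => ?_
    rw [CD.jac, map_sub, map_mul, map_mul]
    ring
  rw [h3, h2, h1, hφ.eq i]
  by_cases h : l = i
  · subst h
    rw [if_pos rfl, pderiv_X_self, map_one, map_mul, map_pow]
    ring
  · rw [if_neg h, pderiv_X_of_ne (fun h' => h h'.symm), map_zero, map_zero]
    ring

/-- Proof: the same with the derivative in `t`: `th (jac i 0) + ∑ j, th (jac i j.succ) * φ_j' = 0` and `Ok.w`. -/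
theorem Q_mul_dt {c : CD n R} (hc : c.Ok) {φ : Fin n → PowerSeries (MvPolynomial (Fin n) R)} (hφ : IsPhi c φ)
    (j : Fin n) : th φ c.Q * PowerSeries.derivative (MvPolynomial (Fin n) R) (φ j) = - th φ (c.W j) := by
  refine eq_neg_of_add_eq_zero_left (ChT_inv c hφ (fun j =>
    th φ c.Q * PowerSeries.derivative (MvPolynomial (Fin n) R) (φ j) + th φ (c.W j))
    (fun i => ?_) j)
  have h1 := congrArg (PowerSeries.derivative (MvPolynomial (Fin n) R)) (hφ.eq i)
  rw [dt_th_gen, Derivation.leibniz, smul_eq_mul, smul_eq_mul, dt_th_gen] at h1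
  have h0 : PowerSeries.derivative (MvPolynomial (Fin n) R)
      (PowerSeries.C (X i : MvPolynomial (Fin n) R)) = 0 := PowerSeries.derivative_C
  rw [h0, mul_zero, add_zero] at h1
  have h2 := congrArg (th φ) (hc.w i)
  rw [map_sum, map_mul] at h2
  simp only [map_mul] at h2
  have h3 : ∑ j : Fin n, th φ (c.jac i j.succ) *
      (th φ c.Q * PowerSeries.derivative (MvPolynomial (Fin n) R) (φ j) + th φ (c.W j)) =
      th φ c.Q * (th φ (c.B i) * ∑ j : Fin n, th φ (pderiv j.succ (c.A i)) *
          PowerSeries.derivative (MvPolynomial (Fin n) R) (φ j) -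
        th φ (c.A i) * ∑ j : Fin n, th φ (pderiv j.succ (c.B i)) *
          PowerSeries.derivative (MvPolynomial (Fin n) R) (φ j)) +
      ∑ j : Fin n, th φ (c.W j) * th φ (c.jac i j.succ) := by
    rw [Finset.mul_sum, Finset.mul_sum, ← Finset.sum_sub_distrib, Finset.mul_sum,
      ← Finset.sum_add_distrib]
    refine Finset.sum_congr rfl fun j _ => ?_
    rw [CD.jac, map_sub, map_mul, map_mul]
    ring
  rw [h3, h2, CD.jac, map_sub, map_mul, map_mul]
  have h4 := hφ.eq i
  linear_combination (th φ c.Q * th φ (c.B i)) * h1 -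
    (th φ c.Q * th φ (pderiv 0 (c.B i)) + th φ c.Q * ∑ j : Fin n, th φ (pderiv j.succ (c.B i)) *
      PowerSeries.derivative (MvPolynomial (Fin n) R) (φ j)) * h4

private theorem ChT_du_pow {a h : PowerSeries (MvPolynomial (Fin n) R)} (hh : a * h = 1)
    (l : Fin n) (K : ℕ) : du l (h ^ K) =
      - (K : PowerSeries (MvPolynomial (Fin n) R)) * (du l a * h ^ (K + 1)) := by
  have h0 : du l h = - (du l a * h ^ 2) := by
    have h1 := congrArg (du l) hh
    rw [du_mul, ChT_du_one] at h1
    linear_combination h * h1 - du l h * hh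
  induction K with
  | zero => rw [pow_zero, ChT_du_one, Nat.cast_zero, neg_zero, zero_mul]
  | succ K ih =>
    rw [pow_succ, du_mul, ih, h0]
    push_cast
    ring

private theorem ChT_dt_pow {a h : PowerSeries (MvPolynomial (Fin n) R)} (hh : a * h = 1)
    (K : ℕ) : PowerSeries.derivative (MvPolynomial (Fin n) R) (h ^ K) =
      - (K : PowerSeries (MvPolynomial (Fin n) R)) *
        (PowerSeries.derivative (MvPolynomial (Fin n) R) a * h ^ (K + 1)) := by
  have h0 : PowerSeries.derivative (MvPolynomial (Fin n) R) h =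
      - (PowerSeries.derivative (MvPolynomial (Fin n) R) a * h ^ 2) := by
    have h1 := congrArg (PowerSeries.derivative (MvPolynomial (Fin n) R)) hh
    rw [Derivation.leibniz, Derivation.map_one_eq_zero, smul_eq_mul, smul_eq_mul] at h1
    linear_combination h * h1 - PowerSeries.derivative (MvPolynomial (Fin n) R) h * hh
  induction K with
  | zero => rw [pow_zero, Derivation.map_one_eq_zero, Nat.cast_zero, neg_zero, zero_mul]
  | succ K ih =>
    rw [pow_succ, Derivation.leibniz, smul_eq_mul, smul_eq_mul, ih, h0]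
    push_cast
    ring

/-- `th Q ^ (K + 2) * ∂_{u_l} (th G / th Q ^ K) = th (numV l K G)`, for an inverse `h` of `th Q`.

Proof: `du_th_gen`, `Q_mul_du`; `du l (h ^ K) = - K * h ^ (K + 1) * du l (th Q)` (differentiate `th Q * h = 1`). -/
theorem du_frac {c : CD n R} (hc : c.Ok) {φ : Fin n → PowerSeries (MvPolynomial (Fin n) R)} (hφ : IsPhi c φ)
    {h : PowerSeries (MvPolynomial (Fin n) R)} (hh : th φ c.Q * h = 1) (l : Fin n) (K : ℕ) (G : TP n R) :
    du l (th φ G * h ^ K) = th φ (c.numV l K G) * h ^ (K + 2) := by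
  have h1 : th φ (c.numV l K G) = th φ c.Q * (th φ c.Q * du l (th φ G) -
      (K : PowerSeries (MvPolynomial (Fin n) R)) * (th φ G * du l (th φ c.Q))) := by
    rw [CD.numV, map_sum, du_th_gen φ l G, du_th_gen φ l c.Q, Finset.mul_sum, Finset.mul_sum,
      Finset.mul_sum, ← Finset.sum_sub_distrib, Finset.mul_sum]
    refine Finset.sum_congr rfl fun j _ => ?_
    rw [map_mul, map_sub, map_mul, map_mul, map_mul, map_natCast, ← Q_mul_du hc hφ l j]
    ring
  rw [h1, du_mul, ChT_du_pow hh l K]
  linear_combination (- (du l (th φ G) * h ^ K * (th φ c.Q * h + 1) -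
    (K : PowerSeries (MvPolynomial (Fin n) R)) * (th φ G * du l (th φ c.Q)) * h ^ (K + 1))) * hh

/-- Proof: the same with `dt_th_gen`, `Q_mul_dt`. -/
theorem dt_frac {c : CD n R} (hc : c.Ok) {φ : Fin n → PowerSeries (MvPolynomial (Fin n) R)} (hφ : IsPhi c φ)
    {h : PowerSeries (MvPolynomial (Fin n) R)} (hh : th φ c.Q * h = 1) (K : ℕ) (G : TP n R) :
    PowerSeries.derivative (MvPolynomial (Fin n) R) (th φ G * h ^ K) = th φ (c.numT K G) * h ^ (K + 2) := by
  have h1 : th φ (c.numT K G) = th φ c.Q * (th φ c.Q *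
      PowerSeries.derivative (MvPolynomial (Fin n) R) (th φ G) -
      (K : PowerSeries (MvPolynomial (Fin n) R)) *
        (th φ G * PowerSeries.derivative (MvPolynomial (Fin n) R) (th φ c.Q))) := by
    have h2 : th φ (∑ j : Fin n, c.W j * (c.Q * pderiv j.succ G -
        (K : TP n R) * (G * pderiv j.succ c.Q))) =
        - (th φ c.Q * (th φ c.Q * (∑ j : Fin n, th φ (pderiv j.succ G) *
          PowerSeries.derivative (MvPolynomial (Fin n) R) (φ j)) -
        (K : PowerSeries (MvPolynomial (Fin n) R)) * (th φ G *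
          ∑ j : Fin n, th φ (pderiv j.succ c.Q) *
            PowerSeries.derivative (MvPolynomial (Fin n) R) (φ j)))) := by
      rw [map_sum, Finset.mul_sum, Finset.mul_sum, Finset.mul_sum, ← Finset.sum_sub_distrib,
        Finset.mul_sum, ← Finset.sum_neg_distrib]
      refine Finset.sum_congr rfl fun j _ => ?_
      rw [map_mul, map_sub, map_mul, map_mul, map_mul, map_natCast]
      linear_combination ((th φ c.Q * th φ (pderiv j.succ G) -
        (K : PowerSeries (MvPolynomial (Fin n) R)) * (th φ G * th φ (pderiv j.succ c.Q)))) *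
        Q_mul_dt hc hφ j
    rw [CD.numT, map_sub, h2, dt_th_gen φ G, dt_th_gen φ c.Q, map_mul, map_sub, map_mul, map_mul,
      map_mul, map_natCast]
    ring
  rw [h1, Derivation.leibniz, smul_eq_mul, smul_eq_mul, ChT_dt_pow hh K]
  linear_combination (- (PowerSeries.derivative (MvPolynomial (Fin n) R) (th φ G) * h ^ K *
    (th φ c.Q * h + 1) - (K : PowerSeries (MvPolynomial (Fin n) R)) *
      (th φ G * PowerSeries.derivative (MvPolynomial (Fin n) R) (th φ c.Q)) * h ^ (K + 1))) * hh

/-- `u_l - u_l ^ 2 = Ef l / Q ^ 2`. Proof: `th A_l = C (X l) * th B_l`, `bc`: `th (A_l) * th (C_l) * h = C (X l)`. -/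
theorem Ef_frac {c : CD n R} (hc : c.Ok) {φ : Fin n → PowerSeries (MvPolynomial (Fin n) R)} (hφ : IsPhi c φ)
    {h : PowerSeries (MvPolynomial (Fin n) R)} (hh : th φ c.Q * h = 1) (l : Fin n) :
    th φ (c.Ef l) * h ^ 2 = PowerSeries.C (X l - X l ^ 2) := by
  have h1 := congrArg (th φ) (hc.bc l)
  rw [map_mul] at h1
  have h2 : th φ (c.B l) * th φ (c.C l) * h = 1 := by rw [h1, hh]
  rw [CD.Ef, map_mul, map_mul, map_sub, map_pow, hφ.eq l, map_sub, map_pow]
  linear_combination ((PowerSeries.C (X l : MvPolynomial (Fin n) R) -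
    PowerSeries.C (X l : MvPolynomial (Fin n) R) ^ 2) *
    (th φ (c.B l) * th φ (c.C l) * h + 1)) * h2

end Pool.Agent.Lib.MP_bbe012_lc.PT
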