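import Pool.Agent.Lib.MP_bbe012_lc.PT.PDefs
import Pool.Agent.Lib.MP_bbe012_lc.PT.ChT
import Pool.Agent.Lib.MP_bbe012_lc.PP.PhiL

/-!
# Stage 3: properties of the expansions
-/

namespace Pool.Agent.Lib.MP_bbe012_lc.PT

open MvPolynomial Pool.Agent.Lib.MP_bbe012_lc.PP

/-- Proof: `PowerSeries.mul_invOfUnit`, `cc_th`, `atZD` of `Q = 1 + X 0 * s` is `1`. -/
theorem Q_mul_h {n : ℕ} {R : Type} [CommRing R] (c : CD n R) : th c.phi c.Q * c.h = 1 := by
  have hc : PowerSeries.constantCoeff (th c.phi c.Q) = 1 := by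
    rw [cc_th c.phi_spec.c0, CD.Q, map_add, map_one, map_mul]
    have h0 : atZD n R (X 0) = 0 := by
      rw [atZD, aeval_X]
      rfl
    rw [h0, zero_mul, add_zero]
  exact PowerSeries.mul_invOfUnit _ 1 (by rw [hc, Units.val_one])

/-- Proof: induction on `a` (`th` and `ser` agree on polynomials in `X 0`). -/
theorem th_inT {n : ℕ} (φ : Fin n → PowerSeries (MvPolynomial (Fin n) ℚ)) (a : Polynomial ℚ) :
    th φ (inT n a) = ser n (inT n a) := by
  induction a using Polynomial.induction_on' with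
  | add p q hp hq => rw [map_add, map_add, map_add, hp, hq]
  | monomial k a =>
    have h1 : inT n (Polynomial.monomial k a) = C a * X 0 ^ k := by
      rw [← Polynomial.C_mul_X_pow_eq_monomial, inT]
      change Polynomial.aeval (X 0 : P1 n) (Polynomial.C a * Polynomial.X ^ k) = _
      rw [map_mul, map_pow, Polynomial.aeval_C, Polynomial.aeval_X]
      rfl
    rw [h1, map_mul, map_mul, map_pow, map_pow, th_C, ser_C, ser_X_zero, th_X0]

theorem PhiT_add {n : ℕ} (c : CD n ℚ) (G H : TP n ℚ) (K : ℕ) :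
    PhiT c (G + H) K = PhiT c G K + PhiT c H K := by
  rw [PhiT, map_add, add_mul, LamS_add]; rfl

theorem PhiT_sub {n : ℕ} (c : CD n ℚ) (G H : TP n ℚ) (K : ℕ) :
    PhiT c (G - H) K = PhiT c G K - PhiT c H K := by
  rw [PhiT, map_sub, sub_mul, LamS_sub]; rfl

theorem PhiT_sum {n : ℕ} {ι : Type} (c : CD n ℚ) (s : Finset ι) (G : ι → TP n ℚ) (K : ℕ) :
    PhiT c (∑ i ∈ s, G i) K = ∑ i ∈ s, PhiT c (G i) K := by
  rw [PhiT, map_sum, Finset.sum_mul, LamS_sum]; rfl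

/-- Proof: `th_inT`, `LamS_inT_mul`. -/
theorem PhiT_inT_mul {n : ℕ} (c : CD n ℚ) (G : TP n ℚ) (a : Polynomial ℚ) (K : ℕ) :
    PhiT c (inT n a * G) K = (a : PowerSeries ℚ) * PhiT c G K := by
  rw [PhiT, map_mul, mul_assoc, th_inT, LamS_inT_mul]; rfl

theorem PhiT_one {n : ℕ} (c : CD n ℚ) : PhiT c 1 0 = 1 := by
  rw [PhiT, map_one, pow_zero, mul_one, LamS_one]

theorem PhiT_shift {n : ℕ} (c : CD n ℚ) (G : TP n ℚ) (K j : ℕ) :
    PhiT c (G * c.Q ^ j) (K + j) = PhiT c G K := by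
  have h : th c.phi c.Q ^ j * c.h ^ j = 1 := by rw [← mul_pow, Q_mul_h, one_pow]
  rw [PhiT, PhiT, map_mul, map_pow, pow_add]
  refine congrArg (LamS n) ?_
  calc th c.phi G * th c.phi c.Q ^ j * (c.h ^ K * c.h ^ j) =
        th c.phi G * c.h ^ K * (th c.phi c.Q ^ j * c.h ^ j) := by ring
    _ = _ := by rw [h, mul_one]

/-- Exact elements. Proof: `th (divT K g) * h ^ (K + 4) = ∑ l, du l (th (Ef l * g l) * h ^ (K + 2)) = ∑ l, du l (C (X l - X l ^ 2) * (th (g l) * h ^ K))` (`du_frac`, `Ef_frac`), every coefficient is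
`∑ l, pderiv l ((X l - X l ^ 2) * _)`, which has integral `0` (`Lam_pderiv`, LamL.lean). -/
theorem PhiT_divT {n : ℕ} {c : CD n ℚ} (hc : c.Ok) (K : ℕ) (g : Fin n → TP n ℚ) :
    PhiT c (c.divT K g) (K + 4) = 0 := by
  rw [CD.divT, PhiT_sum]
  refine Finset.sum_eq_zero fun l _ => ?_
  have h1 := du_frac hc c.phi_spec (Q_mul_h c) l (K + 2) (c.Ef l * g l)
  rw [PhiT, ← h1]
  have h2 : th c.phi (c.Ef l * g l) * c.h ^ (K + 2) =
      PowerSeries.C (X l - X l ^ 2) * (th c.phi (g l) * c.h ^ K) := by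
    rw [← Ef_frac hc c.phi_spec (Q_mul_h c) l, (th c.phi).map_mul (c.Ef l), pow_add]
    ring
  rw [h2]
  ext k
  rw [coeff_LamS, map_zero, coeff_du, PowerSeries.coeff_C_mul, Lam_pderiv]

/-- Proof: `LamS_derivative`, `dt_frac`. -/
theorem derivative_PhiT {n : ℕ} {c : CD n ℚ} (hc : c.Ok) (G : TP n ℚ) (K : ℕ) :
    PowerSeries.derivative ℚ (PhiT c G K) = PhiT c (c.numT K G) (K + 2) := by
  rw [PhiT, PhiT, ← LamS_derivative, dt_frac hc c.phi_spec (Q_mul_h c)]

/-- Proof: as `theta_Phi`. -/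
theorem theta_PhiT {n : ℕ} {c : CD n ℚ} (hc : c.Ok) (S : TP n ℚ) (K i : ℕ) :
    theta^[i] (PhiT c S K) = PhiT c (c.thN K S i) (K + 2 * i) := by
  induction i with
  | zero => rfl
  | succ i ih =>
    rw [Function.iterate_succ_apply', ih, theta, derivative_PhiT hc]
    have h1 : inT n Polynomial.X = X 0 := by
      rw [inT]
      exact Polynomial.aeval_X _
    have h2 := PhiT_inT_mul c (c.numT (K + 2 * i) (c.thN K S i)) Polynomial.X (K + 2 * i + 2)
    rw [Polynomial.coe_X] at h2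
    rw [← h2, h1, CD.thN]
    rfl

end Pool.Agent.Lib.MP_bbe012_lc.PT
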