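import Pool.Agent.Lib.MP_bbe012_lc.PT.CD

/-!
# Stage 3: existence of charts; change of the coefficient ring
-/

namespace Pool.Agent.Lib.MP_bbe012_lc.PT

open MvPolynomial Pool.Agent.Lib.MP_bbe012_lc.PP

variable {n : ℕ} {R R' : Type} [CommRing R] [CommRing R']

/-- congruence to the derivative of `A_i / B_i` modulo `t` -/
private theorem CDex_jac (p q : TP n R) (i j : Fin n) :
    (X 0 : TP n R) ∣ ((1 + X 0 * q) * pderiv j.succ (X i.succ + X 0 * p) -
      (X i.succ + X 0 * p) * pderiv j.succ (1 + X 0 * q)) - (if i = j then 1 else 0) := by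
  have h0 : pderiv j.succ (X 0 : TP n R) = 0 :=
    pderiv_X_of_ne (Fin.succ_ne_zero j).symm
  have h1 : pderiv j.succ (X i.succ : TP n R) = if i = j then 1 else 0 := by
    by_cases h : i = j
    · rw [if_pos h, h, pderiv_X_self]
    · rw [if_neg h, pderiv_X_of_ne (fun h2 => h (Fin.succ_injective n h2))]
  have h2 : ∀ F : TP n R, pderiv j.succ (X 0 * F) = X 0 * pderiv j.succ F := by
    intro F
    rw [Derivation.leibniz, h0, smul_zero, add_zero, smul_eq_mul]
  have h3 : pderiv j.succ (1 : TP n R) = 0 := Derivation.map_one_eq_zero _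
  rw [map_add, map_add, h2, h2, h1, h3]
  refine ⟨q * (if i = j then 1 else 0) + (1 + X 0 * q) * pderiv j.succ p -
    (X i.succ + X 0 * p) * pderiv j.succ q, ?_⟩
  ring

/-- For all `p`, `q` and `s₀` there is a chart, whose denominator is a multiple of `1 + t s₀`.

Proof. Let `A`, `B` be the polynomials of `p`, `q`, `Mx i j = B_i ∂_j A_i - A_i ∂_j B_i` (`j : Fin n`, derivative in `x_j`) and `Δ = det Mx`. Every polynomial `G` with `atZD n R G = 1` is of the form `1 + X 0 * s`
(induction on `G`, see `CodeC_div` in PP/CodeC.lean: `G = rename Fin.succ (atZD n R G) + X 0 * s`), and `atZD` is a ring homomorphism with `atZD (X 0) = 0`. `atZD (Mx i j) = δ_ij` (`pderiv (X 0 * F) = X 0 * pderiv F` for the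
derivatives in `x_j`; `∂_j (X i.succ) = δ_ij`), so `atZD Δ = det 1 = 1` (`RingHom.map_det`). Let `Q₁ = (1 + X 0 * s₀) * Δ * ∏ l, B_l`, `atZD Q₁ = 1`, so `Q₁ = 1 + X 0 * s`.
`C l = (1 + X 0 * s₀) * Δ * ∏ i ∈ univ.erase l, B_i`, `V l j = B_l ^ 2 * ((1 + X 0 * s₀) * ∏ i, B_i) * (adjugate Mx) j l`, `W j = ((1 + X 0 * s₀) * ∏ i, B_i) * ∑ l, (adjugate Mx) j l * jac l 0`; the conditions follow from
`Mx * adjugate Mx = Δ • 1` (`Matrix.mul_adjugate`). -/
theorem exists_cd (p q : Fin n → TP n R) (s₀ : TP n R) :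
    ∃ c : CD n R, c.Ok ∧ c.p = p ∧ c.q = q ∧ (1 + X 0 * s₀) ∣ c.Q := by
  classical
  let A : Fin n → TP n R := fun i => X i.succ + X 0 * p i
  let B : Fin n → TP n R := fun i => 1 + X 0 * q i
  let M : Matrix (Fin n) (Fin n) (TP n R) := fun i j =>
    B i * pderiv j.succ (A i) - A i * pderiv j.succ (B i)
  let J : Fin n → TP n R := fun i => B i * pderiv 0 (A i) - A i * pderiv 0 (B i)
  let E : TP n R := 1 + X 0 * s₀
  let π : TP n R →+* TP n R ⧸ Ideal.span {(X 0 : TP n R)} := Ideal.Quotient.mk _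
  have hπ0 : π (X 0) = 0 := by
    rw [Ideal.Quotient.eq_zero_iff_mem]
    exact Ideal.mem_span_singleton_self _
  have hπ1 : ∀ F : TP n R, π (1 + X 0 * F) = 1 := by
    intro F
    rw [map_add, map_mul, hπ0, zero_mul, add_zero, map_one]
  have hM : π.mapMatrix M = 1 := by
    ext i j
    have h1 : (X 0 : TP n R) ∣ M i j - (if i = j then 1 else 0) := CDex_jac (p i) (q i) i j
    have h2 : π (M i j) = π (if i = j then 1 else 0) := by
      rw [Ideal.Quotient.eq, Ideal.mem_span_singleton]
      exact h1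
    rw [RingHom.mapMatrix_apply, Matrix.map_apply, h2, Matrix.one_apply]
    by_cases h : i = j
    · rw [if_pos h, if_pos h, map_one]
    · rw [if_neg h, if_neg h, map_zero]
  have hdet : π M.det = 1 := by
    rw [RingHom.map_det, hM, Matrix.det_one]
  have hQ : π (E * M.det * ∏ l, B l) = 1 := by
    have h1 : π (∏ l, B l) = 1 := by
      rw [map_prod]
      exact Finset.prod_eq_one fun l _ => hπ1 (q l)
    rw [map_mul, map_mul, hdet, h1, hπ1 s₀, one_mul, one_mul]
  obtain ⟨s, hs⟩ : (X 0 : TP n R) ∣ E * M.det * (∏ l, B l) - 1 := by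
    rw [← Ideal.mem_span_singleton, ← Ideal.Quotient.eq_zero_iff_mem]
    change π _ = 0
    rw [map_sub, hQ, map_one, sub_self]
  have hs' : 1 + X 0 * s = E * M.det * ∏ l, B l := by
    rw [← hs]
    ring
  have hadj : ∀ i l : Fin n, ∑ j, M i j * M.adjugate j l = if i = l then M.det else 0 := by
    intro i l
    have h1 := congrFun (congrFun (Matrix.mul_adjugate M) i) l
    rw [Matrix.mul_apply, Matrix.smul_apply, Matrix.one_apply, smul_eq_mul] at h1
    rw [h1]
    by_cases h : i = l
    · rw [if_pos h, if_pos h, mul_one]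
    · rw [if_neg h, if_neg h, mul_zero]
  refine ⟨⟨p, q, s, fun l => E * M.det * ∏ i ∈ Finset.univ.erase l, B i,
    fun l j => B l ^ 2 * (E * ∏ i, B i) * M.adjugate j l,
    fun j => (E * ∏ i, B i) * ∑ l, M.adjugate j l * J l⟩, ⟨?_, ?_, ?_⟩, rfl, rfl, ?_⟩
  · intro l
    change B l * (E * M.det * ∏ i ∈ Finset.univ.erase l, B i) = 1 + X 0 * s
    rw [hs', ← Finset.mul_prod_erase Finset.univ B (Finset.mem_univ l)]
    ring
  · intro l i
    change ∑ j : Fin n, B l ^ 2 * (E * ∏ i, B i) * M.adjugate j l * M i j =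
      if l = i then (1 + X 0 * s) * B i ^ 2 else 0
    have h1 : ∑ j : Fin n, B l ^ 2 * (E * ∏ i, B i) * M.adjugate j l * M i j =
        B l ^ 2 * (E * ∏ i, B i) * ∑ j, M i j * M.adjugate j l := by
      rw [Finset.mul_sum]
      exact Finset.sum_congr rfl fun j _ => by ring
    rw [h1, hadj i l, hs']
    by_cases h : l = i
    · rw [if_pos h, if_pos h.symm, h]
      ring
    · rw [if_neg h, if_neg (fun h2 => h h2.symm), mul_zero]
  · intro i
    change ∑ j : Fin n, (E * ∏ i, B i) * (∑ l, M.adjugate j l * J l) * M i j =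
      (1 + X 0 * s) * J i
    have h1 : ∑ j : Fin n, (E * ∏ i, B i) * (∑ l, M.adjugate j l * J l) * M i j =
        (E * ∏ i, B i) * ∑ l, (∑ j, M i j * M.adjugate j l) * J l := by
      simp only [Finset.mul_sum, Finset.sum_mul]
      rw [Finset.sum_comm]
      exact Finset.sum_congr rfl fun l _ => Finset.sum_congr rfl fun j _ => by ring
    have h2 : ∑ l, (∑ j, M i j * M.adjugate j l) * J l = M.det * J i := by
      rw [Finset.sum_eq_single i]
      · rw [hadj, if_pos rfl]
      · intro l _ hl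
        rw [hadj, if_neg (fun h => hl h.symm), zero_mul]
      · intro h
        exact absurd (Finset.mem_univ i) h
    rw [h1, h2, hs']
    ring
  · change E ∣ 1 + X 0 * s
    rw [hs', mul_assoc]
    exact dvd_mul_right _ _

theorem map_A (f : R →+* R') (c : CD n R) (l : Fin n) : (c.map f).A l = MvPolynomial.map f (c.A l) := by
  change X l.succ + X 0 * MvPolynomial.map f (c.p l) = MvPolynomial.map f (X l.succ + X 0 * c.p l)
  rw [map_add, map_mul, map_X, map_X]

theorem map_B (f : R →+* R') (c : CD n R) (l : Fin n) : (c.map f).B l = MvPolynomial.map f (c.B l) := by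
  change 1 + X 0 * MvPolynomial.map f (c.q l) = MvPolynomial.map f (1 + X 0 * c.q l)
  rw [map_add, map_mul, map_X, map_one]

theorem map_Q (f : R →+* R') (c : CD n R) : (c.map f).Q = MvPolynomial.map f c.Q := by
  change 1 + X 0 * MvPolynomial.map f c.s = MvPolynomial.map f (1 + X 0 * c.s)
  rw [map_add, map_mul, map_X, map_one]

/-- `pderiv_map`. -/
theorem map_jac (f : R →+* R') (c : CD n R) (i : Fin n) (j : Fin (n + 1)) :
    (c.map f).jac i j = MvPolynomial.map f (c.jac i j) := by
  unfold CD.jac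
  rw [map_A, map_B, pderiv_map, pderiv_map, map_sub, map_mul, map_mul]

theorem map_ok (f : R →+* R') {c : CD n R} (hc : c.Ok) : (c.map f).Ok := by
  refine ⟨fun l => ?_, fun l i => ?_, fun i => ?_⟩
  · rw [map_B, map_Q, ← hc.bc l, map_mul]
    rfl
  · have h := congrArg (MvPolynomial.map f) (hc.v l i)
    rw [map_sum] at h
    have h1 : ∑ j : Fin n, (c.map f).V l j * (c.map f).jac i j.succ =
        ∑ j : Fin n, MvPolynomial.map f (c.V l j * c.jac i j.succ) := by
      refine Finset.sum_congr rfl fun j _ => ?_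
      rw [map_jac, map_mul]
      rfl
    rw [h1, h, map_Q, map_B]
    by_cases h2 : l = i
    · rw [if_pos h2, if_pos h2, map_mul, map_pow]
    · rw [if_neg h2, if_neg h2, map_zero]
  · have h := congrArg (MvPolynomial.map f) (hc.w i)
    rw [map_sum] at h
    have h1 : ∑ j : Fin n, (c.map f).W j * (c.map f).jac i j.succ =
        ∑ j : Fin n, MvPolynomial.map f (c.W j * c.jac i j.succ) := by
      refine Finset.sum_congr rfl fun j _ => ?_
      rw [map_jac, map_mul]
      rfl
    rw [h1, h, map_Q, map_jac, map_mul]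

theorem map_numV (f : R →+* R') (c : CD n R) (l : Fin n) (K : ℕ) (G : TP n R) :
    (c.map f).numV l K (MvPolynomial.map f G) = MvPolynomial.map f (c.numV l K G) := by
  unfold CD.numV
  rw [map_sum]
  refine Finset.sum_congr rfl fun j _ => ?_
  rw [map_Q, pderiv_map, pderiv_map, map_mul, map_sub, map_mul, map_mul, map_mul, map_natCast]
  rfl

theorem map_numT (f : R →+* R') (c : CD n R) (K : ℕ) (G : TP n R) :
    (c.map f).numT K (MvPolynomial.map f G) = MvPolynomial.map f (c.numT K G) := by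
  unfold CD.numT
  rw [map_sub, map_sum]
  have h1 : ∀ j : Fin (n + 1), (c.map f).Q * pderiv j (MvPolynomial.map f G) -
      (K : TP n R') * (MvPolynomial.map f G * pderiv j (c.map f).Q) =
      MvPolynomial.map f (c.Q * pderiv j G - (K : TP n R) * (G * pderiv j c.Q)) := by
    intro j
    rw [map_Q, pderiv_map, pderiv_map, map_sub, map_mul, map_mul, map_mul, map_natCast]
  rw [h1, map_mul, map_Q]
  congr 1
  refine Finset.sum_congr rfl fun j _ => ?_
  rw [← map_Q, h1, map_mul]
  rfl

theorem map_divT (f : R →+* R') (c : CD n R) (K : ℕ) (g : Fin n → TP n R) :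
    (c.map f).divT K (fun l => MvPolynomial.map f (g l)) = MvPolynomial.map f (c.divT K g) := by
  unfold CD.divT
  rw [map_sum]
  refine Finset.sum_congr rfl fun l _ => ?_
  rw [← map_numV]
  congr 1
  unfold CD.Ef
  rw [map_A, map_B, map_mul, map_mul, map_mul, map_sub, map_pow]
  rfl

end Pool.Agent.Lib.MP_bbe012_lc.PT
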