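import Pool.Agent.Lib.MP_bbe012_lc.PT.RealA
import Pool.Agent.Lib.MP_bbe012_lc.PT.CDex

/-!
# Stage 3: change of variables
-/

namespace Pool.Agent.Lib.MP_bbe012_lc.PT

open MvPolynomial MeasureTheory Set Pool.Agent.Lib.MP_bbe012_lc.PP

/-! ### Lipschitz estimates for polynomials -/

private theorem rb_mul {x y x' y' δ : ℝ} {k l : ℕ} (hδ : 0 ≤ δ) (h1 : |x| ≤ 2 ^ k)
    (h2 : |x'| ≤ 2 ^ k) (h3 : |x - x'| ≤ k * 2 ^ k * δ) (g1 : |y| ≤ 2 ^ l) (g2 : |y'| ≤ 2 ^ l)
    (g3 : |y - y'| ≤ l * 2 ^ l * δ) :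
    |x * y| ≤ 2 ^ (k + l) ∧ |x' * y'| ≤ 2 ^ (k + l) ∧
      |x * y - x' * y'| ≤ ((k + l : ℕ) : ℝ) * 2 ^ (k + l) * δ := by
  have hk : (0 : ℝ) ≤ 2 ^ k := by positivity
  have hl : (0 : ℝ) ≤ 2 ^ l := by positivity
  refine ⟨?_, ?_, ?_⟩
  · rw [abs_mul, pow_add]
    exact mul_le_mul h1 g1 (abs_nonneg _) hk
  · rw [abs_mul, pow_add]
    exact mul_le_mul h2 g2 (abs_nonneg _) hk
  · have e : x * y - x' * y' = (x - x') * y + x' * (y - y') := by ring
    rw [e]
    refine (abs_add_le _ _).trans ?_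
    rw [abs_mul, abs_mul]
    have f1 := mul_le_mul h3 g1 (abs_nonneg _) (by positivity)
    have f2 := mul_le_mul h2 g3 (abs_nonneg _) hk
    refine (add_le_add f1 f2).trans (le_of_eq ?_)
    push_cast
    rw [pow_add]
    ring

private theorem rb_pow {a b δ : ℝ} (hδ : 0 ≤ δ) (ha : |a| ≤ 2) (hb : |b| ≤ 2)
    (hab : |a - b| ≤ δ) (n : ℕ) : |a ^ n| ≤ 2 ^ n ∧ |b ^ n| ≤ 2 ^ n ∧
      |a ^ n - b ^ n| ≤ (n : ℝ) * 2 ^ n * δ := by
  induction n with
  | zero =>
    refine ⟨by simp, by simp, by simp⟩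
  | succ n ih =>
    obtain ⟨h1, h2, h3⟩ := ih
    rw [pow_succ, pow_succ]
    refine rb_mul (k := n) (l := 1) hδ h1 h2 h3 (by rwa [pow_one]) (by rwa [pow_one]) ?_
    push_cast
    linarith

private theorem rb_prod {ι : Type*} (s : Finset ι) (a b : ι → ℝ) (m : ι → ℕ) {δ : ℝ}
    (hδ : 0 ≤ δ) (ha : ∀ i, |a i| ≤ 2) (hb : ∀ i, |b i| ≤ 2) (hab : ∀ i, |a i - b i| ≤ δ) :
    |∏ i ∈ s, a i ^ m i| ≤ 2 ^ (∑ i ∈ s, m i) ∧ |∏ i ∈ s, b i ^ m i| ≤ 2 ^ (∑ i ∈ s, m i) ∧
      |∏ i ∈ s, a i ^ m i - ∏ i ∈ s, b i ^ m i| ≤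
        ((∑ i ∈ s, m i : ℕ) : ℝ) * 2 ^ (∑ i ∈ s, m i) * δ := by
  classical
  induction s using Finset.induction_on with
  | empty =>
    refine ⟨by simp, by simp, by simp⟩
  | insert i s hi ih =>
    obtain ⟨h1, h2, h3⟩ := ih
    obtain ⟨g1, g2, g3⟩ := rb_pow hδ (ha i) (hb i) (hab i) (m i)
    rw [Finset.prod_insert hi, Finset.prod_insert hi, Finset.sum_insert hi]
    exact rb_mul hδ g1 g2 g3 h1 h2 h3

private theorem rb_poly {m : ℕ} (G : MvPolynomial (Fin m) ℚ) {a b : Fin m → ℝ} {δ : ℝ}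
    (hδ : 0 ≤ δ) (ha : ∀ i, |a i| ≤ 2) (hb : ∀ i, |b i| ≤ 2) (hab : ∀ i, |a i - b i| ≤ δ) :
    |aeval a G| ≤ ((nW G : ℚ) : ℝ) ∧ |aeval a G - aeval b G| ≤ ((nW G : ℚ) : ℝ) * δ := by
  have h4 : ∀ k : ℕ, (2 : ℝ) ^ k ≤ 4 ^ k := fun k => pow_le_pow_left₀ (by norm_num) (by norm_num) k
  have h5 : ∀ k : ℕ, (k : ℝ) * 2 ^ k ≤ 4 ^ k := by
    intro k
    have e : (4 : ℝ) ^ k = 2 ^ k * 2 ^ k := by
      rw [← mul_pow]
      norm_num
    rw [e]
    refine mul_le_mul_of_nonneg_right ?_ (by positivity)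
    exact_mod_cast (Nat.lt_two_pow_self (n := k)).le
  rw [aeval_def, aeval_def, eval₂_eq', eval₂_eq']
  unfold nW
  rw [Rat.cast_sum]
  constructor
  · refine (Finset.abs_sum_le_sum_abs _ _).trans (Finset.sum_le_sum fun d _ => ?_)
    obtain ⟨h1, -, -⟩ := rb_prod Finset.univ a b d hδ ha hb hab
    rw [abs_mul, eq_ratCast, Rat.cast_mul, Rat.cast_abs, Rat.cast_pow]
    refine mul_le_mul_of_nonneg_left ?_ (abs_nonneg _)
    refine h1.trans ((h4 _).trans (le_of_eq ?_))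
    norm_num
  · rw [← Finset.sum_sub_distrib, Finset.sum_mul]
    refine (Finset.abs_sum_le_sum_abs _ _).trans (Finset.sum_le_sum fun d _ => ?_)
    obtain ⟨-, -, h1⟩ := rb_prod Finset.univ a b d hδ ha hb hab
    rw [← mul_sub, abs_mul, eq_ratCast, Rat.cast_mul, Rat.cast_abs, Rat.cast_pow, mul_assoc]
    refine mul_le_mul_of_nonneg_left ?_ (abs_nonneg _)
    refine h1.trans ?_
    refine mul_le_mul_of_nonneg_right ((h5 _).trans (le_of_eq ?_)) hδ
    norm_num

private theorem rb_nW_nonneg {m : ℕ} (G : MvPolynomial (Fin m) ℚ) : 0 ≤ nW G :=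
  Finset.sum_nonneg fun _ _ => mul_nonneg (abs_nonneg _) (by positivity)

private theorem rb_A {n : ℕ} (c : CD n ℚ) (a : Fin (n + 1) → ℝ) (l : Fin n) :
    aeval a (c.A l) = a l.succ + a 0 * aeval a (c.p l) := by
  unfold CD.A
  rw [map_add, map_mul, aeval_X, aeval_X]

private theorem rb_B {n : ℕ} (c : CD n ℚ) (a : Fin (n + 1) → ℝ) (l : Fin n) :
    aeval a (c.B l) = 1 + a 0 * aeval a (c.q l) := by
  unfold CD.B
  rw [map_add, map_mul, aeval_X, map_one]

private theorem rb_Q {n : ℕ} (c : CD n ℚ) (a : Fin (n + 1) → ℝ) :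
    aeval a c.Q = 1 + a 0 * aeval a c.s := by
  unfold CD.Q
  rw [map_add, map_mul, aeval_X, map_one]

/-- the points of the box -/
private theorem rb_pt {n : ℕ} {s : ℝ} (hs : |s| ≤ 1) {x : Fin n → ℝ}
    (hx : ∀ l, -1 ≤ x l ∧ x l ≤ 2) (i : Fin (n + 1)) :
    |(Fin.cons s x : Fin (n + 1) → ℝ) i| ≤ 2 := by
  refine Fin.cases ?_ (fun l => ?_) i
  · rw [Fin.cons_zero]
    linarith
  · rw [Fin.cons_succ, abs_le]
    exact ⟨by linarith [(hx l).1], (hx l).2⟩

/-- Uniqueness of the solution in the box.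

Proof. `x_l = u_l + τ F_l(x)`, `F_l(x) = u_l q_l(τ, x) - p_l(τ, x)`, and the same for `y`. For a monomial `|x ^ m - y ^ m| ≤ |m| 2 ^ |m| δ ≤ 4 ^ |m| δ` if `|x_i|, |y_i| ≤ 2`, `|x_i - y_i| ≤ δ`; so `|F_l(x) - F_l(y)| ≤ (nW (q l) + nW (p l)) δ` and
`δ = max |x_l - y_l|` satisfies `δ ≤ |τ| (nW (q l) + nW (p l)) δ ≤ δ / 8` for the `l` where the maximum is attained. -/
theorem uniq_box {n : ℕ} {c : CD n ℚ} {τ : ℚ} (hs : Small c |τ|) {u x y : Fin n → ℝ}
    (hu : u ∈ Icc (0 : Fin n → ℝ) 1) (hx : ∀ l, -1 ≤ x l ∧ x l ≤ 2) (hy : ∀ l, -1 ≤ y l ∧ y l ≤ 2)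
    (h1 : ∀ l, aeval (pt n τ x) (c.A l) = u l * aeval (pt n τ x) (c.B l))
    (h2 : ∀ l, aeval (pt n τ y) (c.A l) = u l * aeval (pt n τ y) (c.B l)) : x = y := by
  have hτ : |(τ : ℝ)| ≤ 1 := by
    have h := hs.le_one
    have h' : ((|τ| : ℚ) : ℝ) ≤ 1 := by exact_mod_cast h
    rwa [Rat.cast_abs] at h'
  have hd : ∀ i, |pt n τ x i - pt n τ y i| ≤ ‖x - y‖ := by
    intro i
    refine Fin.cases ?_ (fun l => ?_) i
    · show |(τ : ℝ) - τ| ≤ _
      rw [sub_self, abs_zero]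
      exact norm_nonneg _
    · exact norm_le_pi_norm (x - y) l
  have hpx : ∀ i, |pt n τ x i| ≤ 2 := rb_pt hτ hx
  have hpy : ∀ i, |pt n τ y i| ≤ 2 := rb_pt hτ hy
  have key : ∀ l, ‖(x - y) l‖ ≤ ‖x - y‖ / 8 := by
    intro l
    have e1 := h1 l
    have e2 := h2 l
    rw [rb_A, rb_B] at e1 e2
    have hx0 : pt n τ x 0 = τ := rfl
    have hy0 : pt n τ y 0 = τ := rfl
    have hxl : pt n τ x l.succ = x l := rfl
    have hyl : pt n τ y l.succ = y l := rfl
    rw [hx0, hxl] at e1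
    rw [hy0, hyl] at e2
    obtain ⟨-, g1⟩ := rb_poly (c.p l) (norm_nonneg (x - y)) hpx hpy hd
    obtain ⟨-, g2⟩ := rb_poly (c.q l) (norm_nonneg (x - y)) hpx hpy hd
    have hul : |u l| ≤ 1 := abs_le.2 ⟨by linarith [hu.1 l, (show (0 : Fin n → ℝ) l = 0 from rfl)],
      hu.2 l⟩
    have e3 : x l - y l = τ * (u l * (aeval (pt n τ x) (c.q l) - aeval (pt n τ y) (c.q l)) -
        (aeval (pt n τ x) (c.p l) - aeval (pt n τ y) (c.p l))) := by
      linear_combination e1 - e2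
    have e4 : ‖(x - y) l‖ = |x l - y l| := rfl
    rw [e4, e3, abs_mul]
    have g3 : |u l * (aeval (pt n τ x) (c.q l) - aeval (pt n τ y) (c.q l)) -
        (aeval (pt n τ x) (c.p l) - aeval (pt n τ y) (c.p l))| ≤
        (((nW (c.p l) + nW (c.q l) : ℚ)) : ℝ) * ‖x - y‖ := by
      refine (abs_sub _ _).trans ?_
      rw [abs_mul]
      have g4 : |u l| * |aeval (pt n τ x) (c.q l) - aeval (pt n τ y) (c.q l)| ≤
          1 * (((nW (c.q l) : ℚ) : ℝ) * ‖x - y‖) :=
        mul_le_mul hul g2 (abs_nonneg _) zero_le_one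
      push_cast
      linarith
    have g5 : |(τ : ℝ)| * (((nW (c.p l) + nW (c.q l) : ℚ)) : ℝ) ≤ 1 / 8 := by
      have h := hs.pq l
      have h' : ((|τ| * (nW (c.p l) + nW (c.q l)) : ℚ) : ℝ) ≤ ((1 / 8 : ℚ) : ℝ) := by
        exact_mod_cast h
      rw [Rat.cast_mul, Rat.cast_abs] at h'
      refine h'.trans (le_of_eq ?_)
      norm_num
    have g6 := mul_le_mul_of_nonneg_left g3 (abs_nonneg (τ : ℝ))
    have g7 := mul_le_mul_of_nonneg_right g5 (norm_nonneg (x - y))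
    rw [← mul_assoc] at g6
    linarith
  have h8 : ‖x - y‖ ≤ ‖x - y‖ / 8 :=
    (pi_norm_le_iff_of_nonneg (by positivity)).2 key
  have h9 : ‖x - y‖ = 0 := by
    have := norm_nonneg (x - y)
    linarith
  exact sub_eq_zero.1 (norm_eq_zero.1 h9)

private theorem rb_pts {n : ℕ} (c : CD n ℚ) (τ : ℚ) (u : Fin n → ℝ) :
    pts c τ u = pt n τ (fun l => pts c τ u l.succ) := by
  funext i
  refine Fin.cases ?_ (fun l => ?_) i
  · rfl
  · rfl

/-- The points of the domain. Proof: for `x ∈ sig` put `u l = A_l / B_l ∈ [0, 1]` (`half_le_B`); `pts_eq`, `pts_box`, `uniq_box`. -/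
theorem mem_sig_iff {n : ℕ} {c : CD n ℚ} {τ : ℚ} (hs : Small c |τ|) (x : Fin n → ℝ) :
    x ∈ sig c τ ↔ ∃ u ∈ Icc (0 : Fin n → ℝ) 1, x = fun l => pts c τ u l.succ := by
  constructor
  · intro hx
    have hbox : ∀ l, -1 ≤ x l ∧ x l ≤ 2 := fun l => (hx l).1
    have hB : ∀ l, 0 < aeval (pt n τ x) (c.B l) := fun l => by
      have := half_le_B hs hbox l
      linarith
    obtain ⟨u, hu⟩ : ∃ u : Fin n → ℝ, ∀ l, u l = aeval (pt n τ x) (c.A l) /
        aeval (pt n τ x) (c.B l) := ⟨_, fun _ => rfl⟩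
    have huI : u ∈ Icc (0 : Fin n → ℝ) 1 := by
      refine ⟨fun l => ?_, fun l => ?_⟩
      · rw [hu]
        exact div_nonneg (hx l).2.1 (hB l).le
      · rw [hu]
        exact (div_le_one (hB l)).2 (hx l).2.2
    refine ⟨u, huI, ?_⟩
    refine uniq_box hs huI hbox (fun l => pts_box hs huI l) (fun l => ?_) (fun l => ?_)
    · rw [hu, div_mul_cancel₀ _ (hB l).ne']
    · rw [← rb_pts]
      exact pts_eq hs huI l
  · rintro ⟨u, hu, rfl⟩ l
    have hb := fun l => pts_box hs hu l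
    refine ⟨hb l, ?_⟩
    have h1 := half_le_B hs (x := fun l => pts c τ u l.succ) hb l
    have h2 := pts_eq hs hu l
    rw [rb_pts c τ u] at h2
    rw [h2]
    constructor
    · exact mul_nonneg (hu.1 l) (by linarith)
    · have h3 : u l ≤ 1 := hu.2 l
      nlinarith

private theorem rb_cont {m : ℕ} (p : MvPolynomial (Fin m) ℚ) :
    Continuous fun x : Fin m → ℝ => aeval x p := by
  have h : (fun x : Fin m → ℝ => aeval x p) =
      fun x => ∑ d ∈ p.support, algebraMap ℚ ℝ (coeff d p) * ∏ i, x i ^ d i := by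
    funext x
    rw [aeval_def, eval₂_eq']
  rw [h]
  fun_prop

private theorem rb_cont_pt (n : ℕ) (τ : ℚ) (G : TP n ℚ) :
    Continuous fun x : Fin n → ℝ => aeval (pt n τ x) G := by
  have h : Continuous fun x : Fin n → ℝ => pt n τ x := by
    refine continuous_pi fun i => ?_
    refine Fin.cases ?_ (fun l => ?_) i
    · exact continuous_const
    · exact continuous_apply l
  exact (rb_cont G).comp h

private theorem rb_closed {n : ℕ} (c : CD n ℚ) (τ : ℚ) : IsClosed (sig c τ) := by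
  have h : sig c τ = ⋂ l, ({x | -1 ≤ x l} ∩ {x | x l ≤ 2} ∩
      ({x | 0 ≤ aeval (pt n τ x) (c.A l)} ∩
        {x | aeval (pt n τ x) (c.A l) ≤ aeval (pt n τ x) (c.B l)})) := by
    ext x
    rw [mem_iInter]
    exact Iff.rfl
  rw [h]
  refine isClosed_iInter fun l => ?_
  have h1 := rb_cont_pt n τ (c.A l)
  have h2 := rb_cont_pt n τ (c.B l)
  exact ((isClosed_le continuous_const (continuous_apply l)).inter
    (isClosed_le (continuous_apply l) continuous_const)).inter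
    ((isClosed_le continuous_const h1).inter (isClosed_le h1 h2))

/-- the matrix of the derivatives of the coordinates -/
private noncomputable def rbJ {n : ℕ} (c : CD n ℚ) (τ : ℚ) (x : Fin n → ℝ) :
    Matrix (Fin n) (Fin n) ℝ :=
  Matrix.of fun i j => (aeval (pt n τ x) (c.B i) ^ 2)⁻¹ * aeval (pt n τ x) (c.jac i j.succ)

private theorem rb_hasF {n : ℕ} (τ : ℚ) (x : Fin n → ℝ) (G : TP n ℚ) :
    ∃ L : (Fin n → ℝ) →L[ℝ] ℝ, (∀ v, L v = ∑ j, aeval (pt n τ x) (pderiv j.succ G) * v j) ∧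
      HasFDerivAt (fun x => aeval (pt n τ x) G) L x := by
  induction G using MvPolynomial.induction_on with
  | C a =>
    refine ⟨0, fun v => ?_, ?_⟩
    · simp
    · simp only [algHom_C]
      exact hasFDerivAt_const _ _
  | add p q hp hq =>
    obtain ⟨L₁, h1, h1'⟩ := hp
    obtain ⟨L₂, h2, h2'⟩ := hq
    refine ⟨L₁ + L₂, fun v => ?_, ?_⟩
    · show L₁ v + L₂ v = _
      rw [h1, h2, ← Finset.sum_add_distrib]
      refine Finset.sum_congr rfl fun j _ => ?_
      rw [map_add, map_add]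
      ring
    · simp only [map_add]
      exact h1'.add h2'
  | mul_X p i hp =>
    obtain ⟨L₁, h1, h1'⟩ := hp
    obtain ⟨L₂, h2, h2'⟩ : ∃ L : (Fin n → ℝ) →L[ℝ] ℝ,
        (∀ v, L v = ∑ j : Fin n, aeval (pt n τ x) (pderiv j.succ (X i : TP n ℚ)) * v j) ∧
          HasFDerivAt (fun x : Fin n → ℝ => pt n τ x i) L x := by
      refine Fin.cases ?_ (fun l => ?_) i
      · refine ⟨0, fun v => ?_, ?_⟩
        · symm
          refine Finset.sum_eq_zero fun j _ => ?_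
          rw [pderiv_X_of_ne (Fin.succ_ne_zero j).symm, map_zero, zero_mul]
        · exact hasFDerivAt_const _ _
      · refine ⟨ContinuousLinearMap.proj l, fun v => ?_, ?_⟩
        · rw [Finset.sum_eq_single l]
          · rw [pderiv_X_self, map_one, one_mul]
            rfl
          · intro j _ hj
            rw [pderiv_X_of_ne (fun h => hj (Fin.succ_injective _ h).symm), map_zero, zero_mul]
          · intro h
            exact absurd (Finset.mem_univ l) h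
        · exact hasFDerivAt_apply l x
    have h3 := h1'.mul h2'
    refine ⟨_, fun v => ?_, h3.congr_of_eventuallyEq (Filter.Eventually.of_forall fun y => ?_)⟩
    · show aeval (pt n τ x) p * L₂ v + pt n τ x i * L₁ v = _
      rw [h1, h2, Finset.mul_sum, Finset.mul_sum, ← Finset.sum_add_distrib]
      refine Finset.sum_congr rfl fun j _ => ?_
      rw [Derivation.leibniz, smul_eq_mul, smul_eq_mul, map_add, map_mul, map_mul, aeval_X]
      ring
    · show aeval (pt n τ y) (p * X i) = aeval (pt n τ y) p * pt n τ y i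
      rw [map_mul, aeval_X]

private theorem rb_der {n : ℕ} (c : CD n ℚ) (τ : ℚ) (x : Fin n → ℝ)
    (hB : ∀ l, aeval (pt n τ x) (c.B l) ≠ 0) :
    HasFDerivAt (fun (x : Fin n → ℝ) (l : Fin n) =>
      aeval (pt n τ x) (c.A l) / aeval (pt n τ x) (c.B l))
      (LinearMap.toContinuousLinearMap (Matrix.toLin' (rbJ c τ x))) x := by
  rw [hasFDerivAt_pi']
  intro l
  obtain ⟨L₁, h1, h1'⟩ := rb_hasF τ x (c.A l)
  obtain ⟨L₂, h2, h2'⟩ := rb_hasF τ x (c.B l)
  have h3 := (hasDerivAt_inv (hB l)).comp_hasFDerivAt x h2'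
  have h4 := h1'.mul h3
  have h5 : (fun x : Fin n → ℝ => aeval (pt n τ x) (c.A l) / aeval (pt n τ x) (c.B l)) =
      fun x : Fin n → ℝ => aeval (pt n τ x) (c.A l) * (Inv.inv ∘ fun x => aeval (pt n τ x) (c.B l)) x := by
    funext y
    exact div_eq_mul_inv _ _
  rw [h5]
  refine h4.congr_fderiv ?_
  refine ContinuousLinearMap.ext fun v => ?_
  show aeval (pt n τ x) (c.A l) * (-(aeval (pt n τ x) (c.B l) ^ 2)⁻¹ * L₂ v) +
    (aeval (pt n τ x) (c.B l))⁻¹ * L₁ v = (rbJ c τ x).mulVec v l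
  rw [h1, h2]
  show _ = ∑ j, rbJ c τ x l j * v j
  rw [Finset.mul_sum, Finset.mul_sum, Finset.mul_sum, ← Finset.sum_add_distrib]
  refine Finset.sum_congr rfl fun j _ => ?_
  have hb := hB l
  unfold rbJ CD.jac
  rw [Matrix.of_apply, map_sub, map_mul, map_mul]
  field_simp
  ring

private theorem rb_okdet {n : ℕ} {c : CD n ℚ} (hc : c.Ok) (a : Fin (n + 1) → ℝ) :
    aeval a (Matrix.det (Matrix.of c.V)) *
      aeval a (Matrix.det (Matrix.of fun i j : Fin n => c.jac i j.succ)) =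
      aeval a c.Q ^ n * ∏ l, aeval a (c.B l) ^ 2 := by
  have h1 : Matrix.of c.V * (Matrix.of fun i j : Fin n => c.jac i j.succ).transpose =
      Matrix.diagonal fun i => c.Q * c.B i ^ 2 := by
    ext1 l i
    rw [Matrix.mul_apply, Matrix.diagonal_apply]
    have h2 := hc.v l i
    refine (Eq.trans ?_ h2).trans ?_
    · rfl
    · by_cases h : l = i
      · rw [if_pos h, if_pos h, h]
      · rw [if_neg h, if_neg h]
  have h3 := congrArg Matrix.det h1
  rw [Matrix.det_mul, Matrix.det_transpose, Matrix.det_diagonal, Finset.prod_mul_distrib,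
    Finset.prod_const, Finset.card_univ, Fintype.card_fin] at h3
  rw [← map_mul, h3, map_mul, map_pow, map_prod]
  congr 1
  refine Finset.prod_congr rfl fun l _ => ?_
  rw [map_pow]

private theorem rb_det {n : ℕ} {c : CD n ℚ} (hc : c.Ok) (τ : ℚ) (x : Fin n → ℝ) :
    (rbJ c τ x).det = aeval (pt n τ x) (Matrix.det (Matrix.of fun i j : Fin n => c.jac i j.succ)) /
      ∏ l, aeval (pt n τ x) (c.B l) ^ 2 ∧
    aeval (pt n τ x) (Matrix.det (Matrix.of c.V)) *
      aeval (pt n τ x) (Matrix.det (Matrix.of fun i j : Fin n => c.jac i j.succ)) =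
      aeval (pt n τ x) c.Q ^ n * ∏ l, aeval (pt n τ x) (c.B l) ^ 2 := by
  refine ⟨?_, rb_okdet hc _⟩
  unfold rbJ
  rw [Matrix.det_mul_column (fun i => (aeval (pt n τ x) (c.B i) ^ 2)⁻¹)
    (fun i j : Fin n => aeval (pt n τ x) (c.jac i j.succ)), AlgHom.map_det, Finset.prod_inv_distrib,
    mul_comm, ← div_eq_mul_inv]
  rfl

private theorem rb_pos {n : ℕ} {c : CD n ℚ} (hc : c.Ok) {τ : ℚ} (hs : Small c |τ|)
    {x : Fin n → ℝ} (hx : ∀ l, -1 ≤ x l ∧ x l ≤ 2) :
    0 < aeval (pt n τ x) (Matrix.det (Matrix.of fun i j : Fin n => c.jac i j.succ)) := by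
  obtain ⟨Δ, hΔ⟩ : ∃ Δ : TP n ℚ, Δ = Matrix.det (Matrix.of fun i j : Fin n => c.jac i j.succ) :=
    ⟨_, rfl⟩
  rw [← hΔ]
  have hτ : |(τ : ℝ)| ≤ 1 := by
    have h := hs.le_one
    have h' : ((|τ| : ℚ) : ℝ) ≤ 1 := by exact_mod_cast h
    rwa [Rat.cast_abs] at h'
  have hcont : Continuous fun s : ℝ => aeval (Fin.cons (s * τ) x : Fin (n + 1) → ℝ) Δ := by
    have h : Continuous fun s : ℝ => (Fin.cons (s * τ) x : Fin (n + 1) → ℝ) := by
      refine continuous_pi fun i => ?_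
      refine Fin.cases ?_ (fun l => ?_) i
      · exact continuous_id.mul continuous_const
      · exact continuous_const
    exact (rb_cont Δ).comp h
  have hne : ∀ s ∈ Icc (0 : ℝ) 1, aeval (Fin.cons (s * τ) x : Fin (n + 1) → ℝ) Δ ≠ 0 := by
    intro s hs'
    have hsτ : |s * τ| ≤ |(τ : ℝ)| := by
      rw [abs_mul, abs_of_nonneg hs'.1]
      have := abs_nonneg (τ : ℝ)
      nlinarith [hs'.2]
    have ha := rb_pt (hsτ.trans hτ) hx
    have hle : ∀ G : TP n ℚ, |aeval (Fin.cons (s * τ) x : Fin (n + 1) → ℝ) G| ≤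
        ((nW G : ℚ) : ℝ) := fun G =>
      (rb_poly G (δ := 0) le_rfl ha ha (fun i => by rw [sub_self, abs_zero])).1
    have hpos : ∀ (G : TP n ℚ) (r : ℚ), |τ| * nW G ≤ r → r < 1 →
        0 < 1 + s * τ * aeval (Fin.cons (s * τ) x : Fin (n + 1) → ℝ) G := by
      intro G r hr hr1
      have k1 : |s * τ * aeval (Fin.cons (s * τ) x : Fin (n + 1) → ℝ) G| ≤
          |(τ : ℝ)| * ((nW G : ℚ) : ℝ) := by
        rw [abs_mul]
        exact mul_le_mul hsτ (hle G) (abs_nonneg _) (abs_nonneg _)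
      have k2 : |(τ : ℝ)| * ((nW G : ℚ) : ℝ) ≤ (r : ℝ) := by
        have h' : ((|τ| * nW G : ℚ) : ℝ) ≤ (r : ℝ) := by exact_mod_cast hr
        rwa [Rat.cast_mul, Rat.cast_abs] at h'
      have k3 : (r : ℝ) < 1 := by exact_mod_cast hr1
      have k4 := neg_abs_le (s * τ * aeval (Fin.cons (s * τ) x : Fin (n + 1) → ℝ) G)
      linarith
    intro h0
    have h1 := rb_okdet hc (Fin.cons (s * τ) x : Fin (n + 1) → ℝ)
    rw [← hΔ, h0, mul_zero] at h1
    have hQ : 0 < aeval (Fin.cons (s * τ) x : Fin (n + 1) → ℝ) c.Q := by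
      rw [rb_Q, Fin.cons_zero]
      exact hpos c.s (1 / 2) hs.s (by norm_num)
    have hB : ∀ l, 0 < aeval (Fin.cons (s * τ) x : Fin (n + 1) → ℝ) (c.B l) := by
      intro l
      rw [rb_B, Fin.cons_zero]
      refine hpos (c.q l) (1 / 8) ?_ (by norm_num)
      have h2 := hs.pq l
      have h3 := mul_nonneg (abs_nonneg τ) (rb_nW_nonneg (c.p l))
      rw [mul_add] at h2
      linarith
    have h2 : 0 < aeval (Fin.cons (s * τ) x : Fin (n + 1) → ℝ) c.Q ^ n *
        ∏ l, aeval (Fin.cons (s * τ) x : Fin (n + 1) → ℝ) (c.B l) ^ 2 :=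
      mul_pos (pow_pos hQ n) (Finset.prod_pos fun l _ => pow_pos (hB l) 2)
    rw [← h1] at h2
    exact lt_irrefl _ h2
  have h0 : aeval (Fin.cons ((0 : ℝ) * τ) x : Fin (n + 1) → ℝ) Δ = 1 := by
    rw [zero_mul, hΔ, AlgHom.map_det]
    have h1 : (aeval (Fin.cons (0 : ℝ) x : Fin (n + 1) → ℝ)).mapMatrix
        (Matrix.of fun i j : Fin n => c.jac i j.succ) = (1 : Matrix (Fin n) (Fin n) ℝ) := by
      ext1 i j
      show aeval (Fin.cons (0 : ℝ) x : Fin (n + 1) → ℝ) (c.jac i j.succ) = _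
      have hA : aeval (Fin.cons (0 : ℝ) x : Fin (n + 1) → ℝ) (pderiv j.succ (c.A i)) =
          if i = j then 1 else 0 := by
        unfold CD.A
        rw [map_add, Derivation.leibniz, smul_eq_mul, smul_eq_mul,
          pderiv_X_of_ne (Fin.succ_ne_zero j).symm, mul_zero, add_zero, map_add, map_mul, aeval_X,
          Fin.cons_zero, zero_mul, add_zero]
        by_cases h : i = j
        · rw [if_pos h, h, pderiv_X_self, map_one]
        · rw [if_neg h, pderiv_X_of_ne (fun h' => h (Fin.succ_injective _ h')), map_zero]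
      have hB : aeval (Fin.cons (0 : ℝ) x : Fin (n + 1) → ℝ) (pderiv j.succ (c.B i)) = 0 := by
        unfold CD.B
        rw [map_add, Derivation.leibniz, smul_eq_mul, smul_eq_mul,
          pderiv_X_of_ne (Fin.succ_ne_zero j).symm, mul_zero, add_zero, map_add, map_mul, aeval_X,
          Fin.cons_zero, zero_mul, add_zero, Derivation.map_one_eq_zero, map_zero]
      unfold CD.jac
      rw [map_sub, map_mul, map_mul, hA, hB, mul_zero, sub_zero, rb_B, Fin.cons_zero, zero_mul,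
        add_zero, one_mul, Matrix.one_apply]
    rw [h1, Matrix.det_one]
  have h1 : aeval (Fin.cons ((1 : ℝ) * τ) x : Fin (n + 1) → ℝ) Δ = aeval (pt n τ x) Δ := by
    rw [one_mul]
    rfl
  by_contra hcon
  have h2 := intermediate_value_Icc' (zero_le_one' ℝ) hcont.continuousOn
  have h3 : (0 : ℝ) ∈ (fun s : ℝ => aeval (Fin.cons (s * τ) x : Fin (n + 1) → ℝ) Δ) '' Icc 0 1 := by
    apply h2
    constructor
    · rw [h1]
      exact not_lt.1 hcon
    · rw [h0]
      exact zero_le_one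
  obtain ⟨s, hs', h4⟩ := h3
  exact hne s hs' h4

/-- **Change of variables.**

Proof. `ψ x l = A_l(τ, x) / B_l(τ, x)` is differentiable at every `x` with `B_l(τ, x) ≠ 0` (on `sig`: `half_le_B`), with the matrix of derivatives `(jac l j.succ / B_l ^ 2)(τ, x)`; it is injective on `sig` (if `ψ x = ψ y = u` then
`u ∈ Icc 0 1` and `uniq_box`), and `ψ '' sig = Icc 0 1` with `ψ (fun l => pts c τ u l.succ) = u` (`mem_sig_iff`, `pts_eq`). `sig` is closed, hence measurable. `integral_image_eq_integral_abs_det_fderiv_smul` for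
`g u = f (φ u) * (det V / Q ^ n)(τ, φ u)`, `φ u = fun l => pts c τ u l.succ`: `∫ u in Icc 0 1, g u = ∫ x in sig, |det ψ' x| * g (ψ x)`, and `g (ψ x) = f x * (det V / Q ^ n)(τ, x)` as `φ (ψ x) = x`. Finally `(det V / Q ^ n) * det ψ' = 1` at `(τ, x)`:
`Ok.v` says `V * jacᵀ = diagonal (Q B_l ^ 2)`, so `det V * det jac = Q ^ n * ∏ B_l ^ 2` and `det ψ' = det jac / ∏ B_l ^ 2`; and `det ψ' > 0`, i.e. `|det ψ'| = det ψ'`: it suffices that `det V / Q ^ n > 0`, i.e. that `det ψ' ≠ 0` is positive: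
on the box the matrix `ψ'(s, x)` for `0 ≤ s ≤ τ` (or `τ ≤ s ≤ 0`) is continuous in `s` with non zero determinant (`det V * det jac ≠ 0` at every `(s, x)` with `|s| ≤ |τ|`, because `Q(s, x) ≠ 0`, `B_l(s, x) ≠ 0` there, by the same estimates), and the
determinant is `1` at `s = 0`, so it is positive by the intermediate value theorem. -/
theorem integral_sig {n : ℕ} {c : CD n ℚ} (hc : c.Ok) {τ : ℚ} (hs : Small c |τ|) (f : (Fin n → ℝ) → ℝ) :
    ∫ x in sig c τ, f x = ∫ u in Icc (0 : Fin n → ℝ) 1, f (fun l => pts c τ u l.succ) *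
      (aeval (pts c τ u) (Matrix.det (Matrix.of c.V)) / aeval (pts c τ u) c.Q ^ n) := by
  classical
  have hbox : ∀ {x : Fin n → ℝ}, x ∈ sig c τ → ∀ l, -1 ≤ x l ∧ x l ≤ 2 := fun hx l => (hx l).1
  have hB : ∀ {x : Fin n → ℝ}, x ∈ sig c τ → ∀ l, 0 < aeval (pt n τ x) (c.B l) := fun hx l => by
    have := half_le_B hs (hbox hx) l
    linarith
  -- the coordinates
  obtain ⟨ψ, hψ⟩ : ∃ ψ : (Fin n → ℝ) → (Fin n → ℝ), ψ = fun x l =>
      aeval (pt n τ x) (c.A l) / aeval (pt n τ x) (c.B l) := ⟨_, rfl⟩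
  have hψφ : ∀ u ∈ Icc (0 : Fin n → ℝ) 1, ψ (fun l => pts c τ u l.succ) = u := by
    intro u hu
    rw [hψ]
    funext l
    have h1 := half_le_B hs (x := fun l => pts c τ u l.succ) (fun l => pts_box hs hu l) l
    have h2 := pts_eq hs hu l
    rw [rb_pts c τ u] at h2
    show aeval (pt n τ fun l => pts c τ u l.succ) (c.A l) /
      aeval (pt n τ fun l => pts c τ u l.succ) (c.B l) = u l
    rw [h2, mul_div_cancel_right₀]
    linarith
  have hφψ : ∀ x ∈ sig c τ, ψ x ∈ Icc (0 : Fin n → ℝ) 1 ∧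
      x = fun l => pts c τ (ψ x) l.succ := by
    intro x hx
    obtain ⟨u, hu, rfl⟩ := (mem_sig_iff hs x).1 hx
    rw [hψφ u hu]
    exact ⟨hu, rfl⟩
  have himg : ψ '' sig c τ = Icc (0 : Fin n → ℝ) 1 := by
    ext u
    constructor
    · rintro ⟨x, hx, rfl⟩
      exact (hφψ x hx).1
    · intro hu
      exact ⟨_, (mem_sig_iff hs _).2 ⟨u, hu, rfl⟩, hψφ u hu⟩
  have hinj : InjOn ψ (sig c τ) := by
    intro x hx y hy hxy
    rw [(hφψ x hx).2, (hφψ y hy).2, hxy]
  have hder : ∀ x ∈ sig c τ, HasFDerivWithinAt ψ (LinearMap.toContinuousLinearMap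
      (Matrix.toLin' (rbJ c τ x))) (sig c τ) x := by
    intro x hx
    rw [hψ]
    exact (rb_der c τ x fun l => (hB hx l).ne').hasFDerivWithinAt
  have hmeas : MeasurableSet (sig c τ) := (rb_closed c τ).measurableSet
  have main := integral_image_eq_integral_abs_det_fderiv_smul (μ := volume) hmeas hder hinj
    (fun u => f (fun l => pts c τ u l.succ) *
      (aeval (pts c τ u) (Matrix.det (Matrix.of c.V)) / aeval (pts c τ u) c.Q ^ n))
  rw [himg] at main
  rw [main]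
  refine setIntegral_congr_fun hmeas fun x hx => ?_
  obtain ⟨h1, h2⟩ := hφψ x hx
  have h3 : pts c τ (ψ x) = pt n τ x := by
    rw [rb_pts c τ (ψ x), ← h2]
  have h4 : (fun l : Fin n => pt n τ x l.succ) = x := rfl
  beta_reduce
  rw [h3, h4, smul_eq_mul, ContinuousLinearMap.det, LinearMap.coe_toContinuousLinearMap,
    LinearMap.det_toLin']
  have hdet := rb_det hc τ x
  have hpos := rb_pos hc hs (hbox hx)
  have hBp : 0 < ∏ l, aeval (pt n τ x) (c.B l) ^ 2 :=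
    Finset.prod_pos fun l _ => pow_pos (hB hx l) 2
  have hQ : aeval (pt n τ x) c.Q ^ n ≠ 0 := by
    have := half_le_Q hs (hbox hx)
    exact pow_ne_zero _ (by linarith)
  rw [hdet.1, abs_of_pos (div_pos hpos hBp)]
  have h5 := hdet.2
  field_simp
  linear_combination -(f x) * h5

end Pool.Agent.Lib.MP_bbe012_lc.PT
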