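import Pool.Agent.Lib.MP_bbe012_lc.PP.ClassDefs

/-!
# Stage 3: sums of products of integrals over semialgebraic domains, and the class for which the algorithm terminates
-/

namespace Pool.Agent.Lib.MP_bbe012_lc.PT

open MvPolynomial MeasureTheory Set Pool.Agent.Lib.MP_bbe012_lc.PP

/-- Code of an integral: `(m, ((P, D), L))` stands for the integral of `P / D` over the domain given by `L`. -/
abbrev CIT := ℕ × ((PCode × PCode) × List (PCode × PCode))

/-- Code of a sum of products of integrals. -/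
abbrev ExT := List (List CIT)

/-- The domain of integration: the points `x` of `[-1, 2]^m` with `0 ≤ A(x) ≤ B(x)` for all `(A, B)` in the list. -/
def domT (I : CIT) : Set (Fin I.1 → ℝ) :=
  {x | (∀ l, -1 ≤ x l ∧ x l ≤ 2) ∧ ∀ a ∈ I.2.2, 0 ≤ pcEval I.1 a.1 x ∧ pcEval I.1 a.1 x ≤ pcEval I.1 a.2 x}

/-- The value of the integral. -/
noncomputable def citVal (I : CIT) : ℝ :=
  ∫ x in domT I, pcEval I.1 I.2.1.1 x / pcEval I.1 I.2.1.2 x

/-- The value of the sum of products. -/
noncomputable def extVal (E : ExT) : ℝ := (E.map fun L => (L.map citVal).prod).sum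

/-- The data of a perturbed cube and of a denominator. -/
structure Pert (m : ℕ) where
  p : Fin m → MvPolynomial (Fin (m + 1)) ℤ
  q : Fin m → MvPolynomial (Fin (m + 1)) ℤ
  s : MvPolynomial (Fin (m + 1)) ℤ

/-- Bounds for the degree and for the coefficients. -/
def BddP {m : ℕ} (d H : ℕ) (f : MvPolynomial (Fin m) ℤ) : Prop :=
  f.totalDegree ≤ d ∧ ∀ e, |f.coeff e| ≤ (H : ℤ)

/-- All the polynomials of the data have degree at most `d` and coefficients of absolute value at most `H`. -/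
def Pert.Bdd {m : ℕ} (T : Pert m) (d H : ℕ) : Prop :=
  (∀ l, BddP d H (T.p l)) ∧ (∀ l, BddP d H (T.q l)) ∧ BddP d H T.s

/-- The integral `I` is of type `T` at `τ`: the domain is `{x : 0 ≤ x_l + τ p_l(τ, x) ≤ 1 + τ q_l(τ, x)}`, and the denominator
divides a power of `1 + τ s(τ, x)`. -/
def Supp (τ : ℚ) {m : ℕ} (T : Pert m) (I : CIT) : Prop :=
  I.1 = m ∧ I.2.2.length = m ∧
    (∀ l : Fin m, pcPoly m (I.2.2.getD l ([], [])).1 = X l + C τ * specialise m τ (T.p l) ∧
      pcPoly m (I.2.2.getD l ([], [])).2 = 1 + C τ * specialise m τ (T.q l)) ∧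
    ∃ k : ℕ, pcPoly m I.2.1.2 ∣ (1 + C τ * specialise m τ T.s) ^ k

/-- All products in `E` have at most `δ` factors; all factors are of one of `μ` types, of dimension at most `n`, degree at most `d`
and height at most `H`. -/
def InClassT (n d H δ μ : ℕ) (τ : ℚ) (E : ExT) : Prop :=
  ∃ (m : Fin μ → ℕ) (T : (k : Fin μ) → Pert (m k)), (∀ k, m k ≤ n ∧ (T k).Bdd d H) ∧
    ∀ L ∈ E, L.length ≤ δ ∧ ∀ I ∈ L, ∃ k, Supp τ (T k) I

end Pool.Agent.Lib.MP_bbe012_lc.PT
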