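import Pool.Agent.Lib.MP_bbe012_lc.PT.TDefs
import Pool.Agent.Lib.MP_bbe012_lc.PT.IDefs

/-!
# Stage 3: sums of products of integrals over semialgebraic domains, and their reduction to one integral
-/

namespace Pool.Agent.Lib.MP_bbe012_lc.PT

open MvPolynomial MeasureTheory Set Pool.Agent.Lib.MP_bbe012_lc.PP

/-- A trivial integral. -/
def triv : CIT := (0, ((pcNat 1, pcNat 1), []))

/-- The `i`-th factor of the `j`-th product. -/
def itemT (E : ExT) (j i : ℕ) : CIT := (E.getD j []).getD i triv

/-- The numerator of the `l`-th coordinate of the padded domain. -/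
def domA (I : CIT) (l : ℕ) : PCode := if l < I.1 then pcTrunc I.1 (I.2.2.getD l ([], [])).1 else pcVar l

/-- The denominator of the `l`-th coordinate of the padded domain. -/
def domB (I : CIT) (l : ℕ) : PCode := if l < I.1 then pcTrunc I.1 (I.2.2.getD l ([], [])).2 else pcNat 1

/-- The integral `I` is supported on the chart `c` at `τ`: the padded domain is the domain of the chart, and `D W = Q(τ, x) ^ k`. -/
def itemOK (n : ℕ) (τ : QCode) (k : ℕ) (c : CDC) (I : CIT) (W : PCode) : Prop :=
  I.1 ≤ n ∧ I.2.2.length = I.1 ∧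
    (∀ l ∈ List.range n, pcIsZero n (domA I l ++ pcNeg (evC τ (aC c l))) ∧
      pcIsZero n (domB I l ++ pcNeg (evC τ (bC c l)))) ∧
    pcIsZero n (pcMul (pcTrunc I.1 I.2.1.2) W ++ pcNeg (pcPow (evC τ (qC c)) k))

instance (n : ℕ) (τ : QCode) (k : ℕ) (c : CDC) (I : CIT) (W : PCode) : Decidable (itemOK n τ k c I W) := by
  unfold itemOK; infer_instance

/-- The data of a block: a chart, the Jacobian determinant and the cofactor of `Q`. -/
abbrev Blk := CDC × (PCode × PCode)

/-- Data of a reduction: `((((n, ν), k), τ), ((blocks, total chart), slots))`; the slot `(i, W)` of the `j`-th product and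
the `b`-th block says that the factor `i` of the product lives on this block, with the witness `W`. -/
abbrev RT := (((ℕ × ℕ) × ℕ) × QCode) × ((List Blk × CDC) × List (List (ℕ × PCode)))

def rtN (c : RT) : ℕ := c.1.1.1.1
def rtM (c : RT) : ℕ := c.1.1.1.2
def rtK (c : RT) : ℕ := c.1.1.2
def rtT (c : RT) : QCode := c.1.2
def emptyCDC : CDC := ((([], []), []), (([], []), []))
def rtB (c : RT) (b : ℕ) : Blk := c.2.1.1.getD b (emptyCDC, ([], []))
def rtC (c : RT) : CDC := c.2.1.2
def rtS (c : RT) (j b : ℕ) : ℕ × PCode := (c.2.2.getD j []).getD b (0, [])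

/-- Verification of a block. -/
def blkOK (c : RT) (b : ℕ) : Prop :=
  okC (rtN c) (rtB c b).1 ∧ jokC (rtN c) (rtB c b).1 (rtB c b).2.1 ∧ smallC (rtN c) (rtB c b).1 (rtT c) ∧
    (∀ l ∈ List.range (rtN c),
      pcIsZero (rtM c * rtN c + 1) (blkC (rtN c) b (cdP (rtB c b).1 l) ++ pcNeg (cdP (rtC c) (b * rtN c + l))) ∧
      pcIsZero (rtM c * rtN c + 1) (blkC (rtN c) b (cdQ (rtB c b).1 l) ++ pcNeg (cdQ (rtC c) (b * rtN c + l)))) ∧
    pcIsZero (rtM c * rtN c + 1) (pcMul (blkC (rtN c) b (qC (rtB c b).1)) (rtB c b).2.2 ++ pcNeg (qC (rtC c)))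

instance (c : RT) (b : ℕ) : Decidable (blkOK c b) := by unfold blkOK; infer_instance

/-- Verification of the slots of the `j`-th product: every factor lives on exactly one block, and every used slot is supported. -/
def slotOK (E : ExT) (c : RT) (j : ℕ) : Prop :=
  (∀ b ∈ List.range (rtM c), (rtS c j b).1 < (E.getD j []).length →
    itemOK (rtN c) (rtT c) (rtK c) (rtB c b).1 (itemT E j (rtS c j b).1) (rtS c j b).2) ∧
  (∀ b ∈ List.range (rtM c), ∀ b' ∈ List.range (rtM c), (rtS c j b).1 < (E.getD j []).length →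
    (rtS c j b).1 = (rtS c j b').1 → b = b') ∧
  (∀ i ∈ List.range (E.getD j []).length, ∃ b ∈ List.range (rtM c), (rtS c j b).1 = i)

instance (E : ExT) (c : RT) (j : ℕ) : Decidable (slotOK E c j) := by unfold slotOK; infer_instance

/-- Verification of the data of a reduction. -/
def rtOK (E : ExT) (c : RT) : Prop :=
  (∀ b ∈ List.range (rtM c), blkOK c b) ∧ ∀ j ∈ List.range E.length, slotOK E c j

instance (E : ExT) (c : RT) : Decidable (rtOK E c) := by unfold rtOK; infer_instance

/-- The numerator of the `j`-th product on the `b`-th block. -/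
def numB (E : ExT) (c : RT) (j b : ℕ) : PCode :=
  if (rtS c j b).1 < (E.getD j []).length then
    pcMul (pcShift 1 (rtN c) (pcMul (pcTrunc (itemT E j (rtS c j b).1).1 (itemT E j (rtS c j b).1).2.1.1)
      (rtS c j b).2)) (jC (rtB c b).2.1)
  else pcPow (qC (rtB c b).1) (rtK c + rtN c)

/-- The numerator of the integral which represents the sum of products. -/
def numG (E : ExT) (c : RT) : PCode :=
  pcSumRange E.length fun j => pcProdRange (rtM c) fun b =>
    pcMul (blkC (rtN c) b (numB E c j b)) (pcPow (rtB c b).2.2 (rtK c + rtN c))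

/-- The integral which represents the sum of products. -/
def toCoreT (E : ExT) (c : RT) : CoreT :=
  ((rtM c * rtN c, rtM c * (rtK c + rtN c)), ((rtC c, numG E c), rtT c))

/-- A full certificate. -/
abbrev FT := RT × CCT

/-- Verification of a full certificate. -/
def checkFT (E : ExT) (c : FT) : Prop := rtOK E c.1 ∧ checkT (toCoreT E c.1) c.2

instance (E : ExT) (c : FT) : Decidable (checkFT E c) := by unfold checkFT; infer_instance

end Pool.Agent.Lib.MP_bbe012_lc.PT
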