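import Pool.Agent.Lib.MP_bbe012_lc.PT.TDefs
import Pool.Agent.Lib.MP_bbe012_lc.PP.CodeA

/-!
# Stage 3: the codes of the chart functions
-/

namespace Pool.Agent.Lib.MP_bbe012_lc.PT

open MvPolynomial Pool.Agent.Lib.MP_bbe012_lc.PP

private theorem TCodeA_one (n : ℕ) : pcPoly n (pcNat 1) = 1 := by
  rw [pcPoly_nat, Nat.cast_one, C_1]

theorem pcPoly_aC (n : ℕ) (c : CDC) (l : Fin n) : pcPoly (n + 1) (aC c l) = (toCD n c).A l := by
  have hl : (l : ℕ) + 1 < n + 1 := by omega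
  rw [aC, pcPoly_append, pcPoly_mul, pcPoly_var hl, pcPoly_tC]
  rfl

theorem pcPoly_bC (n : ℕ) (c : CDC) (l : Fin n) : pcPoly (n + 1) (bC c l) = (toCD n c).B l := by
  rw [bC, pcPoly_append, pcPoly_mul, TCodeA_one, pcPoly_tC]
  rfl

theorem pcPoly_qC (n : ℕ) (c : CDC) : pcPoly (n + 1) (qC c) = (toCD n c).Q := by
  rw [qC, pcPoly_append, pcPoly_mul, TCodeA_one, pcPoly_tC]
  rfl

private theorem TCodeA_der (n : ℕ) (j : Fin (n + 1)) (p : PCode) :
    pcPoly (n + 1) (pcDer j p) = pderiv j (pcPoly (n + 1) p) := by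
  rw [pcPoly_der j.isLt]

private theorem TCodeA_der_succ (n : ℕ) (j : Fin n) (p : PCode) :
    pcPoly (n + 1) (pcDer (j + 1) p) = pderiv j.succ (pcPoly (n + 1) p) :=
  TCodeA_der n j.succ p

theorem pcPoly_jacC (n : ℕ) (c : CDC) (i : Fin n) (j : Fin (n + 1)) :
    pcPoly (n + 1) (jacC c i j) = (toCD n c).jac i j := by
  rw [jacC, pcPoly_append, pcPoly_neg, pcPoly_mul, pcPoly_mul, TCodeA_der, TCodeA_der, pcPoly_aC,
    pcPoly_bC, ← sub_eq_add_neg]
  rfl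

theorem pcPoly_derC (n : ℕ) (c : CDC) (j : Fin (n + 1)) (K : ℕ) (G : PCode) :
    pcPoly (n + 1) (derC c j K G) = (toCD n c).Q * pderiv j (pcPoly (n + 1) G) -
      (K : TP n ℚ) * (pcPoly (n + 1) G * pderiv j (toCD n c).Q) := by
  rw [derC, pcPoly_append, pcPoly_neg, pcPoly_mul, pcPoly_mul, pcPoly_mul, TCodeA_der, TCodeA_der,
    pcPoly_qC, pcPoly_nat, map_natCast, ← sub_eq_add_neg]

private theorem TCodeA_derC_succ (n : ℕ) (c : CDC) (j : Fin n) (K : ℕ) (G : PCode) :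
    pcPoly (n + 1) (derC c (j + 1) K G) = (toCD n c).Q * pderiv j.succ (pcPoly (n + 1) G) -
      (K : TP n ℚ) * (pcPoly (n + 1) G * pderiv j.succ (toCD n c).Q) :=
  pcPoly_derC n c j.succ K G

theorem pcPoly_numVC (n : ℕ) (c : CDC) (l : Fin n) (K : ℕ) (G : PCode) :
    pcPoly (n + 1) (numVC n c l K G) = (toCD n c).numV l K (pcPoly (n + 1) G) := by
  rw [numVC, pcPoly_sumRange, CD.numV]
  refine Finset.sum_congr rfl fun j _ => ?_
  rw [pcPoly_mul, TCodeA_derC_succ]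
  rfl

theorem pcPoly_numTC (n : ℕ) (c : CDC) (K : ℕ) (G : PCode) :
    pcPoly (n + 1) (numTC n c K G) = (toCD n c).numT K (pcPoly (n + 1) G) := by
  have h0 := pcPoly_derC n c 0 K G
  rw [Fin.val_zero] at h0
  rw [numTC, pcPoly_append, pcPoly_neg, pcPoly_mul, pcPoly_sumRange, CD.numT, h0, pcPoly_qC,
    ← sub_eq_add_neg]
  congr 1
  refine Finset.sum_congr rfl fun j _ => ?_
  rw [pcPoly_mul, TCodeA_derC_succ]
  rfl

theorem pcPoly_efC (n : ℕ) (c : CDC) (l : Fin n) : pcPoly (n + 1) (efC c l) = (toCD n c).Ef l := by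
  rw [efC, pcPoly_mul, pcPoly_mul, pcPoly_mul, pcPoly_append, pcPoly_neg, pcPoly_aC, pcPoly_bC,
    CD.Ef, sq, sub_eq_add_neg]
  rfl

theorem pcPoly_divTC (n : ℕ) (c : CDC) (K : ℕ) (g : List PCode) :
    pcPoly (n + 1) (divTC n c K g) = (toCD n c).divT K fun l => pcPoly (n + 1) (g.getD l []) := by
  rw [divTC, pcPoly_sumRange, CD.divT]
  refine Finset.sum_congr rfl fun l _ => ?_
  rw [pcPoly_numVC, pcPoly_mul, pcPoly_efC]

theorem pcPoly_thNC (n : ℕ) (c : CDC) (K : ℕ) (S : PCode) (i : ℕ) :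
    pcPoly (n + 1) (thNC n c K S i) = (toCD n c).thN K (pcPoly (n + 1) S) i := by
  induction i with
  | zero => rfl
  | succ i ih =>
    have h1 : thNC n c K S (i + 1) = pcMul tC (numTC n c (K + 2 * i) (thNC n c K S i)) := rfl
    rw [h1, pcPoly_mul, pcPoly_tC, pcPoly_numTC, ih, CD.thN]

theorem pcPoly_dvWC (n : ℕ) (c : CDC) : pcPoly (n + 1) (dvWC n c) = (toCD n c).dvW := by
  rw [dvWC, pcPoly_sumRange, CD.dvW]
  refine Finset.sum_congr rfl fun j _ => ?_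
  rw [pcPoly_append, pcPoly_neg, pcPoly_mul, pcPoly_mul, TCodeA_der_succ, TCodeA_der_succ,
    pcPoly_qC, ← sub_eq_add_neg]
  rfl

theorem pcPoly_jC (n : ℕ) (J : PCode) : pcPoly (n + 1) (jC J) = 1 + X 0 * pcPoly (n + 1) J := by
  rw [jC, pcPoly_append, pcPoly_mul, TCodeA_one, pcPoly_tC]

/-- Proof: `pcIsZero_iff`; `l ∈ List.range n` is `l < n`, `(⟨l, h⟩ : Fin n)`. -/
theorem okC_iff (n : ℕ) (c : CDC) : okC n c ↔ (toCD n c).Ok := by
  have e1 : ∀ l : Fin n, (pcIsZero (n + 1) (pcMul (bC c l) (cdC c l) ++ pcNeg (qC c)) ↔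
      (toCD n c).B l * (toCD n c).C l = (toCD n c).Q) := by
    intro l
    rw [pcIsZero_iff, pcPoly_append, pcPoly_neg, pcPoly_mul, pcPoly_bC, pcPoly_qC,
      ← sub_eq_add_neg, sub_eq_zero]
    rfl
  have ejs : ∀ i j : Fin n, pcPoly (n + 1) (jacC c i (j + 1)) = (toCD n c).jac i j.succ :=
    fun i j => pcPoly_jacC n c i j.succ
  have e2 : ∀ l i : Fin n, (pcIsZero (n + 1)
      (pcSumRange n (fun j => pcMul (cdV c l j) (jacC c i (j + 1))) ++
        pcNeg (if (l : ℕ) = i then pcMul (qC c) (pcMul (bC c i) (bC c i)) else [])) ↔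
      ∑ j : Fin n, (toCD n c).V l j * (toCD n c).jac i j.succ =
        if l = i then (toCD n c).Q * (toCD n c).B i ^ 2 else 0) := by
    intro l i
    have h1 : pcPoly (n + 1) (if (l : ℕ) = i then pcMul (qC c) (pcMul (bC c i) (bC c i)) else []) =
        if l = i then (toCD n c).Q * (toCD n c).B i ^ 2 else 0 := by
      by_cases h : l = i
      · rw [if_pos h, if_pos (congrArg _ h), pcPoly_mul, pcPoly_mul, pcPoly_qC, pcPoly_bC, sq]
      · rw [if_neg h, if_neg fun h' => h (Fin.ext h'), pcPoly_nil]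
    rw [pcIsZero_iff, pcPoly_append, pcPoly_neg, h1, pcPoly_sumRange, ← sub_eq_add_neg,
      sub_eq_zero]
    have h2 : ∑ j : Fin n, pcPoly (n + 1) (pcMul (cdV c l j) (jacC c i (j + 1))) =
        ∑ j : Fin n, (toCD n c).V l j * (toCD n c).jac i j.succ := by
      refine Finset.sum_congr rfl fun j _ => ?_
      rw [pcPoly_mul, ejs]
      rfl
    rw [h2]
  have e3 : ∀ i : Fin n, (pcIsZero (n + 1)
      (pcSumRange n (fun j => pcMul (cdW c j) (jacC c i (j + 1))) ++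
        pcNeg (pcMul (qC c) (jacC c i 0))) ↔
      ∑ j : Fin n, (toCD n c).W j * (toCD n c).jac i j.succ =
        (toCD n c).Q * (toCD n c).jac i 0) := by
    intro i
    have h0 := pcPoly_jacC n c i 0
    rw [Fin.val_zero] at h0
    rw [pcIsZero_iff, pcPoly_append, pcPoly_neg, pcPoly_mul, pcPoly_qC, h0, pcPoly_sumRange,
      ← sub_eq_add_neg, sub_eq_zero]
    have h2 : ∑ j : Fin n, pcPoly (n + 1) (pcMul (cdW c j) (jacC c i (j + 1))) =
        ∑ j : Fin n, (toCD n c).W j * (toCD n c).jac i j.succ := by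
      refine Finset.sum_congr rfl fun j _ => ?_
      rw [pcPoly_mul, ejs]
      rfl
    rw [h2]
  unfold okC
  constructor
  · rintro ⟨h1, h2, h3⟩
    refine ⟨fun l => (e1 l).1 (h1 l (List.mem_range.2 l.isLt)),
      fun l i => (e2 l i).1 (h2 l (List.mem_range.2 l.isLt) i (List.mem_range.2 i.isLt)),
      fun i => (e3 i).1 (h3 i (List.mem_range.2 i.isLt))⟩
  · rintro ⟨h1, h2, h3⟩
    refine ⟨fun l hl => (e1 ⟨l, List.mem_range.1 hl⟩).2 (h1 _),
      fun l hl i hi => (e2 ⟨l, List.mem_range.1 hl⟩ ⟨i, List.mem_range.1 hi⟩).2 (h2 _ _),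
      fun i hi => (e3 ⟨i, List.mem_range.1 hi⟩).2 (h3 _)⟩

private theorem TCodeA_atZD (n : ℕ) (J : TP n ℚ) : atZD n ℚ (1 + X 0 * J) = 1 := by
  have h0 : atZD n ℚ (X 0) = 0 := by
    rw [atZD, aeval_X]
    rfl
  rw [map_add, map_mul, h0, zero_mul, map_one, add_zero]

/-- Proof: `atZD (1 + X 0 * J) = 1`. -/
theorem jokC_iff (n : ℕ) (c : CDC) (J : PCode) : jokC n c J ↔ (toCD n c).JOk (pcPoly (n + 1) (jC J)) := by
  unfold jokC CD.JOk
  rw [pcIsZero_iff, pcPoly_append, pcPoly_mul, pcPoly_numTC, pcPoly_dvWC, add_eq_zero_iff_eq_neg]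
  constructor
  · intro h
    refine ⟨?_, h⟩
    rw [pcPoly_jC]
    exact TCodeA_atZD n _
  · intro h
    exact h.2

/-- Proof: `jok_iff`. -/
theorem jokC_det {n : ℕ} {c : CDC} {J : PCode} (h : okC n c) (hJ : jokC n c J) :
    pcPoly (n + 1) (jC J) = Matrix.det (Matrix.of (toCD n c).V) :=
  (jok_iff ((okC_iff n c).1 h) _).1 ((jokC_iff n c J).1 hJ)

/-- Proof: `jok_iff` for `J = det V`; `atZD J = 1`, so `J = 1 + X 0 * V` (`exists_div_X0`), and `exists_pcPoly`. -/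
theorem exists_jokC {n : ℕ} {c : CDC} (h : okC n c) : ∃ J : PCode, jokC n c J := by
  have h1 := (jok_iff ((okC_iff n c).1 h) _).2 rfl
  obtain ⟨V, hV⟩ := exists_div_X0 (Matrix.det (Matrix.of (toCD n c).V))
  obtain ⟨J, hJ⟩ := exists_pcPoly V
  refine ⟨J, (jokC_iff n c J).2 ?_⟩
  rw [pcPoly_jC, hJ]
  rw [h1.1, map_one] at hV
  rw [← hV]
  exact h1

end Pool.Agent.Lib.MP_bbe012_lc.PT
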