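import Pool.Agent.Lib.MP_bbe012_lc.PT.TDefs
import Pool.Agent.Lib.MP_bbe012_lc.PT.PDefs
import Pool.Agent.Lib.MP_bbe012_lc.PP.CodeA
import Pool.Agent.Lib.MP_bbe012_lc.PP.RedB

/-!
# Stage 3: specialization and norms of codes
-/

namespace Pool.Agent.Lib.MP_bbe012_lc.PT

open MvPolynomial Pool.Agent.Lib.MP_bbe012_lc.PP

private theorem tcodeb_half : qval ((1, 0), 1) = 1 / 2 := by
  rw [qval]
  norm_num

private theorem tcodeb_eighth : qval ((1, 0), 7) = 1 / 8 := by
  rw [qval]
  norm_num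

private theorem tcodeb_sum_le (e : List ℕ) (m : ℕ) : ∑ i : Fin m, e.getD (i : ℕ) 0 ≤ e.sum := by
  rw [Fin.sum_univ_eq_sum_range (fun i => e.getD i 0) m]
  induction e generalizing m with
  | nil => simp
  | cons a e ih =>
    cases m with
    | zero => simp
    | succ m =>
      rw [Finset.sum_range_succ', List.sum_cons]
      simp only [List.getD_cons_succ, List.getD_cons_zero]
      have h := ih m
      omega

private noncomputable def tcodeb_n {m : ℕ} (w : (Fin m →₀ ℕ) → ℚ) (p : MvPolynomial (Fin m) ℚ) : ℚ :=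
  ∑ u ∈ p.support, |coeff u p| * w u

private theorem tcodeb_eq {m : ℕ} (w : (Fin m →₀ ℕ) → ℚ) (p : MvPolynomial (Fin m) ℚ)
    (s : Finset (Fin m →₀ ℕ)) (h : p.support ⊆ s) : tcodeb_n w p = ∑ u ∈ s, |coeff u p| * w u := by
  rw [tcodeb_n]
  refine Finset.sum_subset h fun u _ hu => ?_
  rw [notMem_support_iff.1 hu, abs_zero, zero_mul]

private theorem tcodeb_zero {m : ℕ} (w : (Fin m →₀ ℕ) → ℚ) :
    tcodeb_n w (0 : MvPolynomial (Fin m) ℚ) = 0 := by
  rw [tcodeb_n, support_zero, Finset.sum_empty]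

private theorem tcodeb_add_le {m : ℕ} (w : (Fin m →₀ ℕ) → ℚ) (hw : ∀ u, 0 ≤ w u)
    (p q : MvPolynomial (Fin m) ℚ) : tcodeb_n w (p + q) ≤ tcodeb_n w p + tcodeb_n w q := by
  classical
  rw [tcodeb_eq w (p + q) (p.support ∪ q.support) support_add,
    tcodeb_eq w p (p.support ∪ q.support) Finset.subset_union_left,
    tcodeb_eq w q (p.support ∪ q.support) Finset.subset_union_right, ← Finset.sum_add_distrib]
  refine Finset.sum_le_sum fun u _ => ?_
  rw [← add_mul, coeff_add]
  exact mul_le_mul_of_nonneg_right (abs_add_le _ _) (hw u)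

private theorem tcodeb_monomial {m : ℕ} (w : (Fin m →₀ ℕ) → ℚ) (u : Fin m →₀ ℕ) (a : ℚ) :
    tcodeb_n w (monomial u a) = |a| * w u := by
  classical
  rw [tcodeb_eq w (monomial u a) {u} support_monomial_subset, Finset.sum_singleton, coeff_monomial,
    if_pos rfl]

private def tcodeb_c (W : List ℕ → ℕ) (p : PCode) : QCode :=
  p.foldr (fun t acc => qadd (qmul (qabs t.1) (qnat (W t.2))) acc) (qnat 0)

private theorem tcodeb_c_nil (W : List ℕ → ℕ) : qval (tcodeb_c W []) = 0 := by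
  have h : tcodeb_c W [] = qnat 0 := rfl
  rw [h, qval_qnat, Nat.cast_zero]

private theorem tcodeb_c_cons (W : List ℕ → ℕ) (t : QCode × List ℕ) (p : PCode) :
    qval (tcodeb_c W (t :: p)) = |qval t.1| * (W t.2 : ℚ) + qval (tcodeb_c W p) := by
  have h : tcodeb_c W (t :: p) = qadd (qmul (qabs t.1) (qnat (W t.2))) (tcodeb_c W p) := rfl
  rw [h, qval_qadd, qval_qmul, qval_qabs, qval_qnat]

private theorem tcodeb_le {m : ℕ} (w : (Fin m →₀ ℕ) → ℚ) (hw : ∀ u, 0 ≤ w u) (W : List ℕ → ℕ)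
    (h : ∀ e, w (expVec m e) ≤ (W e : ℚ)) (p : PCode) :
    tcodeb_n w (pcPoly m p) ≤ qval (tcodeb_c W p) := by
  induction p with
  | nil => rw [pcPoly_nil, tcodeb_zero, tcodeb_c_nil]
  | cons t p ih =>
    rw [pcPoly_cons, tcodeb_c_cons]
    refine (tcodeb_add_le w hw _ _).trans (add_le_add ?_ ih)
    rw [termPoly, tcodeb_monomial]
    exact mul_le_mul_of_nonneg_left (h _) (abs_nonneg _)

private theorem tcodeb_insert {m : ℕ} (w : (Fin m →₀ ℕ) → ℚ) (a : Fin m →₀ ℕ) (b : ℚ)
    (f : MvPolynomial (Fin m) ℚ) (ha : a ∉ f.support) :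
    tcodeb_n w (monomial a b + f) = |b| * w a + tcodeb_n w f := by
  classical
  have hsub : (monomial a b + f).support ⊆ insert a f.support := by
    intro u hu
    rw [mem_support_iff, coeff_add, coeff_monomial] at hu
    rw [Finset.mem_insert]
    by_cases h : u = a
    · exact Or.inl h
    · refine Or.inr (mem_support_iff.2 ?_)
      rwa [if_neg (Ne.symm h), zero_add] at hu
  rw [tcodeb_eq w _ _ hsub, Finset.sum_insert ha, coeff_add, coeff_monomial, if_pos rfl,
    notMem_support_iff.1 ha, add_zero, tcodeb_n]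
  congr 1
  refine Finset.sum_congr rfl fun u hu => ?_
  have hne : a ≠ u := by
    rintro rfl
    exact ha hu
  rw [coeff_add, coeff_monomial, if_neg hne, zero_add]

private theorem tcodeb_exists {m : ℕ} (w : (Fin m →₀ ℕ) → ℚ) (W : List ℕ → ℕ)
    (h : ∀ a : Fin m →₀ ℕ, (W (List.ofFn fun i => a i) : ℚ) = w a) (P : MvPolynomial (Fin m) ℚ) :
    ∃ p : PCode, pcPoly m p = P ∧ qval (tcodeb_c W p) = tcodeb_n w P := by
  have hsum : ∀ (s : Finset (Fin m →₀ ℕ)) (g : (Fin m →₀ ℕ) → ℚ), ∃ p : PCode,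
      pcPoly m p = ∑ u ∈ s, monomial u (g u) ∧
        qval (tcodeb_c W p) = tcodeb_n w (∑ u ∈ s, monomial u (g u)) := by
    classical
    intro s g
    induction s using Finset.induction_on with
    | empty =>
      rw [Finset.sum_empty]
      exact ⟨[], rfl, by rw [tcodeb_zero, tcodeb_c_nil]⟩
    | insert a s ha ih =>
      rw [Finset.sum_insert ha]
      obtain ⟨p, hp1, hp2⟩ := ih
      obtain ⟨c, hc⟩ := exists_qval (g a)
      refine ⟨(c, List.ofFn fun i => a i) :: p, ?_, ?_⟩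
      · have h1 : expVec m (List.ofFn fun i => a i) = a := by
          ext i
          rw [expVec_apply]
          simp [List.getD_eq_getElem?_getD]
        rw [pcPoly_cons, hp1, termPoly]
        simp only [h1, hc]
      · rw [tcodeb_c_cons, tcodeb_insert, hp2, hc, h]
        rw [notMem_support_iff, coeff_sum]
        refine Finset.sum_eq_zero fun u hu => ?_
        have hne : u ≠ a := by
          rintro rfl
          exact ha hu
        rw [coeff_monomial, if_neg hne]
  have h1 := hsum P.support (fun u => coeff u P)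
  rwa [support_sum_monomial_coeff] at h1

theorem qval_qpow (c : QCode) (k : ℕ) : qval (qpow c k) = qval c ^ k := by
  induction k with
  | zero =>
    have h : qpow c 0 = qnat 1 := rfl
    rw [h, qval_qnat, pow_zero, Nat.cast_one]
  | succ k ih =>
    have h : qpow c (k + 1) = qmul c (qpow c k) := rfl
    rw [h, qval_qmul, ih, pow_succ']

/-- Proof: for one term: `spQ n τ (monomial (expVec (n + 1) e) a) = a * τ ^ (e 0) * monomial (expVec n (e.drop 1)) 1` (`aeval_monomial`, `Fin.prod_univ_succ`; compare `pcPoly_shift_succ`, CodeA.lean). -/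
theorem pcPoly_evC (n : ℕ) (τ : QCode) (p : PCode) :
    pcPoly n (evC τ p) = spQ n (qval τ) (pcPoly (n + 1) p) := by
  induction p with
  | nil =>
    have h : evC τ [] = [] := rfl
    rw [h, pcPoly_nil, pcPoly_nil, map_zero]
  | cons t p ih =>
    have h : evC τ (t :: p) = (qmul t.1 (qpow τ (t.2.getD 0 0)), t.2.drop 1) :: evC τ p := rfl
    rw [h, pcPoly_cons, pcPoly_cons, ih, map_add]
    congr 1
    have h1 : ∀ (σ : ℕ) (w : Fin σ →₀ ℕ) (b : ℚ),
        monomial w b = C b * ∏ r, (X r : MvPolynomial (Fin σ) ℚ) ^ w r := by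
      intro σ w b
      rw [monomial_eq, Finsupp.prod_fintype _ _ fun i => pow_zero _]
    rw [termPoly, termPoly, h1 n, h1 (n + 1)]
    simp only [expVec_apply]
    rw [qval_qmul, qval_qpow, Fin.prod_univ_succ, C_mul, C_pow, map_mul (spQ n (qval τ)),
      map_mul (spQ n (qval τ)), map_prod]
    simp only [map_pow]
    have h2 : spQ n (qval τ) (C (qval t.1)) = C (qval t.1) := by
      unfold spQ
      rw [aeval_C]
      rfl
    have h3 : spQ n (qval τ) (X 0) = C (qval τ) := by
      unfold spQ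
      rw [aeval_X]
      rfl
    have h4 : ∀ i : Fin n, spQ n (qval τ) (X i.succ) = X i := by
      intro i
      unfold spQ
      rw [aeval_X]
      rfl
    have h5 : ∀ i : Fin n, (t.2.drop 1).getD (i : ℕ) 0 = t.2.getD (i.succ : Fin (n + 1)).val 0 := by
      intro i
      rw [List.getD_eq_getElem?_getD, List.getD_eq_getElem?_getD, List.getElem?_drop, Fin.val_succ,
        add_comm 1]
    simp only [h2, h3, h4, h5]
    rw [mul_assoc]
    rfl

/-- Proof: as `pcPoly_shift_succ` (PP/CodeA.lean) or `pcPoly_shift_blk` (PP/RedB.lean). -/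
theorem pcPoly_shift_add (n : ℕ) (p : PCode) :
    pcPoly (n + n) (pcShift n n p) = rename (Fin.natAdd n) (pcPoly n p) := by
  unfold pcShift
  refine RedB_rename (Fin.natAdd n) (Fin.natAdd_injective n n)
    (fun e => List.replicate n 0 ++ e.take n) ?_ ?_ p
  · intro e l
    rw [getD_shift, Fin.val_natAdd, if_neg (by omega), getD_take, Nat.add_sub_cancel_left,
      if_pos l.isLt]
  · intro e j hj
    rw [getD_shift]
    by_cases h1 : (j : ℕ) < n
    · rw [if_pos h1]
    · exfalso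
      apply hj
      refine ⟨⟨(j : ℕ) - n, by omega⟩, Fin.ext ?_⟩
      rw [Fin.val_natAdd]
      change n + ((j : ℕ) - n) = (j : ℕ)
      omega

/-- Proof: `Fin.castAdd`; compare `pcPoly_trunc_castLE` (PP/RedB.lean). -/
theorem pcPoly_trunc_add (n : ℕ) (p : PCode) : pcPoly (n + n) (pcTrunc n p) = uP n (pcPoly n p) := by
  exact pcPoly_trunc_castLE (Nat.le_add_right n n) p

/-- Proof: `pcPoly_shift_add`, `pcPoly_evC`; `rename (Fin.natAdd n) (spQ n τ G) = xP n τ G` (algebra homomorphisms). -/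
theorem pcPoly_xC (n : ℕ) (τ : QCode) (G : PCode) :
    pcPoly (n + n) (xC n τ G) = xP n (qval τ) (pcPoly (n + 1) G) := by
  unfold xC
  rw [pcPoly_shift_add, pcPoly_evC]
  have h : (rename (Fin.natAdd n)).comp (spQ n (qval τ)) = xP n (qval τ) := by
    refine algHom_ext fun i => ?_
    rw [AlgHom.comp_apply]
    unfold spQ xP
    rw [aeval_X, aeval_X]
    refine Fin.cases ?_ (fun l => ?_) i
    · exact rename_C _ _
    · exact rename_X _ _
  exact DFunLike.congr_fun h (pcPoly (n + 1) G)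

/-- Proof: as `l1M_le_normC` (PP/CodeA.lean); the sum of the exponents of indices `< m` is at most the sum of the list. -/
theorem nW_le_nwC (m : ℕ) (p : PCode) : nW (pcPoly m p) ≤ qval (nwC p) := by
  refine tcodeb_le (fun u : Fin m →₀ ℕ => (4 : ℚ) ^ (∑ i, u i)) (fun _ => by positivity)
    (fun e => 4 ^ e.sum) (fun e => ?_) p
  push_cast
  refine pow_le_pow_right₀ (by norm_num) ?_
  simp only [expVec_apply]
  exact tcodeb_sum_le e m

/-- Proof: as `exists_pcPoly_norm` (PP/CodeA.lean). -/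
theorem exists_pcPoly_nw {m : ℕ} (P : MvPolynomial (Fin m) ℚ) :
    ∃ p : PCode, pcPoly m p = P ∧ qval (nwC p) = nW P := by
  refine tcodeb_exists (fun u : Fin m →₀ ℕ => (4 : ℚ) ^ (∑ i, u i)) (fun e => 4 ^ e.sum)
    (fun a => ?_) P
  push_cast
  rw [List.sum_ofFn]

/-- Proof: as `l1M_le_normC` (PP/CodeA.lean). -/
theorem nU_le_nuC (n : ℕ) (p : PCode) : nU (n := n) (pcPoly (n + n) p) ≤ qval (nuC n p) := by
  refine tcodeb_le (fun u : Fin (n + n) →₀ ℕ => (2 : ℚ) ^ (∑ l : Fin n, u (Fin.natAdd n l)))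
    (fun _ => by positivity) (fun e => 2 ^ (e.drop n).sum) (fun e => ?_) p
  push_cast
  refine pow_le_pow_right₀ (by norm_num) ?_
  refine le_trans (le_of_eq ?_) (tcodeb_sum_le (e.drop n) n)
  refine Finset.sum_congr rfl fun l _ => ?_
  rw [expVec_apply, Fin.val_natAdd, List.getD_eq_getElem?_getD, List.getD_eq_getElem?_getD,
    List.getElem?_drop]

/-- Proof: as `exists_pcPoly_norm` (PP/CodeA.lean). -/
theorem exists_pcPoly_nu {n : ℕ} (P : MvPolynomial (Fin (n + n)) ℚ) :
    ∃ p : PCode, pcPoly (n + n) p = P ∧ qval (nuC n p) = nU P := by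
  refine tcodeb_exists (fun u : Fin (n + n) →₀ ℕ => (2 : ℚ) ^ (∑ l : Fin n, u (Fin.natAdd n l)))
    (fun e => 2 ^ (e.drop n).sum) (fun a => ?_) P
  push_cast
  have h : (List.ofFn fun i => a i).drop n = List.ofFn fun l : Fin n => a (Fin.natAdd n l) := by
    rw [List.ofFn_add]
    exact List.drop_left' (by rw [List.length_ofFn])
  rw [h, List.sum_ofFn]

/-- Proof: `nW_le_nwC`, `qleP_iff`, `qval ((1, 0), 7) = 1 / 8`, `qval ((1, 0), 1) = 1 / 2`. -/
theorem small_of_smallC {n : ℕ} {c : CDC} {τ : QCode} (h : smallC n c τ) : Small (toCD n c) |qval τ| := by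
  obtain ⟨h1, h2, h3⟩ := h
  rw [qleP_iff, qval_qabs, qval_qnat, Nat.cast_one] at h1
  rw [qleP_iff, qval_qmul, qval_qabs, tcodeb_half] at h3
  refine ⟨abs_nonneg _, h1, fun l => ?_, ?_⟩
  · have h4 := h2 l (List.mem_range.2 l.isLt)
    rw [qleP_iff, qval_qmul, qval_qabs, qval_qadd, tcodeb_eighth] at h4
    refine le_trans (mul_le_mul_of_nonneg_left ?_ (abs_nonneg _)) h4
    exact add_le_add (nW_le_nwC (n + 1) _) (nW_le_nwC (n + 1) _)
  · exact le_trans (mul_le_mul_of_nonneg_left (nW_le_nwC (n + 1) _) (abs_nonneg _)) h3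

/-- Codes of charts. Proof: `exists_pcPoly_nw`, `List.ofFn` (see `exists_list`, PP/CodeA.lean). -/
theorem exists_cdc {n : ℕ} (c : CD n ℚ) :
    ∃ x : CDC, toCD n x = c ∧ ∀ τ : QCode, Small c |qval τ| → smallC n x τ := by
  choose pc hp1 hp2 using fun l => exists_pcPoly_nw (c.p l)
  choose qc hq1 hq2 using fun l => exists_pcPoly_nw (c.q l)
  obtain ⟨sc, hs1, hs2⟩ := exists_pcPoly_nw c.s
  choose Cc hC1 hC2 using fun l => exists_pcPoly_nw (c.C l)
  choose Vc hV1 hV2 using fun l j => exists_pcPoly_nw (c.V l j)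
  choose Wc hW1 hW2 using fun l => exists_pcPoly_nw (c.W l)
  obtain ⟨x, hx⟩ : ∃ x : CDC, x = (((List.ofFn pc, List.ofFn qc), sc),
      ((List.ofFn Cc, List.ofFn fun l => List.ofFn (Vc l)), List.ofFn Wc)) := ⟨_, rfl⟩
  have hg : ∀ (f : Fin n → PCode) (l : Fin n), (List.ofFn f).getD (l : ℕ) [] = f l := by
    intro f l
    simp [List.getD_eq_getElem?_getD]
  have hg' : ∀ (f : Fin n → List PCode) (l : Fin n), (List.ofFn f).getD (l : ℕ) [] = f l := by
    intro f l
    simp [List.getD_eq_getElem?_getD]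
  have eP : ∀ l : Fin n, cdP x l = pc l := by
    intro l
    rw [hx]
    exact hg pc l
  have eQ : ∀ l : Fin n, cdQ x l = qc l := by
    intro l
    rw [hx]
    exact hg qc l
  have eS : cdS x = sc := by
    rw [hx]
    rfl
  have eC : ∀ l : Fin n, cdC x l = Cc l := by
    intro l
    rw [hx]
    exact hg Cc l
  have eV : ∀ l j : Fin n, cdV x l j = Vc l j := by
    intro l j
    rw [hx]
    change ((List.ofFn fun l => List.ofFn (Vc l)).getD (l : ℕ) []).getD (j : ℕ) [] = Vc l j
    rw [hg', hg]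
  have eW : ∀ l : Fin n, cdW x l = Wc l := by
    intro l
    rw [hx]
    exact hg Wc l
  refine ⟨x, ?_, fun τ hτ => ?_⟩
  · have h1 : toCD n x = ⟨c.p, c.q, c.s, c.C, c.V, c.W⟩ := by
      unfold toCD
      rw [CD.mk.injEq]
      refine ⟨funext fun l => ?_, funext fun l => ?_, ?_, funext fun l => ?_,
        funext fun l => funext fun j => ?_, funext fun l => ?_⟩
      · rw [eP, hp1]
      · rw [eQ, hq1]
      · rw [eS, hs1]
      · rw [eC, hC1]
      · rw [eV, hV1]
      · rw [eW, hW1]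
    exact h1
  · refine ⟨?_, fun l hl => ?_, ?_⟩
    · rw [qleP_iff, qval_qabs, qval_qnat, Nat.cast_one]
      exact hτ.le_one
    · have hl' : l < n := List.mem_range.1 hl
      have h1 : cdP x l = pc ⟨l, hl'⟩ := eP ⟨l, hl'⟩
      have h2 : cdQ x l = qc ⟨l, hl'⟩ := eQ ⟨l, hl'⟩
      rw [qleP_iff, qval_qmul, qval_qabs, qval_qadd, tcodeb_eighth, h1, h2, hp2, hq2]
      exact hτ.pq ⟨l, hl'⟩
    · rw [qleP_iff, qval_qmul, qval_qabs, tcodeb_half, eS, hs2]
      exact hτ.s

/-- Proof: `pcPoly_sumRange`, `pcPoly_der`, `pcPoly_var`. -/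
theorem pcPoly_exC (n : ℕ) (E : List PCode) :
    pcPoly n (exC n E) = ∑ l : Fin n, pderiv l ((X l - X l ^ 2) * pcPoly n (E.getD l [])) := by
  rw [exC, pcPoly_sumRange]
  refine Finset.sum_congr rfl fun l _ => ?_
  rw [pcPoly_der l.isLt, pcPoly_mul, pcPoly_append, pcPoly_neg, pcPoly_mul, pcPoly_var l.isLt, sq,
    sub_eq_add_neg]

end Pool.Agent.Lib.MP_bbe012_lc.PT
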