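import Pool.Agent.Lib.MP_bbe012_lc.PT.NeS
import Pool.Agent.Lib.MP_bbe012_lc.PP.LamL

/-!
# Stage 3: completeness of the certificates for a non zero value
-/

namespace Pool.Agent.Lib.MP_bbe012_lc.PT

open MvPolynomial MeasureTheory Set Pool.Agent.Lib.MP_bbe012_lc.PP

/-- The weight of a monomial. -/
private def nec_w {n : ℕ} (m : Fin (n + n) →₀ ℕ) : ℚ := 2 ^ (∑ l : Fin n, m (Fin.natAdd n l))

private theorem nec_w_pos {n : ℕ} (m : Fin (n + n) →₀ ℕ) : 0 < nec_w m := by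
  unfold nec_w
  positivity

private theorem nec_w_add {n : ℕ} (a b : Fin (n + n) →₀ ℕ) : nec_w (a + b) = nec_w a * nec_w b := by
  have h : ∑ l : Fin n, (a + b) (Fin.natAdd n l) =
      ∑ l : Fin n, a (Fin.natAdd n l) + ∑ l : Fin n, b (Fin.natAdd n l) := by
    rw [← Finset.sum_add_distrib]
    rfl
  unfold nec_w
  rw [h, pow_add]

private theorem nec_eq {n : ℕ} (p : MvPolynomial (Fin (n + n)) ℚ) (s : Finset (Fin (n + n) →₀ ℕ))
    (h : p.support ⊆ s) : nU p = ∑ m ∈ s, |coeff m p| * nec_w m := by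
  rw [nU]
  refine Finset.sum_subset h fun u _ hu => ?_
  rw [notMem_support_iff.1 hu, abs_zero, zero_mul]

theorem nU_nonneg {n : ℕ} (p : MvPolynomial (Fin (n + n)) ℚ) : 0 ≤ nU p := by
  exact Finset.sum_nonneg fun _ _ => mul_nonneg (abs_nonneg _) (by positivity)

theorem nU_add_le {n : ℕ} (p q : MvPolynomial (Fin (n + n)) ℚ) : nU (p + q) ≤ nU p + nU q := by
  classical
  rw [nec_eq (p + q) (p.support ∪ q.support) support_add,
    nec_eq p (p.support ∪ q.support) Finset.subset_union_left,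
    nec_eq q (p.support ∪ q.support) Finset.subset_union_right, ← Finset.sum_add_distrib]
  refine Finset.sum_le_sum fun u _ => ?_
  rw [coeff_add, ← add_mul]
  exact mul_le_mul_of_nonneg_right (abs_add_le _ _) (nec_w_pos u).le

private theorem nec_zero {n : ℕ} : nU (0 : MvPolynomial (Fin (n + n)) ℚ) = 0 := by
  rw [nU, support_zero, Finset.sum_empty]

private theorem nec_sum {n : ℕ} {ι : Type*} (s : Finset ι) (p : ι → MvPolynomial (Fin (n + n)) ℚ) :
    nU (∑ i ∈ s, p i) ≤ ∑ i ∈ s, nU (p i) := by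
  classical
  induction s using Finset.induction_on with
  | empty => rw [Finset.sum_empty, Finset.sum_empty, nec_zero]
  | insert a s ha ih =>
    rw [Finset.sum_insert ha, Finset.sum_insert ha]
    exact (nU_add_le _ _).trans (add_le_add le_rfl ih)

private theorem nec_monomial {n : ℕ} (u : Fin (n + n) →₀ ℕ) (a : ℚ) :
    nU (monomial u a) = |a| * nec_w u := by
  classical
  rw [nec_eq (monomial u a) {u} support_monomial_subset, Finset.sum_singleton, coeff_monomial,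
    if_pos rfl]

theorem nU_mul_le {n : ℕ} (p q : MvPolynomial (Fin (n + n)) ℚ) : nU (p * q) ≤ nU p * nU q := by
  have h1 : p * q = ∑ a ∈ p.support, ∑ b ∈ q.support, monomial (a + b) (coeff a p * coeff b q) := by
    conv_lhs => rw [p.as_sum, q.as_sum]
    rw [Finset.sum_mul_sum]
    refine Finset.sum_congr rfl fun a _ => Finset.sum_congr rfl fun b _ => ?_
    rw [monomial_mul]
  rw [h1]
  refine (nec_sum _ _).trans ?_
  rw [nec_eq p p.support (Finset.Subset.refl _), nec_eq q q.support (Finset.Subset.refl _),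
    Finset.sum_mul_sum]
  refine Finset.sum_le_sum fun a _ => (nec_sum _ _).trans (Finset.sum_le_sum fun b _ => ?_)
  refine (nec_monomial _ _).le.trans (le_of_eq ?_)
  rw [nec_w_add, abs_mul]
  ring

theorem nU_neg {n : ℕ} (p : MvPolynomial (Fin (n + n)) ℚ) : nU (-p) = nU p := by
  rw [nU, nU, support_neg]
  refine Finset.sum_congr rfl fun u _ => ?_
  rw [coeff_neg, abs_neg]

theorem nU_C {n : ℕ} (a : ℚ) : nU (C a : MvPolynomial (Fin (n + n)) ℚ) = |a| := by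
  rw [C_apply, nec_monomial]
  have : nec_w (0 : Fin (n + n) →₀ ℕ) = 1 := by
    unfold nec_w
    simp
  rw [this, mul_one]

private theorem nec_sub {n : ℕ} (p q : MvPolynomial (Fin (n + n)) ℚ) :
    nU (p - q) ≤ nU p + nU q := by
  rw [sub_eq_add_neg]
  refine (nU_add_le _ _).trans ?_
  rw [nU_neg]

private theorem nec_one {n : ℕ} : nU (1 : MvPolynomial (Fin (n + n)) ℚ) = 1 := by
  have h := nU_C (n := n) 1
  rw [C_1, abs_one] at h
  exact h

private theorem nec_pow {n : ℕ} {p : MvPolynomial (Fin (n + n)) ℚ} {b : ℚ}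
    (hp : nU p ≤ b) (k : ℕ) : nU (p ^ k) ≤ b ^ k := by
  induction k with
  | zero => rw [pow_zero, pow_zero, nec_one]
  | succ k ih =>
    rw [pow_succ, pow_succ]
    exact (nU_mul_le _ _).trans (mul_le_mul ih hp (nU_nonneg _) (pow_nonneg ((nU_nonneg p).trans hp) _))

private theorem nec_u {n : ℕ} (l : Fin n) :
    nU (X (Fin.castAdd n l) : MvPolynomial (Fin (n + n)) ℚ) = 1 := by
  rw [X, nec_monomial, abs_one, one_mul]
  unfold nec_w
  have : ∑ k : Fin n, (Finsupp.single (Fin.castAdd n l) 1 : Fin (n + n) →₀ ℕ) (Fin.natAdd n k) = 0 := by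
    refine Finset.sum_eq_zero fun k _ => ?_
    refine Finsupp.single_eq_of_ne ?_
    intro h
    have h2 := congrArg Fin.val h
    rw [Fin.val_natAdd, Fin.val_castAdd] at h2
    have h3 := l.isLt
    omega
  rw [this, pow_zero]

private theorem nec_x {n : ℕ} (l : Fin n) :
    nU (X (Fin.natAdd n l) : MvPolynomial (Fin (n + n)) ℚ) ≤ 2 := by
  classical
  rw [X, nec_monomial, abs_one, one_mul]
  unfold nec_w
  have : ∑ k : Fin n, (Finsupp.single (Fin.natAdd n l) 1 : Fin (n + n) →₀ ℕ) (Fin.natAdd n k) = 1 := by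
    rw [Finset.sum_eq_single l]
    · exact Finsupp.single_eq_same
    · intro k _ hk
      refine Finsupp.single_eq_of_ne ?_
      intro h
      have h2 := congrArg Fin.val h
      rw [Fin.val_natAdd, Fin.val_natAdd] at h2
      exact hk (Fin.ext (by omega))
    · intro h
      exact absurd (Finset.mem_univ l) h
  rw [this, pow_one]

/-- difference of powers -/
private theorem nec_pow_sub {n : ℕ} {y z : MvPolynomial (Fin (n + n)) ℚ} {δ : ℚ}
    (hy : nU y ≤ 2) (hz : nU z ≤ 2) (hd : nU (y - z) ≤ δ) (k : ℕ) :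
    nU (y ^ k - z ^ k) ≤ δ * k * 2 ^ k := by
  have hδ : 0 ≤ δ := (nU_nonneg _).trans hd
  induction k with
  | zero => rw [pow_zero, pow_zero, sub_self, nec_zero]; simp
  | succ k ih =>
    have h1 : y ^ (k + 1) - z ^ (k + 1) = (y ^ k - z ^ k) * y + z ^ k * (y - z) := by ring
    rw [h1]
    refine (nU_add_le _ _).trans ?_
    have h2 : nU ((y ^ k - z ^ k) * y) ≤ (δ * k * 2 ^ k) * 2 :=
      (nU_mul_le _ _).trans (mul_le_mul ih hy (nU_nonneg _) (by positivity))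
    have h3 : nU (z ^ k * (y - z)) ≤ 2 ^ k * δ :=
      (nU_mul_le _ _).trans (mul_le_mul (nec_pow hz k) hd (nU_nonneg _) (by positivity))
    have h4 : (2:ℚ) ^ k * δ ≤ 2 ^ (k + 1) * δ := by
      rw [pow_succ]
      have : (0:ℚ) ≤ 2 ^ k * δ := by positivity
      linarith
    have h5 : (δ * k * 2 ^ k) * 2 + 2 ^ (k + 1) * δ = δ * ((k + 1 : ℕ) : ℚ) * 2 ^ (k + 1) := by
      push_cast
      ring
    linarith

private theorem nec_prod {n m : ℕ} {y : Fin m → MvPolynomial (Fin (n + n)) ℚ}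
    (hy : ∀ i, nU (y i) ≤ 2) (d : Fin m → ℕ) (s : Finset (Fin m)) :
    nU (∏ i ∈ s, y i ^ d i) ≤ 2 ^ (∑ i ∈ s, d i) := by
  classical
  induction s using Finset.induction_on with
  | empty => rw [Finset.prod_empty, Finset.sum_empty, nec_one, pow_zero]
  | insert a s ha ih =>
    rw [Finset.prod_insert ha, Finset.sum_insert ha, pow_add]
    exact (nU_mul_le _ _).trans (mul_le_mul (nec_pow (hy a) _) ih (nU_nonneg _) (by positivity))

private theorem nec_prod_sub {n m : ℕ} {y z : Fin m → MvPolynomial (Fin (n + n)) ℚ} {δ : ℚ}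
    (hy : ∀ i, nU (y i) ≤ 2) (hz : ∀ i, nU (z i) ≤ 2) (hδ : 0 ≤ δ) (hd : ∀ i, nU (y i - z i) ≤ δ)
    (d : Fin m → ℕ) (s : Finset (Fin m)) :
    nU (∏ i ∈ s, y i ^ d i - ∏ i ∈ s, z i ^ d i) ≤
      δ * ((∑ i ∈ s, d i : ℕ) : ℚ) * 2 ^ (∑ i ∈ s, d i) := by
  classical
  induction s using Finset.induction_on with
  | empty => rw [Finset.prod_empty, Finset.prod_empty, sub_self, nec_zero]; simp
  | insert a s ha ih =>
    rw [Finset.prod_insert ha, Finset.prod_insert ha, Finset.sum_insert ha, pow_add]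
    have h1 : y a ^ d a * ∏ i ∈ s, y i ^ d i - z a ^ d a * ∏ i ∈ s, z i ^ d i =
        y a ^ d a * (∏ i ∈ s, y i ^ d i - ∏ i ∈ s, z i ^ d i) +
          (y a ^ d a - z a ^ d a) * ∏ i ∈ s, z i ^ d i := by ring
    rw [h1]
    refine (nU_add_le _ _).trans ?_
    have h2 : nU (y a ^ d a * (∏ i ∈ s, y i ^ d i - ∏ i ∈ s, z i ^ d i)) ≤
        2 ^ d a * (δ * ((∑ i ∈ s, d i : ℕ) : ℚ) * 2 ^ (∑ i ∈ s, d i)) :=
      (nU_mul_le _ _).trans (mul_le_mul (nec_pow (hy a) _) ih (nU_nonneg _) (by positivity))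
    have h3 : nU ((y a ^ d a - z a ^ d a) * ∏ i ∈ s, z i ^ d i) ≤
        (δ * (d a : ℚ) * 2 ^ d a) * 2 ^ (∑ i ∈ s, d i) :=
      (nU_mul_le _ _).trans (mul_le_mul (nec_pow_sub (hy a) (hz a) (hd a) _)
        (nec_prod hz d s) (nU_nonneg _) (by positivity))
    refine (add_le_add h2 h3).trans (le_of_eq ?_)
    push_cast
    ring

private theorem nec_aeval {n m : ℕ} (y : Fin m → MvPolynomial (Fin (n + n)) ℚ)
    (G : MvPolynomial (Fin m) ℚ) :
    aeval y G = ∑ u ∈ G.support, C (coeff u G) * ∏ i, y i ^ u i := by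
  rw [aeval_def, eval₂_eq']
  rfl

private theorem nec_bound {n m : ℕ} {y : Fin m → MvPolynomial (Fin (n + n)) ℚ}
    (hy : ∀ i, nU (y i) ≤ 2) (G : MvPolynomial (Fin m) ℚ) : nU (aeval y G) ≤ nW G := by
  rw [nec_aeval, nW]
  refine (nec_sum _ _).trans (Finset.sum_le_sum fun u _ => ?_)
  refine (nU_mul_le _ _).trans ?_
  rw [nU_C]
  refine mul_le_mul_of_nonneg_left ((nec_prod hy (fun i => u i) Finset.univ).trans ?_) (abs_nonneg _)
  exact pow_le_pow_left₀ (by norm_num) (by norm_num) _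

private theorem nec_lip {n m : ℕ} {y z : Fin m → MvPolynomial (Fin (n + n)) ℚ} {δ : ℚ}
    (hy : ∀ i, nU (y i) ≤ 2) (hz : ∀ i, nU (z i) ≤ 2) (hδ : 0 ≤ δ) (hd : ∀ i, nU (y i - z i) ≤ δ)
    (G : MvPolynomial (Fin m) ℚ) : nU (aeval y G - aeval z G) ≤ nW G * δ := by
  have h1 : aeval y G - aeval z G =
      ∑ u ∈ G.support, C (coeff u G) * (∏ i, y i ^ u i - ∏ i, z i ^ u i) := by
    rw [nec_aeval, nec_aeval, ← Finset.sum_sub_distrib]
    refine Finset.sum_congr rfl fun u _ => ?_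
    rw [mul_sub]
  rw [h1, nW, Finset.sum_mul]
  refine (nec_sum _ _).trans (Finset.sum_le_sum fun u _ => ?_)
  refine (nU_mul_le _ _).trans ?_
  rw [nU_C, mul_assoc]
  refine mul_le_mul_of_nonneg_left
    ((nec_prod_sub hy hz hδ hd (fun i => u i) Finset.univ).trans ?_) (abs_nonneg _)
  have h2 : ((∑ i, u i : ℕ) : ℚ) ≤ 2 ^ (∑ i, u i) := by
    have : (∑ i, u i) ≤ 2 ^ (∑ i, u i) := Nat.lt_two_pow_self.le
    exact_mod_cast this
  have h3 : (4:ℚ) ^ (∑ i, u i) = 2 ^ (∑ i, u i) * 2 ^ (∑ i, u i) := by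
    rw [← mul_pow]
    norm_num
  rw [h3]
  have h4 : (0:ℚ) ≤ 2 ^ (∑ i, u i) := by positivity
  calc δ * ((∑ i, u i : ℕ) : ℚ) * 2 ^ (∑ i, u i) ≤ δ * 2 ^ (∑ i, u i) * 2 ^ (∑ i, u i) :=
        mul_le_mul_of_nonneg_right (mul_le_mul_of_nonneg_left h2 hδ) h4
    _ = _ := by ring

/-- The substitution. -/
private noncomputable def nec_s {n m : ℕ} (τ : ℚ) (y : Fin n → MvPolynomial (Fin m) ℚ) :
    TP n ℚ →ₐ[ℚ] MvPolynomial (Fin m) ℚ :=
  aeval (Fin.cases (C τ) y)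

private theorem nec_s_zero {n m : ℕ} (τ : ℚ) (y : Fin n → MvPolynomial (Fin m) ℚ) :
    nec_s τ y (X 0) = C τ := by
  rw [nec_s, aeval_X]
  rfl

private theorem nec_s_succ {n m : ℕ} (τ : ℚ) (y : Fin n → MvPolynomial (Fin m) ℚ) (l : Fin n) :
    nec_s τ y (X l.succ) = y l := by
  rw [nec_s, aeval_X]
  rfl

private theorem nec_xP {n : ℕ} (τ : ℚ) : xP n τ = nec_s τ fun l => X (Fin.natAdd n l) := rfl

private theorem nec_cases {n : ℕ} {τ : ℚ} (hτ : |τ| ≤ 1) {y : Fin n → MvPolynomial (Fin (n + n)) ℚ}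
    (hy : ∀ i, nU (y i) ≤ 2) (i : Fin (n + 1)) :
    nU ((Fin.cases (C τ) y : Fin (n + 1) → MvPolynomial (Fin (n + n)) ℚ) i) ≤ 2 := by
  refine Fin.cases ?_ (fun l => ?_) i
  · show nU (C τ) ≤ 2
    rw [nU_C]
    linarith
  · exact hy l

private theorem nec_s_bound {n : ℕ} {τ : ℚ} (hτ : |τ| ≤ 1)
    {y : Fin n → MvPolynomial (Fin (n + n)) ℚ}
    (hy : ∀ i, nU (y i) ≤ 2) (G : TP n ℚ) : nU (nec_s τ y G) ≤ nW G :=
  nec_bound (nec_cases hτ hy) G

private theorem nec_s_lip {n : ℕ} {τ : ℚ} (hτ : |τ| ≤ 1)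
    {y z : Fin n → MvPolynomial (Fin (n + n)) ℚ} {δ : ℚ}
    (hy : ∀ i, nU (y i) ≤ 2) (hz : ∀ i, nU (z i) ≤ 2) (hδ : 0 ≤ δ) (hd : ∀ i, nU (y i - z i) ≤ δ)
    (G : TP n ℚ) : nU (nec_s τ y G - nec_s τ z G) ≤ nW G * δ := by
  refine nec_lip (nec_cases hτ hy) (nec_cases hτ hz) hδ (fun i => ?_) G
  refine Fin.cases ?_ (fun l => ?_) i
  · show nU (C τ - C τ) ≤ δ
    rw [sub_self, nec_zero]
    exact hδ
  · exact hd l

/-- Proof: `|τ| ≤ 1`. -/
theorem nU_xP_le {n : ℕ} {τ : ℚ} (hτ : |τ| ≤ 1) (G : TP n ℚ) : nU (xP n τ G) ≤ nW G := by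
  rw [nec_xP]
  exact nec_s_bound hτ nec_x G

/-- The ideal of the relations `A_l(τ, x) = u_l B_l(τ, x)`. -/
noncomputable def idT {n : ℕ} (c : CD n ℚ) (τ : ℚ) : Ideal (MvPolynomial (Fin (n + n)) ℚ) :=
  Ideal.span (Set.range fun l : Fin n => xP n τ (c.A l) - X (Fin.castAdd n l) * xP n τ (c.B l))

/-- The iteration. -/
private noncomputable def nec_st {n m : ℕ} (c : CD n ℚ) (τ : ℚ) (u : Fin n → MvPolynomial (Fin m) ℚ)
    (y : Fin n → MvPolynomial (Fin m) ℚ) : Fin n → MvPolynomial (Fin m) ℚ :=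
  fun l => u l + C τ * (u l * nec_s τ y (c.q l) - nec_s τ y (c.p l))

private noncomputable def nec_it {n m : ℕ} (c : CD n ℚ) (τ : ℚ) (u : Fin n → MvPolynomial (Fin m) ℚ)
    (y : Fin n → MvPolynomial (Fin m) ℚ) : ℕ → Fin n → MvPolynomial (Fin m) ℚ
  | 0 => y
  | k + 1 => nec_st c τ u (nec_it c τ u y k)

private theorem nec_s_mem {n m : ℕ} (τ : ℚ) (I : Ideal (MvPolynomial (Fin m) ℚ))
    {y z : Fin n → MvPolynomial (Fin m) ℚ} (h : ∀ l, y l - z l ∈ I) (G : TP n ℚ) :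
    nec_s τ y G - nec_s τ z G ∈ I := by
  have h1 : (Ideal.Quotient.mkₐ ℚ I).comp (nec_s τ y) = (Ideal.Quotient.mkₐ ℚ I).comp (nec_s τ z) := by
    refine MvPolynomial.algHom_ext fun i => ?_
    refine Fin.cases ?_ (fun l => ?_) i
    · rw [AlgHom.comp_apply, AlgHom.comp_apply, nec_s_zero, nec_s_zero]
    · rw [AlgHom.comp_apply, AlgHom.comp_apply, nec_s_succ, nec_s_succ]
      exact Ideal.Quotient.eq.2 (h l)
  have h2 := congrArg (fun f => f G) h1
  exact Ideal.Quotient.eq.1 h2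

private theorem nec_psi_mem {n : ℕ} (c : CD n ℚ) (τ : ℚ) (k : ℕ) : ∀ l : Fin n,
    X (Fin.natAdd n l) - nec_it c τ (fun l => X (Fin.castAdd n l))
      (fun l => X (Fin.natAdd n l)) k l ∈ idT c τ := by
  induction k with
  | zero =>
    intro l
    show X (Fin.natAdd n l) - X (Fin.natAdd n l) ∈ idT c τ
    rw [sub_self]
    exact Ideal.zero_mem _
  | succ k ih =>
    intro l
    show X (Fin.natAdd n l) - (X (Fin.castAdd n l) + C τ * (X (Fin.castAdd n l) *
      nec_s τ (nec_it c τ (fun l => X (Fin.castAdd n l)) (fun l => X (Fin.natAdd n l)) k) (c.q l) -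
      nec_s τ (nec_it c τ (fun l => X (Fin.castAdd n l)) (fun l => X (Fin.natAdd n l)) k) (c.p l)))
      ∈ idT c τ
    have hg : xP n τ (c.A l) - X (Fin.castAdd n l) * xP n τ (c.B l) ∈ idT c τ :=
      Ideal.subset_span ⟨l, rfl⟩
    have hA : xP n τ (c.A l) = X (Fin.natAdd n l) + C τ * xP n τ (c.p l) := by
      rw [CD.A, map_add, map_mul]
      rw [nec_xP, nec_s_zero, nec_s_succ]
    have hB : xP n τ (c.B l) = 1 + C τ * xP n τ (c.q l) := by
      rw [CD.B, map_add, map_mul, map_one]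
      rw [nec_xP, nec_s_zero]
    rw [hA, hB] at hg
    have hq := nec_s_mem τ (idT c τ) ih (c.q l)
    have hp := nec_s_mem τ (idT c τ) ih (c.p l)
    rw [← nec_xP] at hq hp
    have e : X (Fin.natAdd n l) - (X (Fin.castAdd n l) + C τ * (X (Fin.castAdd n l) *
      nec_s τ (nec_it c τ (fun l => X (Fin.castAdd n l)) (fun l => X (Fin.natAdd n l)) k) (c.q l) -
      nec_s τ (nec_it c τ (fun l => X (Fin.castAdd n l)) (fun l => X (Fin.natAdd n l)) k) (c.p l))) =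
      (X (Fin.natAdd n l) + C τ * xP n τ (c.p l) -
        X (Fin.castAdd n l) * (1 + C τ * xP n τ (c.q l))) +
      (C τ * X (Fin.castAdd n l)) * (xP n τ (c.q l) -
        nec_s τ (nec_it c τ (fun l => X (Fin.castAdd n l)) (fun l => X (Fin.natAdd n l)) k) (c.q l)) -
      C τ * (xP n τ (c.p l) -
        nec_s τ (nec_it c τ (fun l => X (Fin.castAdd n l)) (fun l => X (Fin.natAdd n l)) k) (c.p l)) := by
      ring
    rw [e]
    exact (idT c τ).sub_mem ((idT c τ).add_mem hg ((idT c τ).mul_mem_left _ hq))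
      ((idT c τ).mul_mem_left _ hp)

private theorem nec_it_le {n : ℕ} {c : CD n ℚ} {τ : ℚ} (hs : Small c |τ|)
    {y : Fin n → MvPolynomial (Fin (n + n)) ℚ} (hy : ∀ l, nU (y l) ≤ 2) (k : ℕ) : ∀ l : Fin n,
    nU (nec_it c τ (fun l => X (Fin.castAdd n l)) y k l) ≤ 2 := by
  induction k with
  | zero => exact hy
  | succ k ih =>
    intro l
    show nU (X (Fin.castAdd n l) + C τ * (X (Fin.castAdd n l) *
      nec_s τ (nec_it c τ (fun l => X (Fin.castAdd n l)) y k) (c.q l) -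
      nec_s τ (nec_it c τ (fun l => X (Fin.castAdd n l)) y k) (c.p l))) ≤ 2
    refine (nU_add_le _ _).trans ?_
    rw [nec_u]
    have h1 : nU (C τ * (X (Fin.castAdd n l) *
      nec_s τ (nec_it c τ (fun l => X (Fin.castAdd n l)) y k) (c.q l) -
      nec_s τ (nec_it c τ (fun l => X (Fin.castAdd n l)) y k) (c.p l))) ≤
        |τ| * (nW (c.p l) + nW (c.q l)) := by
      refine (nU_mul_le _ _).trans ?_
      rw [nU_C]
      refine mul_le_mul_of_nonneg_left ((nec_sub _ _).trans ?_) (abs_nonneg _)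
      have h2 : nU (X (Fin.castAdd n l) *
        nec_s τ (nec_it c τ (fun l => X (Fin.castAdd n l)) y k) (c.q l)) ≤ nW (c.q l) := by
        refine (nU_mul_le _ _).trans ?_
        rw [nec_u, one_mul]
        exact nec_s_bound hs.le_one ih _
      have h3 := nec_s_bound hs.le_one ih (c.p l)
      linarith
    have h4 := hs.pq l
    linarith

private theorem nec_it_sub {n : ℕ} {c : CD n ℚ} {τ : ℚ} (hs : Small c |τ|)
    {y z : Fin n → MvPolynomial (Fin (n + n)) ℚ} (hy : ∀ l, nU (y l) ≤ 2) (hz : ∀ l, nU (z l) ≤ 2)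
    (hd : ∀ l, nU (y l - z l) ≤ 3) (k : ℕ) : ∀ l : Fin n,
    nU (nec_it c τ (fun l => X (Fin.castAdd n l)) y k l -
      nec_it c τ (fun l => X (Fin.castAdd n l)) z k l) ≤ 3 * (1 / 8) ^ k := by
  induction k with
  | zero =>
    intro l
    rw [pow_zero, mul_one]
    exact hd l
  | succ k ih =>
    intro l
    have e : nec_it c τ (fun l => X (Fin.castAdd n l)) y (k + 1) l -
        nec_it c τ (fun l => X (Fin.castAdd n l)) z (k + 1) l =
        C τ * (X (Fin.castAdd n l) *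
          (nec_s τ (nec_it c τ (fun l => X (Fin.castAdd n l)) y k) (c.q l) -
            nec_s τ (nec_it c τ (fun l => X (Fin.castAdd n l)) z k) (c.q l)) -
          (nec_s τ (nec_it c τ (fun l => X (Fin.castAdd n l)) y k) (c.p l) -
            nec_s τ (nec_it c τ (fun l => X (Fin.castAdd n l)) z k) (c.p l))) := by
      show (X (Fin.castAdd n l) + C τ * (X (Fin.castAdd n l) *
        nec_s τ (nec_it c τ (fun l => X (Fin.castAdd n l)) y k) (c.q l) -
        nec_s τ (nec_it c τ (fun l => X (Fin.castAdd n l)) y k) (c.p l))) -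
        (X (Fin.castAdd n l) + C τ * (X (Fin.castAdd n l) *
        nec_s τ (nec_it c τ (fun l => X (Fin.castAdd n l)) z k) (c.q l) -
        nec_s τ (nec_it c τ (fun l => X (Fin.castAdd n l)) z k) (c.p l))) = _
      ring
    rw [e]
    have hδ : (0:ℚ) ≤ 3 * (1 / 8) ^ k := by positivity
    have hq := nec_s_lip hs.le_one (nec_it_le hs hy k) (nec_it_le hs hz k) hδ ih (c.q l)
    have hp := nec_s_lip hs.le_one (nec_it_le hs hy k) (nec_it_le hs hz k) hδ ih (c.p l)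
    refine (nU_mul_le _ _).trans ?_
    rw [nU_C]
    have h1 := nec_sub (X (Fin.castAdd n l) *
          (nec_s τ (nec_it c τ (fun l => X (Fin.castAdd n l)) y k) (c.q l) -
            nec_s τ (nec_it c τ (fun l => X (Fin.castAdd n l)) z k) (c.q l)))
          (nec_s τ (nec_it c τ (fun l => X (Fin.castAdd n l)) y k) (c.p l) -
            nec_s τ (nec_it c τ (fun l => X (Fin.castAdd n l)) z k) (c.p l))
    have h2 : nU (X (Fin.castAdd n l) *
          (nec_s τ (nec_it c τ (fun l => X (Fin.castAdd n l)) y k) (c.q l) -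
            nec_s τ (nec_it c τ (fun l => X (Fin.castAdd n l)) z k) (c.q l))) ≤
          nW (c.q l) * (3 * (1 / 8) ^ k) := by
      refine (nU_mul_le _ _).trans ?_
      rw [nec_u, one_mul]
      exact hq
    have h3 : nU (X (Fin.castAdd n l) *
          (nec_s τ (nec_it c τ (fun l => X (Fin.castAdd n l)) y k) (c.q l) -
            nec_s τ (nec_it c τ (fun l => X (Fin.castAdd n l)) z k) (c.q l)) -
          (nec_s τ (nec_it c τ (fun l => X (Fin.castAdd n l)) y k) (c.p l) -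
            nec_s τ (nec_it c τ (fun l => X (Fin.castAdd n l)) z k) (c.p l))) ≤
          (nW (c.p l) + nW (c.q l)) * (3 * (1 / 8) ^ k) := by
      linarith
    have h4 := mul_le_mul_of_nonneg_left h3 (abs_nonneg τ)
    have h5 := mul_le_mul_of_nonneg_right (hs.pq l) hδ
    calc _ ≤ |τ| * ((nW (c.p l) + nW (c.q l)) * (3 * (1 / 8) ^ k)) := h4
      _ = |τ| * (nW (c.p l) + nW (c.q l)) * (3 * (1 / 8) ^ k) := by ring
      _ ≤ 1 / 8 * (3 * (1 / 8) ^ k) := h5
      _ = 3 * (1 / 8) ^ (k + 1) := by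
        rw [pow_succ]
        ring

private theorem nec_uP_s {n : ℕ} (τ : ℚ) (y : Fin n → MvPolynomial (Fin n) ℚ) (G : TP n ℚ) :
    uP n (nec_s τ y G) = nec_s τ (fun l => uP n (y l)) G := by
  have h1 : (uP n).comp (nec_s τ y) = nec_s τ (fun l => uP n (y l)) := by
    refine MvPolynomial.algHom_ext fun i => ?_
    refine Fin.cases ?_ (fun l => ?_) i
    · rw [AlgHom.comp_apply, nec_s_zero, nec_s_zero, uP, rename_C]
    · rw [AlgHom.comp_apply, nec_s_succ, nec_s_succ]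
  exact congrArg (fun f => f G) h1

private theorem nec_uP_it {n : ℕ} (c : CD n ℚ) (τ : ℚ) (k : ℕ) : ∀ l : Fin n,
    uP n (nec_it c τ (fun l => X l) (fun l => X l) k l) =
      nec_it c τ (fun l => X (Fin.castAdd n l)) (fun l => X (Fin.castAdd n l)) k l := by
  have hX : ∀ l : Fin n, uP n (X l) = X (Fin.castAdd n l) := fun l => by
    rw [uP, rename_X]
  induction k with
  | zero =>
    intro l
    exact hX l
  | succ k ih =>
    intro l
    have ih' : (fun l => uP n (nec_it c τ (fun l => X l) (fun l => X l) k l)) =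
      nec_it c τ (fun l => X (Fin.castAdd n l)) (fun l => X (Fin.castAdd n l)) k := funext ih
    show uP n (X l + C τ * (X l * nec_s τ (nec_it c τ (fun l => X l) (fun l => X l) k) (c.q l) -
      nec_s τ (nec_it c τ (fun l => X l) (fun l => X l) k) (c.p l))) =
      X (Fin.castAdd n l) + C τ * (X (Fin.castAdd n l) *
      nec_s τ (nec_it c τ (fun l => X (Fin.castAdd n l)) (fun l => X (Fin.castAdd n l)) k) (c.q l) -
      nec_s τ (nec_it c τ (fun l => X (Fin.castAdd n l)) (fun l => X (Fin.castAdd n l)) k) (c.p l))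
    rw [map_add, map_mul, map_sub, map_mul, nec_uP_s, nec_uP_s, ih', hX]
    rw [uP, rename_C]

/-- Modulo the ideal, every polynomial in `x` is close to a polynomial in `u`.

Proof. Let `y : Fin n → MvPolynomial (Fin (n + n)) ℚ` and `sub y : TP n ℚ →ₐ MvPolynomial (Fin (n + n)) ℚ`, `t ↦ C τ`, `x_l ↦ y l`. Let `Ψ^0_l = X (natAdd n l)`, `Ψ^(k+1)_l = u_l + C τ * (u_l * sub Ψ^k (q l) - sub Ψ^k (p l))` with `u_l = X (castAdd n l)`, and let `Φ^k` be the same sequence with `Φ^0_l = u_l`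
(polynomials in `u`: in the range of `uP n`). (1) `X (natAdd n l) - Ψ^k_l ∈ idT` by induction: `X (natAdd n l) - u_l - C τ * (u_l * xP (q l) - xP (p l))` is the generator of `idT`, and if `y l - y' l ∈ idT` for all `l`, then `sub y F - sub y' F ∈ idT`. (2) `nU Ψ^k_l ≤ 2`,
`nU Φ^k_l ≤ 2` by induction: `nU u_l = 1`, `nU (sub y F) ≤ ∑ |coeff| 2 ^ |m| ≤ nW F` if `nU (y l) ≤ 2`, and `1 + |τ| (nW q + nW p) ≤ 9 / 8`. (3) If `nU (y l), nU (y' l) ≤ 2` and `nU (y l - y' l) ≤ δ` for all `l`, then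
`nU (sub y F - sub y' F) ≤ nW F * δ` (monomials: `|m| 2 ^ |m| ≤ 4 ^ |m|`). Hence `nU (Ψ^k_l - Φ^k_l) ≤ 3 * 8 ^ (-k)`. So `xP G = sub Ψ^0 G ≡ sub Ψ^k G` modulo `idT`, and `sub Ψ^k G = sub Φ^k G + R` with `nU R ≤ nW G * 3 * 8 ^ (-k) ≤ ε` for large `k`. -/
theorem exists_approx {n : ℕ} {c : CD n ℚ} {τ : ℚ} (hs : Small c |τ|) (G : TP n ℚ) {ε : ℚ} (hε : 0 < ε) :
    ∃ (g : MvPolynomial (Fin n) ℚ) (R : MvPolynomial (Fin (n + n)) ℚ), nU R ≤ ε ∧
      xP n τ G - uP n g - R ∈ idT c τ := by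
  have hnW : 0 ≤ nW G := Finset.sum_nonneg fun _ _ => mul_nonneg (abs_nonneg _) (by positivity)
  obtain ⟨k, hk⟩ : ∃ k : ℕ, ((1:ℚ) / 8) ^ k < ε / (3 * (nW G + 1)) :=
    exists_pow_lt_of_lt_one (by positivity) (by norm_num)
  have hu : ∀ l : Fin n, nU (X (Fin.castAdd n l) : MvPolynomial (Fin (n + n)) ℚ) ≤ 2 := fun l => by
    rw [nec_u]
    norm_num
  have hd : ∀ l : Fin n, nU ((X (Fin.natAdd n l) : MvPolynomial (Fin (n + n)) ℚ) -
      X (Fin.castAdd n l)) ≤ 3 := fun l => by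
    have h1 := nec_sub (X (Fin.natAdd n l) : MvPolynomial (Fin (n + n)) ℚ) (X (Fin.castAdd n l))
    rw [nec_u] at h1
    have h2 := nec_x l
    linarith
  refine ⟨nec_s τ (nec_it c τ (fun l => X l) (fun l => X l) k) G,
    nec_s τ (nec_it c τ (fun l => X (Fin.castAdd n l)) (fun l => X (Fin.natAdd n l)) k) G -
    nec_s τ (nec_it c τ (fun l => X (Fin.castAdd n l)) (fun l => X (Fin.castAdd n l)) k) G, ?_, ?_⟩
  · have h1 := nec_s_lip hs.le_one (nec_it_le hs nec_x k) (nec_it_le hs hu k)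
      (by positivity : (0:ℚ) ≤ 3 * (1 / 8) ^ k) (nec_it_sub hs nec_x hu hd k) G
    refine h1.trans ?_
    have h2 : (0:ℚ) < 3 * (nW G + 1) := by positivity
    rw [lt_div_iff₀ h2] at hk
    have h3 : (0:ℚ) < (1 / 8) ^ k := by positivity
    calc nW G * (3 * (1 / 8) ^ k) ≤ (nW G + 1) * (3 * (1 / 8) ^ k) :=
          mul_le_mul_of_nonneg_right (by linarith) (by positivity)
      _ = (1 / 8) ^ k * (3 * (nW G + 1)) := by ring
      _ ≤ ε := hk.le
  · rw [nec_uP_s]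
    have ih' : (fun l => uP n (nec_it c τ (fun l => X l) (fun l => X l) k l)) =
      nec_it c τ (fun l => X (Fin.castAdd n l)) (fun l => X (Fin.castAdd n l)) k :=
      funext (nec_uP_it c τ k)
    rw [ih']
    have h1 := nec_s_mem τ (idT c τ) (nec_psi_mem c τ k) G
    rw [← nec_xP] at h1
    have e : xP n τ G -
        nec_s τ (nec_it c τ (fun l => X (Fin.castAdd n l)) (fun l => X (Fin.castAdd n l)) k) G -
        (nec_s τ (nec_it c τ (fun l => X (Fin.castAdd n l)) (fun l => X (Fin.natAdd n l)) k) G -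
        nec_s τ (nec_it c τ (fun l => X (Fin.castAdd n l)) (fun l => X (Fin.castAdd n l)) k) G) =
        xP n τ G -
        nec_s τ (nec_it c τ (fun l => X (Fin.castAdd n l)) (fun l => X (Fin.natAdd n l)) k) G := by
      ring
    rw [e]
    exact h1

private theorem nec_one_sub {n : ℕ} {z : MvPolynomial (Fin (n + n)) ℚ} {δ : ℚ} (hz : nU z ≤ δ)
    (hδ : δ ≤ 1) (K : ℕ) : nU (1 - (1 - z) ^ K) ≤ K * 2 ^ K * δ := by
  have hδ0 : 0 ≤ δ := (nU_nonneg _).trans hz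
  have h1z : nU (1 - z) ≤ 2 := by
    have := nec_sub (1 : MvPolynomial (Fin (n + n)) ℚ) z
    rw [nec_one] at this
    linarith
  induction K with
  | zero => rw [pow_zero, sub_self, nec_zero]; simp
  | succ K ih =>
    have e : 1 - (1 - z) ^ (K + 1) = (1 - (1 - z) ^ K) + z * (1 - z) ^ K := by ring
    rw [e]
    refine (nU_add_le _ _).trans ?_
    have h2 : nU (z * (1 - z) ^ K) ≤ δ * 2 ^ K :=
      (nU_mul_le _ _).trans (mul_le_mul hz (nec_pow h1z K) (nU_nonneg _) hδ0)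
    have h3 : (K:ℚ) * 2 ^ K * δ + δ * 2 ^ K ≤ ((K + 1 : ℕ) : ℚ) * 2 ^ (K + 1) * δ := by
      have h4 : ((K + 1 : ℕ) : ℚ) * 2 ^ (K + 1) * δ = 2 * ((K:ℚ) * 2 ^ K * δ + δ * 2 ^ K) := by
        push_cast
        ring
      rw [h4]
      have h5 : 0 ≤ (K:ℚ) * 2 ^ K * δ + δ * 2 ^ K := by positivity
      linarith
    linarith

/-- Proof. Let `P = 1 - Q = - X 0 * s` and `Y = ∑_{i ≤ j} P ^ i`, `Y * Q = 1 - P ^ (j + 1)`; `nU (xP τ P) ≤ |τ| nW s ≤ 1 / 2`. `G = (G * Y ^ K) * Q ^ K + G * (1 - (Y Q) ^ K)` and `1 - (1 - P ^ (j + 1)) ^ K = P ^ (j + 1) * (..)` with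
`nU (xP τ (1 - (1 - P ^ (j + 1)) ^ K)) ≤ 2 ^ K * (1 / 2) ^ (j + 1)` (binomial theorem, or induction on `K`), small for large `j`. Fix `j` and apply `exists_approx` to `G * Y ^ K` with a small `ε'`, and multiply by `xP τ Q ^ K`, of norm at most `(3 / 2) ^ K`. -/
theorem exists_approx_frac {n : ℕ} {c : CD n ℚ} {τ : ℚ} (hs : Small c |τ|) (G : TP n ℚ) (K : ℕ) {ε : ℚ}
    (hε : 0 < ε) : ∃ (g : MvPolynomial (Fin n) ℚ) (R : MvPolynomial (Fin (n + n)) ℚ), nU R ≤ ε ∧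
      xP n τ G - uP n g * xP n τ c.Q ^ K - R ∈ idT c τ := by
  have hnW : 0 ≤ nW G := Finset.sum_nonneg fun _ _ => mul_nonneg (abs_nonneg _) (by positivity)
  obtain ⟨j, hj⟩ : ∃ j : ℕ, ((1:ℚ) / 2) ^ j < ε / (2 * ((nW G + 1) * ((K + 1) * 2 ^ K))) :=
    exists_pow_lt_of_lt_one (by positivity) (by norm_num)
  set P : TP n ℚ := 1 - c.Q with hP
  set Y : TP n ℚ := ∑ i ∈ Finset.range j, P ^ i with hY
  have hYQ : Y * c.Q = 1 - P ^ j := by
    have h1 := geom_sum_mul P j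
    have h2 : c.Q = -(P - 1) := by
      rw [hP]
      ring
    rw [h2, mul_neg, h1]
    ring
  have hPP : xP n τ P = -(C τ * xP n τ c.s) := by
    rw [hP, CD.Q]
    have : (1 : TP n ℚ) - (1 + X 0 * c.s) = -(X 0 * c.s) := by ring
    rw [this, map_neg, map_mul]
    rw [nec_xP, nec_s_zero]
  have hPn : nU (xP n τ P) ≤ 1 / 2 := by
    rw [hPP, nU_neg]
    refine (nU_mul_le _ _).trans ?_
    rw [nU_C]
    refine (mul_le_mul_of_nonneg_left (nU_xP_le hs.le_one _) (abs_nonneg _)).trans hs.s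
  have hQn : nU (xP n τ c.Q) ≤ 2 := by
    have h1 : xP n τ c.Q = 1 - xP n τ P := by
      rw [hP, map_sub, map_one]
      ring
    rw [h1]
    have := nec_sub (1 : MvPolynomial (Fin (n + n)) ℚ) (xP n τ P)
    rw [nec_one] at this
    linarith
  obtain ⟨g, R, hR, hm⟩ := exists_approx hs (G * Y ^ K) (ε := ε / (2 * 2 ^ K)) (by positivity)
  refine ⟨g, R * xP n τ c.Q ^ K + xP n τ G * (1 - (1 - xP n τ P ^ j) ^ K), ?_, ?_⟩
  · refine (nU_add_le _ _).trans ?_
    have h1 : nU (R * xP n τ c.Q ^ K) ≤ ε / (2 * 2 ^ K) * 2 ^ K :=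
      (nU_mul_le _ _).trans (mul_le_mul hR (nec_pow hQn K) (nU_nonneg _) (by positivity))
    have h2 : ε / (2 * 2 ^ K) * 2 ^ K = ε / 2 := by
      field_simp
    have h3 : nU (xP n τ P ^ j) ≤ (1 / 2) ^ j := nec_pow hPn j
    have h4 : ((1:ℚ) / 2) ^ j ≤ 1 := pow_le_one₀ (by norm_num) (by norm_num)
    have h5 := nec_one_sub h3 h4 K
    have h6 : nU (xP n τ G * (1 - (1 - xP n τ P ^ j) ^ K)) ≤
        nW G * (K * 2 ^ K * (1 / 2) ^ j) :=
      (nU_mul_le _ _).trans (mul_le_mul (nU_xP_le hs.le_one _) h5 (nU_nonneg _) hnW)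
    have h7 : nW G * ((K:ℚ) * 2 ^ K * (1 / 2) ^ j) ≤ ε / 2 := by
      have h8 : (0:ℚ) < 2 * ((nW G + 1) * ((K + 1) * 2 ^ K)) := by positivity
      rw [lt_div_iff₀ h8] at hj
      have h9 : nW G * ((K:ℚ) * 2 ^ K * (1 / 2) ^ j) ≤
          (nW G + 1) * (((K:ℚ) + 1) * 2 ^ K * (1 / 2) ^ j) := by
        refine mul_le_mul (by linarith) ?_ (by positivity) (by positivity)
        refine mul_le_mul_of_nonneg_right ?_ (by positivity)
        exact mul_le_mul_of_nonneg_right (by linarith) (by positivity)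
      have h10 : (nW G + 1) * (((K:ℚ) + 1) * 2 ^ K * (1 / 2) ^ j) =
          (1 / 2) ^ j * (2 * ((nW G + 1) * ((K + 1) * 2 ^ K))) / 2 := by ring
      rw [h10] at h9
      linarith
    linarith
  · have e1 : xP n τ G = xP n τ (G * Y ^ K) * xP n τ c.Q ^ K +
        xP n τ G * (1 - (1 - xP n τ P ^ j) ^ K) := by
      have h1 : xP n τ Y * xP n τ c.Q = 1 - xP n τ P ^ j := by
        rw [← map_mul, hYQ, map_sub, map_one, map_pow]
      rw [← h1, map_mul, map_pow]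
      ring
    have e2 : xP n τ G - uP n g * xP n τ c.Q ^ K -
        (R * xP n τ c.Q ^ K + xP n τ G * (1 - (1 - xP n τ P ^ j) ^ K)) =
        xP n τ c.Q ^ K * (xP n τ (G * Y ^ K) - uP n g - R) := by
      linear_combination e1
    rw [e2]
    exact (idT c τ).mul_mem_left _ hm

/-- Completeness. Proof: `exists_approx_frac` with `2 ^ K * ε < |JT c G K τ| / 2`; `g = C a + ∑ l, pderiv l ((X l - X l ^ 2) * E l)` by `exists_prim`; the element of the ideal is `∑ l, S l * (..)` (`Ideal.mem_span_range_iff_exists_fun`);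
`abs_JT_sub_le` gives `|a| ≥ |JT| - 2 ^ K * nU R > 2 ^ K * nU R`. -/
theorem exists_neT {n : ℕ} {c : CD n ℚ} {τ : ℚ} (hs : Small c |τ|) {G : TP n ℚ} {K : ℕ}
    (h : JT c G K τ ≠ 0) : ∃ (a : ℚ) (E : Fin n → MvPolynomial (Fin n) ℚ)
      (R : MvPolynomial (Fin (n + n)) ℚ) (S : Fin n → MvPolynomial (Fin (n + n)) ℚ), IsNeT c G K τ a E R S := by
  have hpos : (0:ℝ) < |JT c G K τ| / (2 * 2 ^ K) := div_pos (abs_pos.2 h) (by positivity)
  obtain ⟨ε, hε0, hε1⟩ := exists_rat_btwn hpos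
  have hε : 0 < ε := by exact_mod_cast hε0
  obtain ⟨g, R, hR, hm⟩ := exists_approx_frac hs G K hε
  obtain ⟨E, hE⟩ := exists_prim n g
  obtain ⟨S, hS⟩ := Ideal.mem_span_range_iff_exists_fun.1 hm
  have heq : xP n τ G = uP n (C (Lam n g) + ∑ l, pderiv l ((X l - X l ^ 2) * E l)) *
      xP n τ c.Q ^ K + R + ∑ l, S l * (xP n τ (c.A l) - X (Fin.castAdd n l) * xP n τ (c.B l)) := by
    rw [← hE, hS]
    ring
  refine ⟨Lam n g, E, R, S, heq, ?_⟩
  have h1 := abs_JT_sub_le hs heq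
  have h2 : (0:ℝ) < 2 * 2 ^ K := by positivity
  rw [lt_div_iff₀ h2] at hε1
  have h3 : ((nU R : ℚ) : ℝ) ≤ (ε : ℝ) := by exact_mod_cast hR
  have h4 : (((2:ℚ) ^ K * nU R : ℚ) : ℝ) = (2:ℝ) ^ K * ((nU R : ℚ) : ℝ) := by push_cast; ring
  rw [h4] at h1
  have h5 : (2:ℝ) ^ K * ((nU R : ℚ) : ℝ) ≤ (2:ℝ) ^ K * (ε : ℝ) :=
    mul_le_mul_of_nonneg_left h3 (by positivity)
  have h6 : |JT c G K τ| - |((Lam n g : ℚ) : ℝ)| ≤ |JT c G K τ - ((Lam n g : ℚ) : ℝ)| :=
    abs_sub_abs_le_abs_sub _ _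
  have h7 : (2:ℝ) ^ K * ((nU R : ℚ) : ℝ) < |((Lam n g : ℚ) : ℝ)| := by
    have h8 : (ε:ℝ) * (2 * 2 ^ K) = 2 * ((2:ℝ) ^ K * (ε : ℝ)) := by ring
    rw [h8] at hε1
    linarith
  have h9 : (((2:ℚ) ^ K * nU R : ℚ) : ℝ) < ((|Lam n g| : ℚ) : ℝ) := by
    rw [h4, Rat.cast_abs]
    exact h7
  exact_mod_cast h9

end Pool.Agent.Lib.MP_bbe012_lc.PT
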