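import Pool.Agent.Lib.MP_bbe012_lc.PT.Nrm
import Pool.Agent.Lib.MP_bbe012_lc.PT.PhiT

/-!
# Stage 3: the value of the expansion is the integral
-/

namespace Pool.Agent.Lib.MP_bbe012_lc.PT

open MvPolynomial MeasureTheory Set Pool.Agent.Lib.MP_bbe012_lc.PP

private theorem ra_l1M_nonneg {n : ℕ} (p : MvPolynomial (Fin n) ℚ) : 0 ≤ l1M p :=
  Finset.sum_nonneg fun _ _ => abs_nonneg _

private theorem ra_cont {m : ℕ} (p : MvPolynomial (Fin m) ℚ) :
    Continuous fun x : Fin m → ℝ => aeval x p := by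
  have h : (fun x : Fin m → ℝ => aeval x p) =
      fun x => ∑ d ∈ p.support, algebraMap ℚ ℝ (coeff d p) * ∏ i, x i ^ d i := by
    funext x
    rw [aeval_def, eval₂_eq']
  rw [h]
  fun_prop

private theorem ra_summable {n : ℕ} {τ : ℚ} {x : Fin n → ℝ} (hx : x ∈ Icc (0 : Fin n → ℝ) 1)
    {f : PowerSeries (MvPolynomial (Fin n) ℚ)} (hf : SW n τ f) :
    Summable fun k => ‖aeval x (PowerSeries.coeff k f) * (τ : ℝ) ^ k‖ := by
  refine Summable.of_nonneg_of_le (fun k => norm_nonneg _) (fun k => ?_) hf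
  rw [norm_mul, norm_pow, Real.norm_eq_abs, Real.norm_eq_abs]
  exact mul_le_mul_of_nonneg_right (abs_aeval_le n _ hx) (pow_nonneg (abs_nonneg _) _)

private theorem ra_C {n : ℕ} (τ : ℚ) (x : Fin n → ℝ) (p : MvPolynomial (Fin n) ℚ) :
    evx n τ x (PowerSeries.C p) = aeval x p := by
  unfold evx
  rw [tsum_eq_single 0]
  · rw [PowerSeries.coeff_C, if_pos rfl, pow_zero, mul_one]
  · intro k hk
    rw [PowerSeries.coeff_C, if_neg hk, map_zero, zero_mul]

private theorem ra_X {n : ℕ} (τ : ℚ) (x : Fin n → ℝ) :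
    evx n τ x PowerSeries.X = (τ : ℝ) := by
  unfold evx
  rw [tsum_eq_single 1]
  · rw [PowerSeries.coeff_X, if_pos rfl, map_one, pow_one, one_mul]
  · intro k hk
    rw [PowerSeries.coeff_X, if_neg hk, map_zero, zero_mul]

private theorem ra_add {n : ℕ} {τ : ℚ} {x : Fin n → ℝ} (hx : x ∈ Icc (0 : Fin n → ℝ) 1)
    {f g : PowerSeries (MvPolynomial (Fin n) ℚ)} (hf : SW n τ f) (hg : SW n τ g) :
    evx n τ x (f + g) = evx n τ x f + evx n τ x g := by
  unfold evx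
  rw [← Summable.tsum_add (ra_summable hx hf).of_norm (ra_summable hx hg).of_norm]
  refine tsum_congr fun k => ?_
  rw [map_add, map_add, add_mul]

private theorem ra_abs_evx_le {n : ℕ} {τ b : ℚ} {x : Fin n → ℝ} (hx : x ∈ Icc (0 : Fin n → ℝ) 1)
    {f : PowerSeries (MvPolynomial (Fin n) ℚ)} (hf : RB n |τ| b f) : |evx n τ x f| ≤ (b : ℝ) := by
  have hw : SW n τ f := hf.sw
  have hnn : ∀ k, 0 ≤ ((l1M (PowerSeries.coeff k f) : ℚ) : ℝ) * |(τ : ℝ)| ^ k := fun k =>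
    mul_nonneg (by exact_mod_cast ra_l1M_nonneg _) (pow_nonneg (abs_nonneg _) _)
  have h1 : ‖∑' k, aeval x (PowerSeries.coeff k f) * (τ : ℝ) ^ k‖ ≤
      ∑' k, ((l1M (PowerSeries.coeff k f) : ℚ) : ℝ) * |(τ : ℝ)| ^ k := by
    refine tsum_of_norm_bounded (Summable.hasSum hw) fun k => ?_
    rw [norm_mul, norm_pow, Real.norm_eq_abs, Real.norm_eq_abs]
    exact mul_le_mul_of_nonneg_right (abs_aeval_le n _ hx) (pow_nonneg (abs_nonneg _) _)
  have h2 : ∑' k, ((l1M (PowerSeries.coeff k f) : ℚ) : ℝ) * |(τ : ℝ)| ^ k ≤ (b : ℝ) := by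
    refine Real.tsum_le_of_sum_range_le hnn fun N => ?_
    have h3 : ((∑ k ∈ Finset.range N, l1M (PowerSeries.coeff k f) * |τ| ^ k : ℚ) : ℝ) ≤
        (b : ℝ) := Rat.cast_le.2 (hf N)
    push_cast at h3
    exact h3
  unfold evx
  rw [← Real.norm_eq_abs]
  exact h1.trans h2

/-- Proof: as `evx_ser` (`RB.sw`, `evx_mul`, additivity). -/
theorem evx_th {n : ℕ} {c : CD n ℚ} {τ : ℚ} (hs : Small c |τ|) {u : Fin n → ℝ} (hu : u ∈ Icc (0 : Fin n → ℝ) 1)
    (G : TP n ℚ) : evx n τ u (th c.phi G) = aeval (pts c τ u) G := by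
  induction G using MvPolynomial.induction_on with
  | C a => rw [th_C, ra_C, aeval_C, aeval_C]
  | add p q hp hq => rw [map_add, ra_add hu (th_RB hs p).sw (th_RB hs q).sw, hp, hq, map_add]
  | mul_X p i hp =>
    rw [map_mul, evx_mul hu (th_RB hs p).sw (th_RB hs (X i)).sw, hp, map_mul, aeval_X]
    congr 1
    refine Fin.cases ?_ (fun l => ?_) i
    · rw [th_X0, ra_X]
      rfl
    · rw [th_Xs]
      rfl

/-- Proof: `phi_sub_RB`: `|evx (φ l) - u l| ≤ 1 / 8`. -/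
theorem pts_box {n : ℕ} {c : CD n ℚ} {τ : ℚ} (hs : Small c |τ|) {u : Fin n → ℝ} (hu : u ∈ Icc (0 : Fin n → ℝ) 1)
    (l : Fin n) : -1 ≤ pts c τ u l.succ ∧ pts c τ u l.succ ≤ 2 := by
  have h1 : pts c τ u l.succ = evx n τ u (c.phi l) := rfl
  have hd := phi_sub_RB hs l
  have h2 : SW n τ (PowerSeries.C (X l : MvPolynomial (Fin n) ℚ)) := by
    have h := SW_ser n τ (X l.succ)
    rwa [ser_X_succ] at h
  have h3 : c.phi l = (c.phi l - PowerSeries.C (X l)) + PowerSeries.C (X l) := by ring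
  have h4 : evx n τ u (c.phi l) = evx n τ u (c.phi l - PowerSeries.C (X l)) + u l := by
    conv_lhs => rw [h3]
    rw [ra_add hu hd.sw h2, ra_C, aeval_X]
  have h5 := abs_le.1 (ra_abs_evx_le hu hd)
  have h6 : (((1 / 8 : ℚ)) : ℝ) = 1 / 8 := by norm_num
  rw [h6] at h5
  have h7 : 0 ≤ u l := hu.1 l
  have h8 : u l ≤ 1 := hu.2 l
  rw [h1, h4]
  constructor
  · linarith [h5.1]
  · linarith [h5.2]

/-- Proof: `IsPhi.eq`, `evx_th`, `evx_mul`. -/
theorem pts_eq {n : ℕ} {c : CD n ℚ} {τ : ℚ} (hs : Small c |τ|) {u : Fin n → ℝ} (hu : u ∈ Icc (0 : Fin n → ℝ) 1)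
    (l : Fin n) : aeval (pts c τ u) (c.A l) = u l * aeval (pts c τ u) (c.B l) := by
  have h2 : SW n τ (PowerSeries.C (X l : MvPolynomial (Fin n) ℚ)) := by
    have h := SW_ser n τ (X l.succ)
    rwa [ser_X_succ] at h
  rw [← evx_th hs hu, ← evx_th hs hu, c.phi_spec.eq l, evx_mul hu h2 (th_RB hs _).sw, ra_C, aeval_X]

/-- Polynomials on the box. Proof: `|x_l| ≤ 2`, `|τ| ≤ 1`. -/
theorem abs_aeval_le_nW {n : ℕ} {τ : ℚ} (hτ : |τ| ≤ 1) {x : Fin n → ℝ} (hx : ∀ l, -1 ≤ x l ∧ x l ≤ 2) (G : TP n ℚ) :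
    |aeval (pt n τ x) G| ≤ ((nW G : ℚ) : ℝ) := by
  have hpt : ∀ i, |pt n τ x i| ≤ 4 := by
    intro i
    refine Fin.cases ?_ (fun l => ?_) i
    · change |(τ : ℝ)| ≤ 4
      have h1 : ((|τ| : ℚ) : ℝ) ≤ ((1 : ℚ) : ℝ) := Rat.cast_le.2 hτ
      push_cast at h1
      linarith
    · change |x l| ≤ 4
      rw [abs_le]
      constructor
      · linarith [(hx l).1]
      · linarith [(hx l).2]
  rw [aeval_def, eval₂_eq']
  unfold nW
  rw [Rat.cast_sum]
  refine (Finset.abs_sum_le_sum_abs _ _).trans (Finset.sum_le_sum fun d _ => ?_)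
  rw [abs_mul, eq_ratCast, Rat.cast_mul, Rat.cast_abs, Rat.cast_pow]
  refine mul_le_mul_of_nonneg_left ?_ (abs_nonneg _)
  rw [Finset.abs_prod, ← Finset.prod_pow_eq_pow_sum]
  refine Finset.prod_le_prod (fun i _ => abs_nonneg _) fun i _ => ?_
  rw [abs_pow]
  have h4 : ((4 : ℚ) : ℝ) = 4 := by norm_num
  rw [h4]
  exact pow_le_pow_left₀ (abs_nonneg _) (hpt i) _

private theorem ra_one_add {n : ℕ} {τ : ℚ} (h1 : |τ| ≤ 1) {x : Fin n → ℝ} (hx : ∀ l, -1 ≤ x l ∧ x l ≤ 2)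
    (s : TP n ℚ) (h : |τ| * nW s ≤ 1 / 2) : 1 / 2 ≤ aeval (pt n τ x) (1 + X 0 * s) := by
  rw [map_add, map_one, map_mul, aeval_X]
  have h0 : pt n τ x 0 = (τ : ℝ) := rfl
  rw [h0]
  have h2 := abs_aeval_le_nW h1 hx s
  have h3 : |(τ : ℝ) * aeval (pt n τ x) s| ≤ 1 / 2 := by
    rw [abs_mul]
    have h4 : ((|τ| * nW s : ℚ) : ℝ) ≤ ((1 / 2 : ℚ) : ℝ) := Rat.cast_le.2 h
    push_cast at h4
    exact (mul_le_mul_of_nonneg_left h2 (abs_nonneg _)).trans h4
  have h5 := (abs_le.1 h3).1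
  linarith

/-- Proof: `Q = 1 + X 0 * s`, `|τ s| ≤ |τ| nW s ≤ 1 / 2`. -/
theorem half_le_Q {n : ℕ} {c : CD n ℚ} {τ : ℚ} (hs : Small c |τ|) {x : Fin n → ℝ} (hx : ∀ l, -1 ≤ x l ∧ x l ≤ 2) :
    1 / 2 ≤ aeval (pt n τ x) c.Q :=
  ra_one_add hs.le_one hx c.s hs.s

theorem half_le_B {n : ℕ} {c : CD n ℚ} {τ : ℚ} (hs : Small c |τ|) {x : Fin n → ℝ} (hx : ∀ l, -1 ≤ x l ∧ x l ≤ 2)
    (l : Fin n) : 1 / 2 ≤ aeval (pt n τ x) (c.B l) := by
  refine ra_one_add hs.le_one hx (c.q l) ?_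
  have h1 := hs.pq l
  have h2 := mul_nonneg hs.nonneg (nW_nonneg (c.p l))
  rw [mul_add] at h1
  linarith

private theorem ra_h_pow {n : ℕ} {c : CD n ℚ} {τ : ℚ} (hs : Small c |τ|) (K : ℕ) : SW n τ (c.h ^ K) :=
  (RB.pow hs.nonneg (h_RB hs) K).sw

private theorem ra_SW {n : ℕ} {c : CD n ℚ} {τ : ℚ} (hs : Small c |τ|) (G : TP n ℚ) (K : ℕ) :
    SW n τ (th c.phi G * c.h ^ K) :=
  SW.mul (th_RB hs G).sw (ra_h_pow hs K)

/-- **The value of the expansion is the integral.** Proof: as `integral_eq_ev` (PP/Sem.lean): `G / Q ^ K` at the point `pts c τ u` is `evx n τ u (th G * h ^ K)` (`evx_mul`, `evx_th`, `Q_mul_h`); integrate term by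
term with the bound `th_RB`, `h_RB`, `RB.mul`, and `integral_poly`. -/
theorem JT_eq_ev {n : ℕ} {c : CD n ℚ} {τ : ℚ} (hs : Small c |τ|) (G : TP n ℚ) (K : ℕ) :
    JT c G K τ = ev τ (PhiT c G K) := by
  have hF : SW n τ (th c.phi G * c.h ^ K) := ra_SW hs G K
  have hS : SW n τ c.h := (h_RB hs).sw
  have hpt : EqOn (fun u => aeval (pts c τ u) G / aeval (pts c τ u) c.Q ^ K)
      (fun u => evx n τ u (th c.phi G * c.h ^ K)) (Icc (0 : Fin n → ℝ) 1) := by
    intro u hu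
    have hone : evx n τ u (1 : PowerSeries (MvPolynomial (Fin n) ℚ)) = 1 := by
      rw [← map_one (th c.phi), evx_th hs hu, map_one]
    have hp : pts c τ u = pt n τ (fun l => pts c τ u l.succ) := by
      funext i
      refine Fin.cases ?_ (fun l => ?_) i
      · rfl
      · rfl
    have hpos : 0 < aeval (pts c τ u) c.Q := by
      rw [hp]
      exact lt_of_lt_of_le (by norm_num) (half_le_Q hs fun l => pts_box hs hu l)
    have h1 : evx n τ u c.h * aeval (pts c τ u) c.Q = 1 := by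
      rw [← evx_th hs hu, mul_comm, ← evx_mul hu (th_RB hs c.Q).sw hS, Q_mul_h, hone]
    have h2 : ∀ K : ℕ, evx n τ u (c.h ^ K) * aeval (pts c τ u) c.Q ^ K = 1 := by
      intro K
      induction K with
      | zero => rw [pow_zero, pow_zero, mul_one, hone]
      | succ K ih =>
        rw [pow_succ, pow_succ, evx_mul hu (ra_h_pow hs K) hS]
        calc evx n τ u (c.h ^ K) * evx n τ u c.h *
            (aeval (pts c τ u) c.Q ^ K * aeval (pts c τ u) c.Q)
            = (evx n τ u (c.h ^ K) * aeval (pts c τ u) c.Q ^ K) *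
              (evx n τ u c.h * aeval (pts c τ u) c.Q) := by ring
          _ = 1 := by rw [ih, h1, mul_one]
    change aeval (pts c τ u) G / aeval (pts c τ u) c.Q ^ K = evx n τ u (th c.phi G * c.h ^ K)
    rw [evx_mul hu (th_RB hs G).sw (ra_h_pow hs K), evx_th hs hu, div_eq_iff (pow_pos hpos K).ne']
    linear_combination -(aeval (pts c τ u) G) * h2 K
  unfold JT
  rw [setIntegral_congr_fun measurableSet_Icc hpt]
  unfold evx
  rw [← integral_tsum_of_summable_integral_norm]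
  · unfold ev PhiT
    refine tsum_congr fun k => ?_
    rw [integral_mul_const, integral_poly, coeff_LamS]
  · intro k
    exact ((ra_cont _).mul continuous_const).continuousOn.integrableOn_compact isCompact_Icc
  · refine Summable.of_nonneg_of_le (fun k => integral_nonneg fun _ => norm_nonneg _) (fun k => ?_)
      (hF.mul_right (volume.real (Icc (0 : Fin n → ℝ) 1)))
    have h1 : ∀ x ∈ Icc (0 : Fin n → ℝ) 1,
        ‖‖aeval x (PowerSeries.coeff k (th c.phi G * c.h ^ K)) * (τ : ℝ) ^ k‖‖ ≤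
        ((l1M (PowerSeries.coeff k (th c.phi G * c.h ^ K)) : ℚ) : ℝ) * |(τ : ℝ)| ^ k := by
      intro x hx
      rw [norm_norm, norm_mul, norm_pow, Real.norm_eq_abs, Real.norm_eq_abs]
      exact mul_le_mul_of_nonneg_right (abs_aeval_le n _ hx) (pow_nonneg (abs_nonneg _) _)
    have h2 := norm_setIntegral_le_of_norm_le_const (μ := volume)
      (isCompact_Icc (a := (0 : Fin n → ℝ)) (b := 1)).measure_lt_top h1
    rw [Real.norm_of_nonneg (integral_nonneg fun _ => norm_nonneg _)] at h2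
    exact h2

/-- Summability of the expansion at `τ` (compare `summable_Phi`). -/
theorem summable_PhiT {n : ℕ} {c : CD n ℚ} {τ : ℚ} (hs : Small c |τ|) (G : TP n ℚ) (K : ℕ) :
    Summable fun k => |((PowerSeries.coeff k (PhiT c G K) : ℚ) : ℝ)| * |(τ : ℝ)| ^ k := by
  have h1 : SW n τ (th c.phi G * c.h ^ K) := ra_SW hs G K
  refine Summable.of_nonneg_of_le (fun k => mul_nonneg (abs_nonneg _)
    (pow_nonneg (abs_nonneg _) _)) (fun k => ?_) h1
  refine mul_le_mul_of_nonneg_right ?_ (pow_nonneg (abs_nonneg _) _)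
  unfold PhiT
  rw [coeff_LamS]
  exact_mod_cast abs_Lam_le n _

end Pool.Agent.Lib.MP_bbe012_lc.PT
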