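import Pool.Agent.Lib.MP_bbe012_lc.PT.CertT
import Pool.Agent.Lib.MP_bbe012_lc.PT.RealA

/-!
# Stage 3: soundness of the certificates for a non zero value
-/

namespace Pool.Agent.Lib.MP_bbe012_lc.PT

open MvPolynomial MeasureTheory Set Pool.Agent.Lib.MP_bbe012_lc.PP

/-- The real point `(u, φ(u, τ))`. -/
noncomputable def ptu {n : ℕ} (c : CD n ℚ) (τ : ℚ) (u : Fin n → ℝ) : Fin (n + n) → ℝ :=
  Fin.append u fun l => evx n τ u (c.phi l)

theorem aeval_xP {n : ℕ} (c : CD n ℚ) (τ : ℚ) (u : Fin n → ℝ) (G : TP n ℚ) :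
    aeval (ptu c τ u) (xP n τ G) = aeval (pts c τ u) G := by
  unfold xP
  rw [← AlgHom.comp_apply, comp_aeval]
  congr 2
  funext i
  refine Fin.cases ?_ (fun l => ?_) i
  · change aeval (ptu c τ u) (C τ) = (τ : ℝ)
    rw [aeval_C]
    rfl
  · change aeval (ptu c τ u) (X (Fin.natAdd n l)) = evx n τ u (c.phi l)
    rw [aeval_X, ptu, Fin.append_right]

theorem aeval_uP {n : ℕ} (c : CD n ℚ) (τ : ℚ) (u : Fin n → ℝ) (p : MvPolynomial (Fin n) ℚ) :
    aeval (ptu c τ u) (uP n p) = aeval u p := by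
  unfold uP
  rw [aeval_rename]
  congr 2
  funext l
  change ptu c τ u (Fin.castAdd n l) = u l
  rw [ptu, Fin.append_left]

/-- Proof: `|u_l| ≤ 1`, `|x_l| ≤ 2` (`pts_box`). -/
theorem abs_aeval_le_nU {n : ℕ} {c : CD n ℚ} {τ : ℚ} (hs : Small c |τ|) {u : Fin n → ℝ}
    (hu : u ∈ Icc (0 : Fin n → ℝ) 1) (R : MvPolynomial (Fin (n + n)) ℚ) :
    |aeval (ptu c τ u) R| ≤ ((nU R : ℚ) : ℝ) := by
  rw [aeval_def, eval₂_eq']
  unfold nU
  rw [Rat.cast_sum]
  refine (Finset.abs_sum_le_sum_abs _ _).trans (Finset.sum_le_sum fun d _ => ?_)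
  rw [abs_mul, eq_ratCast, Rat.cast_mul, Rat.cast_abs, Rat.cast_pow]
  refine mul_le_mul_of_nonneg_left ?_ (abs_nonneg _)
  rw [Finset.abs_prod, Fin.prod_univ_add, ← Finset.prod_pow_eq_pow_sum]
  have h1 : ∏ l : Fin n, |ptu c τ u (Fin.castAdd n l) ^ d (Fin.castAdd n l)| ≤ 1 := by
    refine Finset.prod_le_one (fun l _ => abs_nonneg _) fun l _ => ?_
    rw [abs_pow, ptu, Fin.append_left]
    refine pow_le_one₀ (abs_nonneg _) ?_
    rw [abs_of_nonneg (hu.1 l)]
    exact hu.2 l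
  have h2 : ∏ l : Fin n, |ptu c τ u (Fin.natAdd n l) ^ d (Fin.natAdd n l)| ≤
      ∏ l : Fin n, (((2 : ℚ) : ℝ)) ^ d (Fin.natAdd n l) := by
    refine Finset.prod_le_prod (fun l _ => abs_nonneg _) fun l _ => ?_
    rw [abs_pow, ptu, Fin.append_right]
    refine pow_le_pow_left₀ (abs_nonneg _) ?_ _
    have h3 := pts_box hs hu l
    change -1 ≤ evx n τ u (c.phi l) ∧ evx n τ u (c.phi l) ≤ 2 at h3
    rw [abs_le]
    constructor
    · push_cast
      linarith [h3.1]
    · push_cast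
      linarith [h3.2]
  calc (∏ l : Fin n, |ptu c τ u (Fin.castAdd n l) ^ d (Fin.castAdd n l)|) *
        ∏ l : Fin n, |ptu c τ u (Fin.natAdd n l) ^ d (Fin.natAdd n l)|
      ≤ 1 * ∏ l : Fin n, |ptu c τ u (Fin.natAdd n l) ^ d (Fin.natAdd n l)| :=
        mul_le_mul_of_nonneg_right h1 (Finset.prod_nonneg fun l _ => abs_nonneg _)
    _ ≤ ∏ l : Fin n, (((2 : ℚ) : ℝ)) ^ d (Fin.natAdd n l) := by
        rw [one_mul]
        exact h2

private theorem nes_cont_poly {m : ℕ} (p : MvPolynomial (Fin m) ℚ) :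
    Continuous fun x : Fin m → ℝ => aeval x p := by
  have h : (fun x : Fin m → ℝ => aeval x p) =
      fun x => ∑ d ∈ p.support, algebraMap ℚ ℝ (coeff d p) * ∏ i, x i ^ d i := by
    funext x
    rw [aeval_def, eval₂_eq']
  rw [h]
  fun_prop

private theorem nes_cont_phi {n : ℕ} {c : CD n ℚ} {τ : ℚ} (hs : Small c |τ|) (l : Fin n) :
    ContinuousOn (fun u : Fin n → ℝ => evx n τ u (c.phi l)) (Icc (0 : Fin n → ℝ) 1) := by
  have hw : SW n τ (c.phi l) := (phi_RB hs l).sw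
  unfold evx
  refine continuousOn_tsum (u := fun k => ((l1M (PowerSeries.coeff k (c.phi l)) : ℚ) : ℝ) *
    |(τ : ℝ)| ^ k) (fun k => ?_) hw (fun k x hx => ?_)
  · exact ((nes_cont_poly _).mul continuous_const).continuousOn
  · rw [norm_mul, norm_pow, Real.norm_eq_abs, Real.norm_eq_abs]
    exact mul_le_mul_of_nonneg_right (abs_aeval_le n _ hx) (pow_nonneg (abs_nonneg _) _)

private theorem nes_cont_ptu {n : ℕ} {c : CD n ℚ} {τ : ℚ} (hs : Small c |τ|)
    (R : MvPolynomial (Fin (n + n)) ℚ) :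
    ContinuousOn (fun u : Fin n → ℝ => aeval (ptu c τ u) R) (Icc (0 : Fin n → ℝ) 1) := by
  have h1 : ContinuousOn (fun u : Fin n → ℝ => ptu c τ u) (Icc (0 : Fin n → ℝ) 1) := by
    refine continuousOn_pi.2 fun i => ?_
    refine Fin.addCases (fun l => ?_) (fun l => ?_) i
    · have h2 : (fun u : Fin n → ℝ => ptu c τ u (Fin.castAdd n l)) = fun u => u l := by
        funext u
        rw [ptu, Fin.append_left]
      rw [h2]
      exact (continuous_apply l).continuousOn
    · have h2 : (fun u : Fin n → ℝ => ptu c τ u (Fin.natAdd n l)) =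
          fun u => evx n τ u (c.phi l) := by
        funext u
        rw [ptu, Fin.append_right]
      rw [h2]
      exact nes_cont_phi hs l
  exact (nes_cont_poly R).comp_continuousOn h1

private theorem nes_half {n : ℕ} {c : CD n ℚ} {τ : ℚ} (hs : Small c |τ|) {u : Fin n → ℝ}
    (hu : u ∈ Icc (0 : Fin n → ℝ) 1) : 1 / 2 ≤ aeval (pts c τ u) c.Q := by
  have hp : pts c τ u = pt n τ (fun l => pts c τ u l.succ) := by
    funext i
    refine Fin.cases ?_ (fun l => ?_) i
    · rfl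
    · rfl
  rw [hp]
  exact half_le_Q hs fun l => pts_box hs hu l

/-- The value is close to `a`.

Proof. At the points `ptu c τ u` the last sum of `eq` vanishes (`pts_eq`), so `G / Q ^ K = a + ∑ ∂_l ((X l - X l ^ 2) E_l)(u) + R / Q ^ K`; integrate over the cube: the integral of the exact part is `0` (`integral_poly`, `Lam_pderiv`), and
`|R / Q ^ K| ≤ 2 ^ K nU R` (`half_le_Q` at the point `pts`, `pts_box`). (Everything is integrable: continuity of `u ↦ pts c τ u l` on the cube, as a uniformly convergent series of polynomials; or `aeval (pts c τ u) G / aeval (pts c τ u) Q ^ K` is bounded and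
measurable on the cube.) -/
theorem abs_JT_sub_le {n : ℕ} {c : CD n ℚ} {τ : ℚ} (hs : Small c |τ|) {G : TP n ℚ} {K : ℕ} {a : ℚ}
    {E : Fin n → MvPolynomial (Fin n) ℚ} {R : MvPolynomial (Fin (n + n)) ℚ}
    {S : Fin n → MvPolynomial (Fin (n + n)) ℚ}
    (heq : xP n τ G = uP n (C a + ∑ l, pderiv l ((X l - X l ^ 2) * E l)) * xP n τ c.Q ^ K + R +
      ∑ l, S l * (xP n τ (c.A l) - X (Fin.castAdd n l) * xP n τ (c.B l))) :
    |JT c G K τ - (a : ℝ)| ≤ ((2 ^ K * nU R : ℚ) : ℝ) := by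
  have hvol1 : volume (Icc (0 : Fin n → ℝ) 1) = 1 := by
    rw [Real.volume_Icc_pi]
    simp
  have hvol : volume.real (Icc (0 : Fin n → ℝ) 1) = 1 := by
    rw [Measure.real, hvol1, ENNReal.toReal_one]
  have hfin : volume (Icc (0 : Fin n → ℝ) 1) < ⊤ := by
    rw [hvol1]
    exact ENNReal.one_lt_top
  obtain ⟨P, hP⟩ : ∃ P : MvPolynomial (Fin n) ℚ,
      P = C a + ∑ l, pderiv l ((X l - X l ^ 2) * E l) := ⟨_, rfl⟩
  have hLam : Lam n P = a := by
    rw [hP, map_add, map_sum, Finset.sum_eq_zero (fun l _ => Lam_pderiv n l (E l)), add_zero]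
    have h1 := Lam_monomial n 0 a
    rw [show (monomial 0 a : MvPolynomial (Fin n) ℚ) = C a from rfl] at h1
    rw [h1]
    simp
  have hpos : ∀ u ∈ Icc (0 : Fin n → ℝ) 1, 0 < aeval (pts c τ u) c.Q := fun u hu =>
    lt_of_lt_of_le (by norm_num) (nes_half hs hu)
  have hpt : ∀ u ∈ Icc (0 : Fin n → ℝ) 1, aeval (pts c τ u) G =
      aeval u P * aeval (pts c τ u) c.Q ^ K + aeval (ptu c τ u) R := by
    intro u hu
    have h1 := congrArg (aeval (ptu c τ u)) heq
    rw [← hP, map_add, map_add, map_mul, map_pow, map_sum, aeval_xP, aeval_uP, aeval_xP] at h1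
    rw [h1, Finset.sum_eq_zero, add_zero]
    intro l _
    rw [map_mul, map_sub, map_mul, aeval_xP, aeval_xP, aeval_X, pts_eq hs hu l]
    have h2 : ptu c τ u (Fin.castAdd n l) = u l := by
      rw [ptu, Fin.append_left]
    rw [h2, sub_self, mul_zero]
  have hJ : JT c G K τ = a + ∫ u in Icc (0 : Fin n → ℝ) 1,
      aeval (ptu c τ u) R / aeval (pts c τ u) c.Q ^ K := by
    have h1 : JT c G K τ = ∫ u in Icc (0 : Fin n → ℝ) 1,
        (aeval u P + aeval (ptu c τ u) R / aeval (pts c τ u) c.Q ^ K) := by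
      unfold JT
      refine setIntegral_congr_fun measurableSet_Icc fun u hu => ?_
      have hne : aeval (pts c τ u) c.Q ^ K ≠ 0 := (pow_pos (hpos u hu) K).ne'
      show aeval (pts c τ u) G / aeval (pts c τ u) c.Q ^ K = _
      rw [hpt u hu]
      field_simp
    have hiP : IntegrableOn (fun u : Fin n → ℝ => aeval u P) (Icc (0 : Fin n → ℝ) 1) :=
      (nes_cont_poly P).continuousOn.integrableOn_compact isCompact_Icc
    have hiR : IntegrableOn (fun u : Fin n → ℝ => aeval (ptu c τ u) R /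
        aeval (pts c τ u) c.Q ^ K) (Icc (0 : Fin n → ℝ) 1) := by
      refine ContinuousOn.integrableOn_compact isCompact_Icc ?_
      refine (nes_cont_ptu hs R).div ?_ fun u hu => (pow_pos (hpos u hu) K).ne'
      have h2 : (fun u : Fin n → ℝ => aeval (pts c τ u) c.Q ^ K) =
          fun u => aeval (ptu c τ u) (xP n τ c.Q) ^ K := by
        funext u
        rw [aeval_xP]
      rw [h2]
      exact (nes_cont_ptu hs _).pow K
    rw [h1, integral_add hiP hiR, integral_poly, hLam]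
  have hR : |∫ u in Icc (0 : Fin n → ℝ) 1, aeval (ptu c τ u) R / aeval (pts c τ u) c.Q ^ K| ≤
      2 ^ K * ((nU R : ℚ) : ℝ) := by
    have h1 := norm_setIntegral_le_of_norm_le_const (μ := volume) (s := Icc (0 : Fin n → ℝ) 1)
      (f := fun u => aeval (ptu c τ u) R / aeval (pts c τ u) c.Q ^ K)
      (C := 2 ^ K * ((nU R : ℚ) : ℝ)) hfin (by
        intro u hu
        rw [Real.norm_eq_abs, abs_div, abs_of_pos (pow_pos (hpos u hu) K),
          div_le_iff₀ (pow_pos (hpos u hu) K)]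
        have h2 := abs_aeval_le_nU hs hu R
        have h3 : (1 : ℝ) ≤ 2 ^ K * aeval (pts c τ u) c.Q ^ K := by
          rw [← mul_pow]
          refine one_le_pow₀ ?_
          have := nes_half hs hu
          linarith
        have h4 : (0 : ℝ) ≤ ((nU R : ℚ) : ℝ) := (abs_nonneg _).trans h2
        calc |aeval (ptu c τ u) R| ≤ ((nU R : ℚ) : ℝ) := h2
          _ = 1 * ((nU R : ℚ) : ℝ) := (one_mul _).symm
          _ ≤ (2 ^ K * aeval (pts c τ u) c.Q ^ K) * ((nU R : ℚ) : ℝ) :=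
            mul_le_mul_of_nonneg_right h3 h4
          _ = 2 ^ K * ((nU R : ℚ) : ℝ) * aeval (pts c τ u) c.Q ^ K := by ring)
    rw [hvol, mul_one, Real.norm_eq_abs] at h1
    exact h1
  rw [hJ, add_sub_cancel_left]
  push_cast
  exact hR

theorem JT_ne_zero {n : ℕ} {c : CD n ℚ} {τ : ℚ} (hs : Small c |τ|) {G : TP n ℚ} {K : ℕ} {a : ℚ}
    {E : Fin n → MvPolynomial (Fin n) ℚ} {R : MvPolynomial (Fin (n + n)) ℚ}
    {S : Fin n → MvPolynomial (Fin (n + n)) ℚ} (h : IsNeT c G K τ a E R S) : JT c G K τ ≠ 0 := by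
  intro h0
  have h1 := abs_JT_sub_le hs h.eq
  rw [h0, zero_sub, abs_neg] at h1
  have h2 : ((2 ^ K * nU R : ℚ) : ℝ) < ((|a| : ℚ) : ℝ) := Rat.cast_lt.2 h.lt
  rw [Rat.cast_abs] at h2
  exact absurd h2 (not_lt.2 h1)

end Pool.Agent.Lib.MP_bbe012_lc.PT
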