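import Pool.Agent.Lib.MP_bbe012_lc.PP.KF

/-!
# Stage 3: reduction modulo exact elements, for general coordinates
-/

namespace Pool.Agent.Lib.MP_bbe012_lc.PT

open Module MvPolynomial Pool.Agent.Lib.MP_bbe012_lc Pool.Agent.Lib.MP_bbe012_lc.PP

private theorem KT2_lift {𝕜 V W : Type*} [Field 𝕜] [AddCommGroup V] [Module 𝕜 V] [AddCommGroup W]
    [Module 𝕜 W] (π : V →ₗ[𝕜] W) (hπ : Function.Surjective π) (T : V →ₗ[𝕜] V)
    (hT : ∀ v, π v = 0 → π (T v) = 0) : ∃ T' : W →ₗ[𝕜] W, ∀ v, T' (π v) = π (T v) := by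
  obtain ⟨g, hg⟩ := π.exists_rightInverse_of_surjective (LinearMap.range_eq_top.2 hπ)
  refine ⟨π ∘ₗ T ∘ₗ g, fun v => ?_⟩
  have h1 : π (g (π v)) = π v := LinearMap.congr_fun hg (π v)
  have h2 : π (T (g (π v) - v)) = 0 := hT _ (by rw [map_sub, h1, sub_self])
  rw [map_sub, map_sub, sub_eq_zero] at h2
  exact h2

private theorem KT2_sum {𝕜 V : Type*} [Field 𝕜] [AddCommGroup V] [Module 𝕜 V] {n : ℕ}
    (T : Fin n → V →ₗ[𝕜] V) {v : V} (hv : v ∈ ⨆ l, LinearMap.range (T l)) :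
    ∃ g : Fin n → V, v = ∑ l, T l (g l) := by
  classical
  let Φ : (Fin n → V) →ₗ[𝕜] V := ∑ l, T l ∘ₗ LinearMap.proj l
  have hΦ : ∀ g, Φ g = ∑ l, T l (g l) := by
    intro g
    simp only [Φ, LinearMap.sum_apply, LinearMap.comp_apply, LinearMap.proj_apply]
  have h1 : (⨆ l, LinearMap.range (T l)) ≤ LinearMap.range Φ := by
    refine iSup_le fun l => ?_
    rintro _ ⟨w, rfl⟩
    refine ⟨Pi.single l w, ?_⟩
    rw [hΦ, Finset.sum_eq_single l]
    · rw [Pi.single_eq_same]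
    · intro k _ hk
      rw [Pi.single_eq_of_ne hk, map_zero]
    · intro h
      exact absurd (Finset.mem_univ l) h
  obtain ⟨g, hg⟩ := h1 hv
  exact ⟨g, by rw [← hg, hΦ]⟩

/-- Proof: copy the proof of `reduction_M` (PP/KF.lean) with `u i` instead of `algebraMap (uS z i)` and `aeval (fun i => u (Fin.castAdd n i))` instead of `algebraMap ∘ phiT n z`. -/
theorem reduction_gen {p n : ℕ} {M : Type} [CommRing M] [Algebra ℚ M] (u : Fin ((p + 1) + n) → M)
    (dN : Fin ((p + 1) + n) → Derivation ℤ M M) (hdual : ∀ i k, dN i (u k) = if i = k then 1 else 0)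
    {Γ : ℕ → Submodule ℚ M} {c : ℕ}
    (hW : Weyl ((p + 1) + n) (fun i => LinearMap.mulLeft ℚ (u i)) (fun i => derL (dN i)) Γ c) :
    ∃ (r : ℕ) (e : Fin r → M) (ρ : MvPolynomial (Fin (p + 1)) ℚ), ρ ≠ 0 ∧
      ∀ v : M, ∃ (m : ℕ) (a : Fin r → MvPolynomial (Fin (p + 1)) ℚ) (g : Fin n → M),
        aeval (fun i => u (Fin.castAdd n i)) ρ ^ m * v =
          ∑ k, aeval (fun i => u (Fin.castAdd n i)) (a k) * e k +
            ∑ l, dN (xI p n l) ((u (xI p n l) - u (xI p n l) ^ 2) * g l) := by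
  classical
  have hdmul : ∀ i (a b : M), dN i (a * b) = a * dN i b + b * dN i a := by
    intro i a b
    rw [Derivation.leibniz, smul_eq_mul, smul_eq_mul]
  have hcomm : ∀ i j v, dN i (dN j v) = dN j (dN i v) := fun i j v => hW.DD i j v
  obtain ⟨T, hTdef⟩ : ∃ T : Fin n → M →ₗ[ℚ] M, T = fun l =>
      opF (LinearMap.mulLeft ℚ (u (Fin.natAdd (p + 1) l))) (derL (dN (Fin.natAdd (p + 1) l))) :=
    ⟨_, rfl⟩
  have hT0 : ∀ l v, T l v = dN (Fin.natAdd (p + 1) l) (u (Fin.natAdd (p + 1) l) * v -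
      u (Fin.natAdd (p + 1) l) * (u (Fin.natAdd (p + 1) l) * v)) := by
    intro l v
    rw [hTdef]
    rfl
  have hT : ∀ l v, T l v = dN (xI p n l) ((u (xI p n l) - u (xI p n l) ^ 2) * v) := by
    intro l v
    rw [hT0]
    change dN (Fin.natAdd (p + 1) l) _ = dN (Fin.natAdd (p + 1) l)
      ((u (Fin.natAdd (p + 1) l) - u (Fin.natAdd (p + 1) l) ^ 2) * v)
    congr 1
    ring
  have hne : ∀ (i : Fin (p + 1)) (l : Fin n), Fin.castAdd n i ≠ Fin.natAdd (p + 1) l := by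
    intro i l h
    have := congrArg Fin.val h
    rw [Fin.val_castAdd, Fin.val_natAdd] at this
    omega
  have hTmul : ∀ l (i : Fin (p + 1)) v, T l (u (Fin.castAdd n i) * v) = u (Fin.castAdd n i) * T l v := by
    intro l i v
    rw [hT0, hT0]
    have h1 : u (Fin.natAdd (p + 1) l) * (u (Fin.castAdd n i) * v) -
        u (Fin.natAdd (p + 1) l) * (u (Fin.natAdd (p + 1) l) * (u (Fin.castAdd n i) * v)) =
        u (Fin.castAdd n i) * (u (Fin.natAdd (p + 1) l) * v -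
          u (Fin.natAdd (p + 1) l) * (u (Fin.natAdd (p + 1) l) * v)) := by ring
    rw [h1, hdmul, hdual, if_neg (hne i l).symm, mul_zero, add_zero]
  have hTD : ∀ l (i : Fin (p + 1)) v,
      dN (Fin.castAdd n i) (T l v) = T l (dN (Fin.castAdd n i) v) := by
    intro l i v
    rw [hT0, hT0, hcomm, map_sub, hdmul, hdmul, hdmul, hdual, if_neg (hne i l), mul_zero, add_zero,
      mul_zero, add_zero]
  obtain ⟨R, hR⟩ : ∃ R : Submodule ℚ M, R = ⨆ l, LinearMap.range (T l) := ⟨_, rfl⟩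
  have hRmul : ∀ (i : Fin (p + 1)) v, v ∈ R → u (Fin.castAdd n i) * v ∈ R := by
    intro i
    have h1 : R ≤ R.comap (LinearMap.mulLeft ℚ (u (Fin.castAdd n i))) := by
      conv_lhs => rw [hR]
      refine iSup_le fun l => ?_
      rintro _ ⟨v, rfl⟩
      rw [Submodule.mem_comap, LinearMap.mulLeft_apply, ← hTmul, hR]
      exact Submodule.mem_iSup_of_mem l ⟨_, rfl⟩
    exact fun v hv => h1 hv
  have hRD : ∀ (i : Fin (p + 1)) v, v ∈ R → dN (Fin.castAdd n i) v ∈ R := by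
    intro i
    have h1 : R ≤ R.comap (derL (dN (Fin.castAdd n i))) := by
      conv_lhs => rw [hR]
      refine iSup_le fun l => ?_
      rintro _ ⟨v, rfl⟩
      rw [Submodule.mem_comap, derL_apply, hTD, hR]
      exact Submodule.mem_iSup_of_mem l ⟨_, rfl⟩
    exact fun v hv => h1 hv
  obtain ⟨ψ, hψ⟩ : ∃ ψ : MvPolynomial (Fin (p + 1)) ℚ →ₐ[ℚ] M,
      ψ = aeval (fun i => u (Fin.castAdd n i)) := ⟨_, rfl⟩
  have hψX : ∀ i, ψ (X i) = u (Fin.castAdd n i) := by
    intro i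
    rw [hψ, aeval_X]
  rw [← hψ]
  let _ : Module (MvPolynomial (Fin (p + 1)) ℚ) M := Module.compHom M ψ.toRingHom
  have hsm : ∀ (f : MvPolynomial (Fin (p + 1)) ℚ) (v : M), f • v = ψ f * v := fun f v => rfl
  have : IsScalarTower ℚ (MvPolynomial (Fin (p + 1)) ℚ) M :=
    ⟨fun a f v => by rw [hsm, hsm, map_smul, smul_mul_assoc]⟩
  have hRsm : ∀ (f : MvPolynomial (Fin (p + 1)) ℚ) (v : M), v ∈ R → f • v ∈ R := by
    intro f
    induction f using MvPolynomial.induction_on with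
    | C a =>
      intro v hv
      rw [← MvPolynomial.algebraMap_eq, algebraMap_smul]
      exact R.smul_mem a hv
    | add f g hf hg =>
      intro v hv
      rw [add_smul]
      exact R.add_mem (hf v hv) (hg v hv)
    | mul_X f i hf =>
      intro v hv
      rw [mul_smul]
      refine hf _ ?_
      rw [hsm, hψX]
      exact hRmul i v hv
  let R' : Submodule (MvPolynomial (Fin (p + 1)) ℚ) M :=
    { carrier := R
      add_mem' := fun {a b} ha hb => R.add_mem ha hb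
      zero_mem' := R.zero_mem
      smul_mem' := fun f v hv => hRsm f v hv }
  have hR' : ∀ v, v ∈ R' ↔ v ∈ R := fun v => Iff.rfl
  let π : M →ₗ[ℚ] (M ⧸ R') := R'.mkQ.restrictScalars ℚ
  have hπs : Function.Surjective π := Submodule.mkQ_surjective R'
  have hπ0 : ∀ v, π v = 0 ↔ v ∈ R := by
    intro v
    change R'.mkQ v = 0 ↔ _
    rw [Submodule.mkQ_apply, Submodule.Quotient.mk_eq_zero, hR']
  have hker : LinearMap.ker π = ⨆ l : Fin n, LinearMap.range
      (opF ((fun i => LinearMap.mulLeft ℚ (u i)) (Fin.natAdd (p + 1) l))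
        ((fun i => derL (dN i)) (Fin.natAdd (p + 1) l))) := by
    ext v
    rw [LinearMap.mem_ker, hπ0, hR, hTdef]
  have hlift : ∀ i : Fin (p + 1), ∃ T' : (M ⧸ R') →ₗ[ℚ] (M ⧸ R'), ∀ v,
      T' (π v) = π (derL (dN (Fin.castAdd n i)) v) := by
    intro i
    refine KT2_lift π hπs _ fun v hv => ?_
    rw [hπ0] at hv ⊢
    exact hRD i v hv
  choose D' hD' using hlift
  obtain ⟨C', hW'⟩ := cokerF_weyl (p := p + 1) (n := n) hW π hπs hker
    (mulVar ℚ (p + 1) (M ⧸ R')) D' (fun i v => by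
      rw [mulVar_apply]
      change (X i : MvPolynomial (Fin (p + 1)) ℚ) • R'.mkQ v = R'.mkQ _
      rw [← map_smul, hsm, hψX]
      rfl) (fun i v => hD' i v)
  obtain ⟨r, e0, ρ, hρ, hred⟩ := generic_reduction hW'
  choose e he using fun k => hπs (e0 k)
  refine ⟨r, e, ρ, hρ, fun v => ?_⟩
  obtain ⟨m, a, ha⟩ := hred (π v)
  have h1 : ρ ^ m • v - ∑ k, a k • e k ∈ R := by
    rw [← hπ0]
    change R'.mkQ _ = 0
    rw [map_sub, map_smul, map_sum, sub_eq_zero]
    refine Eq.trans ha (Finset.sum_congr rfl fun k _ => ?_)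
    rw [map_smul, ← he k]
    rfl
  rw [hR] at h1
  obtain ⟨g, hg⟩ := KT2_sum T h1
  refine ⟨m, a, g, ?_⟩
  rw [sub_eq_iff_eq_add, hsm, map_pow] at hg
  rw [hg, add_comm]
  congr 1
  exact Finset.sum_congr rfl fun l _ => hT l (g l)

end Pool.Agent.Lib.MP_bbe012_lc.PT
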