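import Pool.Agent.Lib.MP_bbe012_lc.PT.KT1
import Pool.Agent.Lib.MP_bbe012_lc.PT.KT2
import Pool.Agent.Lib.MP_bbe012_lc.PP.KG2

/-!
# Stage 3: generic reduction over a domain of parameters, for a chart
-/

namespace Pool.Agent.Lib.MP_bbe012_lc.PT

open Module MvPolynomial Pool.Agent.Lib.MP_bbe012_lc Pool.Agent.Lib.MP_bbe012_lc.PP

private theorem kt_uS_tI {p n : ℕ} {D : Type} [CommRing D] (z : Fin p → D) :
    uS (n := n) z (tI p n) = X 0 := by
  unfold uS tI
  rw [Fin.append_left, Fin.snoc_last]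

private theorem kt_uS_xI {p n : ℕ} {D : Type} [CommRing D] (z : Fin p → D) (l : Fin n) :
    uS (n := n) z (xI p n l) = X l.succ := by
  unfold uS xI
  rw [Fin.append_right]

private theorem kt_der {p n : ℕ} {D M : Type} [CommRing D] [CommRing M]
    [Algebra (MvPolynomial (Fin (n + 1)) D) M] {z : Fin p → D}
    {dM : Fin ((p + 1) + n) → Derivation ℤ M M} (hM : DerSys z dM) (l : Fin n)
    (s : MvPolynomial (Fin (n + 1)) D) :
    dM (xI p n l) (algebraMap (MvPolynomial (Fin (n + 1)) D) M s) =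
      algebraMap (MvPolynomial (Fin (n + 1)) D) M (pderiv l.succ s) := by
  induction s using MvPolynomial.induction_on with
  | C a => rw [hM.constX, pderiv_C, map_zero]
  | add a b ha hb => rw [map_add, map_add, ha, hb, map_add, map_add]
  | mul_X a j ha =>
    have hX : dM (xI p n l) (algebraMap (MvPolynomial (Fin (n + 1)) D) M (X j)) =
        algebraMap (MvPolynomial (Fin (n + 1)) D) M (pderiv l.succ (X j)) := by
      induction j using Fin.cases with
      | zero =>
        have h := hM.dual (xI p n l) (tI p n)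
        rw [kt_uS_tI] at h
        rw [h, pderiv_X]
        have h1 : xI p n l ≠ tI p n := by
          intro he
          have := congrArg Fin.val he
          simp only [xI, tI, Fin.val_natAdd, Fin.val_castAdd, Fin.val_last] at this
          omega
        rw [if_neg h1]
        simp
      | succ k =>
        have h := hM.dual (xI p n l) (xI p n k)
        rw [kt_uS_xI] at h
        rw [h, pderiv_X]
        by_cases hk : l = k
        · subst hk
          simp
        · have h1 : xI p n l ≠ xI p n k := by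
            intro he
            apply hk
            have := congrArg Fin.val he
            simp only [xI, Fin.val_natAdd] at this
            apply Fin.ext
            omega
          rw [if_neg h1]
          have h2 : k.succ ≠ l.succ := by
            intro h3
            exact hk (Fin.succ_injective _ h3).symm
          rw [Pi.single_eq_of_ne h2, map_zero]
    rw [map_mul, Derivation.leibniz, ha, hX, Derivation.leibniz, map_add, smul_eq_mul, smul_eq_mul,
      smul_eq_mul, smul_eq_mul, map_mul, map_mul]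

private theorem kt_alg {M : Type} [CommRing M] (d : Derivation ℤ M M) {cw q v F : M} (hcw : d cw = 0) (N : ℕ)
    (h : cw ^ N * q ^ (N + 2) * v = F) :
    cw ^ N * q ^ (N + 3) * d v = q * d F - ((N + 2 : ℕ) : M) * (F * d q) := by
  have h1 : d F = cw ^ N * (q ^ (N + 2) * d v + ((N + 2 : ℕ) : M) * (q ^ (N + 1) * d q) * v) := by
    rw [← h, Derivation.leibniz, Derivation.leibniz, Derivation.leibniz_pow, Derivation.leibniz_pow, hcw,
      smul_zero, smul_zero, smul_zero, add_zero]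
    simp only [smul_eq_mul, nsmul_eq_mul]
    have : N + 2 - 1 = N + 1 := by omega
    rw [this]
    ring
  rw [h1, ← h]
  ring

private theorem kt_sum {n : ℕ} {M : Type} [CommRing M] (cw q iQ : M) (hq : q * iQ = 1) (N : ℕ) (V d P : Fin n → M)
    (h : ∀ j, cw ^ N * q ^ (N + 3) * d j = P j) :
    (cw * q) ^ (N + 4) * (iQ * ∑ j, V j * d j) = cw ^ 4 * ∑ j, V j * P j := by
  have h1 : (cw * q) ^ (N + 4) * (iQ * ∑ j, V j * d j) =
      cw ^ 4 * ((q * iQ) * (cw ^ N * q ^ (N + 3) * ∑ j, V j * d j)) := by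
    rw [mul_pow]
    ring
  rw [h1, hq, one_mul, Finset.mul_sum]
  congr 1
  refine Finset.sum_congr rfl fun j _ => ?_
  rw [← h j]
  ring

/-- Exact elements, compare `exact_M` (PP/KG.lean).

Proof. `dM (xI j) (algebraMap s) = algebraMap (pderiv j.succ s)`. Write `g l = algebraMap (s l) / H ^ N`, `H = C w * Q` (common `N`, any `N ≥ N₀`), and `u_l - u_l ^ 2 = Ef l * iQ ^ 2` (`u_l = A_l C_l iQ`, `B_l C_l = Q`). `dM (xI j)` of
`Ef l * s l * iQ ^ 2 / H ^ N` is `(C w)^{-N}` times the derivative of `(Ef l * s l) / Q ^ (N + 2)`, i.e. `(C w)^{-N} (Q pderiv (Ef l * s l) - (N + 2) (Ef l * s l) pderiv Q) * iQ ^ (N + 3)` (`pderiv (C w) = 0`), so with the formula for `dN`: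
`H ^ (N + 4) * dN (xI l) (..) = C w ^ 4 * numV l (N + 2) (Ef l * s l)`. -/
theorem exact_T {p n : ℕ} {D M : Type} [CommRing D] [CommRing M] [Algebra (TP n D) M] {z : Fin p → D}
    {dM : Fin ((p + 1) + n) → Derivation ℤ M M} (hM : DerSys z dM) {c : CD n D} (hc : c.Ok) (w : D)
    [IsLocalization.Away (C w * c.Q) M] (iQ : M) (hiQ : algebraMap (TP n D) M c.Q * iQ = 1)
    (u : Fin n → M) (hu : ∀ l, u l = algebraMap (TP n D) M (c.A l * c.C l) * iQ)
    (dN : Fin n → Derivation ℤ M M)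
    (hN : ∀ l v, dN l v = iQ * ∑ j, algebraMap (TP n D) M (c.V l j) * dM (xI p n j) v) (g : Fin n → M) :
    ∃ N₀ : ℕ, ∀ N, N₀ ≤ N → ∃ s : Fin n → TP n D,
      algebraMap (TP n D) M (C w * c.Q) ^ (N + 4) * ∑ l, dN l ((u l - u l ^ 2) * g l) =
      algebraMap (TP n D) M (C w ^ 4 * c.divT N s) := by
  have hN' := hN
  clear hN
  have hs : ∀ l : Fin n, ∃ (k : ℕ) (a : TP n D),
      g l * algebraMap (TP n D) M (C w * c.Q) ^ k = algebraMap (TP n D) M a := by
    intro l
    obtain ⟨k, a, h⟩ := IsLocalization.Away.surj (C w * c.Q) (g l)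
    exact ⟨k, a, h⟩
  choose K a ha using hs
  refine ⟨Finset.univ.sup K, fun N hN => ⟨fun l => (C w * c.Q) ^ (N - K l) * a l, ?_⟩⟩
  have hg : ∀ l, algebraMap (TP n D) M (C w * c.Q) ^ N * g l =
      algebraMap (TP n D) M ((C w * c.Q) ^ (N - K l) * a l) := by
    intro l
    have hl : K l ≤ N := le_trans (Finset.le_sup (Finset.mem_univ l)) hN
    rw [map_mul _ ((C w * c.Q) ^ (N - K l)) (a l), ← ha, map_pow]
    calc algebraMap (TP n D) M (C w * c.Q) ^ N * g l
        = algebraMap (TP n D) M (C w * c.Q) ^ ((N - K l) + K l) * g l := by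
          rw [Nat.sub_add_cancel hl]
      _ = _ := by rw [pow_add]; ring
  set s : Fin n → TP n D := fun l => (C w * c.Q) ^ (N - K l) * a l with hsdef
  rw [CD.divT, Finset.mul_sum, Finset.mul_sum, map_sum]
  refine Finset.sum_congr rfl fun l _ => ?_
  have hgl := hg l
  change _ = algebraMap (TP n D) M (s l) at hgl
  generalize s l = σ at hgl ⊢
  have hcw : ∀ j, dM (xI p n j) (algebraMap (TP n D) M (C w)) = 0 := fun j => hM.constX j w
  have hE : algebraMap (TP n D) M (c.Ef l) * (iQ * iQ) = u l - u l ^ 2 := by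
    have h1 : c.Ef l = c.A l * c.C l * (c.Q - c.A l * c.C l) := by
      rw [← hc.bc l, CD.Ef]
      ring
    have h2 : algebraMap (TP n D) M (c.Ef l) = algebraMap (TP n D) M (c.A l * c.C l) *
        (algebraMap (TP n D) M c.Q - algebraMap (TP n D) M (c.A l * c.C l)) := by
      rw [h1, map_mul _ (c.A l * c.C l), map_sub]
    rw [h2, hu l]
    generalize algebraMap (TP n D) M (c.A l * c.C l) = y
    have h3 : y * (algebraMap (TP n D) M c.Q - y) * (iQ * iQ) =
        y * iQ * (algebraMap (TP n D) M c.Q * iQ) - (y * iQ) ^ 2 := by ring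
    rw [h3, hiQ, mul_one]
  have hF : algebraMap (TP n D) M (C w) ^ N * algebraMap (TP n D) M c.Q ^ (N + 2) * ((u l - u l ^ 2) * g l) =
      algebraMap (TP n D) M (c.Ef l * σ) := by
    rw [← hE, map_mul _ (c.Ef l) σ, ← hgl, map_mul _ (C w) c.Q, mul_pow]
    have h3 : algebraMap (TP n D) M (C w) ^ N * algebraMap (TP n D) M c.Q ^ (N + 2) *
        (algebraMap (TP n D) M (c.Ef l) * (iQ * iQ) * g l) =
        algebraMap (TP n D) M (c.Ef l) * (algebraMap (TP n D) M (C w) ^ N * algebraMap (TP n D) M c.Q ^ N * g l) *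
          (algebraMap (TP n D) M c.Q * iQ) ^ 2 := by ring
    rw [h3, hiQ, one_pow, mul_one]
  have hder : ∀ j, algebraMap (TP n D) M (C w) ^ N * algebraMap (TP n D) M c.Q ^ (N + 3) *
      dM (xI p n j) ((u l - u l ^ 2) * g l) =
      algebraMap (TP n D) M (c.Q * pderiv j.succ (c.Ef l * σ) -
        ((N + 2 : ℕ) : TP n D) * (c.Ef l * σ * pderiv j.succ c.Q)) := by
    intro j
    have h4 := kt_alg (dM (xI p n j)) (hcw j) N hF
    rw [kt_der hM, kt_der hM] at h4
    rw [h4]
    simp only [map_mul, map_sub, map_natCast]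
  rw [hN', map_mul _ (C w) c.Q, kt_sum _ _ _ hiQ N _ _ _ hder, CD.numV, map_mul _ (C w ^ 4), map_pow, map_sum]
  congr 1
  refine Finset.sum_congr rfl fun j _ => ?_
  rw [map_mul _ (c.V l j)]

private theorem kt_pd {n : ℕ} {D : Type} [CommRing D] (w : D) (i : Fin (n + 1)) (f : TP n D) :
    pderiv i (C w ^ 4 * f) = C w ^ 4 * pderiv i f := by
  rw [← map_pow, pderiv_C_mul]

private theorem kt_divT {n : ℕ} {D : Type} [CommRing D] (c : CD n D) (N : ℕ) (w : D)
    (s : Fin n → TP n D) : C w ^ 4 * c.divT N s = c.divT N (fun l => C w ^ 4 * s l) := by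
  rw [CD.divT, CD.divT, Finset.mul_sum]
  refine Finset.sum_congr rfl fun l _ => ?_
  rw [CD.numV, CD.numV, Finset.mul_sum]
  refine Finset.sum_congr rfl fun j _ => ?_
  have h1 : c.Ef l * (C w ^ 4 * s l) = C w ^ 4 * (c.Ef l * s l) := by ring
  rw [h1, kt_pd]
  ring

private theorem kt_inTD_C (n : ℕ) {D : Type} [CommRing D] (b : D) :
    inTD n D (Polynomial.C b) = C b := by
  change Polynomial.aeval (X 0 : MvPolynomial (Fin (n + 1)) D) (Polynomial.C b) = C b
  rw [Polynomial.aeval_C]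
  rfl

private theorem kt_Q_ne {n : ℕ} {D : Type} [CommRing D] [IsDomain D] (c : CD n D) : c.Q ≠ 0 := by
  intro h
  have h1 : atZD n D c.Q = 1 := by
    rw [CD.Q, map_add, map_one, map_mul]
    have h2 : atZD n D (X 0) = 0 := by
      rw [atZD, aeval_X]
      rfl
    rw [h2, zero_mul, add_zero]
  rw [h, map_zero] at h1
  exact zero_ne_one h1

private theorem kt_core {p n : ℕ} {D M E : Type} [CommRing D] [IsDomain D] [Algebra ℚ D]
    [CommRing M] [Algebra ℚ M] [Algebra.FiniteType ℚ M]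
    [Algebra (TP n D) M] [IsScalarTower ℚ (TP n D) M]
    [Field E] [Algebra (TP n D) E]
    [IsFractionRing (TP n D) E] [Algebra ℚ E]
    [IsScalarTower ℚ (TP n D) E] {z : Fin p → D}
    (hz : Function.Injective (aeval z : MvPolynomial (Fin p) ℚ →ₐ[ℚ] D))
    (hf : (aeval z : MvPolynomial (Fin p) ℚ →ₐ[ℚ] D).toRingHom.Finite)
    {dd : Fin ((p + 1) + n) → Derivation ℤ E E} {w : D} (hdd : DerSys z dd) (hw : w ≠ 0)
    (hwd : ∀ i (a : D), ∃ b : D, algebraMap (TP n D) E (C w) *
      dd i (algebraMap (TP n D) E (C a)) =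
      algebraMap (TP n D) E (C b))
    (hgr : ∀ V : Submodule ℚ E, V.FG →
        ∃ c : ℕ, ∀ k : ℕ, finrank ℚ (V ^ k : Submodule ℚ E) ≤ c * (k + 1) ^ ((p + 1) + n))
    {c : CD n D} (hc : c.Ok) [IsLocalization.Away (C w * c.Q) M] :
    ∃ (ρ : Polynomial D) (r : ℕ) (e : Fin r → TP n D) (κ : Fin r → ℕ),
      ρ ≠ 0 ∧ ∀ (G : TP n D) (K : ℕ), ∃ (m N : ℕ) (a : Fin r → Polynomial D)
        (g : Fin n → TP n D), K ≤ N + 4 ∧ (∀ k, κ k ≤ N + 4) ∧
        C w ^ (N + 4) * inTD n D ρ ^ m * (G * c.Q ^ (N + 4 - K)) =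
          ∑ k, inTD n D (a k) * (e k * c.Q ^ (N + 4 - κ k)) + c.divT N g := by
  have hQ : c.Q ≠ 0 := kt_Q_ne c
  obtain ⟨j, dM, hj, hjd, hDer⟩ := exists_restrict (M := M) hdd hw hwd c.Q hQ
  have huH : IsUnit (algebraMap (TP n D) M (C w * c.Q)) := IsLocalization.Away.algebraMap_isUnit (C w * c.Q)
  have huQ : IsUnit (algebraMap (TP n D) M c.Q) := by
    rw [map_mul] at huH
    exact isUnit_of_mul_isUnit_right huH
  obtain ⟨iQ, hiQ⟩ : ∃ iQ, algebraMap (TP n D) M c.Q * iQ = 1 := huQ.exists_right_inv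
  obtain ⟨u, dN, hcomm, hdual, hu1, hu2, hdN⟩ := exists_twist hDer
    (fun δ h => der_eq_zero hz hf j hj δ h) hc iQ hiQ
  obtain ⟨Γ, b, hW⟩ := weyl_of_growth (j.restrictScalars ℚ) hj hgr u dN hcomm hdual
  obtain ⟨r, e, ρ, hρ, hred⟩ := reduction_gen u dN hdual hW
  have hphi : ∀ q : MvPolynomial (Fin (p + 1)) ℚ, aeval (fun i => u (Fin.castAdd n i)) q =
      algebraMap (TP n D) M (phiT n z q) := by
    intro q
    have h1 : (fun i : Fin (p + 1) => u (Fin.castAdd n i)) =
        fun i : Fin (p + 1) => algebraMap (TP n D) M (uS z (Fin.castAdd n i)) := funext hu1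
    rw [h1]
    exact aeval_algebraMap_apply M (fun i : Fin (p + 1) => (uS z (Fin.castAdd n i) : TP n D)) q
  simp only [hphi] at hred
  have hsurj : ∀ k : Fin r, ∃ (i : ℕ) (s : TP n D),
      e k * algebraMap (TP n D) M (C w * c.Q) ^ i =
        algebraMap (TP n D) M s := fun k =>
    IsLocalization.Away.surj (C w * c.Q) (e k)
  choose κ s hs using hsurj
  obtain ⟨ρ', hρ', hρ0⟩ := exists_inTD n hz ρ
  have hCw : (C w : TP n D) ≠ 0 := by
    intro h
    exact hw (C_injective _ _ (h.trans (C_0).symm))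
  have hH : (C w * c.Q : TP n D) ≠ 0 := mul_ne_zero hCw hQ
  have hinj : Function.Injective (algebraMap (TP n D) M) :=
    IsLocalization.injective M (powers_le_nonZeroDivisors_of_noZeroDivisors hH)
  refine ⟨ρ', r, s, κ, hρ0 hρ, fun G K => ?_⟩
  obtain ⟨v, hv⟩ : ∃ v, algebraMap (TP n D) M (C w * c.Q) ^ K * v =
      algebraMap (TP n D) M (G * C w ^ K) := by
    obtain ⟨u', hu'⟩ := huH.pow K
    refine ⟨↑u'⁻¹ * algebraMap (TP n D) M (G * C w ^ K), ?_⟩
    rw [← hu', ← mul_assoc, Units.mul_inv, one_mul]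
  obtain ⟨m, a, g, h⟩ := hred v
  obtain ⟨N₀, hN⟩ := exact_T hDer hc w iQ hiQ (fun l => u (xI p n l)) hu2 (fun l => dN (xI p n l)) hdN g
  obtain ⟨N, hNN, hNK, hNκ⟩ : ∃ N, N₀ ≤ N ∧ K ≤ N ∧ ∀ k, κ k ≤ N := by
    refine ⟨N₀ + K + ∑ k, κ k, by omega, by omega, fun k => ?_⟩
    have := Finset.single_le_sum (f := κ) (fun i _ => Nat.zero_le _) (Finset.mem_univ k)
    omega
  obtain ⟨s', hs'⟩ := hN N hNN
  have ha : ∀ k, ∃ a' : Polynomial D, inTD n D a' = phiT n z (a k) := fun k => by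
    obtain ⟨a', ha', _⟩ := exists_inTD n hz (a k)
    exact ⟨a', ha'⟩
  choose a' ha' using ha
  refine ⟨m, N, fun k => Polynomial.C (w ^ (N + 4 - κ k)) * a' k, fun l => C w ^ 4 * s' l,
    by omega, fun k => le_trans (hNκ k) (Nat.le_add_right N 4), ?_⟩
  apply hinj
  rw [← kt_divT]
  have h1 : algebraMap (TP n D) M (C w * c.Q) ^ (N + 4) * v =
      algebraMap (TP n D) M (C w ^ (N + 4) * (G * c.Q ^ (N + 4 - K))) := by
    have h2 : N + 4 = (N + 4 - K) + K := by omega
    have h3 : (C w : TP n D) ^ (N + 4) = C w ^ (N + 4 - K) * C w ^ K := by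
      rw [← pow_add, ← h2]
    have h4 : algebraMap (TP n D) M (C w * c.Q) ^ (N + 4) =
        algebraMap (TP n D) M (C w * c.Q) ^ (N + 4 - K) *
          algebraMap (TP n D) M (C w * c.Q) ^ K := by
      rw [← pow_add, ← h2]
    rw [h4, mul_assoc, hv, ← map_pow, ← map_mul, h3, mul_pow]
    congr 1
    ring
  have h5 : ∀ k, algebraMap (TP n D) M (C w * c.Q) ^ (N + 4) * e k =
      algebraMap (TP n D) M
        (C w ^ (N + 4 - κ k) * (s k * c.Q ^ (N + 4 - κ k))) := by
    intro k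
    have h2 : N + 4 = (N + 4 - κ k) + κ k := by
      have := hNκ k
      omega
    have h4 : algebraMap (TP n D) M (C w * c.Q) ^ (N + 4) =
        algebraMap (TP n D) M (C w * c.Q) ^ (N + 4 - κ k) *
          algebraMap (TP n D) M (C w * c.Q) ^ κ k := by
      rw [← pow_add, ← h2]
    rw [h4, mul_assoc, mul_comm _ (e k), hs k, ← map_pow, ← map_mul, mul_pow]
    congr 1
    ring
  have h6 := congrArg
    (fun x => algebraMap (TP n D) M (C w * c.Q) ^ (N + 4) * x) h
  simp only [mul_add] at h6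
  rw [hs', Finset.mul_sum] at h6
  have hL : algebraMap (TP n D) M
      (C w ^ (N + 4) * inTD n D ρ' ^ m * (G * c.Q ^ (N + 4 - K))) =
      algebraMap (TP n D) M (C w * c.Q) ^ (N + 4) *
        (algebraMap (TP n D) M (phiT n z ρ) ^ m * v) := by
    rw [mul_left_comm (algebraMap (TP n D) M (C w * c.Q) ^ (N + 4)), h1, hρ']
    simp only [map_mul, map_pow]
    ring
  have hR : ∀ k, algebraMap (TP n D) M
      (inTD n D (Polynomial.C (w ^ (N + 4 - κ k)) * a' k) * (s k * c.Q ^ (N + 4 - κ k))) =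
      algebraMap (TP n D) M (C w * c.Q) ^ (N + 4) *
        (algebraMap (TP n D) M (phiT n z (a k)) * e k) := by
    intro k
    rw [mul_left_comm (algebraMap (TP n D) M (C w * c.Q) ^ (N + 4)), h5 k,
      map_mul (inTD n D), kt_inTD_C, ha' k]
    simp only [map_mul, map_pow]
    ring
  rw [hL, h6, map_add, map_sum]
  congr 1
  exact Finset.sum_congr rfl fun k _ => (hR k).symm

/-- **Generic reduction for a chart.**

Proof. As `family_reduction` (PP/KG2.lean): Noether normalization `z`; `E = FractionRing S`, `dd`, `w` from `exists_field_setup`, `M = Localization.Away (C w * c.Q)` (`c.Q ≠ 0`: `atZD` of `Q = 1 + X 0 * s` is `1`), `dM` from `exists_restrict`,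
`der_eq_zero` for `uniq`, `dN`, `u'` from `exists_twist` (`iQ` is the inverse of `Q`, which divides `C w * Q`), `Γ` from `weyl_of_growth` for `u'`, `dN`, `reduction_gen`. `aeval (fun i => u' (castAdd n i)) ρ = algebraMap (phiT n z ρ)`, `exists_inTD`.
(Suggestion: first a private version with `E`, `M` and all instances as variables.) With `H = C w * Q`, `e k = algebraMap (s k) / H ^ κ k`, `v = G * C w ^ K / H ^ K`: multiply the reduction by `H ^ (N + 4)` for a large `N`:
`ρ ^ m G C w ^ K H ^ (N + 4 - K) = ∑ a_k s_k H ^ (N + 4 - κ k) + C w ^ 4 * divT N s'`, and `C w ^ 4 * divT N s' = divT N (fun l => C w ^ 4 * s' l)` (`pderiv` of `C w` is `0`). -/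
theorem family_reductionT {n : ℕ} {D : Type} [CommRing D] [IsDomain D] [Algebra ℚ D] [Algebra.FiniteType ℚ D]
    {c : CD n D} (hc : c.Ok) :
    ∃ (w : D) (ρ : Polynomial D) (r : ℕ) (e : Fin r → TP n D) (κ : Fin r → ℕ),
      w ≠ 0 ∧ ρ ≠ 0 ∧ ∀ (G : TP n D) (K : ℕ), ∃ (m N : ℕ) (a : Fin r → Polynomial D)
        (g : Fin n → TP n D), K ≤ N + 4 ∧ (∀ k, κ k ≤ N + 4) ∧
        C w ^ (N + 4) * inTD n D ρ ^ m * (G * c.Q ^ (N + 4 - K)) =
          ∑ k, inTD n D (a k) * (e k * c.Q ^ (N + 4 - κ k)) + c.divT N g := by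
  classical
  obtain ⟨p, g, hg, hgf⟩ := exists_finite_inj_algHom_of_fg ℚ D
  have hgz : g = aeval (g ∘ X) := aeval_unique g
  rw [hgz] at hg hgf
  obtain ⟨dd, w, hdd, hw, hwd, hgr⟩ := exists_field_setup (n := n) (D := D)
    (E := FractionRing (MvPolynomial (Fin (n + 1)) D)) (z := g ∘ X) hg hgf
  have : Algebra.FiniteType ℚ (MvPolynomial (Fin (n + 1)) D) :=
    Algebra.FiniteType.trans (S := D) inferInstance inferInstance
  have : Algebra.FiniteType (MvPolynomial (Fin (n + 1)) D) (Localization.Away (C w * c.Q)) :=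
    IsLocalization.finiteType_of_monoid_fg (Submonoid.powers (C w * c.Q)) _
  have : Algebra.FiniteType ℚ (Localization.Away (C w * c.Q)) :=
    Algebra.FiniteType.trans (S := MvPolynomial (Fin (n + 1)) D) inferInstance inferInstance
  obtain ⟨ρ, r, e, κ, hρ, h⟩ := kt_core (M := Localization.Away (C w * c.Q)) hg hgf hdd hw hwd hgr hc
  exact ⟨w, ρ, r, e, κ, hw, hρ, h⟩

end Pool.Agent.Lib.MP_bbe012_lc.PT
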