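import Pool.Agent.Lib.MP_bbe012_lc.PT.CertT
import Pool.Agent.Lib.MP_bbe012_lc.PT.PhiT
import Pool.Agent.Lib.MP_bbe012_lc.PT.KT3
import Pool.Agent.Lib.MP_bbe012_lc.PT.CDex
import Pool.Agent.Lib.MP_bbe012_lc.PP.CompZ

/-!
# Stage 3: completeness of the certificates for zero
-/

namespace Pool.Agent.Lib.MP_bbe012_lc.PT

open MvPolynomial Pool.Agent.Lib.MP_bbe012_lc.PP

private theorem ZerC_ser_rename {n : ℕ} (p : MvPolynomial (Fin n) ℚ) :
    ser n (rename Fin.succ p) = PowerSeries.C p := by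
  have h : (ser n).comp ((rename Fin.succ : MvPolynomial (Fin n) ℚ →ₐ[ℚ] P1 n) :
      MvPolynomial (Fin n) ℚ →+* P1 n) = PowerSeries.C := by
    refine MvPolynomial.ringHom_ext (fun a => ?_) (fun i => ?_)
    · change ser n (rename Fin.succ (C a)) = _
      rw [rename_C, ser_C]
    · change ser n (rename Fin.succ (X i)) = _
      rw [rename_X, ser_X_succ]
  exact congrArg (fun f => f p) h

private theorem ZerC_primitive {r : ℕ} (a : Fin (r + 1) → Polynomial ℚ) (ha : a ≠ 0) :
    ∃ (κ : ℕ) (b : Fin (r + 1) → Polynomial ℚ), (∀ i, a i = Polynomial.X ^ κ * b i) ∧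
      ∃ i, (b i).coeff 0 ≠ 0 := by
  classical
  obtain ⟨i0, hi0⟩ := Function.ne_iff.1 ha
  have hi0' : a i0 ≠ 0 := hi0
  have hex : ∃ k : ℕ, ¬ ∀ i, (Polynomial.X : Polynomial ℚ) ^ k ∣ a i := by
    refine ⟨(a i0).natDegree + 1, fun h => ?_⟩
    have h1 := Polynomial.natDegree_le_of_dvd (h i0) hi0'
    rw [Polynomial.natDegree_X_pow] at h1
    omega
  have hpos : Nat.find hex ≠ 0 := by
    intro h0
    have h1 := Nat.find_spec hex
    rw [h0] at h1
    exact h1 fun i => by rw [pow_zero]; exact one_dvd _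
  obtain ⟨κ, hκ⟩ := Nat.exists_eq_succ_of_ne_zero hpos
  have h1 : ∀ i, (Polynomial.X : Polynomial ℚ) ^ κ ∣ a i := by
    have h2 := Nat.find_min hex (m := κ) (by omega)
    push Not at h2
    exact h2
  choose b hb using h1
  refine ⟨κ, b, hb, ?_⟩
  by_contra hcon
  push Not at hcon
  have h3 := Nat.find_spec hex
  rw [hκ] at h3
  refine h3 fun i => ?_
  obtain ⟨q, hq⟩ := Polynomial.X_dvd_iff.2 (hcon i)
  refine ⟨q, ?_⟩
  rw [hb i, hq, pow_succ, mul_assoc]

private theorem ZerC_denom {r : ℕ} (q : Fin (r + 1) → ℚ) :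
    ∃ (N : ℕ) (z : Fin (r + 1) → ℤ), N ≠ 0 ∧ ∀ i, (N : ℚ) * q i = z i := by
  classical
  refine ⟨∏ i, (q i).den, fun i => (∏ j ∈ Finset.univ.erase i, ((q j).den : ℤ)) * (q i).num,
    Finset.prod_ne_zero_iff.2 fun i _ => (q i).den_nz, fun i => ?_⟩
  rw [← Finset.mul_prod_erase Finset.univ (fun j => (q j).den) (Finset.mem_univ i)]
  push_cast
  have h1 := Rat.mul_den_eq_num (q i)
  rw [← h1]
  ring

private theorem ZerC_inT_C {n : ℕ} (a : ℚ) : inT n (Polynomial.C a) = C a := by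
  change Polynomial.aeval (X 0 : P1 n) (Polynomial.C a) = C a
  rw [Polynomial.aeval_C]
  rfl

private theorem ZerC_inT_X {n : ℕ} : inT n Polynomial.X = X 0 := by
  change Polynomial.aeval (X 0 : P1 n) Polynomial.X = X 0
  rw [Polynomial.aeval_X]

private theorem ZerC_inT {n : ℕ} (p : Polynomial ℚ) :
    inT n p = C (p.coeff 0) + X 0 * inT n p.divX := by
  have h1 : p = Polynomial.C (p.coeff 0) + Polynomial.X * p.divX := by
    have h2 := Polynomial.divX_mul_X_add p
    rw [add_comm, mul_comm] at h2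
    exact h2.symm
  calc inT n p = inT n (Polynomial.C (p.coeff 0) + Polynomial.X * p.divX) := by rw [← h1]
    _ = _ := by rw [map_add, map_mul, ZerC_inT_C, ZerC_inT_X]

/-- The derivative of a polynomial in `t` in the variable `x_j` is zero. -/
private theorem ZerC_pderiv_inT {n : ℕ} (j : Fin n) (p : Polynomial ℚ) :
    pderiv j.succ (inT n p) = 0 := by
  induction p using Polynomial.induction_on' with
  | add p q hp hq => rw [map_add, map_add, hp, hq, add_zero]
  | monomial k a =>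
    rw [← Polynomial.C_mul_X_pow_eq_monomial, map_mul, map_pow, ZerC_inT_C, ZerC_inT_X,
      pderiv_C_mul, pderiv_pow, pderiv_X_of_ne (Fin.succ_ne_zero j).symm, mul_zero, mul_zero]

private theorem ZerC_numV_add {n : ℕ} (c : CD n ℚ) (l : Fin n) (K : ℕ) (F G : TP n ℚ) :
    c.numV l K (F + G) = c.numV l K F + c.numV l K G := by
  unfold CD.numV
  rw [← Finset.sum_add_distrib]
  refine Finset.sum_congr rfl fun j _ => ?_
  rw [map_add]
  ring

private theorem ZerC_numV_mul {n : ℕ} (c : CD n ℚ) (l : Fin n) (K : ℕ) (p : Polynomial ℚ)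
    (G : TP n ℚ) : c.numV l K (inT n p * G) = inT n p * c.numV l K G := by
  unfold CD.numV
  rw [Finset.mul_sum]
  refine Finset.sum_congr rfl fun j _ => ?_
  rw [pderiv_mul, ZerC_pderiv_inT]
  ring

private theorem ZerC_numV_shift {n : ℕ} (c : CD n ℚ) (l : Fin n) (K j : ℕ) (G : TP n ℚ) :
    c.numV l (K + j) (G * c.Q ^ j) = c.numV l K G * c.Q ^ j := by
  unfold CD.numV
  rw [Finset.sum_mul]
  refine Finset.sum_congr rfl fun i _ => ?_
  cases j with
  | zero =>
    rw [pow_zero, mul_one, mul_one]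
    rfl
  | succ j =>
    rw [pderiv_mul, pderiv_pow, Nat.add_sub_cancel]
    push_cast
    ring

private theorem ZerC_divT_add {n : ℕ} (c : CD n ℚ) (K : ℕ) (f g : Fin n → TP n ℚ) :
    c.divT K (fun l => f l + g l) = c.divT K f + c.divT K g := by
  unfold CD.divT
  rw [← Finset.sum_add_distrib]
  refine Finset.sum_congr rfl fun l _ => ?_
  rw [← ZerC_numV_add, mul_add]

private theorem ZerC_divT_mul {n : ℕ} (c : CD n ℚ) (K : ℕ) (p : Polynomial ℚ)
    (g : Fin n → TP n ℚ) : c.divT K (fun l => inT n p * g l) = inT n p * c.divT K g := by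
  unfold CD.divT
  rw [Finset.mul_sum]
  refine Finset.sum_congr rfl fun l _ => ?_
  rw [← ZerC_numV_mul]
  refine congrArg (c.numV l (K + 2)) ?_
  ring

private theorem ZerC_divT_shift {n : ℕ} (c : CD n ℚ) (K j : ℕ) (g : Fin n → TP n ℚ) :
    c.divT (K + j) (fun l => g l * c.Q ^ j) = c.divT K g * c.Q ^ j := by
  unfold CD.divT
  rw [Finset.sum_mul]
  refine Finset.sum_congr rfl fun l _ => ?_
  rw [← ZerC_numV_shift, ← mul_assoc, add_right_comm]

private theorem ZerC_divT_sum {n : ℕ} {ι : Type} (c : CD n ℚ) (K : ℕ) (s : Finset ι)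
    (g : ι → Fin n → TP n ℚ) : c.divT K (fun l => ∑ i ∈ s, g i l) = ∑ i ∈ s, c.divT K (g i) := by
  classical
  induction s using Finset.induction_on with
  | empty =>
    have h := ZerC_divT_mul c K 0 (fun _ => 0)
    simp only [map_zero, zero_mul] at h
    simp only [Finset.sum_empty]
    exact h
  | insert i s hi ih =>
    rw [Finset.sum_insert hi, ← ih, ← ZerC_divT_add]
    refine congrArg (c.divT K) ?_
    funext l
    rw [Finset.sum_insert hi]

/-- More vectors than coordinates over a domain are dependent. -/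
private theorem ZerC_dep {r : ℕ} (a : Fin (r + 1) → Fin r → Polynomial ℚ) :
    ∃ d : Fin (r + 1) → Polynomial ℚ, d ≠ 0 ∧ ∀ k, ∑ i, d i * a i k = 0 := by
  set M : Matrix (Fin (r + 1)) (Fin (r + 1)) (Polynomial ℚ) :=
    Matrix.of fun i k => (Fin.snoc (a i) 0 : Fin (r + 1) → Polynomial ℚ) k with hM
  have hdet : M.det = 0 := by
    refine Matrix.det_eq_zero_of_column_eq_zero (Fin.last r) fun i => ?_
    rw [hM, Matrix.of_apply]
    exact Fin.snoc_last (α := fun _ => Polynomial ℚ) _ _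
  obtain ⟨d, hd, hd'⟩ := Matrix.exists_vecMul_eq_zero_iff.2 hdet
  refine ⟨d, hd, fun k => ?_⟩
  have h1 := congrFun hd' k.castSucc
  have h2 : Matrix.vecMul d M k.castSucc = ∑ i, d i * M i k.castSucc := rfl
  rw [h2, Pi.zero_apply] at h1
  rw [← h1]
  refine Finset.sum_congr rfl fun i _ => ?_
  rw [hM, Matrix.of_apply, Fin.snoc_castSucc (α := fun _ => Polynomial ℚ)]

/-- Dependence modulo exact elements.

Proof. `family_reductionT` for `D = ℚ`: `w`, `ρ`, `r`, `e`, `κ`. Given `r + 1` elements `S_i / Q ^ (k_i)`, each satisfies `C w ^ (N_i + 4) * inTD ρ ^ (m_i) * (S_i Q ^ ..) = ∑ a_ik (e_k Q ^ ..) + divT N_i g_i`. Bring all to the same `N` (for `N' ≥ N`: `divT N g * Q ^ (N' - N) =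
divT N' (fun l => g l * Q ^ (N' - N))`, because `D_l` of the same element; prove this from the definition of `numV`) and multiply so that all have the same factor `c₁ = C w ^ _ * ρ ^ _`; the `r + 1` rows `(a_i1, ..., a_ir)` of polynomials in `t` are
linearly dependent over the polynomial ring in `t` (`r + 1` vectors in the `r`-dimensional space over the field of fractions, clear denominators: `Module` rank or `exists_linearCombination..`; see `Rank.lean`, `Phi_dependent` in BasisL.lean), so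
`∑ c_i * c₁ * S_i * Q ^ .. = divT N (..)`; `c_i * c₁` are not all `0`. -/
theorem exists_dependent {n : ℕ} {c : CD n ℚ} (hc : c.Ok) :
    ∃ r : ℕ, ∀ (S : Fin (r + 1) → TP n ℚ) (k : Fin (r + 1) → ℕ), ∃ (b : Fin (r + 1) → Polynomial ℚ) (N : ℕ)
      (g : Fin n → TP n ℚ), b ≠ 0 ∧ (∀ i, k i ≤ N + 4) ∧
      ∑ i, inT n (b i) * (S i * c.Q ^ (N + 4 - k i)) = c.divT N g := by
  classical
  obtain ⟨w, ρ, r, e, κ, hw, hρ, hred⟩ := family_reductionT hc
  refine ⟨r, fun S k => ?_⟩
  choose m N a g hk hκ hrel using fun i => hred (S i) (k i)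
  set Nt := ∑ i, N i with hNt
  set mt := ∑ i, m i with hmt
  have hN : ∀ i, N i ≤ Nt := fun i =>
    Finset.single_le_sum (f := N) (fun _ _ => Nat.zero_le _) (Finset.mem_univ i)
  have hm : ∀ i, m i ≤ mt := fun i =>
    Finset.single_le_sum (f := m) (fun _ _ => Nat.zero_le _) (Finset.mem_univ i)
  have hTD : ∀ p : Polynomial ℚ, inTD n ℚ p = inT n p := fun p => rfl
  set u : Fin (r + 1) → Polynomial ℚ := fun i =>
    Polynomial.C w ^ (Nt - N i) * ρ ^ (mt - m i) with hu
  set c₁ : Polynomial ℚ := Polynomial.C w ^ (Nt + 4) * ρ ^ mt with hc₁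
  have hc₁0 : c₁ ≠ 0 := mul_ne_zero (pow_ne_zero _ (Polynomial.C_ne_zero.2 hw)) (pow_ne_zero _ hρ)
  have hrow : ∀ i, inT n c₁ * (S i * c.Q ^ (Nt + 4 - k i)) =
      ∑ j, inT n (u i * a i j) * (e j * c.Q ^ (Nt + 4 - κ j)) +
        c.divT Nt (fun l => inT n (u i) * (g i l * c.Q ^ (Nt - N i))) := by
    intro i
    have h1 := congrArg (fun F => inT n (u i) * (F * c.Q ^ (Nt - N i))) (hrel i)
    have e1 : Nt + 4 - k i = (N i + 4 - k i) + (Nt - N i) := by
      have := hk i
      have := hN i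
      omega
    have e2 : ∀ j, Nt + 4 - κ j = (N i + 4 - κ j) + (Nt - N i) := by
      intro j
      have := hκ i j
      have := hN i
      omega
    have e3 : Nt = N i + (Nt - N i) := by
      have := hN i
      omega
    have e4 : c.divT Nt (fun l => inT n (u i) * (g i l * c.Q ^ (Nt - N i))) =
        inT n (u i) * (c.divT (N i) (g i) * c.Q ^ (Nt - N i)) := by
      rw [ZerC_divT_mul, ← ZerC_divT_shift, ← e3]
    have e5 : inT n c₁ = inT n (u i) * (C w ^ (N i + 4) * inT n ρ ^ m i) := by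
      rw [hc₁, hu, map_mul, map_mul, map_pow, map_pow, map_pow, map_pow, ZerC_inT_C]
      have e6 : Nt + 4 = (Nt - N i) + (N i + 4) := by
        have := hN i
        omega
      have e7 : mt = (mt - m i) + m i := by
        have := hm i
        omega
      conv_lhs => rw [e6, e7]
      rw [pow_add, pow_add]
      ring
    rw [e4, e5, e1]
    simp only [hTD] at h1
    calc inT n (u i) * (C w ^ (N i + 4) * inT n ρ ^ m i) *
          (S i * c.Q ^ (N i + 4 - k i + (Nt - N i))) =
          inT n (u i) * (C w ^ (N i + 4) * inT n ρ ^ m i * (S i * c.Q ^ (N i + 4 - k i)) *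
            c.Q ^ (Nt - N i)) := by
          rw [pow_add]
          ring
      _ = _ := h1
      _ = _ := by
          rw [add_mul, mul_add, Finset.sum_mul, Finset.mul_sum]
          refine congrArg (fun F => F + _) (Finset.sum_congr rfl fun j _ => ?_)
          rw [e2 j, pow_add, map_mul (inT n) (u i) (a i j)]
          ring
  obtain ⟨d, hd, hd'⟩ := ZerC_dep fun i j => u i * a i j
  refine ⟨fun i => d i * c₁, Nt, fun l => ∑ i, inT n (d i) *
    (inT n (u i) * (g i l * c.Q ^ (Nt - N i))), ?_, fun i => (hk i).trans (Nat.add_le_add_right (hN i) 4), ?_⟩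
  · intro h0
    apply hd
    funext i
    exact (mul_eq_zero.1 (congrFun h0 i)).resolve_right hc₁0
  · have h2 : ∀ i, inT n (d i * c₁) * (S i * c.Q ^ (Nt + 4 - k i)) =
        ∑ j, inT n (d i * (u i * a i j)) * (e j * c.Q ^ (Nt + 4 - κ j)) +
        c.divT Nt (fun l => inT n (d i) * (inT n (u i) * (g i l * c.Q ^ (Nt - N i)))) := by
      intro i
      rw [map_mul, mul_assoc, hrow i, mul_add, Finset.mul_sum, ZerC_divT_mul c Nt (d i)]
      refine congrArg (fun F => F + _) (Finset.sum_congr rfl fun j _ => ?_)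
      rw [map_mul (inT n) (d i)]
      ring
    rw [Finset.sum_congr rfl fun i _ => h2 i, Finset.sum_add_distrib, Finset.sum_comm]
    have h3 : ∑ j, ∑ i, inT n (d i * (u i * a i j)) * (e j * c.Q ^ (Nt + 4 - κ j)) = 0 := by
      refine Finset.sum_eq_zero fun j _ => ?_
      rw [← Finset.sum_mul, ← map_sum, hd' j, map_zero, zero_mul]
    rw [h3, zero_add, ← ZerC_divT_sum]

/-- Polynomials in `u` and `t` as fractions.

Proof. Induction on `p` (`MvPolynomial.induction_on`): constants; sums (bring to a common exponent, `th (F * Q ^ j) * h ^ (K + j) = th F * h ^ K`); the variable `X 0` is `th (X 0)`; the variable `X l.succ` is mapped by `ser` to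
`C (X l) = th (A l * C l) * h` (`IsPhi.eq`, `bc`). -/
theorem exists_frac_of_ser {n : ℕ} {c : CD n ℚ} (hc : c.Ok) (p : TP n ℚ) :
    ∃ K₀ : ℕ, ∀ K, K₀ ≤ K → ∃ E : TP n ℚ, th c.phi E * c.h ^ K = ser n p := by
  have hQh := Q_mul_h c
  induction p using MvPolynomial.induction_on with
  | C a =>
    refine ⟨0, fun K _ => ⟨C a * c.Q ^ K, ?_⟩⟩
    rw [map_mul, map_pow, mul_assoc, ← mul_pow, hQh, one_pow, mul_one, th_C, ser_C]
  | add p q hp hq =>
    obtain ⟨K₁, h1⟩ := hp
    obtain ⟨K₂, h2⟩ := hq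
    refine ⟨K₁ + K₂, fun K hK => ?_⟩
    obtain ⟨E₁, hE₁⟩ := h1 K (by omega)
    obtain ⟨E₂, hE₂⟩ := h2 K (by omega)
    refine ⟨E₁ + E₂, ?_⟩
    rw [map_add, map_add, add_mul, hE₁, hE₂]
  | mul_X p i hp =>
    obtain ⟨K₁, h1⟩ := hp
    refine ⟨K₁ + 1, fun K hK => ?_⟩
    obtain ⟨K', rfl⟩ : ∃ K', K = K' + 1 := ⟨K - 1, by omega⟩
    obtain ⟨E, hE⟩ := h1 K' (by omega)
    refine Fin.cases ?_ (fun l => ?_) i
    · refine ⟨E * X 0 * c.Q, ?_⟩
      rw [map_mul, map_mul, map_mul, th_X0, ser_X_zero, ← hE, pow_succ]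
      calc th c.phi E * PowerSeries.X * th c.phi c.Q * (c.h ^ K' * c.h) =
            th c.phi E * PowerSeries.X * c.h ^ K' * (th c.phi c.Q * c.h) := by ring
        _ = _ := by
            rw [hQh]
            ring
    · have h2 : th c.phi (c.A l * c.C l) * c.h = PowerSeries.C (X l) := by
        have h3 := congrArg (th c.phi) (hc.bc l)
        rw [map_mul] at h3
        rw [map_mul, c.phi_spec.eq l]
        calc PowerSeries.C (X l) * th c.phi (c.B l) * th c.phi (c.C l) * c.h =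
              PowerSeries.C (X l) * (th c.phi (c.B l) * th c.phi (c.C l) * c.h) := by ring
          _ = _ := by rw [h3, hQh, mul_one]
      refine ⟨E * (c.A l * c.C l), ?_⟩
      rw [map_mul (th c.phi) E, map_mul (ser n), ser_X_succ, ← hE, ← h2, pow_succ]
      ring

private theorem ZerC_init {n : ℕ} {c : CD n ℚ} (hc : c.Ok) {S : TP n ℚ} {K : ℕ}
    (h : PhiT c S K = 0) (L : ℕ) : ∃ (K'' : ℕ) (E : Fin n → TP n ℚ) (H : TP n ℚ), K ≤ K'' + 4 ∧
      S * c.Q ^ (K'' + 4 - K) = c.divT K'' E + X 0 ^ (L + 1) * H := by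
  have hQh := Q_mul_h c
  set s : ℕ → MvPolynomial (Fin n) ℚ := fun m =>
    PowerSeries.coeff m (th c.phi S * c.h ^ K) with hs
  have hs0 : ∀ m, Lam n (s m) = 0 := by
    intro m
    have h1 := congrArg (PowerSeries.coeff m) h
    rw [PhiT, coeff_LamS, map_zero] at h1
    exact h1
  choose E0 hE0 using fun m => exists_prim n (s m)
  have hE1 : ∀ m, ∑ l, pderiv l ((X l - X l ^ 2) * E0 m l) = s m := by
    intro m
    have h1 := hE0 m
    rw [hs0 m, C_0, zero_add] at h1
    exact h1.symm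
  set P : Fin n → TP n ℚ := fun l =>
    ∑ m ∈ Finset.range (L + 1), X 0 ^ m * rename Fin.succ (E0 m l) with hP
  have hserP : ∀ l, ser n (P l) = ∑ m ∈ Finset.range (L + 1),
      PowerSeries.X ^ m * PowerSeries.C (E0 m l) := by
    intro l
    rw [hP, map_sum]
    refine Finset.sum_congr rfl fun m _ => ?_
    rw [map_mul, map_pow, ser_X_zero, ZerC_ser_rename]
  have hcoef : ∀ l m, m < L + 1 → PowerSeries.coeff m (ser n (P l)) = E0 m l := by
    intro l m hm
    rw [hserP, map_sum, Finset.sum_eq_single m]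
    · rw [mul_comm (PowerSeries.X ^ m), PowerSeries.coeff_mul_X_pow', if_pos le_rfl,
        Nat.sub_self, PowerSeries.coeff_zero_eq_constantCoeff_apply, PowerSeries.constantCoeff_C]
    · intro b _ hb
      rw [mul_comm (PowerSeries.X ^ b), PowerSeries.coeff_mul_X_pow']
      split_ifs with h1
      · rw [PowerSeries.coeff_C, if_neg (by omega)]
      · rfl
    · intro h1
      exact absurd (Finset.mem_range.2 hm) h1
  choose K₀ hK₀ using fun l => exists_frac_of_ser hc (P l)
  set K'' := ∑ l, K₀ l + K with hK''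
  have hle : ∀ l, K₀ l ≤ K'' := fun l =>
    (Finset.single_le_sum (f := K₀) (fun _ _ => Nat.zero_le _) (Finset.mem_univ l)).trans
      (Nat.le_add_right _ _)
  choose E hE using fun l => hK₀ l K'' (hle l)
  have hKK : K ≤ K'' + 4 := by omega
  have hdiv : th c.phi (c.divT K'' E) * c.h ^ (K'' + 4) =
      ∑ l, du l (PowerSeries.C (X l - X l ^ 2) * ser n (P l)) := by
    rw [CD.divT, map_sum, Finset.sum_mul]
    refine Finset.sum_congr rfl fun l _ => ?_
    have h1 := du_frac hc c.phi_spec hQh l (K'' + 2) (c.Ef l * E l)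
    have h2 : th c.phi (c.Ef l * E l) * c.h ^ (K'' + 2) =
        PowerSeries.C (X l - X l ^ 2) * ser n (P l) := by
      rw [← Ef_frac hc c.phi_spec hQh l, (th c.phi).map_mul (c.Ef l), pow_add, ← hE l]
      ring
    rw [← h2, h1]
  have hdvd : (PowerSeries.X : PowerSeries (MvPolynomial (Fin n) ℚ)) ^ (L + 1) ∣
      th c.phi S * c.h ^ K - th c.phi (c.divT K'' E) * c.h ^ (K'' + 4) := by
    rw [PowerSeries.X_pow_dvd_iff]
    intro m hm
    rw [map_sub, hdiv, map_sum]
    have h1 : ∀ l, PowerSeries.coeff m (du l (PowerSeries.C (X l - X l ^ 2) * ser n (P l))) =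
        pderiv l ((X l - X l ^ 2) * E0 m l) := by
      intro l
      rw [coeff_du, PowerSeries.coeff_C_mul, hcoef l m hm]
    rw [Finset.sum_congr rfl fun l _ => h1 l, hE1 m]
    exact sub_self _
  have hdvd2 : (PowerSeries.X : PowerSeries (MvPolynomial (Fin n) ℚ)) ^ (L + 1) ∣
      th c.phi (S * c.Q ^ (K'' + 4 - K) - c.divT K'' E) := by
    have h3 : ∀ j, th c.phi c.Q ^ j * c.h ^ j = 1 := fun j => by rw [← mul_pow, hQh, one_pow]
    have h1 : th c.phi (S * c.Q ^ (K'' + 4 - K) - c.divT K'' E) = th c.phi c.Q ^ (K'' + 4) *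
        (th c.phi S * c.h ^ K - th c.phi (c.divT K'' E) * c.h ^ (K'' + 4)) := by
      rw [map_sub, map_mul, map_pow]
      have e1 : th c.phi c.Q ^ (K'' + 4) * c.h ^ K = th c.phi c.Q ^ (K'' + 4 - K) := by
        have e2 : K'' + 4 = (K'' + 4 - K) + K := by omega
        conv_lhs => rw [e2, pow_add, mul_assoc, h3, mul_one]
      calc th c.phi S * th c.phi c.Q ^ (K'' + 4 - K) - th c.phi (c.divT K'' E) =
            th c.phi S * (th c.phi c.Q ^ (K'' + 4) * c.h ^ K) -
              th c.phi (c.divT K'' E) * (th c.phi c.Q ^ (K'' + 4) * c.h ^ (K'' + 4)) := by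
            rw [e1, h3, mul_one]
        _ = _ := by ring
    rw [h1]
    exact dvd_mul_of_dvd_right hdvd _
  obtain ⟨H, hH⟩ := X_pow_dvd_th c.phi_spec.c0 (L + 1) _ hdvd2
  refine ⟨K'', E, H, hKK, ?_⟩
  rw [← hH]
  ring

/-- Existence of certificates for zero.

Proof. Differential equation: `exists_dependent` for `S_i = thN K S i`, `k_i = K + 2 i`, `i ≤ ρ = r`: `∑ inT (b i) * thN K S i * Q ^ (N + 4 - (K + 2 i)) = divT N g`. Let `X ^ κ` be the largest power of `X` dividing all `b i`, `b i = X ^ κ * b' i`, multiply by a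
common denominator so that the `b' i (0) = z_i` are integers, not all `0`: `b' i = C z_i + X * a_i` (compare the proof of `exists_zeroCert` in PP/CompZ.lean). Let `L = ∑ |z_i|`.
Initial coefficients: `f = th S * h ^ K`; `PhiT c S K = 0`, so `Lam n (coeff k f) = 0` for all `k ≤ L` and `coeff k f = ∑ l, pderiv l ((X l - X l ^ 2) * E_kl)` (`exists_prim`). Let `P l ∈ TP n ℚ` be the polynomial with `ser n (P l) = ∑_{k ≤ L} C (E_kl) * X ^ k`
(`rename Fin.succ (E_kl) * X 0 ^ k`), and by `exists_frac_of_ser` (a common `K''`, also with `K ≤ K'' + 4`) `ser n (P l) = th (E l) * h ^ K''`. Then `th (divT K'' E) * h ^ (K'' + 4) = ∑ l, du l (C (X l - X l ^ 2) * ser n (P l))` (see the proof of `PhiT_divT`), which is congruent to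
`f = th (S * Q ^ (K'' + 4 - K)) * h ^ (K'' + 4)` modulo `X ^ (L + 1)`; `h` is a unit, so `X ^ (L + 1)` divides `th (S * Q ^ _ - divT K'' E)`, and `X_pow_dvd_th` gives `H`. -/
theorem exists_zeroT {n : ℕ} {c : CD n ℚ} (hc : c.Ok) {S : TP n ℚ} {K : ℕ} (h : PhiT c S K = 0) :
    ∃ (κ K' ρ L : ℕ) (z : ℕ → ℤ) (a : ℕ → Polynomial ℚ) (g : Fin n → TP n ℚ) (K'' : ℕ) (E : Fin n → TP n ℚ)
      (H : TP n ℚ), IsZeroT c S K κ K' ρ L z a g K'' E H := by
  classical
  obtain ⟨r, hr⟩ := exists_dependent hc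
  obtain ⟨a, K', g0, ha, hK', hg0⟩ := hr (fun i => c.thN K S i) (fun i => K + 2 * i)
  obtain ⟨κ, b, hb, i1, hi1⟩ := ZerC_primitive a ha
  obtain ⟨N, z0, hN, hz0⟩ := ZerC_denom fun i => (b i).coeff 0
  have hNq : (N : ℚ) ≠ 0 := Nat.cast_ne_zero.2 hN
  set z : ℕ → ℤ := fun i => if h : i < r + 1 then z0 ⟨i, h⟩ else 0 with hz
  set d : ℕ → Polynomial ℚ := fun i =>
    if h : i < r + 1 then (Polynomial.C (N : ℚ) * b ⟨i, h⟩).divX else 0 with hd
  have hzi : ∀ i : Fin (r + 1), z i = z0 i := fun i => by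
    rw [hz]
    exact dif_pos i.2
  have hdi : ∀ i : Fin (r + 1), d i = (Polynomial.C (N : ℚ) * b i).divX := fun i => by
    rw [hd]
    exact dif_pos i.2
  obtain ⟨K'', E, H, hKK, hEH⟩ := ZerC_init hc h (∑ i ∈ Finset.range (r + 1), (z i).natAbs)
  refine ⟨κ, K', r, ∑ i ∈ Finset.range (r + 1), (z i).natAbs, z, d,
    fun l => inT n (Polynomial.C (N : ℚ)) * g0 l, K'', E, H, ⟨?_, ?_, le_rfl, ?_, hKK, hEH⟩⟩
  · have h1 := hK' (Fin.last r)
    rwa [Fin.val_last] at h1
  · refine ⟨i1, i1.2, ?_⟩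
    rw [hzi]
    intro h0
    have h1 := hz0 i1
    rw [h0, Int.cast_zero] at h1
    exact hi1 ((mul_eq_zero.1 h1).resolve_left hNq)
  · rw [ZerC_divT_mul, ← hg0, Finset.sum_range, Finset.mul_sum, Finset.mul_sum]
    refine Finset.sum_congr rfl fun i _ => ?_
    have h1 := ZerC_inT (n := n) (Polynomial.C (N : ℚ) * b i)
    rw [Polynomial.coeff_C_mul, hz0 i, ← hdi i, ← hzi i] at h1
    have h4 : X 0 ^ κ * inT n (Polynomial.C (N : ℚ) * b i) =
        inT n (Polynomial.C (N : ℚ)) * inT n (a i) := by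
      rw [hb i, map_mul, map_mul, map_pow, ZerC_inT_X]
      ring
    rw [← h1, mul_assoc, ← mul_assoc, h4]
    ring

end Pool.Agent.Lib.MP_bbe012_lc.PT
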