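import Pool.Agent.Lib.MP_bbe012_lc.PT.CertT
import Pool.Agent.Lib.MP_bbe012_lc.PT.PhiT
import Pool.Agent.Lib.MP_bbe012_lc.PP.SoundZ

/-!
# Stage 3: soundness of the certificates for zero
-/

namespace Pool.Agent.Lib.MP_bbe012_lc.PT

open MvPolynomial Pool.Agent.Lib.MP_bbe012_lc.PP

private theorem zers_int (m : ℕ) (N : ℕ) (z : ℕ → ℤ)
    (hz : ∑ i ∈ Finset.range N, (z i).natAbs < m)
    (h0 : ∑ i ∈ Finset.range N, z i * (m : ℤ) ^ i = 0) : ∀ i < N, z i = 0 := by
  induction N generalizing z with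
  | zero => intro i hi; omega
  | succ N ih =>
    rw [Finset.sum_range_succ'] at hz h0
    have e1 : ∑ i ∈ Finset.range N, z (i + 1) * (m : ℤ) ^ (i + 1) =
        (m : ℤ) * ∑ i ∈ Finset.range N, z (i + 1) * (m : ℤ) ^ i := by
      rw [Finset.mul_sum]
      exact Finset.sum_congr rfl fun i _ => by ring
    rw [e1, pow_zero, mul_one] at h0
    have hm : (0 : ℤ) < m := by
      have : 0 < m := by omega
      exact_mod_cast this
    have hd : (m : ℤ) ∣ z 0 := ⟨- ∑ i ∈ Finset.range N, z (i + 1) * (m : ℤ) ^ i, by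
      linear_combination h0⟩
    have h1 : z 0 = 0 := by
      refine Int.eq_zero_of_abs_lt_dvd hd ?_
      rw [Int.abs_eq_natAbs]
      have : (z 0).natAbs < m := by omega
      exact_mod_cast this
    rw [h1, add_zero] at h0
    have h2 := ih (fun i => z (i + 1)) (by omega) ((mul_eq_zero.1 h0).resolve_left hm.ne')
    intro i hi
    cases i with
    | zero => exact h1
    | succ i => exact h2 i (by omega)

private theorem zers_coeff_theta (f : PowerSeries ℚ) (m : ℕ) :
    PowerSeries.coeff m (theta f) = (m : ℚ) * PowerSeries.coeff m f := by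
  rw [theta]
  cases m with
  | zero => rw [PowerSeries.coeff_zero_X_mul, Nat.cast_zero, zero_mul]
  | succ k =>
    rw [PowerSeries.coeff_succ_X_mul, PowerSeries.coeff_derivative]
    push_cast
    ring

private theorem zers_coeff_iter (f : PowerSeries ℚ) (i m : ℕ) :
    PowerSeries.coeff m (theta^[i] f) = (m : ℚ) ^ i * PowerSeries.coeff m f := by
  induction i with
  | zero => rw [pow_zero, one_mul]; rfl
  | succ i ih => rw [Function.iterate_succ_apply', zers_coeff_theta, ih]; ring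

private theorem zers_lead (N m : ℕ) (z : ℕ → ℤ) (c : ℕ → Polynomial ℚ) (F : PowerSeries ℚ)
    (hF : ∀ b < m, PowerSeries.coeff b F = 0)
    (h : ∑ i ∈ Finset.range N, ((Polynomial.C (z i : ℚ) + Polynomial.X * c i : Polynomial ℚ) :
      PowerSeries ℚ) * theta^[i] F = 0) :
    ((∑ i ∈ Finset.range N, z i * (m : ℤ) ^ i : ℤ) : ℚ) * PowerSeries.coeff m F = 0 := by
  have h1 := congrArg (PowerSeries.coeff m) h
  rw [map_sum, map_zero] at h1
  rw [← h1]
  push_cast
  rw [Finset.sum_mul]
  refine Finset.sum_congr rfl fun i _ => ?_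
  rw [add_mul, map_add,
    PowerSeries.coeff_C_mul, zers_coeff_iter, mul_assoc PowerSeries.X]
  have h2 : PowerSeries.coeff m
      (PowerSeries.X * (((c i : Polynomial ℚ) : PowerSeries ℚ) * theta^[i] F)) = 0 := by
    cases m with
    | zero => rw [PowerSeries.coeff_zero_X_mul]
    | succ k =>
      rw [PowerSeries.coeff_succ_X_mul, PowerSeries.coeff_mul]
      refine Finset.sum_eq_zero fun p hp => ?_
      have hp2 : p.2 < k + 1 := by
        have := Finset.HasAntidiagonal.mem_antidiagonal.1 hp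
        omega
      rw [zers_coeff_iter, hF p.2 hp2, mul_zero, mul_zero]
  rw [h2, add_zero, mul_assoc]

/-- Proof: as `Phi_eq_zero` (PP/SoundZ.lean): `exact` and `PhiT_divT`, `theta_PhiT`, `PhiT_shift`, `PhiT_inT_mul` give the differential equation for `F = PhiT c S K`; `init` gives `X ^ (L + 1) ∣ F`
(`PhiT c (S * Q ^ (K'' + 4 - K)) (K'' + 4) = F`, `PhiT_inT_mul` for `X 0 ^ (L + 1) = inT n (X ^ (L + 1))`). -/
theorem PhiT_eq_zero {n : ℕ} {c : CD n ℚ} (hc : c.Ok) {S : TP n ℚ} {K κ K' ρ L : ℕ}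
    {z : ℕ → ℤ} {a : ℕ → Polynomial ℚ} {g : Fin n → TP n ℚ} {K'' : ℕ} {E : Fin n → TP n ℚ} {H : TP n ℚ}
    (h : IsZeroT c S K κ K' ρ L z a g K'' E H) : PhiT c S K = 0 := by
  obtain ⟨F, hF⟩ : ∃ F : PowerSeries ℚ, F = PhiT c S K := ⟨_, rfl⟩
  have hinX : inT n Polynomial.X = X 0 := by
    rw [inT]
    exact Polynomial.aeval_X _
  have hinC : ∀ a : ℚ, inT n (Polynomial.C a) = C a := by
    intro a
    rw [inT]
    exact Polynomial.aeval_C _ _
  -- the differential equation
  have hode : ∑ i ∈ Finset.range (ρ + 1), ((Polynomial.C (z i : ℚ) + Polynomial.X * a i :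
      Polynomial ℚ) : PowerSeries ℚ) * theta^[i] F = 0 := by
    have h1 := congrArg (fun G => PhiT c G (K' + 4)) h.exact
    change PhiT c _ (K' + 4) = PhiT c _ (K' + 4) at h1
    rw [PhiT_divT hc] at h1
    have h2 : (X 0 ^ κ : TP n ℚ) = inT n (Polynomial.X ^ κ) := by rw [map_pow, hinX]
    rw [h2, PhiT_inT_mul, PhiT_sum] at h1
    have h3 : ((Polynomial.X ^ κ : Polynomial ℚ) : PowerSeries ℚ) ≠ 0 := by
      rw [Polynomial.coe_pow, Polynomial.coe_X]
      exact pow_ne_zero _ PowerSeries.X_ne_zero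
    have h4 := (mul_eq_zero.1 h1).resolve_left h3
    rw [← h4]
    refine Finset.sum_congr rfl fun i hi => ?_
    have hi' : K + 2 * i ≤ K' + 4 := by
      have := Finset.mem_range.1 hi
      have := h.le
      omega
    have h5 : (C (z i : ℚ) + X 0 * inT n (a i) : TP n ℚ) =
        inT n (Polynomial.C (z i : ℚ) + Polynomial.X * a i) := by
      rw [map_add, map_mul, hinX, hinC]
    rw [h5, mul_assoc, PhiT_inT_mul]
    congr 1
    have h6 : K' + 4 = K + 2 * i + (K' + 4 - (K + 2 * i)) := by omega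
    rw [hF, theta_PhiT hc]
    have h7 := PhiT_shift c (c.thN K S i) (K + 2 * i) (K' + 4 - (K + 2 * i))
    rw [← h6] at h7
    exact h7.symm
  -- the first coefficients
  have hinit : ∀ m ≤ L, PowerSeries.coeff m F = 0 := by
    intro m hm
    have h1 := PhiT_shift c S K (K'' + 4 - K)
    have h6 : K + (K'' + 4 - K) = K'' + 4 := by
      have := h.le'
      omega
    rw [h6, h.init, PhiT_add, PhiT_divT hc, zero_add] at h1
    have h2 : (X 0 ^ (L + 1) : TP n ℚ) = inT n (Polynomial.X ^ (L + 1)) := by rw [map_pow, hinX]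
    rw [h2, PhiT_inT_mul, Polynomial.coe_pow, Polynomial.coe_X] at h1
    rw [hF, ← h1, PowerSeries.coeff_X_pow_mul', if_neg (by omega)]
  have hall : ∀ m, PowerSeries.coeff m F = 0 := by
    intro m
    induction m using Nat.strong_induction_on with
    | _ m ih =>
      by_cases hm : m ≤ L
      · exact hinit m hm
      · have h1 := zers_lead (ρ + 1) m z a F ih hode
        refine (mul_eq_zero.1 h1).resolve_left fun h2 => ?_
        have h3 : ∑ i ∈ Finset.range (ρ + 1), z i * (m : ℤ) ^ i = 0 := by exact_mod_cast h2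
        obtain ⟨i, hi, hzi⟩ := h.ne
        exact hzi (zers_int m (ρ + 1) z (by have := h.sum; omega) h3 i hi)
  rw [← hF]
  ext m
  rw [hall m, map_zero]

/-- Vanishing of the value at `τ`. Proof: `PhiT c (G * Q ^ j + (X 0 - C τ) * U) (K + j) = 0`; `ev τ` of it is `ev τ (PhiT c G K) + 0` (`PhiT_add`, `PhiT_shift`, `PhiT_inT_mul` for `X - C τ`, `ev_mul'`), `JT_eq_ev`. Here it is
stated for the value of the expansion, with summability as a hypothesis. -/
theorem ev_eq_zero {n : ℕ} {c : CD n ℚ} {τ : ℚ}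
    (hsum : ∀ (G : TP n ℚ) (K : ℕ),
      Summable fun k => |((PowerSeries.coeff k (PhiT c G K) : ℚ) : ℝ)| * |(τ : ℝ)| ^ k)
    {G : TP n ℚ} {K j : ℕ} {U : TP n ℚ} (h : PhiT c (G * c.Q ^ j + (X 0 - C τ) * U) (K + j) = 0) :
    ev τ (PhiT c G K) = 0 := by
  have hX : (X 0 - C τ : TP n ℚ) = inT n (Polynomial.X - Polynomial.C τ) := by
    rw [map_sub, inT]
    change _ = Polynomial.aeval _ Polynomial.X - Polynomial.aeval _ (Polynomial.C τ)
    rw [Polynomial.aeval_X, Polynomial.aeval_C]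
    rfl
  rw [PhiT_add, PhiT_shift, hX, PhiT_inT_mul] at h
  have h1 : PhiT c G K = -(((Polynomial.X - Polynomial.C τ : Polynomial ℚ) : PowerSeries ℚ) *
      PhiT c U (K + j)) := eq_neg_of_add_eq_zero_left h
  have h2 := ev_mul' (Polynomial.X - Polynomial.C τ) (PhiT c U (K + j)) τ (hsum U (K + j))
  have h3 : ev τ (PhiT c G K) = - ev τ (((Polynomial.X - Polynomial.C τ : Polynomial ℚ) :
      PowerSeries ℚ) * PhiT c U (K + j)) := by
    rw [h1]
    unfold ev
    rw [← tsum_neg]
    refine tsum_congr fun k => ?_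
    rw [map_neg]
    push_cast
    ring
  rw [h3, h2]
  simp

end Pool.Agent.Lib.MP_bbe012_lc.PT
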