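import Pool.Agent.Lib.MP_bbe012_lc.PT.TCodeA
import Pool.Agent.Lib.MP_bbe012_lc.PT.TCodeB
import Pool.Agent.Lib.MP_bbe012_lc.PT.ZerS
import Pool.Agent.Lib.MP_bbe012_lc.PT.ZerC
import Pool.Agent.Lib.MP_bbe012_lc.PT.NeS
import Pool.Agent.Lib.MP_bbe012_lc.PT.NeC
import Pool.Agent.Lib.MP_bbe012_lc.PP.CodeC

/-!
# Stage 3: soundness and completeness of the verification
-/

namespace Pool.Agent.Lib.MP_bbe012_lc.PT

open MvPolynomial Pool.Agent.Lib.MP_bbe012_lc.PP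

private theorem tcheck_foldr (R : ℕ) (F : ℕ → ℕ × ℕ) :
    (List.range R).foldr (fun i acc => (F i).1 + (F i).2 + acc) 0 =
      ∑ i ∈ Finset.range R, ((F i).1 + (F i).2) := by
  have h : ∀ L : List ℕ, L.foldr (fun i acc => (F i).1 + (F i).2 + acc) 0 =
      (L.map fun i => (F i).1 + (F i).2).sum := by
    intro L
    induction L with
    | nil => rfl
    | cons a L ih => rw [List.foldr_cons, ih, List.map_cons, List.sum_cons]
  rw [h, ← List.sum_toFinset _ (List.nodup_range), List.toFinset_range]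

private theorem tcheck_sC (n : ℕ) (c : CDC) (G : PCode) (τ : QCode) (j : ℕ) (U : PCode) :
    pcPoly (n + 1) (sC (qC c) G τ j U) = pcPoly (n + 1) G * (toCD n c).Q ^ j +
      (X 0 - C (qval τ)) * pcPoly (n + 1) U := by
  rw [sC, pcPoly_append, pcPoly_mul, pcPoly_pow, pcPoly_mul, pcPoly_append, pcPoly_neg, pcPoly_tC,
    pcPoly_constC, pcPoly_qC]
  ring

private theorem tcheck_getD {α : Type} (R : ℕ) (f : ℕ → α) (d : α) {i : ℕ} (hi : i < R) :
    (List.ofFn fun j : Fin R => f j).getD i d = f i := by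
  rw [List.getD_eq_getElem _ _ (by rw [List.length_ofFn]; exact hi), List.getElem_ofFn]

private theorem tcheck_list (n m : ℕ) (g : Fin n → MvPolynomial (Fin m) ℚ) :
    ∃ gs : List PCode, ∀ l : Fin n, pcPoly m (gs.getD l []) = g l := by
  choose gc hgc using fun l : Fin n => exists_pcPoly (g l)
  refine ⟨List.ofFn gc, fun l => ?_⟩
  rw [← hgc l, List.getD_eq_getElem _ _ (by rw [List.length_ofFn]; exact l.isLt),
    List.getElem_ofFn]

private theorem tcheck_neC (n : ℕ) (c : CDC) (G : PCode) (K : ℕ) (τ a : QCode) (E : List PCode)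
    (R : PCode) (S : List PCode) :
    pcPoly (n + n) (neC n c G K τ ((a, E), (R, S))) = xP n (qval τ) (pcPoly (n + 1) G) -
      (uP n (C (qval a) + ∑ l : Fin n, pderiv l ((X l - X l ^ 2) * pcPoly n (E.getD l []))) *
        xP n (qval τ) (toCD n c).Q ^ K + pcPoly (n + n) R +
      ∑ l : Fin n, pcPoly (n + n) (S.getD l []) * (xP n (qval τ) ((toCD n c).A l) -
        X (Fin.castAdd n l) * xP n (qval τ) ((toCD n c).B l))) := by
  unfold neC
  rw [pcPoly_append, pcPoly_neg, pcPoly_append, pcPoly_append, pcPoly_mul, pcPoly_trunc_add,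
    pcPoly_append, pcPoly_constC, pcPoly_exC, pcPoly_pow, pcPoly_xC, pcPoly_xC, pcPoly_qC,
    pcPoly_sumRange, ← sub_eq_add_neg]
  congr 2
  refine Finset.sum_congr rfl fun l _ => ?_
  have hl : (l : ℕ) < n + n := by omega
  rw [pcPoly_mul, pcPoly_append, pcPoly_neg, pcPoly_mul, pcPoly_xC, pcPoly_xC, pcPoly_aC,
    pcPoly_bC, pcPoly_var hl, ← sub_eq_add_neg]
  rfl

/-- Proof: as `checkZ_sound` (PP/CodeB.lean or CodeC.lean): `PhiT_eq_zero` for `z i = (z.getD i (0, 0)).1 - (z.getD i (0, 0)).2`, `a i = polyOf (a.getD i [])` (`pcPoly_trunc_inT`), `S` = the polynomial of `sC`, exponent `K + j`;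
`ev_eq_zero` with `summable_PhiT`, `JT_eq_ev`. -/
theorem checkZT_sound {n : ℕ} {c : CDC} {G : PCode} {K : ℕ} {τ : QCode} {x : ZCT} (hc : (toCD n c).Ok)
    (hs : Small (toCD n c) |qval τ|) (h : checkZT n c G K τ x) :
    JT (toCD n c) (pcPoly (n + 1) G) K (qval τ) = 0 := by
  obtain ⟨⟨⟨⟨κ, K'⟩, ρ, L⟩, j, K''⟩, ⟨⟨z, a⟩, g, E⟩, H, U⟩ := x
  obtain ⟨hle, hle', hz, hex, hin⟩ := h
  simp only at hle hle' hz hex hin
  have hS := tcheck_sC n c G τ j U
  obtain ⟨S, hSd⟩ : ∃ S, S = sC (qC c) G τ j U := ⟨_, rfl⟩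
  rw [← hSd] at hS hex hin
  have hcert : IsZeroT (toCD n c) (pcPoly (n + 1) S) (K + j) κ K' ρ L
      (fun i => ((z.getD i (0, 0)).1 : ℤ) - ((z.getD i (0, 0)).2 : ℤ))
      (fun i => polyOf (a.getD i []))
      (fun l => pcPoly (n + 1) (g.getD l [])) K'' (fun l => pcPoly (n + 1) (E.getD l []))
      (pcPoly (n + 1) H) := by
    refine ⟨hle, ?_, ?_, ?_, hle', ?_⟩
    · obtain ⟨i, hi, hne⟩ := hz.1
      refine ⟨i, hi, fun h => hne ?_⟩
      exact_mod_cast sub_eq_zero.1 h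
    · refine le_trans ?_ hz.2
      rw [tcheck_foldr (ρ + 1) fun i => z.getD i (0, 0)]
      refine Finset.sum_le_sum fun i _ => ?_
      omega
    · rw [pcIsZero_iff, exactTC, pcPoly_append, pcPoly_neg, pcPoly_divTC, pcPoly_mul, pcPoly_pow,
        pcPoly_tC, pcPoly_sumRange, ← sub_eq_add_neg, sub_eq_zero] at hex
      rw [← hex, Finset.sum_range]
      congr 1
      refine Finset.sum_congr rfl fun i _ => ?_
      rw [pcPoly_mul, pcPoly_mul, pcPoly_append, pcPoly_constC, pcPoly_mul, pcPoly_tC,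
        pcPoly_trunc_inT, pcPoly_thNC, pcPoly_pow, pcPoly_qC]
      have h1 : qval (z.getD i (0, 0), 0) =
          ((((z.getD i (0, 0)).1 : ℤ) - ((z.getD i (0, 0)).2 : ℤ) : ℤ) : ℚ) := by
        unfold qval
        push_cast
        rw [zero_add, div_one]
      rw [h1]
    · rw [pcIsZero_iff, initTC, pcPoly_append, pcPoly_neg, pcPoly_append, pcPoly_mul, pcPoly_pow,
        pcPoly_divTC, pcPoly_mul, pcPoly_pow, pcPoly_tC, pcPoly_qC, ← sub_eq_add_neg,
        sub_eq_zero] at hin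
      exact hin
  have hPhi := PhiT_eq_zero hc hcert
  rw [hS] at hPhi
  rw [JT_eq_ev hs]
  exact ev_eq_zero (summable_PhiT hs) hPhi

/-- Proof: `JT_ne_zero`, with `nU_le_nuC`. -/
theorem checkNT_sound {n : ℕ} {c : CDC} {G : PCode} {K : ℕ} {τ : QCode} {x : NCT}
    (hs : Small (toCD n c) |qval τ|) (h : checkNT n c G K τ x) :
    JT (toCD n c) (pcPoly (n + 1) G) K (qval τ) ≠ 0 := by
  obtain ⟨⟨a, E⟩, R, S⟩ := x
  obtain ⟨heq, hlt⟩ := h
  simp only at hlt
  rw [pcIsZero_iff, tcheck_neC, sub_eq_zero] at heq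
  rw [qltP_iff, qval_qmul, qval_qnat, qval_qabs, Nat.cast_pow, Nat.cast_ofNat] at hlt
  have hcert : IsNeT (toCD n c) (pcPoly (n + 1) G) K (qval τ) (qval a)
      (fun l => pcPoly n (E.getD l [])) (pcPoly (n + n) R)
      (fun l => pcPoly (n + n) (S.getD l [])) := by
    refine ⟨heq, lt_of_le_of_lt ?_ hlt⟩
    exact mul_le_mul_of_nonneg_left (nU_le_nuC n R) (by positivity)
  exact JT_ne_zero hs hcert

theorem checkT_sound {x : CoreT} {c : CCT} (h : checkT x c) :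
    c.1 = true ↔ JT (toCD x.1.1 x.2.1.1) (pcPoly (x.1.1 + 1) x.2.1.2) x.1.2 (qval x.2.2) = 0 := by
  obtain ⟨h0, hs0, h1 | h1⟩ := h
  · exact ⟨fun _ => checkZT_sound ((okC_iff _ _).1 h0) (small_of_smallC hs0) h1.2, fun _ => h1.1⟩
  · constructor
    · intro h2
      rw [h1.1] at h2
      exact absurd h2 Bool.false_ne_true
    · intro h2
      exact absurd h2 (checkNT_sound (small_of_smallC hs0) h1.2)

/-- Proof: as `checkZ_complete` (PP/CodeC.lean), with `exists_zeroT`. -/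
theorem checkZT_complete {n : ℕ} {c : CDC} {G : PCode} {K j : ℕ} {τ : QCode} {U : TP n ℚ} (hc : (toCD n c).Ok)
    (h : PhiT (toCD n c) (pcPoly (n + 1) G * (toCD n c).Q ^ j + (X 0 - C (qval τ)) * U) (K + j) = 0) :
    ∃ x : ZCT, checkZT n c G K τ x := by
  obtain ⟨u, rfl⟩ := exists_pcPoly U
  have hS := tcheck_sC n c G τ j u
  obtain ⟨S, hSd⟩ : ∃ S, S = sC (qC c) G τ j u := ⟨_, rfl⟩
  rw [← hSd] at hS
  rw [← hS] at h
  obtain ⟨κ, K', ρ, L, z, a, g, K'', E, H, hz⟩ := exists_zeroT hc h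
  obtain ⟨gl, hgl⟩ := tcheck_list n (n + 1) g
  obtain ⟨El, hEl⟩ := tcheck_list n (n + 1) E
  obtain ⟨Hl, hHl⟩ := exists_pcPoly H
  choose cf hcf using fun i => exists_polyOf (a i)
  have hgl' : (fun l : Fin n => pcPoly (n + 1) (gl.getD l [])) = g := _root_.funext hgl
  have hEl' : (fun l : Fin n => pcPoly (n + 1) (El.getD l [])) = E := _root_.funext hEl
  refine ⟨((((κ, K'), (ρ, L)), (j, K'')), ((List.ofFn fun i : Fin (ρ + 1) =>
    ((z i).toNat, (-z i).toNat), List.ofFn fun i : Fin (ρ + 1) => cf i), (gl, El)), (Hl, u)), ?_⟩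
  have hz' : ∀ i < ρ + 1, (List.ofFn fun i : Fin (ρ + 1) =>
      ((z i).toNat, (-z i).toNat)).getD i (0, 0) = ((z i).toNat, (-z i).toNat) := fun i hi =>
    tcheck_getD (ρ + 1) (fun i => ((z i).toNat, (-z i).toNat)) (0, 0) hi
  have hcl : ∀ i < ρ + 1, (List.ofFn fun i : Fin (ρ + 1) => cf i).getD i [] = cf i :=
    fun i hi => tcheck_getD (ρ + 1) cf [] hi
  refine ⟨hz.le, hz.le', ⟨?_, ?_⟩, ?_, ?_⟩
  · obtain ⟨i, hi, hne⟩ := hz.ne
    refine ⟨i, hi, ?_⟩
    show ((List.ofFn fun i : Fin (ρ + 1) => ((z i).toNat, (-z i).toNat)).getD i (0, 0)).1 ≠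
      ((List.ofFn fun i : Fin (ρ + 1) => ((z i).toNat, (-z i).toNat)).getD i (0, 0)).2
    rw [hz' i hi]
    show (z i).toNat ≠ (-z i).toNat
    omega
  · show (List.range (ρ + 1)).foldr (fun i acc =>
      ((List.ofFn fun i : Fin (ρ + 1) => ((z i).toNat, (-z i).toNat)).getD i (0, 0)).1 +
      ((List.ofFn fun i : Fin (ρ + 1) => ((z i).toNat, (-z i).toNat)).getD i (0, 0)).2 + acc) 0 ≤ L
    rw [tcheck_foldr (ρ + 1) fun i =>
      (List.ofFn fun i : Fin (ρ + 1) => ((z i).toNat, (-z i).toNat)).getD i (0, 0)]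
    refine le_trans (Finset.sum_le_sum fun i hi => ?_) hz.sum
    rw [hz' i (Finset.mem_range.1 hi)]
    show (z i).toNat + (-z i).toNat ≤ (z i).natAbs
    omega
  · show pcIsZero (n + 1) (exactTC n c (sC (qC c) G τ j u) (K + j) κ K' ρ
      (List.ofFn fun i : Fin (ρ + 1) => ((z i).toNat, (-z i).toNat))
      (List.ofFn fun i : Fin (ρ + 1) => cf i) gl)
    rw [← hSd, pcIsZero_iff, exactTC, pcPoly_append, pcPoly_neg, pcPoly_divTC, pcPoly_mul,
      pcPoly_pow, pcPoly_tC, pcPoly_sumRange, ← sub_eq_add_neg, sub_eq_zero, hgl', ← hz.exact,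
      Finset.sum_range]
    congr 1
    refine Finset.sum_congr rfl fun i _ => ?_
    rw [hz' i i.2, hcl i i.2, pcPoly_mul, pcPoly_mul, pcPoly_append, pcPoly_constC, pcPoly_mul,
      pcPoly_tC, pcPoly_trunc_inT, pcPoly_thNC, pcPoly_pow, hcf, pcPoly_qC]
    have h1 : qval (((z i).toNat, (-z i).toNat), 0) = ((z i : ℤ) : ℚ) := by
      have h2 := Int.toNat_sub_toNat_neg (z i)
      unfold qval
      have h3 : (((z i).toNat : ℤ) : ℚ) - (((-z i).toNat : ℤ) : ℚ) = ((z i : ℤ) : ℚ) := by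
        rw [← Int.cast_sub, h2]
      rw [Int.cast_natCast, Int.cast_natCast] at h3
      rw [← h3]
      simp
    rw [h1]
  · show pcIsZero (n + 1) (initTC n c (sC (qC c) G τ j u) (K + j) K'' L El Hl)
    rw [← hSd, pcIsZero_iff, initTC, pcPoly_append, pcPoly_neg, pcPoly_append, pcPoly_mul,
      pcPoly_pow, pcPoly_divTC, pcPoly_mul, pcPoly_pow, pcPoly_tC, pcPoly_qC, ← sub_eq_add_neg,
      sub_eq_zero, hHl, hEl']
    exact hz.init

/-- Proof: as `checkN_complete` (PP/CodeC.lean), with `exists_neT` and `exists_pcPoly_nu`. -/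
theorem checkNT_complete {n : ℕ} {c : CDC} {G : PCode} {K : ℕ} {τ : QCode} (hs : Small (toCD n c) |qval τ|)
    (h : JT (toCD n c) (pcPoly (n + 1) G) K (qval τ) ≠ 0) : ∃ x : NCT, checkNT n c G K τ x := by
  obtain ⟨a, E, R, S, hc⟩ := exists_neT hs h
  obtain ⟨ac, rfl⟩ := exists_qval a
  obtain ⟨El, hEl⟩ := tcheck_list n n E
  obtain ⟨r, hr, hrn⟩ := exists_pcPoly_nu R
  obtain ⟨Sl, hSl⟩ := tcheck_list n (n + n) S
  refine ⟨((ac, El), (r, Sl)), ?_, ?_⟩
  · rw [pcIsZero_iff, tcheck_neC, sub_eq_zero, hr]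
    simp only [hEl, hSl]
    exact hc.eq
  · change qltP (qmul (qnat (2 ^ K)) (nuC n r)) (qabs ac)
    rw [qltP_iff, qval_qmul, qval_qnat, qval_qabs, hrn, Nat.cast_pow, Nat.cast_ofNat]
    exact hc.lt

/-- Proof: as `checkC_of_good` (PP/FB.lean). -/
theorem checkT_of_good {n : ℕ} {c : CDC} {τ : QCode} (hc : okC n c) (hs : smallC n c τ)
    (hg : GoodT (toCD n c) (qval τ)) (G : PCode) (K : ℕ) : ∃ c' : CCT, checkT ((n, K), ((c, G), τ)) c' := by
  obtain ⟨hw, hz⟩ := hg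
  by_cases hJ : JT (toCD n c) (pcPoly (n + 1) G) K (qval τ) = 0
  · have hev : ev (qval τ) (PhiT (toCD n c) (pcPoly (n + 1) G) K) = 0 := by
      rw [← JT_eq_ev hw]
      exact hJ
    obtain ⟨j, U, hU⟩ := hz _ _ hev
    obtain ⟨x, hx⟩ := checkZT_complete ((okC_iff n c).1 hc) hU
    exact ⟨(true, (x, (((((0, 0), 0), []), ([], [])) : NCT))), hc, hs, Or.inl ⟨rfl, hx⟩⟩
  · obtain ⟨x, hx⟩ := checkNT_complete hw hJ
    exact ⟨(false, ((((((0, 0), (0, 0)), (0, 0)), (([], []), ([], [])), ([], [])) : ZCT), x)), hc, hs,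
      Or.inr ⟨rfl, hx⟩⟩

end Pool.Agent.Lib.MP_bbe012_lc.PT
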