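import Pool.Agent.Lib.MP_bbe012_lc.PT.TRedB
import Pool.Agent.Lib.MP_bbe012_lc.PT.TCheck

/-!
# Stage 3: soundness of the reduction
-/

namespace Pool.Agent.Lib.MP_bbe012_lc.PT

open MvPolynomial MeasureTheory Set Pool.Agent.Lib.MP_bbe012_lc.PP

/-- Products over the slots.

Proof. `(L.map f).prod = ∏ i ∈ Finset.range L.length, f (L.getD i d)`. The map `b ↦ s b` is a bijection from `{b : Fin ν | s b < L.length}` to `Finset.range L.length` (`h1`, `h2`); the other factors are `1` (`Finset.prod_filter`, `Finset.prod_bij`). -/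
theorem prod_slots {α : Type} (L : List α) (d : α) (f : α → ℝ) {ν : ℕ} (s : Fin ν → ℕ)
    (h1 : ∀ b b', s b < L.length → s b = s b' → b = b') (h2 : ∀ i < L.length, ∃ b, s b = i) :
    (L.map f).prod = ∏ b : Fin ν, if s b < L.length then f (L.getD (s b) d) else 1 := by
  rw [← Fin.prod_univ_fun_getElem, ← Finset.prod_filter]
  symm
  refine Finset.prod_bij (fun b hb => (⟨s b, (Finset.mem_filter.1 hb).2⟩ : Fin L.length))
    (fun _ _ => Finset.mem_univ _) (fun b hb b' hb' h => ?_) (fun i _ => ?_) (fun b hb => ?_)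
  · exact h1 b b' (Finset.mem_filter.1 hb).2 (congrArg Fin.val h)
  · obtain ⟨b, hb⟩ := h2 i i.2
    exact ⟨b, Finset.mem_filter.2 ⟨Finset.mem_univ _, by rw [hb]; exact i.2⟩, Fin.ext hb⟩
  · rw [List.getD_eq_getElem L d (Finset.mem_filter.1 hb).2]

/-- one product -/
private theorem TRedC_prod {E : ExT} {c : RT} (h : rtOK E c) (j : Fin E.length) :
    ((E.getD j []).map citVal).prod =
      ∏ b : Fin (rtM c), JT (toCD (rtN c) (rtB c b).1) (pcPoly (rtN c + 1) (numB E c j b))
        (rtK c + rtN c) (qval (rtT c)) := by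
  obtain ⟨s1, s2, s3⟩ := h.2 j (List.mem_range.2 j.2)
  rw [prod_slots (E.getD j []) triv citVal (ν := rtM c) (fun b => (rtS c j b).1)
    (fun b b' hb hbb => Fin.ext (s2 b (List.mem_range.2 b.2) b' (List.mem_range.2 b'.2) hb hbb))
    (fun i hi => by
      obtain ⟨b, hb, hbi⟩ := s3 i (List.mem_range.2 hi)
      exact ⟨⟨b, List.mem_range.1 hb⟩, hbi⟩)]
  refine Finset.prod_congr rfl fun b _ => ?_
  obtain ⟨o1, o2, o3, -, -⟩ := h.1 b (List.mem_range.2 b.2)
  unfold numB
  by_cases hb : (rtS c j b).1 < (E.getD j []).length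
  · rw [if_pos hb, if_pos hb]
    exact citVal_eqT (s1 b (List.mem_range.2 b.2) hb) o1 o2 o3
  · rw [if_neg hb, if_neg hb, pcPoly_pow, pcPoly_qC, JT_pow_Q (small_of_smallC o3)]

/-- Soundness of the reduction.

Proof. `extVal E = ∑ j : Fin E.length, ((E.getD j []).map citVal).prod` (see `exVal_eq`, PP/RedA.lean), `prod_slots`, `citVal_eqT` for the used slots and `JT_pow_Q` for the others: the factor is `JT (toCD n (rtB c b).1) (pcPoly (n + 1) (numB E c j b)) (k + n) τ` (`pcPoly_qC`, `pcPoly_pow`).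
`JT_blocks` with `cof b = pcPoly (ν * n + 1) (rtB c b).2.2` and `pcPoly_blkC` (PP/RedB.lean), `pcPoly_sumRange`, `pcPoly_prodRange`; the conditions from `blkOK` (`b * n + l` is `finProdFinEquiv (b, l)`), `small_of_smallC`. -/
theorem extVal_eq {E : ExT} {c : RT} (h : rtOK E c) (hs : smallC (rtM c * rtN c) (rtC c) (rtT c)) :
    extVal E = JT (toCD (toCoreT E c).1.1 (toCoreT E c).2.1.1)
      (pcPoly ((toCoreT E c).1.1 + 1) (toCoreT E c).2.1.2) (toCoreT E c).1.2 (qval (toCoreT E c).2.2) := by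
  have e1 : extVal E = ∑ j : Fin E.length, ((E.getD j []).map citVal).prod := by
    unfold extVal
    rw [← Fin.sum_univ_fun_getElem]
    refine Finset.sum_congr rfl fun j _ => ?_
    rw [List.getD_eq_getElem E [] j.2]
  rw [e1, Finset.sum_congr rfl fun j _ => TRedC_prod h j]
  change _ = JT (toCD (rtM c * rtN c) (rtC c))
    (pcPoly (rtM c * rtN c + 1) (pcSumRange E.length fun j => pcProdRange (rtM c) fun b =>
      pcMul (blkC (rtN c) b (numB E c j b)) (pcPow (rtB c b).2.2 (rtK c + rtN c))))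
    (rtM c * (rtK c + rtN c)) (qval (rtT c))
  have e2 : pcPoly (rtM c * rtN c + 1) (pcSumRange E.length fun j => pcProdRange (rtM c) fun b =>
      pcMul (blkC (rtN c) b (numB E c j b)) (pcPow (rtB c b).2.2 (rtK c + rtN c))) =
      ∑ j : Fin E.length, ∏ b : Fin (rtM c), rename (bidx (rtN c) (rtM c) b)
        (pcPoly (rtN c + 1) (numB E c j b)) *
          pcPoly (rtM c * rtN c + 1) (rtB c b).2.2 ^ (rtK c + rtN c) := by
    rw [pcPoly_sumRange]
    refine Finset.sum_congr rfl fun j _ => ?_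
    rw [pcPoly_prodRange]
    refine Finset.prod_congr rfl fun b _ => ?_
    rw [pcPoly_mul, pcPoly_blkC, pcPoly_pow]
  rw [e2]
  have hidx : ∀ (b : Fin (rtM c)) (l : Fin (rtN c)),
      ((finProdFinEquiv (b, l) : Fin (rtM c * rtN c)) : ℕ) = b * rtN c + l := by
    intro b l
    rw [finProdFinEquiv_apply_val, mul_comm]
    exact Nat.add_comm _ _
  refine (JT_blocks (c := fun b => toCD (rtN c) (rtB c b).1)
    (cof := fun b => pcPoly (rtM c * rtN c + 1) (rtB c b).2.2)
    (fun b => small_of_smallC (h.1 b (List.mem_range.2 b.2)).2.2.1) (small_of_smallC hs)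
    (fun b l => ?_) (fun b l => ?_) (fun b => ?_)
    (fun j b => pcPoly (rtN c + 1) (numB E c j b)) (rtK c + rtN c)).symm
  · have h1 := ((h.1 b (List.mem_range.2 b.2)).2.2.2.1 l (List.mem_range.2 l.2)).1
    rw [pcIsZero_iff, pcPoly_append, pcPoly_neg, pcPoly_blkC, ← sub_eq_add_neg, sub_eq_zero,
      ← hidx] at h1
    exact h1.symm
  · have h1 := ((h.1 b (List.mem_range.2 b.2)).2.2.2.1 l (List.mem_range.2 l.2)).2
    rw [pcIsZero_iff, pcPoly_append, pcPoly_neg, pcPoly_blkC, ← sub_eq_add_neg, sub_eq_zero,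
      ← hidx] at h1
    exact h1.symm
  · have h1 := (h.1 b (List.mem_range.2 b.2)).2.2.2.2
    rw [pcIsZero_iff, pcPoly_append, pcPoly_neg, pcPoly_mul, pcPoly_blkC, pcPoly_qC, pcPoly_qC,
      ← sub_eq_add_neg, sub_eq_zero] at h1
    exact h1

theorem checkFT_sound {E : ExT} {c : FT} (h : checkFT E c) : c.2.1 = true ↔ extVal E = 0 := by
  obtain ⟨h1, h2⟩ := h
  have hs : smallC (rtM c.1 * rtN c.1) (rtC c.1) (rtT c.1) := h2.2.1
  rw [extVal_eq h1 hs]
  exact checkT_sound h2

end Pool.Agent.Lib.MP_bbe012_lc.PT
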