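import Pool.Agent.Lib.MP_bbe012_lc.PT.TUniv
import Pool.Agent.Lib.MP_bbe012_lc.PT.TCodeA
import Pool.Agent.Lib.MP_bbe012_lc.PT.TCodeB
import Pool.Agent.Lib.MP_bbe012_lc.PP.RedB
import Pool.Agent.Lib.MP_bbe012_lc.PP.RedC

/-!
# Stage 3: existence of the data of a reduction
-/

namespace Pool.Agent.Lib.MP_bbe012_lc.PT

open MvPolynomial Pool.Agent.Lib.MP_bbe012_lc.PP

/-- Proof: `pcIsZero_iff`, `pcPoly_evC`, `pcPoly_aC`, `pcPoly_bC`, `pcPoly_qC`; `exists_pcPoly` for the cofactor. -/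
theorem exists_itemOK {n : ℕ} {τ : QCode} {c : CDC} {I : CIT} (h : ItemSem n (qval τ) (toCD n c) I) :
    ∃ k₀ : ℕ, ∀ k, k₀ ≤ k → ∃ W : PCode, itemOK n τ k c I W := by
  obtain ⟨h1, h2, h3, k₀, h4⟩ := h
  refine ⟨k₀, fun k hk => ?_⟩
  obtain ⟨W0, hW0⟩ := h4.trans (pow_dvd_pow _ hk)
  obtain ⟨W, hW⟩ := exists_pcPoly W0
  refine ⟨W, h1, h2, fun l hl => ?_, ?_⟩
  · rw [List.mem_range] at hl
    obtain ⟨ha, hb⟩ := h3 ⟨l, hl⟩
    have ha' := pcPoly_aC n c ⟨l, hl⟩
    have hb' := pcPoly_bC n c ⟨l, hl⟩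
    dsimp only at ha hb ha' hb'
    constructor
    · rw [pcIsZero_iff, pcPoly_append, pcPoly_neg, pcPoly_evC, ha', ha, add_neg_cancel]
    · rw [pcIsZero_iff, pcPoly_append, pcPoly_neg, pcPoly_evC, hb', hb, add_neg_cancel]
  · rw [pcIsZero_iff, pcPoly_append, pcPoly_neg, pcPoly_mul, pcPoly_pow, pcPoly_evC, pcPoly_qC, hW,
      ← hW0, add_neg_cancel]

/-- Existence of the data of a reduction.

Proof. Codes `x k` of the charts `c k` and `x₀` of `T` (`exists_cdc`), `J k` (`exists_jokC`), codes of the `cof b` (`exists_pcPoly`). Blocks: `List.ofFn fun b : Fin (μ * δ) => (x k, (J k, cofcode b))` with `k = (finProdFinEquiv.symm b).1`. A common exponent `k₀` for all items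
(`exists_itemOK`; finitely many items: supremum over `j < E.length`, `i < (E.getD j []).length`, as in `exists_rcU`, PP/FC.lean). For the item `i` of the product `j` let `κ j i : Fin μ` be its type. Slot `(j, b)` with `(k, i) = finProdFinEquiv.symm b`: `(i, W)` if `i < (E.getD j []).length` and `κ j i = k`, else
`((E.getD j []).length, [])`. A used slot `b` is `finProdFinEquiv (κ j i, i)`, so it is determined by `i`, and for every `i < length ≤ δ` it exists. `blkOK`: `okC_iff`, `pcIsZero_iff`, `pcPoly_blkC` (PP/RedB.lean), `toCD _ x₀ = T`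
(`cdP x₀ (b * n + l)` is the code of `T.p (finProdFinEquiv (b, l))`). -/
theorem exists_rt {n μ δ : ℕ} (c : Fin μ → CD n ℚ) (T : CD (μ * δ * n) ℚ) (cof : Fin (μ * δ) → TP (μ * δ * n) ℚ)
    (hc : ∀ k, (c k).Ok)
    (hp : ∀ (b : Fin (μ * δ)) (l : Fin n),
      T.p (finProdFinEquiv (b, l)) = rename (bidx n (μ * δ) b) ((c (finProdFinEquiv.symm b).1).p l))
    (hq : ∀ (b : Fin (μ * δ)) (l : Fin n),
      T.q (finProdFinEquiv (b, l)) = rename (bidx n (μ * δ) b) ((c (finProdFinEquiv.symm b).1).q l))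
    (hQ : ∀ b : Fin (μ * δ), rename (bidx n (μ * δ) b) (c (finProdFinEquiv.symm b).1).Q * cof b = T.Q)
    (τ : QCode) (hs : ∀ k, Small (c k) |qval τ|) {E : ExT}
    (hE : ∀ L ∈ E, L.length ≤ δ ∧ ∀ I ∈ L, ∃ k, ItemSem n (qval τ) (c k) I) :
    ∃ r : RT, rtOK E r ∧ rtT r = τ ∧ rtM r = μ * δ ∧ rtN r = n ∧ toCD (μ * δ * n) (rtC r) = T ∧
      (Small T |qval τ| → smallC (μ * δ * n) (rtC r) τ) := by
  classical
  choose x hx hxs using fun k => exists_cdc (c k)
  obtain ⟨x₀, hx₀, hx₀s⟩ := exists_cdc T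
  have hok : ∀ k, okC n (x k) := fun k => (okC_iff n (x k)).2 (by rw [hx]; exact hc k)
  choose J hJ using fun k => exists_jokC (hok k)
  choose cc hcc using fun b => exists_pcPoly (cof b)
  -- the items
  have hlen : ∀ j : ℕ, j < E.length → (E.getD j []).length ≤ δ := by
    intro j hj
    rw [List.getD_eq_getElem _ _ hj]
    exact (hE _ (List.getElem_mem hj)).1
  have hit : ∀ j i : ℕ, j < E.length → i < (E.getD j []).length →
      ∃ k : Fin μ, ItemSem n (qval τ) (c k) (itemT E j i) := by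
    intro j i hj hi
    have h1 : E.getD j [] ∈ E := by
      rw [List.getD_eq_getElem _ _ hj]
      exact List.getElem_mem hj
    have h2 : itemT E j i ∈ E.getD j [] := by
      unfold itemT
      rw [List.getD_eq_getElem _ _ hi]
      exact List.getElem_mem hi
    exact (hE _ h1).2 _ h2
  choose κ hκ using hit
  have hk0 : ∀ (j i : ℕ) (hj : j < E.length) (hi : i < (E.getD j []).length),
      ∃ k₀ : ℕ, ∀ k, k₀ ≤ k → ∃ W : PCode, itemOK n τ k (x (κ j i hj hi)) (itemT E j i) W := by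
    intro j i hj hi
    apply exists_itemOK
    rw [hx]
    exact hκ j i hj hi
  choose k₀ hk₀ using hk0
  obtain ⟨K, hK⟩ : ∃ K : ℕ, ∀ (j i : ℕ) (hj : j < E.length) (hi : i < (E.getD j []).length),
      k₀ j i hj hi ≤ K := by
    refine ⟨(Finset.univ : Finset (Σ j : Fin E.length, Fin (E.getD j []).length)).sup
      fun p => k₀ p.1 p.2 p.1.2 p.2.2, fun j i hj hi => ?_⟩
    exact Finset.le_sup (f := fun p : (Σ j : Fin E.length, Fin (E.getD j []).length) =>
      k₀ p.1 p.2 p.1.2 p.2.2) (b := ⟨⟨j, hj⟩, ⟨i, hi⟩⟩) (Finset.mem_univ _)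
  have hW' : ∀ (j i : ℕ) (hj : j < E.length) (hi : i < (E.getD j []).length),
      ∃ W : PCode, itemOK n τ K (x (κ j i hj hi)) (itemT E j i) W :=
    fun j i hj hi => hk₀ j i hj hi K (hK j i hj hi)
  choose W hW using hW'
  -- the slots
  obtain ⟨slot, hslot⟩ : ∃ slot : Fin E.length → Fin (μ * δ) → ℕ × PCode,
      ∀ (j : Fin E.length) (b : Fin (μ * δ)),
      ((∃ h : ((finProdFinEquiv.symm b).2 : ℕ) < (E.getD j []).length,
        κ j (finProdFinEquiv.symm b).2 j.2 h = (finProdFinEquiv.symm b).1 ∧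
          slot j b = (((finProdFinEquiv.symm b).2 : ℕ), W j (finProdFinEquiv.symm b).2 j.2 h)) ∨
        ((¬ ∃ h : ((finProdFinEquiv.symm b).2 : ℕ) < (E.getD j []).length,
          κ j (finProdFinEquiv.symm b).2 j.2 h = (finProdFinEquiv.symm b).1) ∧
          slot j b = ((E.getD j []).length, []))) := by
    refine ⟨fun (j : Fin E.length) (b : Fin (μ * δ)) => if h : ∃ h : ((finProdFinEquiv.symm b).2 : ℕ) < (E.getD j []).length,
      κ j (finProdFinEquiv.symm b).2 j.2 h = (finProdFinEquiv.symm b).1 then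
        (((finProdFinEquiv.symm b).2 : ℕ), W j (finProdFinEquiv.symm b).2 j.2 h.1)
        else ((E.getD j []).length, []), fun j b => ?_⟩
    by_cases h : ∃ h : ((finProdFinEquiv.symm b).2 : ℕ) < (E.getD j []).length,
      κ j (finProdFinEquiv.symm b).2 j.2 h = (finProdFinEquiv.symm b).1
    · left
      exact ⟨h.1, h.2, dif_pos h⟩
    · right
      exact ⟨h, dif_neg h⟩
  obtain ⟨bl, hbl⟩ : ∃ bl : Fin (μ * δ) → Blk, ∀ b, bl b =
      (x (finProdFinEquiv.symm b).1, (J (finProdFinEquiv.symm b).1, cc b)) := ⟨_, fun _ => rfl⟩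
  obtain ⟨r, hr⟩ : ∃ r : RT, r = ((((n, μ * δ), K), τ), ((List.ofFn bl, x₀),
    List.ofFn fun j => List.ofFn fun b => slot j b)) := ⟨_, rfl⟩
  have rN : rtN r = n := by rw [hr]; rfl
  have rM : rtM r = μ * δ := by rw [hr]; rfl
  have rK : rtK r = K := by rw [hr]; rfl
  have rT : rtT r = τ := by rw [hr]; rfl
  have rC : rtC r = x₀ := by rw [hr]; rfl
  have rB : ∀ (b : ℕ) (hb : b < μ * δ), rtB r b = bl ⟨b, hb⟩ := by
    intro b hb
    rw [hr]
    unfold rtB
    dsimp only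
    rw [List.getD_eq_getElem _ _ (by rw [List.length_ofFn]; exact hb), List.getElem_ofFn]
  have rS : ∀ (j b : ℕ) (hj : j < E.length) (hb : b < μ * δ), rtS r j b = slot ⟨j, hj⟩ ⟨b, hb⟩ := by
    intro j b hj hb
    rw [hr]
    unfold rtS
    dsimp only
    have hA : (List.ofFn fun j => List.ofFn fun b => slot j b).getD j [] =
        List.ofFn fun b => slot ⟨j, hj⟩ b := by
      rw [List.getD_eq_getElem _ _ (by rw [List.length_ofFn]; exact hj), List.getElem_ofFn]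
    rw [hA, List.getD_eq_getElem _ _ (by rw [List.length_ofFn]; exact hb), List.getElem_ofFn]
  -- polynomials of the codes
  have hval : ∀ (b : Fin (μ * δ)) (l : Fin n), (b : ℕ) * n + l = (finProdFinEquiv (b, l) : ℕ) := by
    intro b l
    rw [finProdFinEquiv_apply_val]
    show (b : ℕ) * n + l = (l : ℕ) + n * b
    rw [Nat.mul_comm, Nat.add_comm]
  have hP1 : ∀ (k : Fin μ) (l : Fin n), pcPoly (n + 1) (cdP (x k) l) = (c k).p l := by
    intro k l
    rw [← hx k]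
    rfl
  have hQ1 : ∀ (k : Fin μ) (l : Fin n), pcPoly (n + 1) (cdQ (x k) l) = (c k).q l := by
    intro k l
    rw [← hx k]
    rfl
  have hP2 : ∀ l : Fin (μ * δ * n), pcPoly (μ * δ * n + 1) (cdP x₀ l) = T.p l := by
    intro l
    rw [← hx₀]
    rfl
  have hQ2 : ∀ l : Fin (μ * δ * n), pcPoly (μ * δ * n + 1) (cdQ x₀ l) = T.q l := by
    intro l
    rw [← hx₀]
    rfl
  refine ⟨r, ⟨?_, ?_⟩, rT, rM, rN, by rw [rC]; exact hx₀, fun h => by rw [rC]; exact hx₀s τ h⟩
  · -- the blocks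
    intro b hb
    rw [List.mem_range, rM] at hb
    obtain ⟨k, hk⟩ : ∃ k, k = (finProdFinEquiv.symm (⟨b, hb⟩ : Fin (μ * δ))).1 := ⟨_, rfl⟩
    unfold blkOK
    rw [rB b hb, hbl, rN, rM, rT, rC]
    dsimp only
    rw [← hk]
    refine ⟨hok k, hJ k, hxs k τ (hs k), fun l hl => ?_, ?_⟩
    · rw [List.mem_range] at hl
      constructor
      · have e1 := hP1 k ⟨l, hl⟩
        have e2 := hP2 (finProdFinEquiv ((⟨b, hb⟩ : Fin (μ * δ)), (⟨l, hl⟩ : Fin n)))
        rw [← hval] at e2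
        dsimp only at e1 e2
        rw [pcIsZero_iff, pcPoly_append, pcPoly_neg, e2, hp ⟨b, hb⟩ ⟨l, hl⟩, ← hk, ← e1]
        have e3 := pcPoly_blkC n (μ * δ) ⟨b, hb⟩ (cdP (x k) l)
        dsimp only at e3
        rw [e3, add_neg_cancel]
      · have e1 := hQ1 k ⟨l, hl⟩
        have e2 := hQ2 (finProdFinEquiv ((⟨b, hb⟩ : Fin (μ * δ)), (⟨l, hl⟩ : Fin n)))
        rw [← hval] at e2
        dsimp only at e1 e2
        rw [pcIsZero_iff, pcPoly_append, pcPoly_neg, e2, hq ⟨b, hb⟩ ⟨l, hl⟩, ← hk, ← e1]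
        have e3 := pcPoly_blkC n (μ * δ) ⟨b, hb⟩ (cdQ (x k) l)
        dsimp only at e3
        rw [e3, add_neg_cancel]
    · have e3 := pcPoly_blkC n (μ * δ) ⟨b, hb⟩ (qC (x k))
      dsimp only at e3
      rw [pcIsZero_iff, pcPoly_append, pcPoly_neg, pcPoly_mul, e3, pcPoly_qC, pcPoly_qC, hx, hx₀, hcc,
        hk, hQ, add_neg_cancel]
  · -- the slots
    intro j hj
    rw [List.mem_range] at hj
    have hused : ∀ (b : ℕ) (hb : b < μ * δ), (rtS r j b).1 < (E.getD j []).length →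
        ∃ h : ((finProdFinEquiv.symm (⟨b, hb⟩ : Fin (μ * δ))).2 : ℕ) < (E.getD j []).length,
          κ j (finProdFinEquiv.symm (⟨b, hb⟩ : Fin (μ * δ))).2 hj h =
            (finProdFinEquiv.symm (⟨b, hb⟩ : Fin (μ * δ))).1 ∧
          rtS r j b = (((finProdFinEquiv.symm (⟨b, hb⟩ : Fin (μ * δ))).2 : ℕ),
            W j (finProdFinEquiv.symm (⟨b, hb⟩ : Fin (μ * δ))).2 hj h) := by
      intro b hb hlt
      rcases hslot ⟨j, hj⟩ ⟨b, hb⟩ with ⟨h1, h2, h3⟩ | ⟨_, h3⟩
      · exact ⟨h1, h2, (rS j b hj hb).trans h3⟩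
      · rw [rS j b hj hb, h3] at hlt
        exact absurd hlt (lt_irrefl _)
    refine ⟨?_, ?_, ?_⟩
    · intro b hb hlt
      rw [List.mem_range, rM] at hb
      obtain ⟨h1, h2, h3⟩ := hused b hb hlt
      rw [h3, rB b hb, hbl, rN, rT, rK]
      dsimp only
      rw [← h2]
      exact hW j _ hj h1
    · intro b hb b' hb' hlt heq
      rw [List.mem_range, rM] at hb hb'
      obtain ⟨h1, h2, h3⟩ := hused b hb hlt
      obtain ⟨h1', h2', h3'⟩ := hused b' hb' (by rw [← heq]; exact hlt)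
      rw [h3, h3'] at heq
      dsimp only at heq
      have h4 : (finProdFinEquiv.symm (⟨b, hb⟩ : Fin (μ * δ))).2 =
          (finProdFinEquiv.symm (⟨b', hb'⟩ : Fin (μ * δ))).2 := Fin.ext heq
      have h5 : (finProdFinEquiv.symm (⟨b, hb⟩ : Fin (μ * δ))).1 =
          (finProdFinEquiv.symm (⟨b', hb'⟩ : Fin (μ * δ))).1 := by
        rw [← h2, ← h2']
        simp only [h4]
      exact congrArg Fin.val (finProdFinEquiv.symm.injective (Prod.ext h5 h4))
    · intro i hi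
      rw [List.mem_range] at hi
      have hiδ : i < δ := lt_of_lt_of_le hi (hlen j hj)
      obtain ⟨b, hb⟩ : ∃ b : Fin (μ * δ), b = finProdFinEquiv (κ j i hj hi, (⟨i, hiδ⟩ : Fin δ)) :=
        ⟨_, rfl⟩
      refine ⟨b, by rw [List.mem_range, rM]; exact b.2, ?_⟩
      have e1 : finProdFinEquiv.symm b = (κ j i hj hi, (⟨i, hiδ⟩ : Fin δ)) := by
        rw [hb, Equiv.symm_apply_apply]
      rw [rS j b hj b.2]
      rcases hslot ⟨j, hj⟩ b with ⟨h1, h2, h3⟩ | ⟨h1, h3⟩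
      · have h4 : slot ⟨j, hj⟩ ⟨(b : ℕ), b.2⟩ = slot ⟨j, hj⟩ b := rfl
        rw [h4, h3]
        dsimp only
        rw [e1]
      · exfalso
        apply h1
        rw [e1]
        exact ⟨hi, rfl⟩

end Pool.Agent.Lib.MP_bbe012_lc.PT
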