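import Pool.Agent.Lib.MP_bbe012_lc.PT.TPrimA

/-!
# Stage 3: the verification is primitive recursive
-/

namespace Pool.Agent.Lib.MP_bbe012_lc.PT

open Primrec Pool.Agent.Lib.MP_bbe012_lc.PP

instance instPrimcodableZCTA : Primcodable (((ℕ × ℕ) × (ℕ × ℕ)) × (ℕ × ℕ)) := inferInstance

instance instPrimcodableZCT : Primcodable ZCT :=
  @Primcodable.prod _ _ instPrimcodableZCTA (@Primcodable.prod _ _ instPrimcodableZCertB instPrimcodableZCertC)

instance instPrimcodableNCTA : Primcodable (PCode × List PCode) :=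
  @Primcodable.prod _ _ inferInstance instPrimcodableListP

instance instPrimcodableNCT : Primcodable NCT := @Primcodable.prod _ _ instPrimcodableNCertA instPrimcodableNCTA

instance instPrimcodableCCTA : Primcodable (ZCT × NCT) := @Primcodable.prod _ _ instPrimcodableZCT instPrimcodableNCT

instance instPrimcodableCCT : Primcodable CCT := @Primcodable.prod _ _ inferInstance instPrimcodableCCTA

instance instPrimcodableCoreTA : Primcodable (CDC × PCode) := @Primcodable.prod _ _ instPrimcodableCDC inferInstance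

instance instPrimcodableCoreTB : Primcodable ((CDC × PCode) × QCode) :=
  @Primcodable.prod _ _ instPrimcodableCoreTA inferInstance

instance instPrimcodableCoreT : Primcodable CoreT := @Primcodable.prod _ _ inferInstance instPrimcodableCoreTB

instance instPrimcodableCoreTC : Primcodable (CoreT × CCT) :=
  @Primcodable.prod _ _ instPrimcodableCoreT instPrimcodableCCT

variable {α : Type} [Primcodable α]

theorem pr_exactTC {n K κ K' ρ : α → ℕ} {c : α → CDC} {S : α → PCode} {z : α → List (ℕ × ℕ)}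
    {a g : α → List PCode} (hn : Primrec n) (hc : Primrec c) (hS : Primrec S) (hK : Primrec K)
    (hκ : Primrec κ) (hK' : Primrec K') (hρ : Primrec ρ) (hz : Primrec z) (ha : Primrec a) (hg : Primrec g) :
    Primrec fun x => exactTC (n x) (c x) (S x) (K x) (κ x) (K' x) (ρ x) (z x) (a x) (g x) := by
  have hz1 : Primrec fun q : α × ℕ => (((z q.1).getD q.2 (0, 0), 0) : QCode) :=
    pair ((list_getD (0, 0)).comp (hz.comp fst) snd) (const 0)
  have ha1 : Primrec fun q : α × ℕ => (a q.1).getD q.2 [] := (list_getD []).comp (ha.comp fst) snd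
  have hA : Primrec fun q : α × ℕ => constC ((z q.1).getD q.2 (0, 0), 0) ++
      pcMul tC (pcTrunc 1 ((a q.1).getD q.2 [])) :=
    pr_append (pr_constC hz1) (pr_mul pr_tC (pr_trunc (const 1) ha1))
  have hT : Primrec fun q : α × ℕ => thNC (n q.1) (c q.1) (K q.1) (S q.1) q.2 :=
    pr_thNC (hn.comp fst) (hc.comp fst) (hK.comp fst) (hS.comp fst) snd
  have hE : Primrec fun q : α × ℕ => K' q.1 + 4 - (K q.1 + 2 * q.2) :=
    nat_sub.comp (nat_add.comp (hK'.comp fst) (const 4))
      (nat_add.comp (hK.comp fst) (nat_mul.comp (const 2) snd))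
  have hQ : Primrec fun q : α × ℕ => qC (c q.1) := pr_qC (hc.comp fst)
  have hsum : Primrec fun x => pcSumRange (ρ x + 1) fun i =>
      pcMul (pcMul (constC ((z x).getD i (0, 0), 0) ++ pcMul tC (pcTrunc 1 ((a x).getD i [])))
        (thNC (n x) (c x) (K x) (S x) i)) (pcPow (qC (c x)) (K' x + 4 - (K x + 2 * i))) :=
    pr_sumRange (g := fun x i =>
      pcMul (pcMul (constC ((z x).getD i (0, 0), 0) ++ pcMul tC (pcTrunc 1 ((a x).getD i [])))
        (thNC (n x) (c x) (K x) (S x) i)) (pcPow (qC (c x)) (K' x + 4 - (K x + 2 * i))))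
      (succ.comp hρ) (pr_mul (pr_mul hA hT) (pr_pow hQ hE)).to₂
  exact pr_append (pr_mul (pr_pow pr_tC hκ) hsum) (pr_neg (pr_divTC hn hc hK' hg))

theorem pr_initTC {n K K'' L : α → ℕ} {c : α → CDC} {S H : α → PCode} {E : α → List PCode} (hn : Primrec n)
    (hc : Primrec c) (hS : Primrec S) (hK : Primrec K) (hK'' : Primrec K'') (hL : Primrec L) (hE : Primrec E)
    (hH : Primrec H) : Primrec fun x => initTC (n x) (c x) (S x) (K x) (K'' x) (L x) (E x) (H x) := by
  have hsub : Primrec fun x => K'' x + 4 - K x :=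
    nat_sub.comp (nat_add.comp hK'' (const 4)) hK
  exact pr_append (pr_mul hS (pr_pow (pr_qC hc) hsub)) (pr_neg (pr_append (pr_divTC hn hc hK'' hE)
    (pr_mul (pr_pow pr_tC (succ.comp hL)) hH)))

theorem pr_checkZT {n K : α → ℕ} {c : α → CDC} {G : α → PCode} {τ : α → QCode} {x : α → ZCT} (hn : Primrec n)
    (hc : Primrec c) (hG : Primrec G) (hK : Primrec K) (hτ : Primrec τ) (hx : Primrec x) :
    PrimrecPred fun a => checkZT (n a) (c a) (G a) (K a) (τ a) (x a) := by
  have z1 : Primrec fun a => (x a).1 := fst.comp hx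
  have z2 : Primrec fun a => (x a).2 := snd.comp hx
  have zκ : Primrec fun a => (x a).1.1.1.1 := fst.comp (fst.comp (fst.comp z1))
  have zK' : Primrec fun a => (x a).1.1.1.2 := snd.comp (fst.comp (fst.comp z1))
  have zρ : Primrec fun a => (x a).1.1.2.1 := fst.comp (snd.comp (fst.comp z1))
  have zL : Primrec fun a => (x a).1.1.2.2 := snd.comp (snd.comp (fst.comp z1))
  have zj : Primrec fun a => (x a).1.2.1 := fst.comp (snd.comp z1)
  have zK'' : Primrec fun a => (x a).1.2.2 := snd.comp (snd.comp z1)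
  have zz : Primrec fun a => (x a).2.1.1.1 := fst.comp (fst.comp (fst.comp z2))
  have za : Primrec fun a => (x a).2.1.1.2 := snd.comp (fst.comp (fst.comp z2))
  have zg : Primrec fun a => (x a).2.1.2.1 := fst.comp (snd.comp (fst.comp z2))
  have zE : Primrec fun a => (x a).2.1.2.2 := snd.comp (snd.comp (fst.comp z2))
  have zH : Primrec fun a => (x a).2.2.1 := fst.comp (snd.comp z2)
  have zU : Primrec fun a => (x a).2.2.2 := snd.comp (snd.comp z2)
  have hS : Primrec fun a => sC (qC (c a)) (G a) (τ a) (x a).1.2.1 (x a).2.2.2 :=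
    pr_sC (pr_qC hc) hG hτ zj zU
  have hKj : Primrec fun a => K a + (x a).1.2.1 := nat_add.comp hK zj
  have hZ1 : PrimrecPred fun a => K a + (x a).1.2.1 + 2 * (x a).1.1.2.1 ≤ (x a).1.1.1.2 + 4 :=
    nat_le.comp (nat_add.comp hKj (nat_mul.comp (const 2) zρ)) (nat_add.comp zK' (const 4))
  have hZ1' : PrimrecPred fun a => K a + (x a).1.2.1 ≤ (x a).1.2.2 + 4 :=
    nat_le.comp hKj (nat_add.comp zK'' (const 4))
  have hZ2 : PrimrecPred fun a => zOK (x a).1.1.2.1 (x a).1.1.2.2 (x a).2.1.1.1 := pr_zOK zρ zL zz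
  have hZ3 : PrimrecPred fun a => pcIsZero (n a + 1) (exactTC (n a) (c a)
      (sC (qC (c a)) (G a) (τ a) (x a).1.2.1 (x a).2.2.2) (K a + (x a).1.2.1) (x a).1.1.1.1
      (x a).1.1.1.2 (x a).1.1.2.1 (x a).2.1.1.1 (x a).2.1.1.2 (x a).2.1.2.1) :=
    pr_isZero (succ.comp hn) (pr_exactTC hn hc hS hKj zκ zK' zρ zz za zg)
  have hZ4 : PrimrecPred fun a => pcIsZero (n a + 1) (initTC (n a) (c a)
      (sC (qC (c a)) (G a) (τ a) (x a).1.2.1 (x a).2.2.2) (K a + (x a).1.2.1) (x a).1.2.2
      (x a).1.1.2.2 (x a).2.1.2.2 (x a).2.2.1) :=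
    pr_isZero (succ.comp hn) (pr_initTC hn hc hS hKj zK'' zL zE zH)
  exact hZ1.and (hZ1'.and (hZ2.and (hZ3.and hZ4)))

private theorem tPrimB_exC {n : α → ℕ} {E : α → List PCode} (hn : Primrec n) (hE : Primrec E) :
    Primrec fun a => exC (n a) (E a) := by
  have hg1 : Primrec fun q : α × ℕ => (E q.1).getD q.2 [] := (list_getD []).comp (hE.comp fst) snd
  have hl : Primrec fun q : α × ℕ => q.2 := snd
  exact pr_sumRange (g := fun a l =>
    pcDer l (pcMul (pcVar l ++ pcNeg (pcMul (pcVar l) (pcVar l))) ((E a).getD l []))) hn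
    (pr_der hl (pr_mul (pr_append (pr_var hl) (pr_neg (pr_mul (pr_var hl) (pr_var hl)))) hg1)).to₂

theorem pr_neC {n K : α → ℕ} {c : α → CDC} {G : α → PCode} {τ : α → QCode} {x : α → NCT} (hn : Primrec n)
    (hc : Primrec c) (hG : Primrec G) (hK : Primrec K) (hτ : Primrec τ) (hx : Primrec x) :
    Primrec fun a => neC (n a) (c a) (G a) (K a) (τ a) (x a) := by
  have x1 : Primrec fun a => (x a).1.1 := fst.comp (fst.comp hx)
  have x2 : Primrec fun a => (x a).1.2 := snd.comp (fst.comp hx)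
  have x3 : Primrec fun a => (x a).2.1 := fst.comp (snd.comp hx)
  have x4 : Primrec fun a => (x a).2.2 := snd.comp (snd.comp hx)
  have hn1 : Primrec fun q : α × ℕ => n q.1 := hn.comp fst
  have hτ1 : Primrec fun q : α × ℕ => τ q.1 := hτ.comp fst
  have hc1 : Primrec fun q : α × ℕ => c q.1 := hc.comp fst
  have hl : Primrec fun q : α × ℕ => q.2 := snd
  have hU : Primrec fun q : α × ℕ => (x q.1).2.2.getD q.2 [] := (list_getD []).comp (x4.comp fst) snd
  have hsum : Primrec fun a => pcSumRange (n a) fun l => pcMul ((x a).2.2.getD l [])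
      (xC (n a) (τ a) (aC (c a) l) ++ pcNeg (pcMul (pcVar l) (xC (n a) (τ a) (bC (c a) l)))) :=
    pr_sumRange (g := fun a l => pcMul ((x a).2.2.getD l [])
      (xC (n a) (τ a) (aC (c a) l) ++ pcNeg (pcMul (pcVar l) (xC (n a) (τ a) (bC (c a) l))))) hn
      (pr_mul hU (pr_append (pr_xC hn1 hτ1 (pr_aC hc1 hl))
        (pr_neg (pr_mul (pr_var hl) (pr_xC hn1 hτ1 (pr_bC hc1 hl)))))).to₂
  exact pr_append (pr_xC hn hτ hG) (pr_neg (pr_append (pr_append
    (pr_mul (pr_trunc hn (pr_append (pr_constC x1) (tPrimB_exC hn x2)))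
      (pr_pow (pr_xC hn hτ (pr_qC hc)) hK)) x3) hsum))

private theorem tPrimB_pow {K : α → ℕ} (hK : Primrec K) : Primrec fun a => 2 ^ K a := by
  have h : Primrec₂ fun (_ : α) (p : ℕ × ℕ) => p.2 * 2 :=
    (nat_mul.comp (snd.comp snd) (const 2)).to₂
  refine (nat_rec' hK (const 1) h).of_eq fun y => ?_
  have hk : ∀ k : ℕ, (Nat.rec (motive := fun _ => ℕ) 1 (fun _ r => r * 2) k : ℕ) = 2 ^ k := by
    intro k
    induction k with
    | zero => rfl
    | succ k ih => rw [pow_succ, ← ih]
  exact hk _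

theorem pr_checkNT {n K : α → ℕ} {c : α → CDC} {G : α → PCode} {τ : α → QCode} {x : α → NCT} (hn : Primrec n)
    (hc : Primrec c) (hG : Primrec G) (hK : Primrec K) (hτ : Primrec τ) (hx : Primrec x) :
    PrimrecPred fun a => checkNT (n a) (c a) (G a) (K a) (τ a) (x a) := by
  have x1 : Primrec fun a => (x a).1.1 := fst.comp (fst.comp hx)
  have x3 : Primrec fun a => (x a).2.1 := fst.comp (snd.comp hx)
  have h1 : PrimrecPred fun a => pcIsZero (n a + n a) (neC (n a) (c a) (G a) (K a) (τ a) (x a)) :=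
    pr_isZero (nat_add.comp hn hn) (pr_neC hn hc hG hK hτ hx)
  have h2 : PrimrecPred fun a =>
      qltP (qmul (qnat (2 ^ K a)) (nuC (n a) (x a).2.1)) (qabs (x a).1.1) :=
    pr_qltP (primrec_qmul.comp (primrec_qnat.comp (tPrimB_pow hK)) (pr_nuC hn x3)) (pr_qabs x1)
  exact h1.and h2

theorem primrecPred_checkT : PrimrecPred fun y : CoreT × CCT => checkT y.1 y.2 := by
  have hn : Primrec fun y : CoreT × CCT => y.1.1.1 := fst.comp (fst.comp fst)
  have hK : Primrec fun y : CoreT × CCT => y.1.1.2 := snd.comp (fst.comp fst)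
  have hc : Primrec fun y : CoreT × CCT => y.1.2.1.1 := fst.comp (fst.comp (snd.comp fst))
  have hG : Primrec fun y : CoreT × CCT => y.1.2.1.2 := snd.comp (fst.comp (snd.comp fst))
  have hτ : Primrec fun y : CoreT × CCT => y.1.2.2 := snd.comp (snd.comp fst)
  have hb : Primrec fun y : CoreT × CCT => y.2.1 := fst.comp snd
  have hZ : Primrec fun y : CoreT × CCT => y.2.2.1 := fst.comp (snd.comp snd)
  have hN : Primrec fun y : CoreT × CCT => y.2.2.2 := snd.comp (snd.comp snd)
  have hb1 : PrimrecPred fun y : CoreT × CCT => y.2.1 = true := Primrec.eq.comp hb (const true)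
  have hb2 : PrimrecPred fun y : CoreT × CCT => y.2.1 = false := Primrec.eq.comp hb (const false)
  exact (pr_okC hn hc).and ((pr_smallC hn hc hτ).and
    ((hb1.and (pr_checkZT hn hc hG hK hτ hZ)).or (hb2.and (pr_checkNT hn hc hG hK hτ hN))))

end Pool.Agent.Lib.MP_bbe012_lc.PT
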