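import Pool.Agent.Lib.MP_bbe012_lc.PT.TRed
import Pool.Agent.Lib.MP_bbe012_lc.PT.TPrimB

/-!
# Stage 3: the verification of the reduction is primitive recursive, and the search
-/

namespace Pool.Agent.Lib.MP_bbe012_lc.PT

open Primrec Pool.Agent.Lib.MP_bbe012_lc.PP

instance instPrimcodableCITA : Primcodable ((PCode × PCode) × List (PCode × PCode)) :=
  @Primcodable.prod _ _ instPrimcodableZCertC instPrimcodableRCC

instance instPrimcodableCIT : Primcodable CIT := @Primcodable.prod _ _ inferInstance instPrimcodableCITA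

instance instPrimcodableExTL : Primcodable (List CIT) := @Primcodable.list CIT instPrimcodableCIT

instance instPrimcodableExT : Primcodable ExT := @Primcodable.list (List CIT) instPrimcodableExTL

instance instPrimcodableBlk : Primcodable Blk := @Primcodable.prod _ _ instPrimcodableCDC instPrimcodableZCertC

instance instPrimcodableListBlk : Primcodable (List Blk) := @Primcodable.list Blk instPrimcodableBlk

instance instPrimcodableRTA : Primcodable (((ℕ × ℕ) × ℕ) × QCode) := inferInstance

instance instPrimcodableRTB : Primcodable (List Blk × CDC) :=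
  @Primcodable.prod _ _ instPrimcodableListBlk instPrimcodableCDC

instance instPrimcodableRTC : Primcodable (List (ℕ × PCode)) := @Primcodable.list (ℕ × PCode) inferInstance

instance instPrimcodableRTD : Primcodable (List (List (ℕ × PCode))) :=
  @Primcodable.list (List (ℕ × PCode)) instPrimcodableRTC

instance instPrimcodableRTE : Primcodable ((List Blk × CDC) × List (List (ℕ × PCode))) :=
  @Primcodable.prod _ _ instPrimcodableRTB instPrimcodableRTD

instance instPrimcodableRT : Primcodable RT := @Primcodable.prod _ _ instPrimcodableRTA instPrimcodableRTE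

instance instPrimcodableExTRT : Primcodable (ExT × RT) := @Primcodable.prod _ _ instPrimcodableExT instPrimcodableRT

instance instPrimcodableFT : Primcodable FT := @Primcodable.prod _ _ instPrimcodableRT instPrimcodableCCT

instance instPrimcodableExTFT : Primcodable (ExT × FT) := @Primcodable.prod _ _ instPrimcodableExT instPrimcodableFT

variable {α : Type} [Primcodable α]

theorem pr_itemT {E : α → ExT} {j i : α → ℕ} (hE : Primrec E) (hj : Primrec j) (hi : Primrec i) :
    Primrec fun a => itemT (E a) (j a) (i a) := by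
  have h1 : Primrec fun a => (E a).getD (j a) [] := (list_getD []).comp hE hj
  exact (list_getD triv).comp h1 hi

private theorem tprimc_coord {I : α → CIT} {l : α → ℕ} (hI : Primrec I) (hl : Primrec l) :
    Primrec fun a => (I a).2.2.getD (l a) (([] : PCode), ([] : PCode)) := by
  have h1 : Primrec fun a => (I a).2.2 := snd.comp (snd.comp hI)
  exact (list_getD (([] : PCode), ([] : PCode))).comp h1 hl

theorem pr_domA {I : α → CIT} {l : α → ℕ} (hI : Primrec I) (hl : Primrec l) : Primrec fun a => domA (I a) (l a) := by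
  have h1 : Primrec fun a => (I a).1 := fst.comp hI
  have h2 : PrimrecPred fun a => l a < (I a).1 := nat_lt.comp hl h1
  exact Primrec.ite h2 (pr_trunc h1 (fst.comp (tprimc_coord hI hl))) (pr_var hl)

theorem pr_domB {I : α → CIT} {l : α → ℕ} (hI : Primrec I) (hl : Primrec l) : Primrec fun a => domB (I a) (l a) := by
  have h1 : Primrec fun a => (I a).1 := fst.comp hI
  have h2 : PrimrecPred fun a => l a < (I a).1 := nat_lt.comp hl h1
  exact Primrec.ite h2 (pr_trunc h1 (snd.comp (tprimc_coord hI hl))) (pr_nat 1)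

/-- Proof: bounded quantifiers as in `primrecPred_rcOK` (PP/RedPrim.lean). -/
theorem pr_itemOK {n k : α → ℕ} {τ : α → QCode} {c : α → CDC} {I : α → CIT} {W : α → PCode} (hn : Primrec n)
    (hτ : Primrec τ) (hk : Primrec k) (hc : Primrec c) (hI : Primrec I) (hW : Primrec W) :
    PrimrecPred fun a => itemOK (n a) (τ a) (k a) (c a) (I a) (W a) := by
  have hI1 : Primrec fun a => (I a).1 := fst.comp hI
  have h1 : PrimrecPred fun a => (I a).1 ≤ n a := nat_le.comp hI1 hn
  have h2 : PrimrecPred fun a => (I a).2.2.length = (I a).1 := by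
    have h : Primrec fun a => (I a).2.2 := snd.comp (snd.comp hI)
    exact Primrec.eq.comp (list_length.comp h) hI1
  have h3 : PrimrecRel fun (l : ℕ) (a : α) =>
      pcIsZero (n a) (domA (I a) l ++ pcNeg (evC (τ a) (aC (c a) l))) ∧
      pcIsZero (n a) (domB (I a) l ++ pcNeg (evC (τ a) (bC (c a) l))) := by
    have ha : PrimrecPred fun q : ℕ × α =>
        pcIsZero (n q.2) (domA (I q.2) q.1 ++ pcNeg (evC (τ q.2) (aC (c q.2) q.1))) :=
      pr_isZero (hn.comp snd) (pr_append (pr_domA (hI.comp snd) fst)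
        (pr_neg (pr_evC (hτ.comp snd) (pr_aC (hc.comp snd) fst))))
    have hb : PrimrecPred fun q : ℕ × α =>
        pcIsZero (n q.2) (domB (I q.2) q.1 ++ pcNeg (evC (τ q.2) (bC (c q.2) q.1))) :=
      pr_isZero (hn.comp snd) (pr_append (pr_domB (hI.comp snd) fst)
        (pr_neg (pr_evC (hτ.comp snd) (pr_bC (hc.comp snd) fst))))
    exact ha.and hb
  have h4 : PrimrecPred fun a => ∀ l ∈ List.range (n a),
      pcIsZero (n a) (domA (I a) l ++ pcNeg (evC (τ a) (aC (c a) l))) ∧
      pcIsZero (n a) (domB (I a) l ++ pcNeg (evC (τ a) (bC (c a) l))) :=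
    h3.forall_mem_list.comp (list_range.comp hn) Primrec.id
  have hD : Primrec fun a => (I a).2.1.2 := snd.comp (fst.comp (snd.comp hI))
  have h5 : PrimrecPred fun a => pcIsZero (n a)
      (pcMul (pcTrunc (I a).1 (I a).2.1.2) (W a) ++ pcNeg (pcPow (evC (τ a) (qC (c a))) (k a))) :=
    pr_isZero hn (pr_append (pr_mul (pr_trunc hI1 hD) hW) (pr_neg (pr_pow (pr_evC hτ (pr_qC hc)) hk)))
  exact h1.and (h2.and (h4.and h5))

private theorem tprimc_rtN {c : α → RT} (hc : Primrec c) : Primrec fun a => rtN (c a) :=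
  fst.comp (fst.comp (fst.comp (fst.comp hc)))

private theorem tprimc_rtM {c : α → RT} (hc : Primrec c) : Primrec fun a => rtM (c a) :=
  snd.comp (fst.comp (fst.comp (fst.comp hc)))

private theorem tprimc_rtK {c : α → RT} (hc : Primrec c) : Primrec fun a => rtK (c a) :=
  snd.comp (fst.comp (fst.comp hc))

private theorem tprimc_rtT {c : α → RT} (hc : Primrec c) : Primrec fun a => rtT (c a) :=
  snd.comp (fst.comp hc)

private theorem tprimc_rtC {c : α → RT} (hc : Primrec c) : Primrec fun a => rtC (c a) :=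
  snd.comp (fst.comp (snd.comp hc))

theorem pr_rtB {c : α → RT} {b : α → ℕ} (hc : Primrec c) (hb : Primrec b) : Primrec fun a => rtB (c a) (b a) := by
  have h1 : Primrec fun a => (c a).2.1.1 := fst.comp (fst.comp (snd.comp hc))
  exact (list_getD ((emptyCDC, (([] : PCode), ([] : PCode))) : Blk)).comp h1 hb

theorem pr_rtS {c : α → RT} {j b : α → ℕ} (hc : Primrec c) (hj : Primrec j) (hb : Primrec b) :
    Primrec fun a => rtS (c a) (j a) (b a) := by
  have h0 : Primrec fun a => (c a).2.2 := snd.comp (snd.comp hc)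
  have h1 : Primrec fun a => (c a).2.2.getD (j a) [] := (list_getD []).comp h0 hj
  exact (list_getD ((0, []) : ℕ × PCode)).comp h1 hb

private theorem tprimc_blkC {n i : α → ℕ} {p : α → PCode} (hn : Primrec n) (hi : Primrec i)
    (hp : Primrec p) : Primrec fun a => blkC (n a) (i a) (p a) :=
  primrec_blkC.comp (pair (pair hn hi) hp)

theorem pr_blkOK {c : α → RT} {b : α → ℕ} (hc : Primrec c) (hb : Primrec b) :
    PrimrecPred fun a => blkOK (c a) (b a) := by
  have hN := tprimc_rtN hc
  have hM := tprimc_rtM hc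
  have hT := tprimc_rtT hc
  have hC := tprimc_rtC hc
  have hB := pr_rtB hc hb
  have hB1 : Primrec fun a => (rtB (c a) (b a)).1 := fst.comp hB
  have hB2 : Primrec fun a => (rtB (c a) (b a)).2.1 := fst.comp (snd.comp hB)
  have hB3 : Primrec fun a => (rtB (c a) (b a)).2.2 := snd.comp (snd.comp hB)
  have hMN : Primrec fun a => rtM (c a) * rtN (c a) + 1 := succ.comp (nat_mul.comp hM hN)
  have h1 : PrimrecPred fun a => okC (rtN (c a)) (rtB (c a) (b a)).1 := pr_okC hN hB1
  have h2 : PrimrecPred fun a => jokC (rtN (c a)) (rtB (c a) (b a)).1 (rtB (c a) (b a)).2.1 :=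
    pr_jokC hN hB1 hB2
  have h3 : PrimrecPred fun a => smallC (rtN (c a)) (rtB (c a) (b a)).1 (rtT (c a)) :=
    pr_smallC hN hB1 hT
  have h4 : PrimrecRel fun (l : ℕ) (a : α) =>
      pcIsZero (rtM (c a) * rtN (c a) + 1) (blkC (rtN (c a)) (b a) (cdP (rtB (c a) (b a)).1 l) ++
        pcNeg (cdP (rtC (c a)) (b a * rtN (c a) + l))) ∧
      pcIsZero (rtM (c a) * rtN (c a) + 1) (blkC (rtN (c a)) (b a) (cdQ (rtB (c a) (b a)).1 l) ++
        pcNeg (cdQ (rtC (c a)) (b a * rtN (c a) + l))) := by
    have hx : Primrec fun q : ℕ × α => b q.2 * rtN (c q.2) + q.1 :=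
      nat_add.comp (nat_mul.comp (hb.comp snd) (hN.comp snd)) fst
    have ha : PrimrecPred fun q : ℕ × α =>
        pcIsZero (rtM (c q.2) * rtN (c q.2) + 1)
          (blkC (rtN (c q.2)) (b q.2) (cdP (rtB (c q.2) (b q.2)).1 q.1) ++
            pcNeg (cdP (rtC (c q.2)) (b q.2 * rtN (c q.2) + q.1))) :=
      pr_isZero (hMN.comp snd) (pr_append
        (tprimc_blkC (hN.comp snd) (hb.comp snd) (pr_cdP (hB1.comp snd) fst))
        (pr_neg (pr_cdP (hC.comp snd) hx)))
    have hb' : PrimrecPred fun q : ℕ × α =>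
        pcIsZero (rtM (c q.2) * rtN (c q.2) + 1)
          (blkC (rtN (c q.2)) (b q.2) (cdQ (rtB (c q.2) (b q.2)).1 q.1) ++
            pcNeg (cdQ (rtC (c q.2)) (b q.2 * rtN (c q.2) + q.1))) :=
      pr_isZero (hMN.comp snd) (pr_append
        (tprimc_blkC (hN.comp snd) (hb.comp snd) (pr_cdQ (hB1.comp snd) fst))
        (pr_neg (pr_cdQ (hC.comp snd) hx)))
    exact ha.and hb'
  have h5 : PrimrecPred fun a => ∀ l ∈ List.range (rtN (c a)),
      pcIsZero (rtM (c a) * rtN (c a) + 1) (blkC (rtN (c a)) (b a) (cdP (rtB (c a) (b a)).1 l) ++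
        pcNeg (cdP (rtC (c a)) (b a * rtN (c a) + l))) ∧
      pcIsZero (rtM (c a) * rtN (c a) + 1) (blkC (rtN (c a)) (b a) (cdQ (rtB (c a) (b a)).1 l) ++
        pcNeg (cdQ (rtC (c a)) (b a * rtN (c a) + l))) :=
    h4.forall_mem_list.comp (list_range.comp hN) Primrec.id
  have h6 : PrimrecPred fun a => pcIsZero (rtM (c a) * rtN (c a) + 1)
      (pcMul (blkC (rtN (c a)) (b a) (qC (rtB (c a) (b a)).1)) (rtB (c a) (b a)).2.2 ++
        pcNeg (qC (rtC (c a)))) :=
    pr_isZero hMN (pr_append (pr_mul (tprimc_blkC hN hb (pr_qC hB1)) hB3) (pr_neg (pr_qC hC)))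
  exact h1.and (h2.and (h3.and (h5.and h6)))

private theorem tprimc_len {E : α → ExT} {j : α → ℕ} (hE : Primrec E) (hj : Primrec j) :
    Primrec fun a => ((E a).getD (j a) []).length :=
  list_length.comp ((list_getD []).comp hE hj)

private theorem tprimc_imp {p q : α → Prop} (hp : PrimrecPred p) (hq : PrimrecPred q) :
    PrimrecPred fun a => p a → q a :=
  (hp.not.or hq).of_eq fun a => by
    constructor
    · intro h hp
      rcases h with h | h
      · exact absurd hp h
      · exact h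
    · intro h
      by_cases hp : p a
      · exact Or.inr (h hp)
      · exact Or.inl hp

/-- Proof: bounded quantifiers; `∃ b ∈ List.range _`: `PrimrecRel.exists_mem_list`. Implications: `PrimrecPred.not`, `PrimrecPred.or`. -/
theorem pr_slotOK {E : α → ExT} {c : α → RT} {j : α → ℕ} (hE : Primrec E) (hc : Primrec c) (hj : Primrec j) :
    PrimrecPred fun a => slotOK (E a) (c a) (j a) := by
  have hN := tprimc_rtN hc
  have hM := tprimc_rtM hc
  have hT := tprimc_rtT hc
  have hK := tprimc_rtK hc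
  have hL := tprimc_len hE hj
  have hMr : Primrec fun a => List.range (rtM (c a)) := list_range.comp hM
  -- first condition
  have hS : Primrec fun q : ℕ × α => rtS (c q.2) (j q.2) q.1 :=
    pr_rtS (hc.comp snd) (hj.comp snd) fst
  have hlt : PrimrecPred fun q : ℕ × α =>
      (rtS (c q.2) (j q.2) q.1).1 < ((E q.2).getD (j q.2) []).length :=
    nat_lt.comp (fst.comp hS) (hL.comp snd)
  have hIO : PrimrecPred fun q : ℕ × α =>
      itemOK (rtN (c q.2)) (rtT (c q.2)) (rtK (c q.2)) (rtB (c q.2) q.1).1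
        (itemT (E q.2) (j q.2) (rtS (c q.2) (j q.2) q.1).1) (rtS (c q.2) (j q.2) q.1).2 :=
    pr_itemOK (hN.comp snd) (hT.comp snd) (hK.comp snd) (fst.comp (pr_rtB (hc.comp snd) fst))
      (pr_itemT (hE.comp snd) (hj.comp snd) (fst.comp hS)) (snd.comp hS)
  have c1 : PrimrecRel fun (b : ℕ) (a : α) => (rtS (c a) (j a) b).1 < ((E a).getD (j a) []).length →
      itemOK (rtN (c a)) (rtT (c a)) (rtK (c a)) (rtB (c a) b).1
        (itemT (E a) (j a) (rtS (c a) (j a) b).1) (rtS (c a) (j a) b).2 := tprimc_imp hlt hIO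
  have C1 : PrimrecPred fun a => ∀ b ∈ List.range (rtM (c a)),
      (rtS (c a) (j a) b).1 < ((E a).getD (j a) []).length →
      itemOK (rtN (c a)) (rtT (c a)) (rtK (c a)) (rtB (c a) b).1
        (itemT (E a) (j a) (rtS (c a) (j a) b).1) (rtS (c a) (j a) b).2 :=
    c1.forall_mem_list.comp hMr Primrec.id
  -- second condition
  have hS1 : Primrec fun q : ℕ × (α × ℕ) => rtS (c q.2.1) (j q.2.1) q.2.2 :=
    pr_rtS (hc.comp (fst.comp snd)) (hj.comp (fst.comp snd)) (snd.comp snd)
  have hS2 : Primrec fun q : ℕ × (α × ℕ) => rtS (c q.2.1) (j q.2.1) q.1 :=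
    pr_rtS (hc.comp (fst.comp snd)) (hj.comp (fst.comp snd)) fst
  have c2 : PrimrecRel fun (b' : ℕ) (z : α × ℕ) =>
      (rtS (c z.1) (j z.1) z.2).1 < ((E z.1).getD (j z.1) []).length →
      (rtS (c z.1) (j z.1) z.2).1 = (rtS (c z.1) (j z.1) b').1 → z.2 = b' := by
    have h1 : PrimrecPred fun q : ℕ × (α × ℕ) =>
        (rtS (c q.2.1) (j q.2.1) q.2.2).1 < ((E q.2.1).getD (j q.2.1) []).length :=
      nat_lt.comp (fst.comp hS1) (hL.comp (fst.comp snd))
    have h2 : PrimrecPred fun q : ℕ × (α × ℕ) =>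
        (rtS (c q.2.1) (j q.2.1) q.2.2).1 = (rtS (c q.2.1) (j q.2.1) q.1).1 :=
      Primrec.eq.comp (fst.comp hS1) (fst.comp hS2)
    have h3 : PrimrecPred fun q : ℕ × (α × ℕ) => q.2.2 = q.1 :=
      Primrec.eq.comp (snd.comp snd) fst
    exact tprimc_imp h1 (tprimc_imp h2 h3)
  have c3 : PrimrecPred fun z : α × ℕ => ∀ b' ∈ List.range (rtM (c z.1)),
      (rtS (c z.1) (j z.1) z.2).1 < ((E z.1).getD (j z.1) []).length →
      (rtS (c z.1) (j z.1) z.2).1 = (rtS (c z.1) (j z.1) b').1 → z.2 = b' :=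
    c2.forall_mem_list.comp (hMr.comp fst) Primrec.id
  have c4 : PrimrecRel fun (b : ℕ) (a : α) => ∀ b' ∈ List.range (rtM (c a)),
      (rtS (c a) (j a) b).1 < ((E a).getD (j a) []).length →
      (rtS (c a) (j a) b).1 = (rtS (c a) (j a) b').1 → b = b' := c3.comp (pair snd fst)
  have C2 : PrimrecPred fun a => ∀ b ∈ List.range (rtM (c a)), ∀ b' ∈ List.range (rtM (c a)),
      (rtS (c a) (j a) b).1 < ((E a).getD (j a) []).length →
      (rtS (c a) (j a) b).1 = (rtS (c a) (j a) b').1 → b = b' :=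
    c4.forall_mem_list.comp hMr Primrec.id
  -- third condition
  have c5 : PrimrecRel fun (b : ℕ) (z : α × ℕ) => (rtS (c z.1) (j z.1) b).1 = z.2 :=
    Primrec.eq.comp (fst.comp hS2) (snd.comp snd)
  have c6 : PrimrecPred fun z : α × ℕ => ∃ b ∈ List.range (rtM (c z.1)),
      (rtS (c z.1) (j z.1) b).1 = z.2 :=
    c5.exists_mem_list.comp (hMr.comp fst) Primrec.id
  have c7 : PrimrecRel fun (i : ℕ) (a : α) => ∃ b ∈ List.range (rtM (c a)),
      (rtS (c a) (j a) b).1 = i := c6.comp (pair snd fst)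
  have C3 : PrimrecPred fun a => ∀ i ∈ List.range ((E a).getD (j a) []).length,
      ∃ b ∈ List.range (rtM (c a)), (rtS (c a) (j a) b).1 = i :=
    c7.forall_mem_list.comp (list_range.comp hL) Primrec.id
  exact C1.and (C2.and C3)

theorem primrecPred_rtOK : PrimrecPred fun y : ExT × RT => rtOK y.1 y.2 := by
  have h1 : PrimrecRel fun (b : ℕ) (y : ExT × RT) => blkOK y.2 b :=
    pr_blkOK (snd.comp snd) fst
  have h2 : PrimrecPred fun y : ExT × RT => ∀ b ∈ List.range (rtM y.2), blkOK y.2 b :=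
    h1.forall_mem_list.comp (list_range.comp (tprimc_rtM snd)) Primrec.id
  have h3 : PrimrecRel fun (j : ℕ) (y : ExT × RT) => slotOK y.1 y.2 j :=
    pr_slotOK (fst.comp snd) (snd.comp snd) fst
  have h4 : PrimrecPred fun y : ExT × RT => ∀ j ∈ List.range y.1.length, slotOK y.1 y.2 j :=
    h3.forall_mem_list.comp (list_range.comp (list_length.comp fst)) Primrec.id
  exact h2.and h4

theorem pr_numB {E : α → ExT} {c : α → RT} {j b : α → ℕ} (hE : Primrec E) (hc : Primrec c) (hj : Primrec j)
    (hb : Primrec b) : Primrec fun a => numB (E a) (c a) (j a) (b a) := by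
  have hN := tprimc_rtN hc
  have hK := tprimc_rtK hc
  have hS := pr_rtS hc hj hb
  have hB := pr_rtB hc hb
  have hB1 : Primrec fun a => (rtB (c a) (b a)).1 := fst.comp hB
  have hB2 : Primrec fun a => (rtB (c a) (b a)).2.1 := fst.comp (snd.comp hB)
  have hI := pr_itemT hE hj (fst.comp hS)
  have hI1 : Primrec fun a => (itemT (E a) (j a) (rtS (c a) (j a) (b a)).1).1 := fst.comp hI
  have hI2 : Primrec fun a => (itemT (E a) (j a) (rtS (c a) (j a) (b a)).1).2.1.1 :=
    fst.comp (fst.comp (snd.comp hI))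
  have h1 : PrimrecPred fun a =>
      (rtS (c a) (j a) (b a)).1 < ((E a).getD (j a) []).length :=
    nat_lt.comp (fst.comp hS) (tprimc_len hE hj)
  exact Primrec.ite h1
    (pr_mul (pr_shift (const 1) hN (pr_mul (pr_trunc hI1 hI2) (snd.comp hS))) (pr_jC hB2))
    (pr_pow (pr_qC hB1) (nat_add.comp hK hN))

private theorem tprimc_numG : Primrec fun y : ExT × RT => numG y.1 y.2 := by
  have hP : Primrec fun q : (ExT × RT) × ℕ => pcProdRange (rtM q.1.2) fun b =>
      pcMul (blkC (rtN q.1.2) b (numB q.1.1 q.1.2 q.2 b))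
        (pcPow (rtB q.1.2 b).2.2 (rtK q.1.2 + rtN q.1.2)) := by
    have hc : Primrec fun q : ((ExT × RT) × ℕ) × ℕ => q.1.1.2 := snd.comp (fst.comp fst)
    have hT : Primrec fun q : ((ExT × RT) × ℕ) × ℕ =>
        pcMul (blkC (rtN q.1.1.2) q.2 (numB q.1.1.1 q.1.1.2 q.1.2 q.2))
          (pcPow (rtB q.1.1.2 q.2).2.2 (rtK q.1.1.2 + rtN q.1.1.2)) :=
      pr_mul (tprimc_blkC (tprimc_rtN hc) snd
        (pr_numB (fst.comp (fst.comp fst)) hc (snd.comp fst) snd))
        (pr_pow (snd.comp (snd.comp (pr_rtB hc snd)))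
          (nat_add.comp (tprimc_rtK hc) (tprimc_rtN hc)))
    exact pr_prodRange (g := fun (q : (ExT × RT) × ℕ) b =>
      pcMul (blkC (rtN q.1.2) b (numB q.1.1 q.1.2 q.2 b))
        (pcPow (rtB q.1.2 b).2.2 (rtK q.1.2 + rtN q.1.2)))
      (tprimc_rtM (snd.comp fst)) hT.to₂
  exact pr_sumRange (g := fun (y : ExT × RT) j => pcProdRange (rtM y.2) fun b =>
      pcMul (blkC (rtN y.2) b (numB y.1 y.2 j b))
        (pcPow (rtB y.2 b).2.2 (rtK y.2 + rtN y.2)))
      (list_length.comp fst) hP.to₂

theorem primrec_toCoreT : Primrec fun y : ExT × RT => toCoreT y.1 y.2 := by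
  have hc : Primrec fun y : ExT × RT => y.2 := snd
  have hN := tprimc_rtN hc
  have hM := tprimc_rtM hc
  have hK := tprimc_rtK hc
  exact pair (pair (nat_mul.comp hM hN) (nat_mul.comp hM (nat_add.comp hK hN)))
    (pair (pair (tprimc_rtC hc) tprimc_numG) (tprimc_rtT hc))

theorem primrecPred_checkFT : PrimrecPred fun y : ExT × FT => checkFT y.1 y.2 := by
  have h1 : Primrec fun y : ExT × FT => (y.1, y.2.1) := pair fst (fst.comp snd)
  have h2 : PrimrecPred fun y : ExT × FT => rtOK y.1 y.2.1 := primrecPred_rtOK.comp h1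
  have h3 : Primrec fun y : ExT × FT => toCoreT y.1 y.2.1 := primrec_toCoreT.comp h1
  have h4 : PrimrecPred fun y : ExT × FT => checkT (toCoreT y.1 y.2.1) y.2.2 :=
    primrecPred_checkT.comp (pair h3 (snd.comp snd))
  exact h2.and h4

/-- The decision procedure: search for a certificate. -/
def decideT (E : ExT) : Part Bool :=
  Nat.rfindOpt fun m => (Encodable.decode (α := FT) m).bind fun c =>
    if checkFT E c then some c.2.1 else none

theorem partrec_decideT : Partrec decideT := by
  have h : Primrec₂ fun (E : ExT) (m : ℕ) =>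
      (Encodable.decode (α := FT) m).bind fun c => if checkFT E c then some c.2.1 else none := by
    have h1 : Primrec fun y : ExT × ℕ => (Encodable.decode (α := FT) y.2) :=
      Primrec.decode.comp snd
    have h2 : PrimrecPred fun z : (ExT × ℕ) × FT => checkFT z.1.1 z.2 :=
      primrecPred_checkFT.comp (pair (fst.comp fst) snd)
    have h3 : Primrec fun z : (ExT × ℕ) × FT => z.2.2.1 :=
      fst.comp (snd.comp snd)
    exact option_bind h1 ((Primrec.ite h2 (option_some.comp h3) (const none)).to₂)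
  exact Partrec.rfindOpt h.to_comp

theorem mem_decideT {E : ExT} {b : Bool} (h : b ∈ decideT E) : ∃ c : FT, checkFT E c ∧ b = c.2.1 := by
  obtain ⟨m, hm⟩ := Nat.rfindOpt_spec h
  obtain ⟨c, _, h2⟩ := Option.bind_eq_some_iff.mp hm
  split_ifs at h2 with hc
  exact ⟨c, hc, (Option.some_injective _ h2).symm⟩

theorem dom_decideT {E : ExT} {c : FT} (hc : checkFT E c) : (decideT E).Dom := by
  refine Nat.rfindOpt_dom.mpr ⟨Encodable.encode (c : FT), c.2.1, ?_⟩
  rw [Encodable.encodek]
  change (if checkFT E c then some c.2.1 else none) = _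
  rw [if_pos hc]

end Pool.Agent.Lib.MP_bbe012_lc.PT
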