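import Pool.Agent.Lib.MP_bbe012_lc.PP.KDefs

/-!
# Stage 3: charts

The domain of integration is `σ = {x : 0 ≤ A_l(t, x) ≤ B_l(t, x)}` with `A_l = x_l + t p_l(t, x)`, `B_l = 1 + t q_l(t, x)`, a small
perturbation of the cube; the functions `u_l = A_l / B_l` are coordinates which map `σ` to the cube. `Q = 1 + t s(t, x)` is a common
denominator. The derivations dual to the coordinates `(t, u_1, ..., u_n)` are `D_l = (1 / Q) ∑ j, V_{lj} ∂_j` and
`D_t = ∂_t - (1 / Q) ∑ j, W_j ∂_j`.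
-/

namespace Pool.Agent.Lib.MP_bbe012_lc.PT

open MvPolynomial Pool.Agent.Lib.MP_bbe012_lc.PP

/-- Polynomials in `t = x_0` and `x_1, ..., x_n`. -/
abbrev TP (n : ℕ) (R : Type) [CommRing R] := MvPolynomial (Fin (n + 1)) R

/-- The data of a chart. -/
structure CD (n : ℕ) (R : Type) [CommRing R] where
  p : Fin n → TP n R
  q : Fin n → TP n R
  s : TP n R
  C : Fin n → TP n R
  V : Fin n → Fin n → TP n R
  W : Fin n → TP n R

namespace CD

variable {n : ℕ} {R : Type} [CommRing R]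

/-- `A_l = x_l + t p_l`. -/
noncomputable def A (c : CD n R) (l : Fin n) : TP n R := X l.succ + X 0 * c.p l

/-- `B_l = 1 + t q_l`. -/
noncomputable def B (c : CD n R) (l : Fin n) : TP n R := 1 + X 0 * c.q l

/-- `Q = 1 + t s`. -/
noncomputable def Q (c : CD n R) : TP n R := 1 + X 0 * c.s

/-- `B_i ^ 2 ∂_j (A_i / B_i)` (`j = 0`: the derivative in `t`). -/
noncomputable def jac (c : CD n R) (i : Fin n) (j : Fin (n + 1)) : TP n R :=
  c.B i * pderiv j (c.A i) - c.A i * pderiv j (c.B i)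

/-- The conditions: `B_l` divides `Q`; `D_l u_i = δ_li`; `D_t u_i = 0`. -/
structure Ok (c : CD n R) : Prop where
  bc : ∀ l, c.B l * c.C l = c.Q
  v : ∀ l i, ∑ j : Fin n, c.V l j * c.jac i j.succ = if l = i then c.Q * c.B i ^ 2 else 0
  w : ∀ i, ∑ j : Fin n, c.W j * c.jac i j.succ = c.Q * c.jac i 0

/-- `D_l (G / Q ^ K) = numV l K G / Q ^ (K + 2)`. -/
noncomputable def numV (c : CD n R) (l : Fin n) (K : ℕ) (G : TP n R) : TP n R :=
  ∑ j : Fin n, c.V l j * (c.Q * pderiv j.succ G - (K : TP n R) * (G * pderiv j.succ c.Q))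

/-- `D_t (G / Q ^ K) = numT K G / Q ^ (K + 2)`. -/
noncomputable def numT (c : CD n R) (K : ℕ) (G : TP n R) : TP n R :=
  c.Q * (c.Q * pderiv 0 G - (K : TP n R) * (G * pderiv 0 c.Q)) -
    ∑ j : Fin n, c.W j * (c.Q * pderiv j.succ G - (K : TP n R) * (G * pderiv j.succ c.Q))

/-- `u_l - u_l ^ 2 = Ef l / Q ^ 2`. -/
noncomputable def Ef (c : CD n R) (l : Fin n) : TP n R := c.A l * (c.B l - c.A l) * c.C l ^ 2

/-- `∑ l, D_l ((u_l - u_l ^ 2) g_l / Q ^ K) = divT K g / Q ^ (K + 4)`. -/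
noncomputable def divT (c : CD n R) (K : ℕ) (g : Fin n → TP n R) : TP n R :=
  ∑ l, c.numV l (K + 2) (c.Ef l * g l)

/-- `(t D_t) ^ i (S / Q ^ K) = thN K S i / Q ^ (K + 2 i)`. -/
noncomputable def thN (c : CD n R) (K : ℕ) (S : TP n R) : ℕ → TP n R
  | 0 => S
  | i + 1 => X 0 * c.numT (K + 2 * i) (thN c K S i)

/-- Change of the coefficient ring. -/
noncomputable def map {R' : Type} [CommRing R'] (f : R →+* R') (c : CD n R) : CD n R' where
  p l := MvPolynomial.map f (c.p l)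
  q l := MvPolynomial.map f (c.q l)
  s := MvPolynomial.map f c.s
  C l := MvPolynomial.map f (c.C l)
  V l j := MvPolynomial.map f (c.V l j)
  W j := MvPolynomial.map f (c.W j)

end CD

/-- The substitution `x_l ↦ φ_l`, `t ↦ t`. -/
noncomputable def th {n : ℕ} {R : Type} [CommRing R] (φ : Fin n → PowerSeries (MvPolynomial (Fin n) R)) :
    TP n R →+* PowerSeries (MvPolynomial (Fin n) R) :=
  eval₂Hom ((PowerSeries.C (R := MvPolynomial (Fin n) R)).comp (C (σ := Fin n))) (Fin.cases PowerSeries.X φ)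

/-- `φ` is the formal inverse of the map `u(t, x)`: `A_l(t, φ) = u_l B_l(t, φ)`. -/
structure IsPhi {n : ℕ} {R : Type} [CommRing R] (c : CD n R)
    (φ : Fin n → PowerSeries (MvPolynomial (Fin n) R)) : Prop where
  c0 : ∀ l, PowerSeries.constantCoeff (φ l) = X l
  eq : ∀ l, th φ (c.A l) = PowerSeries.C (X l) * th φ (c.B l)

/-- The derivative `∂ / ∂ u_l` of the coefficients. -/
noncomputable def du {n : ℕ} {R : Type} [CommRing R] (l : Fin n)
    (f : PowerSeries (MvPolynomial (Fin n) R)) : PowerSeries (MvPolynomial (Fin n) R) :=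
  PowerSeries.mk fun k => pderiv l (PowerSeries.coeff k f)

end Pool.Agent.Lib.MP_bbe012_lc.PT
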