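import Pool.Agent.Lib.MP_bbe012_lc.PT.PDefs

/-!
# Stage 3: certificates, at the level of polynomials
-/

namespace Pool.Agent.Lib.MP_bbe012_lc.PT

open MvPolynomial MeasureTheory Set Pool.Agent.Lib.MP_bbe012_lc.PP

/-- A certificate that `PhiT c S K = 0`: a differential equation `X ^ κ ∑ c_i θ^i F = 0` (with `c_i(0) = z_i` integers, not all zero,
`∑ |z_i| ≤ L`), whose exactness is an identity of polynomials, and vanishing of the coefficients of index `≤ L`. -/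
structure IsZeroT {n : ℕ} (c : CD n ℚ) (S : TP n ℚ) (K : ℕ) (κ K' ρ L : ℕ) (z : ℕ → ℤ)
    (a : ℕ → Polynomial ℚ) (g : Fin n → TP n ℚ) (K'' : ℕ) (E : Fin n → TP n ℚ) (H : TP n ℚ) : Prop where
  le : K + 2 * ρ ≤ K' + 4
  ne : ∃ i < ρ + 1, z i ≠ 0
  sum : ∑ i ∈ Finset.range (ρ + 1), (z i).natAbs ≤ L
  exact : X 0 ^ κ * ∑ i ∈ Finset.range (ρ + 1),
      (C (z i : ℚ) + X 0 * inT n (a i)) * c.thN K S i * c.Q ^ (K' + 4 - (K + 2 * i)) = c.divT K' g
  le' : K ≤ K'' + 4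
  init : S * c.Q ^ (K'' + 4 - K) = c.divT K'' E + X 0 ^ (L + 1) * H

/-- The polynomial `G(τ, x)` in the variables `u_1, ..., u_n, x_1, ..., x_n`. -/
noncomputable def xP (n : ℕ) (τ : ℚ) : TP n ℚ →ₐ[ℚ] MvPolynomial (Fin (n + n)) ℚ :=
  aeval (Fin.cases (C τ) fun l => X (Fin.natAdd n l))

/-- A polynomial in `u` as a polynomial in `u, x`. -/
noncomputable def uP (n : ℕ) : MvPolynomial (Fin n) ℚ →ₐ[ℚ] MvPolynomial (Fin (n + n)) ℚ :=
  rename (Fin.castAdd n)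

/-- The norm `∑ |c| 2 ^ (degree in x)` of a polynomial in `u, x`. -/
noncomputable def nU {n : ℕ} (p : MvPolynomial (Fin (n + n)) ℚ) : ℚ :=
  ∑ m ∈ p.support, |coeff m p| * 2 ^ (∑ l : Fin n, m (Fin.natAdd n l))

/-- A certificate that the value at `τ` is not zero. -/
structure IsNeT {n : ℕ} (c : CD n ℚ) (G : TP n ℚ) (K : ℕ) (τ a : ℚ) (E : Fin n → MvPolynomial (Fin n) ℚ)
    (R : MvPolynomial (Fin (n + n)) ℚ) (S : Fin n → MvPolynomial (Fin (n + n)) ℚ) : Prop where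
  eq : xP n τ G = uP n (C a + ∑ l, pderiv l ((X l - X l ^ 2) * E l)) * xP n τ c.Q ^ K + R +
    ∑ l, S l * (xP n τ (c.A l) - X (Fin.castAdd n l) * xP n τ (c.B l))
  lt : 2 ^ K * nU R < |a|

end Pool.Agent.Lib.MP_bbe012_lc.PT
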