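import Pool.Agent.Lib.MP_bbe012_lc.PT.Nrm
import Pool.Agent.Lib.MP_bbe012_lc.PT.PhiT
import Pool.Agent.Lib.MP_bbe012_lc.PP.LamL
import Pool.Agent.Lib.MP_bbe012_lc.PP.Base

/-!
# Stage 3: degrees, integrality; the G-function constants
-/

namespace Pool.Agent.Lib.MP_bbe012_lc.PT

open MvPolynomial Pool.Agent.Lib.MP_bbe012_lc.PP

section

variable {n : ℕ} {R : Type} [CommRing R]

/-- The coefficients of index `k ≤ K` have degree at most `e k + b`. -/
private def GDT_DK (K e b : ℕ) (f : PowerSeries (MvPolynomial (Fin n) R)) : Prop :=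
  ∀ k ≤ K, (PowerSeries.coeff k f).totalDegree ≤ e * k + b

private theorem GDT_mono {K e b e' b' : ℕ} {f : PowerSeries (MvPolynomial (Fin n) R)}
    (h : GDT_DK K e b f) (he : e ≤ e') (hb : b ≤ b') : GDT_DK K e' b' f :=
  fun k hk => (h k hk).trans (add_le_add (Nat.mul_le_mul_right _ he) hb)

private theorem GDT_sub {K e b : ℕ} {f g : PowerSeries (MvPolynomial (Fin n) R)}
    (hf : GDT_DK K e b f) (hg : GDT_DK K e b g) : GDT_DK K e b (f - g) := by
  intro k hk
  rw [map_sub]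
  exact (totalDegree_sub _ _).trans (max_le (hf k hk) (hg k hk))

private theorem GDT_sum {K e b : ℕ} {ι : Type} (s : Finset ι)
    (f : ι → PowerSeries (MvPolynomial (Fin n) R)) (h : ∀ i ∈ s, GDT_DK K e b (f i)) :
    GDT_DK K e b (∑ i ∈ s, f i) := by
  intro k hk
  rw [map_sum]
  exact totalDegree_finsetSum_le fun i hi => h i hi k hk

private theorem GDT_mul {K e b b' : ℕ} {f g : PowerSeries (MvPolynomial (Fin n) R)}
    (hf : GDT_DK K e b f) (hg : GDT_DK K e b' g) : GDT_DK K e (b + b') (f * g) := by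
  intro k hk
  rw [PowerSeries.coeff_mul]
  refine totalDegree_finsetSum_le fun x hx => ?_
  have hx' := Finset.HasAntidiagonal.mem_antidiagonal.1 hx
  refine (totalDegree_mul _ _).trans
    ((add_le_add (hf x.1 (by omega)) (hg x.2 (by omega))).trans (le_of_eq ?_))
  rw [← hx']
  ring

private theorem GDT_C {K e b : ℕ} {a : MvPolynomial (Fin n) R} (ha : a.totalDegree ≤ b) :
    GDT_DK K e b (PowerSeries.C a) := by
  intro k _
  rw [PowerSeries.coeff_C]
  split_ifs
  · exact ha.trans (Nat.le_add_left _ _)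
  · rw [totalDegree_zero]
    exact Nat.zero_le _

private theorem GDT_one (K e : ℕ) : GDT_DK K e 0 (1 : PowerSeries (MvPolynomial (Fin n) R)) := by
  rw [← map_one (PowerSeries.C (R := MvPolynomial (Fin n) R))]
  exact GDT_C (by rw [totalDegree_one])

private theorem GDT_X (K e : ℕ) :
    GDT_DK K e 1 (PowerSeries.X : PowerSeries (MvPolynomial (Fin n) R)) := by
  intro k _
  rw [PowerSeries.coeff_X]
  split_ifs
  · rw [totalDegree_one]
    exact Nat.zero_le _
  · rw [totalDegree_zero]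
    exact Nat.zero_le _

private theorem GDT_pow {K e b : ℕ} {f : PowerSeries (MvPolynomial (Fin n) R)}
    (hf : GDT_DK K e b f) (k : ℕ) : GDT_DK K e (k * b) (f ^ k) := by
  induction k with
  | zero =>
    rw [pow_zero, zero_mul]
    exact GDT_one K e
  | succ k ih =>
    rw [pow_succ, Nat.succ_mul]
    exact GDT_mul ih hf

private theorem GDT_prod {K e : ℕ} {ι : Type} (s : Finset ι)
    (f : ι → PowerSeries (MvPolynomial (Fin n) R)) (b : ι → ℕ)
    (h : ∀ i ∈ s, GDT_DK K e (b i) (f i)) : GDT_DK K e (∑ i ∈ s, b i) (∏ i ∈ s, f i) := by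
  classical
  induction s using Finset.induction_on with
  | empty =>
    rw [Finset.prod_empty, Finset.sum_empty]
    exact GDT_one K e
  | insert a s ha ih =>
    rw [Finset.prod_insert ha, Finset.sum_insert ha]
    exact GDT_mul (h a (Finset.mem_insert_self a s))
      (ih fun i hi => h i (Finset.mem_insert_of_mem hi))

private theorem GDT_th {K e : ℕ} {φ : Fin n → PowerSeries (MvPolynomial (Fin n) R)}
    (h : ∀ l, GDT_DK K e 1 (φ l)) (G : TP n R) : GDT_DK K e G.totalDegree (th φ G) := by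
  obtain ⟨ψ, hψ⟩ : ∃ ψ : Fin (n + 1) → PowerSeries (MvPolynomial (Fin n) R),
    ψ = Fin.cases PowerSeries.X φ := ⟨_, rfl⟩
  have hψ1 : ∀ i, GDT_DK K e 1 (ψ i) := by
    intro i
    rw [hψ]
    refine Fin.cases ?_ (fun l => ?_) i
    · exact GDT_X K e
    · exact h l
  have h1 : th φ G = ∑ m ∈ G.support, PowerSeries.C (C (coeff m G)) * ∏ i, ψ i ^ m i := by
    rw [hψ]
    unfold th
    rw [coe_eval₂Hom, eval₂_eq']
    rfl
  rw [h1]
  refine GDT_sum _ _ fun m hm => ?_
  have h2 : GDT_DK K e (∑ i, m i * 1) (∏ i, ψ i ^ m i) :=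
    GDT_prod Finset.univ _ _ fun i _ => GDT_pow (hψ1 i) (m i)
  have h3 := GDT_mul (GDT_C (K := K) (e := e) (b := 0) (a := C (coeff m G))
    (by rw [totalDegree_C])) h2
  refine GDT_mono h3 le_rfl ?_
  rw [zero_add]
  simp only [mul_one]
  refine le_trans (le_of_eq ?_) (le_totalDegree hm)
  rw [Finsupp.sum_fintype]
  exact fun _ => rfl

private theorem GDT_phi [Nontrivial R] {c : CD n R}
    {φ : Fin n → PowerSeries (MvPolynomial (Fin n) R)} (h : IsPhi c φ) (e : ℕ)
    (hp : ∀ l, (c.p l).totalDegree ≤ e) (hq : ∀ l, (c.q l).totalDegree ≤ e) (K : ℕ) :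
    ∀ l, GDT_DK K e 1 (φ l) := by
  induction K with
  | zero =>
    intro l k hk
    obtain rfl : k = 0 := by omega
    rw [PowerSeries.coeff_zero_eq_constantCoeff_apply, h.c0, totalDegree_X]
    exact Nat.le_add_left _ _
  | succ K ih =>
    intro l k hk
    rcases k with _ | k
    · rw [PowerSeries.coeff_zero_eq_constantCoeff_apply, h.c0, totalDegree_X]
      exact Nat.le_add_left _ _
    · rw [h.fix l, map_add, PowerSeries.coeff_succ_X_mul, PowerSeries.coeff_C,
        if_neg (Nat.succ_ne_zero k), zero_add]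
      have h1 : GDT_DK K e (1 + e) (PowerSeries.C (X l) * th φ (c.q l)) :=
        GDT_mul (GDT_C (by rw [totalDegree_X])) (GDT_mono (GDT_th ih (c.q l)) le_rfl (hq l))
      have h2 : GDT_DK K e (1 + e) (th φ (c.p l)) :=
        GDT_mono (GDT_th ih (c.p l)) le_rfl ((hp l).trans (Nat.le_add_left _ _))
      refine (GDT_sub h1 h2 k (by omega)).trans (le_of_eq ?_)
      ring

end

private theorem GDT_phi_map {n : ℕ} {R R' : Type} [CommRing R] [CommRing R'] (f : R →+* R')
    (c : CD n R) : (c.map f).phi = fun l => PowerSeries.map (MvPolynomial.map f) (c.phi l) :=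
  phi_unique (c.map f).phi_spec (map_isPhi f c.phi_spec)

private theorem GDT_th_map {n : ℕ} {R R' : Type} [CommRing R] [CommRing R'] (f : R →+* R')
    (c : CD n R) (G : TP n R) : th (c.map f).phi (MvPolynomial.map f G) =
      PowerSeries.map (MvPolynomial.map f) (th c.phi G) := by
  rw [GDT_phi_map, map_th]

private theorem GDT_h_map {n : ℕ} {R R' : Type} [CommRing R] [CommRing R'] (f : R →+* R')
    (c : CD n R) : (c.map f).h = PowerSeries.map (MvPolynomial.map f) c.h := by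
  have h1 := Q_mul_h c
  have h2 := Q_mul_h (c.map f)
  have h3 := congrArg (PowerSeries.map (MvPolynomial.map f)) h1
  have h4 : MvPolynomial.map f c.Q = (c.map f).Q := by
    rw [CD.Q, CD.Q, map_add, map_one, map_mul, map_X]
    rfl
  rw [map_mul, map_one, ← GDT_th_map, h4] at h3
  calc (c.map f).h = (c.map f).h * (th (c.map f).phi (c.map f).Q *
        PowerSeries.map (MvPolynomial.map f) c.h) := by rw [h3, mul_one]
    _ = (th (c.map f).phi (c.map f).Q * (c.map f).h) *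
        PowerSeries.map (MvPolynomial.map f) c.h := by ring
    _ = PowerSeries.map (MvPolynomial.map f) c.h := by rw [h2, one_mul]

private theorem GDT_int {n : ℕ} (f : PowerSeries (MvPolynomial (Fin n) ℤ)) (k : ℕ)
    (m : Fin n →₀ ℕ) : ∃ z : ℤ, coeff m (PowerSeries.coeff k
      (PowerSeries.map (MvPolynomial.map (Int.castRingHom ℚ)) f)) = z := by
  refine ⟨coeff m (PowerSeries.coeff k f), ?_⟩
  rw [PowerSeries.coeff_map, coeff_map]
  rfl

private theorem GDT_h {n : ℕ} {R : Type} [CommRing R] [Nontrivial R] (c : CD n R) (e : ℕ)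
    (hp : ∀ l, (c.p l).totalDegree ≤ e) (hq : ∀ l, (c.q l).totalDegree ≤ e)
    (hs : c.s.totalDegree ≤ e) (K : ℕ) : GDT_DK K (2 * e) 0 c.h := by
  have h1 := Q_mul_h c
  have h2 : c.h + PowerSeries.X * (th c.phi c.s * c.h) = 1 := by
    rw [← h1, CD.Q, map_add, map_one, map_mul, th_X0]
    ring
  have h0 : PowerSeries.coeff 0 c.h = 1 := by
    have h3 := congrArg (PowerSeries.coeff 0) h2
    rw [map_add, PowerSeries.coeff_zero_X_mul, add_zero, PowerSeries.coeff_one, if_pos rfl] at h3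
    exact h3
  have hrec : ∀ k, PowerSeries.coeff (k + 1) c.h = -PowerSeries.coeff k (th c.phi c.s * c.h) := by
    intro k
    have h3 := congrArg (PowerSeries.coeff (k + 1)) h2
    rw [map_add, PowerSeries.coeff_succ_X_mul, PowerSeries.coeff_one,
      if_neg (Nat.succ_ne_zero k)] at h3
    exact eq_neg_of_add_eq_zero_left h3
  induction K with
  | zero =>
    intro k hk
    obtain rfl : k = 0 := by omega
    rw [h0, totalDegree_one]
    exact Nat.zero_le _
  | succ K ih =>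
    intro k hk
    rcases k with _ | k
    · rw [h0, totalDegree_one]
      exact Nat.zero_le _
    · rw [hrec, totalDegree_neg]
      have h3 : GDT_DK K (2 * e) e (th c.phi c.s) :=
        GDT_mono (GDT_th (GDT_phi c.phi_spec e hp hq K) c.s) (by omega) hs
      refine (GDT_mul h3 ih k (by omega)).trans ?_
      have h4 : 2 * e * (k + 1) = 2 * e * k + 2 * e := by ring
      omega

private theorem GDT_map_deg {m : ℕ} {R R' : Type} [CommRing R] [CommRing R'] (f : R →+* R')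
    {G : MvPolynomial (Fin m) R} {e : ℕ} (h : G.totalDegree ≤ e) :
    (MvPolynomial.map f G).totalDegree ≤ e := by
  refine le_trans ?_ h
  unfold totalDegree
  exact Finset.sup_mono (support_map_subset f G)

theorem DI.mono {n e b e' b' : ℕ} {f : PowerSeries (MvPolynomial (Fin n) ℚ)} (hf : DI n e b f) (he : e ≤ e')
    (hb : b ≤ b') : DI n e' b' f := by
  refine ⟨fun k => (hf.deg k).trans ?_, hf.int⟩
  exact add_le_add (Nat.mul_le_mul_right _ he) hb

theorem DI.mul {n e b b' : ℕ} {f g : PowerSeries (MvPolynomial (Fin n) ℚ)} (hf : DI n e b f) (hg : DI n e b' g) :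
    DI n e (b + b') (f * g) := by
  refine ⟨fun k => ?_, fun k m => ?_⟩
  · exact GDT_mul (K := k) (fun i _ => hf.deg i) (fun i _ => hg.deg i) k le_rfl
  · rw [Tame_int, PowerSeries.coeff_mul, coeff_sum]
    refine Subring.sum_mem _ fun x _ => ?_
    rw [coeff_mul]
    refine Subring.sum_mem _ fun y _ => ?_
    exact Subring.mul_mem _ (Tame_int.1 (hf.int _ _)) (Tame_int.1 (hg.int _ _))

theorem DI.pow {n e b : ℕ} {f : PowerSeries (MvPolynomial (Fin n) ℚ)} (hf : DI n e b f) (k : ℕ) :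
    DI n e (k * b) (f ^ k) := by
  induction k with
  | zero =>
    rw [pow_zero, zero_mul]
    refine ⟨fun k => GDT_one k e k le_rfl, fun k m => ?_⟩
    classical
    rw [PowerSeries.coeff_one]
    split_ifs
    · rw [coeff_one]
      split_ifs
      · exact ⟨1, by simp⟩
      · exact ⟨0, by simp⟩
    · exact ⟨0, by simp⟩
  | succ k ih =>
    rw [pow_succ, Nat.succ_mul]
    exact ih.mul hf

/-- Let `c` be an integral chart, with `p`, `q`, `s` of total degree at most `e`. The coefficients of the formal inverse are integral, of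
degree at most `e k + 1`.

Proof. Over `ℤ`: the formal inverse over `ℚ` is the image of the one over `ℤ` (`map_isPhi`, `phi_unique`), so its coefficients are integral. Degrees: by strong induction on `k` with `IsPhi.fix`: the coefficient of index `k + 1` of
`φ l` is the coefficient of index `k` of `C (X l) * th φ (q l) - th φ (p l)`; for a monomial `t ^ a x ^ m` of total degree `≤ e` the coefficient of index `k` of `t ^ a φ ^ m` has degree at most `e k + |m| ≤ e k + e`, by the induction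
hypothesis for the indices `≤ k` (the coefficients of index `≤ k` of a product depend only on those of the factors). So it is at most `1 + e k + e = e (k + 1) + 1`. -/
theorem phi_DI {n : ℕ} (c : CD n ℤ) (e : ℕ) (hp : ∀ l, (c.p l).totalDegree ≤ e) (hq : ∀ l, (c.q l).totalDegree ≤ e)
    (l : Fin n) : DI n e 1 ((c.map (Int.castRingHom ℚ)).phi l) := by
  refine ⟨fun k => ?_, fun k m => ?_⟩
  · exact GDT_phi (c.map (Int.castRingHom ℚ)).phi_spec e (fun l => GDT_map_deg _ (hp l))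
      (fun l => GDT_map_deg _ (hq l)) k l k le_rfl
  · rw [GDT_phi_map]
    exact GDT_int _ k m

theorem th_DI {n : ℕ} (c : CD n ℤ) (e : ℕ) (hp : ∀ l, (c.p l).totalDegree ≤ e) (hq : ∀ l, (c.q l).totalDegree ≤ e)
    (G : TP n ℤ) : DI n e G.totalDegree (th (c.map (Int.castRingHom ℚ)).phi (map (Int.castRingHom ℚ) G)) := by
  refine ⟨fun k => ?_, fun k m => ?_⟩
  · exact GDT_mono (GDT_th (GDT_phi (c.map (Int.castRingHom ℚ)).phi_spec e
      (fun l => GDT_map_deg _ (hp l)) (fun l => GDT_map_deg _ (hq l)) k)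
      (map (Int.castRingHom ℚ) G)) le_rfl (GDT_map_deg _ le_rfl) k le_rfl
  · rw [GDT_th_map]
    exact GDT_int _ k m

/-- Proof: `h = 1 - X * th s * h`; the coefficient of index `k + 1` of `h` is `- ∑_{i + j = k} (th s)_i h_j`, of degree at most `(e i + e) + 2 e j ≤ 2 e (k + 1)`. -/
theorem h_DI {n : ℕ} (c : CD n ℤ) (e : ℕ) (hp : ∀ l, (c.p l).totalDegree ≤ e) (hq : ∀ l, (c.q l).totalDegree ≤ e)
    (hs : c.s.totalDegree ≤ e) : DI n (2 * e) 0 (c.map (Int.castRingHom ℚ)).h := by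
  refine ⟨fun k => ?_, fun k m => ?_⟩
  · exact GDT_h (c.map (Int.castRingHom ℚ)) e (fun l => GDT_map_deg _ (hp l))
      (fun l => GDT_map_deg _ (hq l)) (GDT_map_deg _ hs) k k le_rfl
  · rw [GDT_h_map]
    exact GDT_int _ k m

/-- The constants depend polynomially on the sizes.

Proof. `ρ = 1 / (16 L)`: `Small (c.map _) ρ`. By `th_RB`, `h_RB`: `RB n ρ (L * 2 ^ κ0) (th G_j * h ^ κ_j)`, so `|coeff k| ≤ l1M ≤ L * 2 ^ κ0 * (16 L) ^ k` (`abs_Lam_le`). Denominators: `DI n (2 e) e (th G_j * h ^ κ_j)`, `den_Lam` with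
`A = 1`, `N = 2 e k + e`; `d K = lcmUpto (2 e K + e + 1) ^ n`, `lcmUpto_le`. `C = c₀ * L ^ c₀` with `c₀` large (`c₀ ≥ 16 * 2 ^ κ0 + c₁ ^ ((3 e + 1) * n)`). -/
theorem exists_GDataT (n m e κ0 : ℕ) : ∃ c₀ : ℕ, 1 ≤ c₀ ∧ ∀ (c : CD n ℤ) (G : Fin m → TP n ℤ) (κ : Fin m → ℕ) (L : ℕ),
    1 ≤ L → (∀ l, (c.p l).totalDegree ≤ e) → (∀ l, (c.q l).totalDegree ≤ e) → c.s.totalDegree ≤ e →
    (∀ j, (G j).totalDegree ≤ e) → (∀ j, κ j ≤ κ0) → (∀ l, nW (map (Int.castRingHom ℚ) (c.p l)) ≤ L) →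
    (∀ l, nW (map (Int.castRingHom ℚ) (c.q l)) ≤ L) → nW (map (Int.castRingHom ℚ) c.s) ≤ L →
    (∀ j, nW (map (Int.castRingHom ℚ) (G j)) ≤ L) →
    ∃ d, GData (fun j => PhiT (c.map (Int.castRingHom ℚ)) (map (Int.castRingHom ℚ) (G j)) (κ j)) (c₀ * L ^ c₀) d := by
  obtain ⟨c₁, hc1, hc⟩ := lcmUpto_le
  obtain ⟨M, hM⟩ : ∃ M, M = c₁ ^ ((3 * e + 1) * n) := ⟨_, rfl⟩
  have hM1 : 1 ≤ M := by rw [hM]; exact Nat.pow_pos hc1
  obtain ⟨c₀, hc₀⟩ : ∃ c₀, c₀ = 16 * 2 ^ κ0 * M := ⟨_, rfl⟩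
  have h2κ : 1 ≤ 2 ^ κ0 := Nat.pow_pos (by norm_num)
  have hc₀M : M ≤ c₀ := by
    rw [hc₀]
    exact Nat.le_mul_of_pos_left _ (by omega)
  have hc₀κ : 16 * 2 ^ κ0 ≤ c₀ := by
    rw [hc₀]
    exact Nat.le_mul_of_pos_right _ hM1
  refine ⟨c₀, hM1.trans hc₀M, ?_⟩
  intro c G κ L hL hp hq hs hG hκ hpL hqL hsL hGL
  have hLQ : (1 : ℚ) ≤ L := by exact_mod_cast hL
  have hLc : L ≤ L ^ c₀ := Nat.le_self_pow (by omega) L
  have hMC : M ≤ c₀ * L ^ c₀ := hc₀M.trans (Nat.le_mul_of_pos_right _ (Nat.pow_pos hL))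
  have hκC : 16 * 2 ^ κ0 * L ≤ c₀ * L ^ c₀ := Nat.mul_le_mul hc₀κ hLc
  obtain ⟨cQ, hcQ⟩ : ∃ cQ, cQ = c.map (Int.castRingHom ℚ) := ⟨_, rfl⟩
  obtain ⟨ρ, hρ⟩ : ∃ ρ : ℚ, ρ = 1 / (16 * L) := ⟨_, rfl⟩
  have hρ0 : 0 ≤ ρ := by rw [hρ]; positivity
  have hρL : ρ * (16 * L) = 1 := by rw [hρ]; field_simp
  have hsmall : Small cQ ρ := by
    refine ⟨hρ0, ?_, fun l => ?_, ?_⟩
    · nlinarith
    · have h1 : nW (cQ.p l) + nW (cQ.q l) ≤ 2 * L := by
        rw [hcQ]
        have := add_le_add (hpL l) (hqL l)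
        rw [← two_mul] at this
        exact this
      have h2 := mul_le_mul_of_nonneg_left h1 hρ0
      linarith
    · have h1 : nW cQ.s ≤ L := by
        rw [hcQ]
        exact hsL
      have h2 := mul_le_mul_of_nonneg_left h1 hρ0
      linarith
  obtain ⟨F, hF⟩ : ∃ F : Fin m → PowerSeries (MvPolynomial (Fin n) ℚ),
    F = fun j => th cQ.phi (map (Int.castRingHom ℚ) (G j)) * cQ.h ^ κ j := ⟨_, rfl⟩
  have hDI : ∀ j, DI n (2 * e) e (F j) := by
    intro j
    rw [hF, hcQ]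
    have h1 := (th_DI c e hp hq (G j)).mono (e' := 2 * e) (b' := e) (by omega) (hG j)
    have h2 := h1.mul ((h_DI c e hp hq hs).pow (κ j))
    rw [mul_zero, add_zero] at h2
    exact h2
  have hRB : ∀ j, RB n ρ (L * 2 ^ κ0) (F j) := by
    intro j
    rw [hF]
    refine RB.mono ?_ (RB.mul hρ0 (th_RB hsmall _) (RB.pow hρ0 (h_RB hsmall) (κ j)))
    refine mul_le_mul (hGL j) (pow_le_pow_right₀ (by norm_num) (hκ j)) (by positivity)
      (by positivity)
  have hl1 : ∀ j k, l1M (PowerSeries.coeff k (F j)) ≤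
      ((c₀ * L ^ c₀ : ℕ) : ℚ) ^ (k + 1) := by
    intro j k
    have h1 := hRB j (k + 1)
    have h2 : l1M (PowerSeries.coeff k (F j)) * ρ ^ k ≤
        ∑ i ∈ Finset.range (k + 1), l1M (PowerSeries.coeff i (F j)) * ρ ^ i :=
      Finset.single_le_sum (f := fun i => l1M (PowerSeries.coeff i (F j)) * ρ ^ i)
        (fun i _ => mul_nonneg (Tame_l1M_nonneg _) (pow_nonneg hρ0 i))
        (Finset.mem_range.2 (Nat.lt_succ_self k))
    have h3 := mul_le_mul_of_nonneg_right (h2.trans h1)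
      (pow_nonneg (by positivity : (0 : ℚ) ≤ 16 * L) k)
    have h4 : l1M (PowerSeries.coeff k (F j)) * ρ ^ k * (16 * L) ^ k =
        l1M (PowerSeries.coeff k (F j)) := by
      rw [mul_assoc, ← mul_pow, hρL, one_pow, mul_one]
    rw [h4] at h3
    refine h3.trans ?_
    have h5 : ((16 * 2 ^ κ0 * L : ℕ) : ℚ) ^ (k + 1) ≤ ((c₀ * L ^ c₀ : ℕ) : ℚ) ^ (k + 1) :=
      pow_le_pow_left₀ (Nat.cast_nonneg _) (by exact_mod_cast hκC) _
    refine le_trans ?_ h5
    have h2κQ : (1 : ℚ) ≤ 2 ^ κ0 := one_le_pow₀ (by norm_num)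
    push_cast
    rw [pow_succ]
    have h6 : (16 * (L : ℚ)) ^ k ≤ (16 * 2 ^ κ0 * L) ^ k := by
      refine pow_le_pow_left₀ (by positivity) ?_ _
      have : (16 : ℚ) * L * 1 ≤ 16 * L * 2 ^ κ0 := mul_le_mul_of_nonneg_left h2κQ (by positivity)
      linarith
    have h7 : (L : ℚ) * 2 ^ κ0 ≤ 16 * 2 ^ κ0 * L := by
      have : (0 : ℚ) ≤ L * 2 ^ κ0 := by positivity
      linarith
    calc (L : ℚ) * 2 ^ κ0 * (16 * L) ^ k ≤ (16 * 2 ^ κ0 * L) * (16 * 2 ^ κ0 * L) ^ k :=
          mul_le_mul h7 h6 (by positivity) (by positivity)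
      _ = (16 * 2 ^ κ0 * L) ^ k * (16 * 2 ^ κ0 * L) := mul_comm _ _
  have hco : ∀ j k, PowerSeries.coeff k (PhiT cQ (map (Int.castRingHom ℚ) (G j)) (κ j)) =
      Lam n (PowerSeries.coeff k (F j)) := fun j k => by
    rw [hF]
    exact coeff_LamS _ _ _
  have hdv : ∀ {a b : ℕ}, a ≤ b → Nat.lcmUpto a ∣ Nat.lcmUpto b := by
    intro a b hab
    exact Finset.lcm_mono (Finset.Icc_subset_Icc_right hab)
  rw [← hcQ]
  refine ⟨fun K => Nat.lcmUpto (2 * e * K + e + 1) ^ n,
    ⟨hM1.trans hMC, fun j k => ?_, fun K => ?_, fun K => ?_, fun K j k hk => ?_⟩⟩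
  · rw [hco]
    exact (abs_Lam_le _ _).trans (hl1 j k)
  · exact Nat.pow_pos (Nat.lcmUpto_pos _)
  · refine (Nat.pow_le_pow_left (hc _) n).trans ?_
    refine le_trans ?_ (Nat.pow_le_pow_left hMC (K + 1))
    rw [hM, ← pow_mul, ← pow_mul]
    refine Nat.pow_le_pow_right hc1 ?_
    have h1 : 2 * e * K + e + 1 ≤ (3 * e + 1) * (K + 1) := by nlinarith
    calc (2 * e * K + e + 1) * n ≤ (3 * e + 1) * (K + 1) * n := Nat.mul_le_mul_right _ h1
      _ = (3 * e + 1) * n * (K + 1) := by ring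
  · rw [hco]
    obtain ⟨z, hz⟩ := den_Lam n (PowerSeries.coeff k (F j)) 1 (2 * e * k + e)
      (fun i => (degreeOf_le_totalDegree _ i).trans ((hDI j).deg k)) (fun u => by
        obtain ⟨z, hz⟩ := (hDI j).int k u
        exact ⟨z, by rw [Nat.cast_one, one_mul]; exact hz⟩)
    obtain ⟨w, hw⟩ : Nat.lcmUpto (2 * e * k + e + 1) ^ n ∣
        Nat.lcmUpto (2 * e * K + e + 1) ^ n := by
      refine pow_dvd_pow_of_dvd (hdv ?_) n
      have : 2 * e * k ≤ 2 * e * K := Nat.mul_le_mul_left _ hk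
      omega
    refine ⟨(w : ℤ) * z, ?_⟩
    show ((Nat.lcmUpto (2 * e * K + e + 1) ^ n : ℕ) : ℚ) * _ = _
    rw [hw]
    push_cast
    push_cast at hz
    rw [← hz]
    ring

end Pool.Agent.Lib.MP_bbe012_lc.PT
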