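import Pool.Agent.Lib.MP_bbe012_lc.PT.CD
import Pool.Agent.Lib.MP_bbe012_lc.PP.KA

/-!
# Stage 3: the derivations dual to the coordinates of the chart
-/

namespace Pool.Agent.Lib.MP_bbe012_lc.PT

open Module MvPolynomial Pool.Agent.Lib.MP_bbe012_lc.PP

private theorem kt_sum {M ι : Type} [CommRing M] [Fintype ι] (f : ι → Derivation ℤ M M) (v : M) :
    (∑ j, f j) v = ∑ j, f j v := by
  have h1 := map_sum (Derivation.coeFnAddMonoidHom (R := ℤ) (A := M) (M := M)) f Finset.univ
  have h2 := congrFun h1 v
  rw [Finset.sum_apply] at h2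
  exact h2

private theorem kt_cases {p n : ℕ} {P : Fin ((p + 1) + n) → Prop}
    (h1 : ∀ i : Fin (p + 1), P (Fin.castAdd n i)) (h2 : ∀ l : Fin n, P (xI p n l)) (k) : P k :=
  Fin.addCases h1 h2 k

private theorem kt_ne {p n : ℕ} (i : Fin (p + 1)) (l : Fin n) : Fin.castAdd n i ≠ xI p n l := by
  intro h
  have h1 := congrArg Fin.val h
  rw [Fin.val_castAdd, xI, Fin.val_natAdd] at h1
  have := i.isLt
  omega

private theorem kt_uS_x {p n : ℕ} {D : Type} [CommRing D] (z : Fin p → D) (l : Fin n) :
    uS z (xI p n l) = X l.succ := by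
  unfold uS xI
  rw [Fin.append_right]

private theorem kt_uS_t {p n : ℕ} {D : Type} [CommRing D] (z : Fin p → D) :
    (uS z (tI p n) : TP n D) = X 0 := by
  unfold uS tI
  rw [Fin.append_left]
  exact Fin.snoc_last _ _

private theorem kt_uS_z {p n : ℕ} {D : Type} [CommRing D] (z : Fin p → D) (i : Fin p) :
    (uS z (Fin.castAdd n i.castSucc) : TP n D) = C (z i) := by
  unfold uS
  rw [Fin.append_left]
  exact Fin.snoc_castSucc _ _ _

/-- A derivation of a subring `M ⊇ S` of the field of fractions `E` of `S = D[t, x]` which kills the coordinates `z, t, x` is zero, if `D` is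
integral over `ℚ[z]`.

Proof. `δ` kills the image of every polynomial in the coordinates with rational coefficients. Every `v ∈ M` satisfies a polynomial equation over the ring generated by the coordinates: `S` is integral over it (`D` is
integral over `ℚ[z]`), and `v = s / s'` in `E`. Choose a polynomial `μ` of minimal degree over this ring with `μ(v) = 0`, `μ ≠ 0`; then `0 = δ (μ(v)) = μ'(v) * δ v` and `μ'(v) ≠ 0` (characteristic zero, domain).
(Alternatively: extend `δ` to `E` by `ext_localization` (KA.lean), `E` being the fraction field of `M`, and use `der_unique`.) -/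
theorem der_eq_zero {p n : ℕ} {D M E : Type} [CommRing D] [IsDomain D] [Algebra ℚ D]
    [CommRing M] [Algebra (TP n D) M] [Field E] [Algebra (TP n D) E] [IsFractionRing (TP n D) E] {z : Fin p → D}
    (hz : Function.Injective (aeval z : MvPolynomial (Fin p) ℚ →ₐ[ℚ] D))
    (hf : (aeval z : MvPolynomial (Fin p) ℚ →ₐ[ℚ] D).toRingHom.Finite)
    (j : M →ₐ[TP n D] E) (hj : Function.Injective j) (δ : Derivation ℤ M M)
    (h : ∀ k : Fin ((p + 1) + n), δ (algebraMap (TP n D) M (uS z k)) = 0) : δ = 0 := by
  have hSE : Function.Injective (algebraMap (TP n D) E) := IsFractionRing.injective (TP n D) E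
  haveI : CharZero D := algebraRat.charZero D
  haveI : CharZero E := charZero_of_injective_ringHom
    (f := (algebraMap (TP n D) E).comp (C : D →+* TP n D)) (hSE.comp (C_injective _ _))
  letI : Algebra M E := j.toRingHom.toAlgebra
  have hMdom : IsDomain M := hj.isDomain j.toRingHom
  have hjS : ∀ s, j (algebraMap (TP n D) M s) = algebraMap (TP n D) E s := fun s => j.commutes s
  haveI : FaithfulSMul M E := (faithfulSMul_iff_algebraMap_injective M E).2 hj
  haveI : IsFractionRing M E := by
    apply IsFractionRing.of_field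
    intro w
    obtain ⟨a, b, _, rfl⟩ := IsFractionRing.div_surjective (A := TP n D) w
    refine ⟨algebraMap (TP n D) M a, algebraMap (TP n D) M b, ?_⟩
    rw [← hjS, ← hjS]
    rfl
  obtain ⟨δ', hδ'⟩ := ext_localization (S := M) (M := E) (nonZeroDivisors M) δ
  have hδj : ∀ m, δ' (j m) = j (δ m) := hδ'
  -- the coordinates
  let R := MvPolynomial (Fin ((p + 1) + n)) ℚ
  let f : R →+* TP n D := (aeval (fun k => uS z k) : R →ₐ[ℚ] TP n D).toRingHom
  letI : Algebra R E := ((algebraMap (TP n D) E).comp f).toAlgebra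
  have hRE : ∀ r : R, algebraMap R E r = algebraMap (TP n D) E (f r) := fun r => rfl
  have hfX : ∀ k, f (X k) = uS z k := fun k => aeval_X _ _
  have hfC : ∀ q : ℚ, f (C q) = C (algebraMap ℚ D q) := fun q => aeval_C _ _
  have hR0 : ∀ r : R, δ' (algebraMap R E r) = 0 := by
    intro r
    induction r using MvPolynomial.induction_on with
    | C q =>
      have h1 : algebraMap R E (C q) = q • (1 : E) := by
        rw [hRE, hfC]
        have h2 : ((algebraMap (TP n D) E).comp ((C : D →+* TP n D).comp (algebraMap ℚ D))) =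
            algebraMap ℚ E := Subsingleton.elim _ _
        have h3 := congrArg (fun g : ℚ →+* E => g q) h2
        rw [← Algebra.algebraMap_eq_smul_one]
        exact h3
      rw [h1, map_rat_smul, Derivation.map_one_eq_zero, smul_zero]
    | add a b ha hb => rw [map_add, map_add, ha, hb, add_zero]
    | mul_X a k ha =>
      rw [map_mul, Derivation.leibniz, ha, smul_zero, add_zero, hRE (X k), hfX, ← hjS, hδj, h,
        map_zero, smul_zero]
  have hint : ∀ s : TP n D, IsIntegral R (algebraMap (TP n D) E s) := by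
    intro s
    induction s using MvPolynomial.induction_on with
    | C a =>
      obtain ⟨q, hq1, hq2⟩ := hf.to_isIntegral a
      let g : MvPolynomial (Fin p) ℚ →+* R :=
        (rename (fun i : Fin p => Fin.castAdd n i.castSucc) : _ →ₐ[ℚ] R).toRingHom
      refine ⟨q.map g, hq1.map g, ?_⟩
      have h4 : (algebraMap R E).comp g = ((algebraMap (TP n D) E).comp (C : D →+* TP n D)).comp
          (aeval z : MvPolynomial (Fin p) ℚ →ₐ[ℚ] D).toRingHom := by
        apply MvPolynomial.ringHom_ext
        · intro r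
          change algebraMap (TP n D) E (f (rename _ (C r))) =
            algebraMap (TP n D) E (C (aeval z (C r)))
          rw [rename_C, hfC, aeval_C]
        · intro i
          change algebraMap (TP n D) E (f (rename _ (X i))) =
            algebraMap (TP n D) E (C (aeval z (X i)))
          rw [rename_X, hfX, aeval_X, kt_uS_z]
      rw [Polynomial.eval₂_map, h4]
      have h5 := Polynomial.hom_eval₂ q (aeval z : MvPolynomial (Fin p) ℚ →ₐ[ℚ] D).toRingHom
        ((algebraMap (TP n D) E).comp (C : D →+* TP n D)) a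
      rw [hq2, map_zero] at h5
      exact h5.symm
    | add a b ha hb =>
      rw [map_add]
      exact ha.add hb
    | mul_X a k ha =>
      rw [map_mul]
      refine ha.mul ?_
      have h6 : ∃ k', (X k : TP n D) = f (X k') := by
        refine Fin.cases ?_ (fun l => ?_) k
        · exact ⟨tI p n, by rw [hfX, kt_uS_t]⟩
        · exact ⟨xI p n l, by rw [hfX, kt_uS_x]⟩
      obtain ⟨k', hk'⟩ := h6
      rw [hk', ← hRE]
      exact isIntegral_algebraMap
  have hS0 : ∀ s : TP n D, δ' (algebraMap (TP n D) E s) = 0 := by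
    intro s
    obtain ⟨w, _, _, hw⟩ := exists_der_denominator (R := R) (E := E) _ (hint s)
    exact (hw δ' fun r => ⟨0, by rw [hR0, map_zero]⟩).2 hR0
  have hE0 : ∀ e : E, δ' e = 0 := by
    intro e
    obtain ⟨a, b, hb, rfl⟩ := IsFractionRing.div_surjective (A := TP n D) e
    have hb0 : algebraMap (TP n D) E b ≠ 0 :=
      IsLocalization.to_map_ne_zero_of_mem_nonZeroDivisors E le_rfl hb
    have h2 : δ' (algebraMap (TP n D) E b * (algebraMap (TP n D) E a / algebraMap (TP n D) E b)) =
        0 := by
      rw [mul_div_cancel₀ _ hb0]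
      exact hS0 a
    rw [Derivation.leibniz, hS0 b, smul_zero, add_zero, smul_eq_mul] at h2
    exact (mul_eq_zero.mp h2).resolve_left hb0
  ext m
  apply hj
  rw [← hδj, hE0, Derivation.coe_zero, Pi.zero_apply, map_zero]

/-- the derivations dual to `t, x` on polynomials. -/
private theorem kt_pd {p n : ℕ} {D M : Type} [CommRing D] [CommRing M] [Algebra (TP n D) M] {z : Fin p → D}
    {dM : Fin ((p + 1) + n) → Derivation ℤ M M} (hM : DerSys z dM) (s : TP n D) :
    (∀ l, dM (xI p n l) (algebraMap (TP n D) M s) = algebraMap (TP n D) M (pderiv l.succ s)) ∧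
      dM (tI p n) (algebraMap (TP n D) M s) = algebraMap (TP n D) M (pderiv 0 s) := by
  have hx : ∀ (i : Fin ((p + 1) + n)) (k : Fin (n + 1)) (m : Fin (n + 1)),
      (i = tI p n ∧ m = 0 ∨ ∃ l, i = xI p n l ∧ m = l.succ) →
      dM i (algebraMap (TP n D) M (X k)) = algebraMap (TP n D) M (pderiv m (X k)) := by
    intro i k m him
    have h1 : ∃ k', (X k : TP n D) = uS z k' ∧ (i = k' ↔ m = k) := by
      refine Fin.cases ?_ (fun l => ?_) k
      · refine ⟨tI p n, (kt_uS_t z).symm, ?_⟩
        rcases him with ⟨h1, h2⟩ | ⟨l, h1, h2⟩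
        · exact ⟨fun _ => h2, fun _ => h1⟩
        · constructor
          · intro h3
            rw [h1] at h3
            exact absurd h3.symm (kt_ne _ _)
          · intro h3
            rw [h2] at h3
            exact absurd h3 (Fin.succ_ne_zero l)
      · refine ⟨xI p n l, (kt_uS_x z l).symm, ?_⟩
        rcases him with ⟨h1, h2⟩ | ⟨l', h1, h2⟩
        · constructor
          · intro h3
            rw [h1] at h3
            exact absurd h3 (kt_ne _ _)
          · intro h3
            rw [h2] at h3
            exact absurd h3.symm (Fin.succ_ne_zero l)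
        · rw [h1, h2]
          constructor
          · intro h3
            exact congrArg Fin.succ (Fin.natAdd_injective n (p + 1) h3)
          · intro h3
            exact congrArg (xI p n) (Fin.succ_injective n h3)
    obtain ⟨k', hk1, hk2⟩ := h1
    rw [hk1, hM.dual, ← hk1]
    by_cases h2 : i = k'
    · rw [if_pos h2, ← hk2.1 h2, pderiv_X_self, map_one]
    · rw [if_neg h2, pderiv_X_of_ne (fun h3 => h2 (hk2.2 h3.symm)), map_zero]
  constructor
  · intro l
    induction s using MvPolynomial.induction_on with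
    | C a => rw [hM.constX, pderiv_C, map_zero]
    | add a b ha hb => rw [map_add, map_add, ha, hb, map_add, map_add]
    | mul_X a k ha =>
      rw [map_mul, Derivation.leibniz, ha, hx _ k l.succ (Or.inr ⟨l, rfl, rfl⟩), pderiv_mul, map_add,
        map_mul, map_mul, smul_eq_mul, smul_eq_mul]
      ring
  · induction s using MvPolynomial.induction_on with
    | C a => rw [hM.constT, pderiv_C, map_zero]
    | add a b ha hb => rw [map_add, map_add, ha, hb, map_add, map_add]
    | mul_X a k ha =>
      rw [map_mul, Derivation.leibniz, ha, hx _ k 0 (Or.inl ⟨rfl, rfl⟩), pderiv_mul, map_add,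
        map_mul, map_mul, smul_eq_mul, smul_eq_mul]
      ring

/-- The derivations dual to `z, t, u_1, ..., u_n`.

Proof. `u' = ` the given elements: `uS z` for `z, t` and `u_l = A_l C_l * iQ` (`bc`: `u_l * B_l = A_l` in `M`). `dN (xI l) = iQ • ∑ j, (V l j) • dM (xI j)`, `dN (tI) = dM (tI) - iQ • ∑ j, (W j) • dM (xI j)`, and
`dN (z_i) = dM (z_i) - ∑ l, (dM (z_i) u_l) • dN (xI l)`; these are derivations of `M` (`Derivation` has the structure of an `M`-module). For `s ∈ S`: `dM (xI j) s = pderiv j.succ s`, `dM tI s = pderiv 0 s` (`MvPolynomial.induction_on`, `DerSys`). Hence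
`B_i ^ 2 dM (xI j) u_i = jac i j.succ` and `B_i ^ 2 dM tI u_i = jac i 0` (differentiate `u_i * B_i = A_i` and multiply by `B_i`), and `B_i` is a unit in `M` (it divides `Q`). So `dN (xI l) u_i = δ_li` by `Ok.v`, `dN tI u_i = 0` by `Ok.w`,
`dN (z_k) u_i = 0`; the values on `z, t` are clear. Commutation: the commutator `δ = ⁅dN a, dN b⁆` (`Derivation` bracket, or check that `v ↦ dN a (dN b v) - dN b (dN a v)` is a derivation) kills `z, t` and all `u_i`, as these values
are constants `0`, `1`. And `0 = B_i ^ 2 δ u_i = ∑ j, jac i j.succ * δ x_j` (the chain rule: for a derivation `δ` which kills `z, t`, the elements `δ' = δ - ∑ j, (δ x_j) • dM (xI j)` kills all `uS z k`, so `δ = ∑ j, (δ x_j) • dM (xI j)` by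
`uniq`); multiply by the matrix `V`: from `Ok.v`, `V * jacᵀ = diagonal`, with units on the diagonal, so `jacᵀ` has a left inverse, hence the square matrix `jac` is invertible over the commutative ring `M` and `δ x_j = 0`. So `δ = 0`. -/
theorem exists_twist {p n : ℕ} {D M : Type} [CommRing D] [CommRing M] [Algebra (TP n D) M] {z : Fin p → D}
    {dM : Fin ((p + 1) + n) → Derivation ℤ M M} (hM : DerSys z dM)
    (uniq : ∀ δ : Derivation ℤ M M, (∀ k : Fin ((p + 1) + n), δ (algebraMap (TP n D) M (uS z k)) = 0) → δ = 0)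
    {c : CD n D} (hc : c.Ok) (iQ : M) (hiQ : algebraMap (TP n D) M c.Q * iQ = 1) :
    ∃ (u' : Fin ((p + 1) + n) → M) (dN : Fin ((p + 1) + n) → Derivation ℤ M M),
      (∀ i k v, dN i (dN k v) = dN k (dN i v)) ∧ (∀ i k, dN i (u' k) = if i = k then 1 else 0) ∧
      (∀ i : Fin (p + 1), u' (Fin.castAdd n i) = algebraMap (TP n D) M (uS z (Fin.castAdd n i))) ∧
      (∀ l, u' (xI p n l) = algebraMap (TP n D) M (c.A l * c.C l) * iQ) ∧
      (∀ l v, dN (xI p n l) v = iQ * ∑ j, algebraMap (TP n D) M (c.V l j) * dM (xI p n j) v) := by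
  classical
  let α : TP n D →+* M := algebraMap (TP n D) M
  let u : Fin n → M := fun l => α (c.A l * c.C l) * iQ
  -- `B` is a unit
  have hQ : α c.Q * iQ = 1 := hiQ
  have hBC : ∀ i, α (c.B i) * (α (c.C i) * iQ) = 1 := by
    intro i
    rw [← mul_assoc, ← map_mul, hc.bc, hQ]
  have hB2 : ∀ i (x y : M), α (c.B i) ^ 2 * x = α (c.B i) ^ 2 * y → x = y := by
    intro i x y hxy
    have h1 : (α (c.C i) * iQ) ^ 2 * (α (c.B i) ^ 2 * x) = (α (c.C i) * iQ) ^ 2 * (α (c.B i) ^ 2 * y) := by
      rw [hxy]
    have h2 : ∀ w : M, (α (c.C i) * iQ) ^ 2 * (α (c.B i) ^ 2 * w) =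
        (α (c.B i) * (α (c.C i) * iQ)) ^ 2 * w := fun w => by ring
    rwa [h2, h2, hBC, one_pow, one_mul, one_mul] at h1
  have huB : ∀ i, u i * α (c.B i) = α (c.A i) := by
    intro i
    have h1 : u i * α (c.B i) = α (c.A i) * (α (c.B i) * (α (c.C i) * iQ)) := by
      change α (c.A i * c.C i) * iQ * α (c.B i) = _
      rw [map_mul]
      ring
    rw [h1, hBC, mul_one]
  have hdu : ∀ (d : Derivation ℤ M M) (i), α (c.B i) ^ 2 * d (u i) =
      α (c.B i) * d (α (c.A i)) - α (c.A i) * d (α (c.B i)) := by
    intro d i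
    have h1 := congrArg d (huB i)
    rw [Derivation.leibniz, smul_eq_mul, smul_eq_mul] at h1
    rw [← h1, ← huB i]
    ring
  have hux : ∀ i j, α (c.B i) ^ 2 * dM (xI p n j) (u i) = α (c.jac i j.succ) := by
    intro i j
    rw [hdu]
    unfold CD.jac
    rw [map_sub, map_mul, map_mul, (kt_pd hM _).1, (kt_pd hM _).1]
  have hut : ∀ i, α (c.B i) ^ 2 * dM (tI p n) (u i) = α (c.jac i 0) := by
    intro i
    rw [hdu]
    unfold CD.jac
    rw [map_sub, map_mul, map_mul, (kt_pd hM _).2, (kt_pd hM _).2]
  -- the new derivations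
  let E : Fin n → Derivation ℤ M M := fun l => iQ • ∑ j, α (c.V l j) • dM (xI p n j)
  let T : Derivation ℤ M M := dM (tI p n) - iQ • ∑ j, α (c.W j) • dM (xI p n j)
  let Z : Fin p → Derivation ℤ M M := fun i =>
    dM (Fin.castAdd n i.castSucc) - ∑ l, dM (Fin.castAdd n i.castSucc) (u l) • E l
  have hE : ∀ l v, E l v = iQ * ∑ j, α (c.V l j) * dM (xI p n j) v := by
    intro l v
    change (iQ • ∑ j, α (c.V l j) • dM (xI p n j)) v = _
    rw [Derivation.smul_apply, kt_sum, smul_eq_mul]
    rfl
  have hT : ∀ v, T v = dM (tI p n) v - iQ * ∑ j, α (c.W j) * dM (xI p n j) v := by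
    intro v
    change (dM (tI p n) - iQ • ∑ j, α (c.W j) • dM (xI p n j)) v = _
    rw [Derivation.sub_apply, Derivation.smul_apply, kt_sum, smul_eq_mul]
    rfl
  have hZ : ∀ i v, Z i v = dM (Fin.castAdd n i.castSucc) v -
      ∑ l, dM (Fin.castAdd n i.castSucc) (u l) * E l v := by
    intro i v
    change (dM (Fin.castAdd n i.castSucc) - ∑ l, dM (Fin.castAdd n i.castSucc) (u l) • E l) v = _
    rw [Derivation.sub_apply, kt_sum]
    rfl
  -- their values on `u`
  have hEu : ∀ l i, E l (u i) = if l = i then 1 else 0 := by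
    intro l i
    apply hB2 i
    rw [hE]
    have h1 : α (c.B i) ^ 2 * (iQ * ∑ j, α (c.V l j) * dM (xI p n j) (u i)) =
        iQ * α (∑ j, c.V l j * c.jac i j.succ) := by
      rw [map_sum, mul_left_comm, Finset.mul_sum]
      congr 1
      refine Finset.sum_congr rfl fun j _ => ?_
      rw [map_mul α, ← hux]
      ring
    rw [h1, hc.v]
    by_cases h2 : l = i
    · rw [if_pos h2, if_pos h2, map_mul, map_pow, mul_one, ← mul_assoc, mul_comm iQ, hQ, one_mul]
    · rw [if_neg h2, if_neg h2, map_zero, mul_zero, mul_zero]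
  have hTu : ∀ i, T (u i) = 0 := by
    intro i
    apply hB2 i
    rw [hT]
    have h1 : α (c.B i) ^ 2 * (dM (tI p n) (u i) - iQ * ∑ j, α (c.W j) * dM (xI p n j) (u i)) =
        α (c.jac i 0) - iQ * α (∑ j, c.W j * c.jac i j.succ) := by
      rw [mul_sub, hut, map_sum, mul_left_comm, Finset.mul_sum]
      congr 2
      refine Finset.sum_congr rfl fun j _ => ?_
      rw [map_mul α, ← hux]
      ring
    rw [h1, hc.w, map_mul, ← mul_assoc, mul_comm iQ, hQ, one_mul, sub_self, mul_zero]
  have hZu : ∀ k i, Z k (u i) = 0 := by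
    intro k i
    rw [hZ, Finset.sum_eq_single i]
    · rw [hEu, if_pos rfl, mul_one, sub_self]
    · intro l _ hl
      rw [hEu, if_neg hl, mul_zero]
    · intro h
      exact absurd (Finset.mem_univ i) h
  -- their values on `z, t`
  have hxz : ∀ (j : Fin n) (k : Fin (p + 1)), dM (xI p n j) (α (uS z (Fin.castAdd n k))) = 0 := by
    intro j k
    have h1 := hM.dual (xI p n j) (Fin.castAdd n k)
    rw [if_neg (Ne.symm (kt_ne k j))] at h1
    exact h1
  have hEz : ∀ l (k : Fin (p + 1)), E l (α (uS z (Fin.castAdd n k))) = 0 := by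
    intro l k
    rw [hE, Finset.sum_eq_zero, mul_zero]
    intro j _
    rw [hxz, mul_zero]
  have hTz : ∀ k : Fin (p + 1), T (α (uS z (Fin.castAdd n k))) =
      dM (tI p n) (α (uS z (Fin.castAdd n k))) := by
    intro k
    rw [hT, Finset.sum_eq_zero, mul_zero, sub_zero]
    intro j _
    rw [hxz, mul_zero]
  have hZz : ∀ i (k : Fin (p + 1)), Z i (α (uS z (Fin.castAdd n k))) =
      dM (Fin.castAdd n i.castSucc) (α (uS z (Fin.castAdd n k))) := by
    intro i k
    rw [hZ, Finset.sum_eq_zero, sub_zero]
    intro l _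
    rw [hEz, mul_zero]
  let u' : Fin ((p + 1) + n) → M :=
    Fin.append (fun i : Fin (p + 1) => α (uS z (Fin.castAdd n i))) u
  let dN : Fin ((p + 1) + n) → Derivation ℤ M M :=
    Fin.append (Fin.snoc (α := fun _ => Derivation ℤ M M) Z T) E
  have hu'1 : ∀ i : Fin (p + 1), u' (Fin.castAdd n i) = α (uS z (Fin.castAdd n i)) :=
    fun i => Fin.append_left _ _ i
  have hu'2 : ∀ l, u' (xI p n l) = u l := fun l => Fin.append_right _ _ l
  have hdN1 : ∀ l, dN (xI p n l) = E l := fun l => Fin.append_right _ _ l
  have hdN2 : dN (tI p n) = T := by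
    change dN (Fin.castAdd n (Fin.last p)) = T
    rw [show dN (Fin.castAdd n (Fin.last p)) = Fin.snoc (α := fun _ => Derivation ℤ M M) Z T
      (Fin.last p) from Fin.append_left _ _ _]
    exact Fin.snoc_last _ _
  have hdN3 : ∀ i : Fin p, dN (Fin.castAdd n i.castSucc) = Z i := by
    intro i
    rw [show dN (Fin.castAdd n i.castSucc) = Fin.snoc (α := fun _ => Derivation ℤ M M) Z T
      i.castSucc from Fin.append_left _ _ _]
    exact Fin.snoc_castSucc _ _ _
  have hdual : ∀ i k, dN i (u' k) = if i = k then 1 else 0 := by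
    intro i k
    refine kt_cases (P := fun i => dN i (u' k) = if i = k then 1 else 0) (fun i => ?_) (fun l => ?_) i
    · have hi : dN (Fin.castAdd n i) (u' k) = dM (Fin.castAdd n i) (u' k) ∨
          (∃ l, k = xI p n l) ∧ dN (Fin.castAdd n i) (u' k) = 0 := by
        refine kt_cases (P := fun k => dN (Fin.castAdd n i) (u' k) = dM (Fin.castAdd n i) (u' k) ∨
          (∃ l, k = xI p n l) ∧ dN (Fin.castAdd n i) (u' k) = 0) (fun k => ?_) (fun l => ?_) k
        · left
          rw [hu'1]
          refine Fin.lastCases ?_ (fun i => ?_) i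
          · have h1 := hTz k
            rw [← hdN2] at h1
            exact h1
          · rw [hdN3]
            exact hZz i k
        · right
          refine ⟨⟨l, rfl⟩, ?_⟩
          rw [hu'2]
          refine Fin.lastCases ?_ (fun i => ?_) i
          · have h1 := hTu l
            rw [← hdN2] at h1
            exact h1
          · rw [hdN3]
            exact hZu i l
      rcases hi with hi | ⟨⟨l, rfl⟩, hi⟩
      · rw [hi]
        revert hi
        refine kt_cases (P := fun k => dN (Fin.castAdd n i) (u' k) = dM (Fin.castAdd n i) (u' k) →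
          dM (Fin.castAdd n i) (u' k) = if Fin.castAdd n i = k then 1 else 0) (fun k _ => ?_)
          (fun l hl => ?_) k
        · rw [hu'1]
          exact hM.dual _ _
        · rw [if_neg (kt_ne i l), ← hl, hu'2]
          refine Fin.lastCases ?_ (fun i => ?_) i
          · have h1 := hTu l
            rw [← hdN2] at h1
            exact h1
          · rw [hdN3]
            exact hZu i l
      · rw [hi, if_neg (kt_ne i l)]
    · rw [hdN1]
      refine kt_cases (P := fun k => E l (u' k) = if xI p n l = k then 1 else 0) (fun k => ?_)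
        (fun k => ?_) k
      · rw [hu'1, hEz, if_neg (Ne.symm (kt_ne k l))]
      · rw [hu'2, hEu]
        by_cases h1 : l = k
        · rw [if_pos h1, if_pos (congrArg (xI p n) h1)]
        · have h2 : xI p n l ≠ xI p n k := fun h3 => h1 (Fin.natAdd_injective n (p + 1) h3)
          rw [if_neg h1, if_neg h2]
  -- a derivation which kills the new coordinates is zero
  have huniq : ∀ δ : Derivation ℤ M M, (∀ k, δ (u' k) = 0) → δ = 0 := by
    intro δ hδ
    have hδz : ∀ k : Fin (p + 1), δ (α (uS z (Fin.castAdd n k))) = 0 := fun k => by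
      rw [← hu'1]
      exact hδ _
    have h1 : δ - ∑ j, δ (α (X (Fin.succ j))) • dM (xI p n j) = 0 := by
      apply uniq
      intro k
      refine kt_cases (P := fun k => (δ - ∑ j, δ (α (X (Fin.succ j))) • dM (xI p n j))
        (algebraMap (TP n D) M (uS z k)) = 0) (fun k => ?_) (fun l => ?_) k
      · rw [Derivation.sub_apply, kt_sum]
        have h2 : δ (algebraMap (TP n D) M (uS z (Fin.castAdd n k))) = 0 := hδz k
        rw [h2, zero_sub, neg_eq_zero]
        refine Finset.sum_eq_zero fun j _ => ?_
        rw [Derivation.smul_apply]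
        have h3 : dM (xI p n j) (algebraMap (TP n D) M (uS z (Fin.castAdd n k))) = 0 := hxz j k
        rw [h3, smul_zero]
      · rw [Derivation.sub_apply, kt_sum, kt_uS_x, Finset.sum_eq_single l]
        · rw [Derivation.smul_apply, (kt_pd hM _).1, pderiv_X_self, map_one, smul_eq_mul, mul_one]
          exact sub_self _
        · intro j _ hj
          rw [Derivation.smul_apply, (kt_pd hM _).1,
            pderiv_X_of_ne (fun h => hj (Fin.succ_injective n h).symm), map_zero, smul_zero]
        · intro h
          exact absurd (Finset.mem_univ l) h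
    have h2 : δ = ∑ j, δ (α (X (Fin.succ j))) • dM (xI p n j) := sub_eq_zero.1 h1
    have h3 : ∀ i, ∑ j, δ (α (X (Fin.succ j))) * α (c.jac i j.succ) = 0 := by
      intro i
      have h4 : δ (u i) = 0 := by
        rw [← hu'2]
        exact hδ _
      have h5 : δ (u i) = ∑ j, δ (α (X (Fin.succ j))) * dM (xI p n j) (u i) := by
        have h6 := congrArg (fun d : Derivation ℤ M M => d (u i)) h2
        rw [kt_sum] at h6
        exact h6
      have h7 : ∑ j, δ (α (X (Fin.succ j))) * α (c.jac i j.succ) =
          α (c.B i) ^ 2 * ∑ j, δ (α (X (Fin.succ j))) * dM (xI p n j) (u i) := by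
        rw [Finset.mul_sum]
        refine Finset.sum_congr rfl fun j _ => ?_
        rw [← hux]
        ring
      rw [h7, ← h5, h4, mul_zero]
    -- the matrix `jac` is invertible
    let J : Matrix (Fin n) (Fin n) M := fun j i => α (c.jac i j.succ)
    let W' : Matrix (Fin n) (Fin n) M := fun l j =>
      iQ * (α (c.C l) * iQ) ^ 2 * α (c.V l j)
    have hWJ : W' * J = 1 := by
      ext l i
      rw [Matrix.mul_apply]
      have h8 : ∑ j, W' l j * J j i = iQ * (α (c.C l) * iQ) ^ 2 *
          α (∑ j, c.V l j * c.jac i j.succ) := by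
        rw [map_sum, Finset.mul_sum]
        refine Finset.sum_congr rfl fun j _ => ?_
        rw [map_mul]
        change iQ * (α (c.C l) * iQ) ^ 2 * α (c.V l j) * α (c.jac i j.succ) = _
        ring
      rw [h8, hc.v, Matrix.one_apply]
      by_cases h9 : l = i
      · rw [if_pos h9, if_pos h9, ← h9, map_mul, map_pow]
        have h10 : iQ * (α (c.C l) * iQ) ^ 2 * (α c.Q * α (c.B l) ^ 2) =
            (α c.Q * iQ) * (α (c.B l) * (α (c.C l) * iQ)) ^ 2 := by ring
        rw [h10, hQ, hBC]
        ring
      · rw [if_neg h9, if_neg h9, map_zero, mul_zero]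
    have hJW : J * W' = 1 := mul_eq_one_comm.1 hWJ
    have h11 : Matrix.vecMul (fun j => δ (α (X (Fin.succ j)))) J = 0 := by
      funext i
      exact h3 i
    have h12 : (fun j : Fin n => δ (α (X (Fin.succ j)))) = 0 := by
      have h13 := Matrix.vecMul_vecMul (fun j : Fin n => δ (α (X (Fin.succ j)))) J W'
      rw [h11, hJW, Matrix.zero_vecMul, Matrix.vecMul_one] at h13
      exact h13.symm
    rw [h2]
    refine Finset.sum_eq_zero fun j _ => ?_
    have h14 := congrFun h12 j
    change δ (α (X (Fin.succ j))) = 0 at h14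
    rw [h14, zero_smul]
  refine ⟨u', dN, ?_, hdual, hu'1, hu'2, ?_⟩
  · intro i k v
    have h1 : ⁅dN i, dN k⁆ = 0 := by
      apply huniq
      intro m
      rw [Derivation.commutator_apply, hdual, hdual]
      have h2 : ∀ (d : Derivation ℤ M M) (q : Prop) [Decidable q], d (if q then 1 else 0) = 0 := by
        intro d q _
        split_ifs
        · exact Derivation.map_one_eq_zero _
        · exact map_zero _
      rw [h2, h2, sub_self]
    have h3 := congrArg (fun d : Derivation ℤ M M => d v) h1
    simp only [Derivation.commutator_apply, Derivation.coe_zero, Pi.zero_apply] at h3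
    exact sub_eq_zero.mp h3
  · intro l v
    rw [hdN1]
    exact hE l v

end Pool.Agent.Lib.MP_bbe012_lc.PT
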