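import Pool.Agent.Lib.MP_bbe012_lc.PT.ChT

/-!
# Stage 3: the Jacobian determinant
-/

namespace Pool.Agent.Lib.MP_bbe012_lc.PT

open MvPolynomial Pool.Agent.Lib.MP_bbe012_lc.PP

variable {n : ℕ} {R : Type} [CommRing R]

/-- `∑ j, ∂_j (W_j / Q) = dvW / Q ^ 2`. -/
noncomputable def CD.dvW (c : CD n R) : TP n R :=
  ∑ j : Fin n, (c.Q * pderiv j.succ (c.W j) - c.W j * pderiv j.succ c.Q)

/-- The condition on `J` which characterises the Jacobian determinant `J / Q ^ n` of `x = φ(u)`. -/
def CD.JOk (c : CD n R) (J : TP n R) : Prop :=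
  atZD n R J = 1 ∧ c.numT n J = - (c.dvW * J)

private theorem Liou_prod {S : Type} [CommRing S] (D : Derivation ℤ S S) {ι : Type} [DecidableEq ι]
    (s : Finset ι) (f : ι → S) : D (∏ i ∈ s, f i) = ∑ i ∈ s, (∏ j ∈ s.erase i, f j) * D (f i) := by
  induction s using Finset.induction_on with
  | empty => rw [Finset.prod_empty, Finset.sum_empty, Derivation.map_one_eq_zero]
  | insert a s ha ih =>
    rw [Finset.prod_insert ha, Derivation.leibniz, ih, smul_eq_mul, smul_eq_mul,
      Finset.sum_insert ha, Finset.erase_insert ha, add_comm, Finset.mul_sum]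
    congr 1
    refine Finset.sum_congr rfl fun i hi => ?_
    have h1 : a ≠ i := by
      rintro rfl
      exact ha hi
    have h2 : a ∉ s.erase i := fun h => ha (Finset.mem_of_mem_erase h)
    rw [Finset.erase_insert_of_ne h1, Finset.prod_insert h2, mul_assoc]

/-- Derivative of a determinant. Proof: `Matrix.det_apply`, `Derivation.leibniz_prod`/`Finset` version of the product rule, or Mathlib's formula for the derivative of the determinant;
`adjugate M i j = det (M.updateRow j (Pi.single i 1))`. -/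
theorem derivation_det {S : Type} [CommRing S] (D : Derivation ℤ S S) (M : Matrix (Fin n) (Fin n) S) :
    D M.det = ∑ i, ∑ j, M.adjugate j i * D (M i j) := by
  have h1 : D M.det = ∑ j, (M.updateCol j fun k => D (M k j)).det := by
    rw [Matrix.det_apply', map_sum]
    have h2 : ∀ j : Fin n, (M.updateCol j fun k => D (M k j)).det =
        ∑ σ : Equiv.Perm (Fin n), ((Equiv.Perm.sign σ : ℤ) : S) *
          ((∏ i ∈ Finset.univ.erase j, M (σ i) i) * D (M (σ j) j)) := by
      intro j
      rw [Matrix.det_apply']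
      refine Finset.sum_congr rfl fun σ _ => ?_
      congr 1
      rw [← Finset.mul_prod_erase _ _ (Finset.mem_univ j), Matrix.updateCol_self, mul_comm]
      congr 1
      refine Finset.prod_congr rfl fun i hi => ?_
      rw [Matrix.updateCol_ne (Finset.ne_of_mem_erase hi)]
    rw [Finset.sum_congr rfl fun j _ => h2 j, Finset.sum_comm]
    refine Finset.sum_congr rfl fun σ _ => ?_
    rw [← Finset.mul_sum, ← Liou_prod, Derivation.leibniz, smul_eq_mul, smul_eq_mul,
      Derivation.map_intCast, mul_zero, add_zero]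
  rw [h1, Finset.sum_comm]
  refine Finset.sum_congr rfl fun j _ => ?_
  rw [← Matrix.cramer_apply, Matrix.cramer_eq_adjugate_mulVec]
  rfl

private theorem Liou_det {S : Type} [CommRing S] (F : S →+ S)
    (hF : ∀ a b, F (a * b) = a * F b + b * F a) (M : Matrix (Fin n) (Fin n) S) :
    F M.det = ∑ i, ∑ j, M.adjugate j i * F (M i j) :=
  derivation_det (Derivation.mk' F.toIntLinearMap hF) M

/-- Liouville's formula: `∂_t det (∂φ_j / ∂u_l) = - th (dvW) * h ^ 2 * det (∂φ_j / ∂u_l)`.

Proof. `Φ l j = du l (φ j)`; `∂_t Φ l j = du l (∂_t φ_j) = - du l (th (W_j) * h) = - ∑ i, Φ l i * G i j`, where `G i j = th (Q ∂_i W_j - W_j ∂_i Q) * h ^ 2` (`Q_mul_dt`: `∂_t φ_j = - th (W_j) * h`; `du_th_gen` and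
the derivative of `h`: `du l h = - h ^ 2 * du l (th Q)`). `derivation_det`: `∂_t det Φ = ∑ l j, adj Φ j l * ∂_t Φ l j = - ∑ j i, (∑ l, adj Φ j l * Φ l i) * G i j = - det Φ * ∑ j, G j j`. -/
theorem liouville {c : CD n R} (hc : c.Ok) {φ : Fin n → PowerSeries (MvPolynomial (Fin n) R)} (hφ : IsPhi c φ)
    {h : PowerSeries (MvPolynomial (Fin n) R)} (hh : th φ c.Q * h = 1) :
    PowerSeries.derivative (MvPolynomial (Fin n) R) (Matrix.det (Matrix.of fun l j => du l (φ j))) =
      - (th φ c.dvW * h ^ 2 * Matrix.det (Matrix.of fun l j => du l (φ j))) := by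
  obtain ⟨M, hM⟩ : ∃ M : Matrix (Fin n) (Fin n) (PowerSeries (MvPolynomial (Fin n) R)),
      M = Matrix.of fun l j => du l (φ j) := ⟨_, rfl⟩
  have hMa : ∀ l j, M l j = du l (φ j) := fun l j => by rw [hM]; rfl
  obtain ⟨G, hG⟩ : ∃ G : Fin n → Fin n → PowerSeries (MvPolynomial (Fin n) R), G = fun i j =>
      th φ (c.Q * pderiv i.succ (c.W j) - c.W j * pderiv i.succ c.Q) * h ^ 2 := ⟨_, rfl⟩
  have hdt : ∀ j, PowerSeries.derivative (MvPolynomial (Fin n) R) (φ j) = - (th φ (c.W j) * h ^ 1) := by
    intro j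
    have h1 := Q_mul_dt hc hφ j
    calc PowerSeries.derivative (MvPolynomial (Fin n) R) (φ j) =
        (th φ c.Q * h) * PowerSeries.derivative (MvPolynomial (Fin n) R) (φ j) := by
          rw [hh, one_mul]
      _ = h * (th φ c.Q * PowerSeries.derivative (MvPolynomial (Fin n) R) (φ j)) := by ring
      _ = - (th φ (c.W j) * h ^ 1) := by
          rw [h1]
          ring
  have hneg : ∀ l (f : PowerSeries (MvPolynomial (Fin n) R)), du l (-f) = - du l f := by
    intro l f
    have h1 := du_add l f (-f)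
    have h2 : du l (0 : PowerSeries (MvPolynomial (Fin n) R)) = 0 := by
      have := du_C l (0 : MvPolynomial (Fin n) R)
      rw [map_zero, map_zero, map_zero] at this
      exact this
    rw [add_neg_cancel, h2] at h1
    exact (neg_eq_of_add_eq_zero_right h1.symm).symm
  have hdM : ∀ l j, PowerSeries.derivative (MvPolynomial (Fin n) R) (M l j) =
      - ∑ i, M l i * G i j := by
    intro l j
    rw [hMa, ← du_derivative, hdt, hneg, du_frac hc hφ hh l 1 (c.W j)]
    congr 1
    unfold CD.numV
    rw [map_sum, Finset.sum_mul]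
    refine Finset.sum_congr rfl fun i _ => ?_
    rw [map_mul, ← Q_mul_du hc hφ l i, hMa, hG, Nat.cast_one, one_mul]
    calc th φ c.Q * du l (φ i) * th φ (c.Q * pderiv i.succ (c.W j) - c.W j * pderiv i.succ c.Q) *
          h ^ (1 + 2) = du l (φ i) * (th φ (c.Q * pderiv i.succ (c.W j) -
            c.W j * pderiv i.succ c.Q) * h ^ 2) * (th φ c.Q * h) := by ring
      _ = _ := by rw [hh, mul_one]
  have hdet : PowerSeries.derivative (MvPolynomial (Fin n) R) M.det = ∑ i, ∑ j, M.adjugate j i *
      PowerSeries.derivative (MvPolynomial (Fin n) R) (M i j) :=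
    Liou_det ((PowerSeries.derivative (MvPolynomial (Fin n) R)).toLinearMap.toAddMonoidHom)
      (fun a b => (PowerSeries.derivative (MvPolynomial (Fin n) R)).leibniz a b) M
  rw [← hM, hdet]
  have h1 : ∑ l, ∑ j, M.adjugate j l * PowerSeries.derivative (MvPolynomial (Fin n) R) (M l j) =
      - ∑ j, ∑ i, (M.adjugate * M) j i * G i j := by
    rw [Finset.sum_comm, ← Finset.sum_neg_distrib]
    refine Finset.sum_congr rfl fun j _ => ?_
    have h2 : ∀ i, (M.adjugate * M) j i * G i j = ∑ l, M.adjugate j l * (M l i * G i j) := by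
      intro i
      rw [Matrix.mul_apply, Finset.sum_mul]
      exact Finset.sum_congr rfl fun l _ => mul_assoc _ _ _
    rw [Finset.sum_congr rfl fun i _ => h2 i, Finset.sum_comm, ← Finset.sum_neg_distrib]
    refine Finset.sum_congr rfl fun l _ => ?_
    rw [hdM, mul_neg, Finset.mul_sum]
  rw [h1, Matrix.adjugate_mul]
  congr 1
  have h2 : ∀ j, ∑ i, (M.det • (1 : Matrix (Fin n) (Fin n) (PowerSeries (MvPolynomial (Fin n) R)))) j i *
      G i j = M.det * G j j := by
    intro j
    rw [Finset.sum_eq_single j]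
    · rw [Matrix.smul_apply, Matrix.one_apply_eq, smul_eq_mul, mul_one]
    · intro i _ hi
      rw [Matrix.smul_apply, Matrix.one_apply_ne hi.symm, smul_zero, zero_mul]
    · intro h3
      exact absurd (Finset.mem_univ j) h3
  rw [Finset.sum_congr rfl fun j _ => h2 j, ← Finset.mul_sum, mul_comm]
  congr 1
  rw [hG]
  unfold CD.dvW
  rw [map_sum, Finset.sum_mul]

/-- The condition `JOk` is satisfied exactly by the determinant of `V`.

Proof. `th (det V) * h ^ n = det (∂φ_j / ∂u_l)` by `Q_mul_du` (`Matrix.det_smul`, `RingHom.map_det`), where `h` is the inverse of `th Q` (`constantCoeff (th Q) = 1`); the constant coefficient is `1`. By `liouville` and `dt_frac`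
`th (numT n (det V)) * h ^ (n + 2) = - th (dvW) * h ^ 2 * th (det V) * h ^ n`, and `th φ` is injective (`th_injective`), `h` a unit: `JOk (det V)`. Conversely, for `JOk J` let `f = th (J - det V) * h ^ n`: constant
coefficient `0` and `f' = - (th dvW * h ^ 2) * f`; comparing coefficients, `(k + 1) * coeff (k + 1) f` is a combination of the coefficients `≤ k`, so `f = 0` (characteristic zero), and `J = det V` by injectivity. -/
theorem jok_iff {c : CD n ℚ} (hc : c.Ok) (J : TP n ℚ) : c.JOk J ↔ J = Matrix.det (Matrix.of c.V) := by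
  obtain ⟨φ, hφ⟩ := exists_phi c
  have hcQ : PowerSeries.constantCoeff (th φ c.Q) = 1 := by
    rw [cc_th hφ.c0]
    unfold CD.Q atZD
    rw [map_add, map_mul, map_one, aeval_X, Fin.cases_zero, zero_mul, add_zero]
  obtain ⟨h, hh⟩ : ∃ h, th φ c.Q * h = 1 := by
    have h1 : IsUnit (th φ c.Q) := by
      rw [PowerSeries.isUnit_iff_constantCoeff, hcQ]
      exact isUnit_one
    obtain ⟨u, hu⟩ := h1
    exact ⟨((u⁻¹ : (PowerSeries (MvPolynomial (Fin n) ℚ))ˣ) : PowerSeries (MvPolynomial (Fin n) ℚ)),
      by rw [← hu, Units.mul_inv]⟩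
  have hch : PowerSeries.constantCoeff h = 1 := by
    have h1 := congrArg PowerSeries.constantCoeff hh
    rw [map_mul, hcQ, one_mul, map_one] at h1
    exact h1
  have hcan : ∀ (k : ℕ) (a b : PowerSeries (MvPolynomial (Fin n) ℚ)), a * h ^ k = b * h ^ k → a = b := by
    intro k a b hab
    have h1 : ∀ a : PowerSeries (MvPolynomial (Fin n) ℚ), a = a * h ^ k * (th φ c.Q) ^ k := by
      intro a
      rw [mul_assoc, ← mul_pow, mul_comm h, hh, one_pow, mul_one]
    rw [h1 a, hab, ← h1 b]
  obtain ⟨dV, hdV⟩ : ∃ dV, dV = Matrix.det (Matrix.of c.V) := ⟨_, rfl⟩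
  have hdet : Matrix.det (Matrix.of fun l j => du l (φ j)) = th φ dV * h ^ n := by
    have h1 : (Matrix.of fun l j => du l (φ j)) = h • (th φ).mapMatrix (Matrix.of c.V) := by
      ext1 l j
      change du l (φ j) = h * th φ (c.V l j)
      rw [← Q_mul_du hc hφ l j, ← mul_assoc, mul_comm h, hh, one_mul]
    rw [h1, Matrix.det_smul, Fintype.card_fin, ← RingHom.map_det, ← hdV, mul_comm]
  have hcV : atZD n ℚ dV = 1 := by
    rw [← cc_th hφ.c0]
    have h1 := congrArg PowerSeries.constantCoeff hdet
    rw [map_mul, map_pow, hch, one_pow, mul_one, RingHom.map_det] at h1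
    rw [← h1]
    have h2 : (PowerSeries.constantCoeff (R := MvPolynomial (Fin n) ℚ)).mapMatrix
        (Matrix.of fun l j => du l (φ j)) = 1 := by
      ext1 l j
      change PowerSeries.constantCoeff (du l (φ j)) = _
      rw [← PowerSeries.coeff_zero_eq_constantCoeff_apply, coeff_du,
        PowerSeries.coeff_zero_eq_constantCoeff_apply, hφ.c0, pderiv_X, Matrix.one_apply,
        Pi.single_apply]
      by_cases hlj : l = j
      · rw [if_pos hlj, if_pos hlj.symm]
      · rw [if_neg hlj, if_neg fun h => hlj h.symm]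
    rw [h2, Matrix.det_one]
  have hdf : ∀ J : TP n ℚ, PowerSeries.derivative (MvPolynomial (Fin n) ℚ) (th φ J * h ^ n) =
      th φ (c.numT n J) * h ^ (n + 2) := fun J => dt_frac hc hφ hh n J
  have hlV : PowerSeries.derivative (MvPolynomial (Fin n) ℚ) (th φ dV * h ^ n) =
      - (th φ c.dvW * h ^ 2 * (th φ dV * h ^ n)) := by
    rw [← hdet]
    exact liouville hc hφ hh
  have heq : ∀ J : TP n ℚ, c.numT n J = - (c.dvW * J) ↔
      PowerSeries.derivative (MvPolynomial (Fin n) ℚ) (th φ J * h ^ n) =
        - (th φ c.dvW * h ^ 2 * (th φ J * h ^ n)) := by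
    intro J
    have h1 : - (th φ c.dvW * h ^ 2 * (th φ J * h ^ n)) = th φ (- (c.dvW * J)) * h ^ (n + 2) := by
      rw [map_neg, map_mul, pow_add]
      ring
    rw [hdf, h1]
    constructor
    · intro h2
      rw [h2]
    · intro h2
      exact th_injective hφ.c0 (hcan _ _ _ h2)
  rw [← hdV]
  constructor
  · rintro ⟨hJ0, hJ1⟩
    have hJ2 := (heq J).1 hJ1
    obtain ⟨f, hf⟩ : ∃ f, f = th φ J * h ^ n - th φ dV * h ^ n := ⟨_, rfl⟩
    have hf0 : PowerSeries.coeff 0 f = 0 := by
      rw [PowerSeries.coeff_zero_eq_constantCoeff_apply, hf, map_sub, map_mul, map_mul, map_pow, hch,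
        one_pow, mul_one, mul_one, cc_th hφ.c0, cc_th hφ.c0, hJ0, hcV, sub_self]
    have hf1 : PowerSeries.derivative (MvPolynomial (Fin n) ℚ) f =
        - (th φ c.dvW * h ^ 2 * f) := by
      rw [hf, map_sub, hJ2, hlV]
      ring
    have hfk : ∀ k, PowerSeries.coeff k f = 0 := by
      intro k
      induction k using Nat.strong_induction_on with
      | _ k ih =>
        rcases k with _ | k
        · exact hf0
        · have h1 := congrArg (PowerSeries.coeff k) hf1
          rw [PowerSeries.coeff_derivative, map_neg, PowerSeries.coeff_mul,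
            Finset.sum_eq_zero (fun p hp => ?_), neg_zero] at h1
          · have h2 : ((k : MvPolynomial (Fin n) ℚ) + 1) ≠ 0 := by
              exact_mod_cast Nat.succ_ne_zero k
            exact (mul_eq_zero.1 h1).resolve_right h2
          · have h2 := Finset.HasAntidiagonal.mem_antidiagonal.1 hp
            rw [ih p.2 (by omega), mul_zero]
    have hf2 : f = 0 := PowerSeries.ext fun k => by rw [hfk, map_zero]
    rw [hf, sub_eq_zero] at hf2
    exact th_injective hφ.c0 (hcan _ _ _ hf2)
  · rintro rfl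
    exact ⟨hcV, (heq J).2 hlV⟩

end Pool.Agent.Lib.MP_bbe012_lc.PT
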