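import Pool.Agent.Lib.MP_bbe012_lc.PT.PDefs
import Pool.Agent.Lib.MP_bbe012_lc.PP.Tame

/-!
# Stage 3: norms
-/

namespace Pool.Agent.Lib.MP_bbe012_lc.PT

open MvPolynomial Pool.Agent.Lib.MP_bbe012_lc.PP

theorem nW_nonneg {m : ℕ} (p : MvPolynomial (Fin m) ℚ) : 0 ≤ nW p := by
  exact Finset.sum_nonneg fun _ _ => mul_nonneg (abs_nonneg _) (by positivity)

private theorem nrm_eq {m : ℕ} (p : MvPolynomial (Fin m) ℚ) (s : Finset (Fin m →₀ ℕ))
    (h : p.support ⊆ s) : nW p = ∑ u ∈ s, |coeff u p| * 4 ^ (∑ i, u i) := by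
  rw [nW]
  refine Finset.sum_subset h fun u _ hu => ?_
  rw [notMem_support_iff.1 hu, abs_zero, zero_mul]

theorem nW_add_le {m : ℕ} (p q : MvPolynomial (Fin m) ℚ) : nW (p + q) ≤ nW p + nW q := by
  classical
  rw [nrm_eq (p + q) (p.support ∪ q.support) support_add,
    nrm_eq p (p.support ∪ q.support) Finset.subset_union_left,
    nrm_eq q (p.support ∪ q.support) Finset.subset_union_right, ← Finset.sum_add_distrib]
  refine Finset.sum_le_sum fun u _ => ?_
  rw [coeff_add, ← add_mul]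
  exact mul_le_mul_of_nonneg_right (abs_add_le _ _) (by positivity)

theorem nW_neg {m : ℕ} (p : MvPolynomial (Fin m) ℚ) : nW (-p) = nW p := by
  rw [nW, nW, support_neg]
  refine Finset.sum_congr rfl fun u _ => ?_
  rw [coeff_neg, abs_neg]

private theorem nrm_zero {m : ℕ} : nW (0 : MvPolynomial (Fin m) ℚ) = 0 := by
  rw [nW, support_zero, Finset.sum_empty]

private theorem nrm_sum {m : ℕ} {ι : Type*} (s : Finset ι) (p : ι → MvPolynomial (Fin m) ℚ) :
    nW (∑ i ∈ s, p i) ≤ ∑ i ∈ s, nW (p i) := by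
  classical
  induction s using Finset.induction_on with
  | empty => rw [Finset.sum_empty, Finset.sum_empty, nrm_zero]
  | insert a s ha ih =>
    rw [Finset.sum_insert ha, Finset.sum_insert ha]
    exact (nW_add_le _ _).trans (add_le_add le_rfl ih)

private theorem nrm_monomial {m : ℕ} (u : Fin m →₀ ℕ) (a : ℚ) :
    nW (monomial u a) ≤ |a| * 4 ^ (∑ i, u i) := by
  classical
  rw [nrm_eq (monomial u a) {u} support_monomial_subset, Finset.sum_singleton, coeff_monomial,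
    if_pos rfl]

theorem nW_mul_le {m : ℕ} (p q : MvPolynomial (Fin m) ℚ) : nW (p * q) ≤ nW p * nW q := by
  have h1 : p * q = ∑ a ∈ p.support, ∑ b ∈ q.support, monomial (a + b) (coeff a p * coeff b q) := by
    conv_lhs => rw [p.as_sum, q.as_sum]
    rw [Finset.sum_mul_sum]
    refine Finset.sum_congr rfl fun a _ => Finset.sum_congr rfl fun b _ => ?_
    rw [monomial_mul]
  rw [h1]
  refine (nrm_sum _ _).trans ?_
  rw [nW, nW, Finset.sum_mul_sum]
  refine Finset.sum_le_sum fun a _ => (nrm_sum _ _).trans (Finset.sum_le_sum fun b _ => ?_)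
  refine (nrm_monomial _ _).trans (le_of_eq ?_)
  have h2 : ∑ i, (a + b) i = ∑ i, a i + ∑ i, b i := by
    rw [← Finset.sum_add_distrib]
    rfl
  rw [h2, abs_mul, pow_add]
  ring

theorem nW_C {m : ℕ} (a : ℚ) : nW (C a : MvPolynomial (Fin m) ℚ) = |a| := by
  classical
  rw [nrm_eq (C a : MvPolynomial (Fin m) ℚ) {0} support_monomial_subset, Finset.sum_singleton,
    coeff_zero_C]
  simp

theorem l1M_le_nW {m : ℕ} (p : MvPolynomial (Fin m) ℚ) : l1M p ≤ nW p := by
  refine Finset.sum_le_sum fun u _ => ?_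
  exact le_mul_of_one_le_right (abs_nonneg _) (one_le_pow₀ (by norm_num))

/-- The partial sums of the norm. -/
private noncomputable def nrmP {n : ℕ} (ρ : ℚ) (K : ℕ) (f : PowerSeries (MvPolynomial (Fin n) ℚ)) :
    ℚ :=
  ∑ k ∈ Finset.range K, l1M (PowerSeries.coeff k f) * ρ ^ k

private theorem nrm_nonneg {n : ℕ} {ρ : ℚ} (hρ : 0 ≤ ρ) (K : ℕ)
    (f : PowerSeries (MvPolynomial (Fin n) ℚ)) : 0 ≤ nrmP ρ K f :=
  Finset.sum_nonneg fun _ _ => mul_nonneg (Tame_l1M_nonneg _) (pow_nonneg hρ _)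

private theorem nrm_add {n : ℕ} {ρ : ℚ} (hρ : 0 ≤ ρ) (K : ℕ)
    (f g : PowerSeries (MvPolynomial (Fin n) ℚ)) :
    nrmP ρ K (f + g) ≤ nrmP ρ K f + nrmP ρ K g := by
  rw [nrmP, nrmP, nrmP, ← Finset.sum_add_distrib]
  refine Finset.sum_le_sum fun k _ => ?_
  rw [map_add, ← add_mul]
  exact mul_le_mul_of_nonneg_right (l1M_add_le _ _) (pow_nonneg hρ _)

private theorem nrm_neg {n : ℕ} (ρ : ℚ) (K : ℕ) (f : PowerSeries (MvPolynomial (Fin n) ℚ)) :
    nrmP ρ K (-f) = nrmP ρ K f := by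
  rw [nrmP, nrmP]
  refine Finset.sum_congr rfl fun k _ => ?_
  rw [map_neg, Tame_l1M_neg]

private theorem nrm_sub {n : ℕ} {ρ : ℚ} (hρ : 0 ≤ ρ) (K : ℕ)
    (f g : PowerSeries (MvPolynomial (Fin n) ℚ)) :
    nrmP ρ K (f - g) ≤ nrmP ρ K f + nrmP ρ K g := by
  rw [sub_eq_add_neg]
  refine (nrm_add hρ K f (-g)).trans ?_
  rw [nrm_neg]

private theorem nrm_mul {n : ℕ} {ρ : ℚ} (hρ : 0 ≤ ρ) (K : ℕ)
    (f g : PowerSeries (MvPolynomial (Fin n) ℚ)) :
    nrmP ρ K (f * g) ≤ nrmP ρ K f * nrmP ρ K g := by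
  classical
  have h1 : nrmP ρ K (f * g) ≤ ∑ k ∈ Finset.range K, ∑ p ∈ Finset.HasAntidiagonal.antidiagonal k,
      (l1M (PowerSeries.coeff p.1 f) * ρ ^ p.1) * (l1M (PowerSeries.coeff p.2 g) * ρ ^ p.2) := by
    rw [nrmP]
    refine Finset.sum_le_sum fun k _ => ?_
    rw [PowerSeries.coeff_mul]
    refine (mul_le_mul_of_nonneg_right (Tame_l1M_sum _ _) (pow_nonneg hρ _)).trans ?_
    rw [Finset.sum_mul]
    refine Finset.sum_le_sum fun p hp => ?_
    refine (mul_le_mul_of_nonneg_right (l1M_mul_le _ _) (pow_nonneg hρ _)).trans (le_of_eq ?_)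
    rw [← Finset.HasAntidiagonal.mem_antidiagonal.1 hp, pow_add]
    ring
  refine h1.trans ?_
  rw [← Finset.sum_biUnion, nrmP, nrmP, Finset.sum_mul_sum, ← Finset.sum_product']
  · refine Finset.sum_le_sum_of_subset_of_nonneg ?_ fun p _ _ => ?_
    · intro p hp
      obtain ⟨k, hk, hp⟩ := Finset.mem_biUnion.1 hp
      have h2 := Finset.HasAntidiagonal.mem_antidiagonal.1 hp
      have h3 := Finset.mem_range.1 hk
      exact Finset.mem_product.2 ⟨Finset.mem_range.2 (by omega), Finset.mem_range.2 (by omega)⟩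
    · exact mul_nonneg (mul_nonneg (Tame_l1M_nonneg _) (pow_nonneg hρ _))
        (mul_nonneg (Tame_l1M_nonneg _) (pow_nonneg hρ _))
  · intro a _ b _ hab
    refine Finset.disjoint_left.2 fun p hp hq => hab ?_
    exact (Finset.HasAntidiagonal.mem_antidiagonal.1 hp).symm.trans (Finset.HasAntidiagonal.mem_antidiagonal.1 hq)

private theorem nrm_C {n : ℕ} (ρ : ℚ) (K : ℕ) (a : MvPolynomial (Fin n) ℚ) :
    nrmP ρ K (PowerSeries.C a) ≤ l1M a := by
  rw [nrmP]
  rcases K with _ | K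
  · rw [Finset.sum_range_zero]
    exact Tame_l1M_nonneg a
  · rw [Finset.sum_range_succ', pow_zero, mul_one, PowerSeries.coeff_zero_C]
    refine (add_le_add (Finset.sum_nonpos fun k _ => ?_) le_rfl).trans (zero_add _).le
    rw [PowerSeries.coeff_C, if_neg (Nat.succ_ne_zero k), Tame_l1M_zero, zero_mul]

private theorem nrm_X_mul {n : ℕ} (ρ : ℚ) (K : ℕ) (f : PowerSeries (MvPolynomial (Fin n) ℚ)) :
    nrmP ρ (K + 1) (PowerSeries.X * f) = ρ * nrmP ρ K f := by
  rw [nrmP, nrmP, Finset.sum_range_succ', PowerSeries.coeff_zero_X_mul, Tame_l1M_zero, zero_mul,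
    add_zero, Finset.mul_sum]
  refine Finset.sum_congr rfl fun k _ => ?_
  rw [PowerSeries.coeff_succ_X_mul, pow_succ]
  ring

private theorem nrm_one {n : ℕ} (ρ : ℚ) (K : ℕ) :
    nrmP ρ K (1 : PowerSeries (MvPolynomial (Fin n) ℚ)) ≤ 1 := by
  have h := nrm_C (n := n) ρ K (C 1)
  rw [map_one, map_one] at h
  refine h.trans ?_
  have h2 := Tame_l1M_monomial (0 : Fin n →₀ ℕ) 1
  rw [abs_one] at h2
  exact h2

private theorem nrm_pow {n : ℕ} {ρ b : ℚ} (hρ : 0 ≤ ρ) (K : ℕ)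
    {f : PowerSeries (MvPolynomial (Fin n) ℚ)} (hf : nrmP ρ K f ≤ b) (k : ℕ) :
    nrmP ρ K (f ^ k) ≤ b ^ k := by
  induction k with
  | zero =>
    rw [pow_zero, pow_zero]
    exact nrm_one ρ K
  | succ k ih =>
    rw [pow_succ, pow_succ]
    refine (nrm_mul hρ K _ _).trans ?_
    exact mul_le_mul ih hf (nrm_nonneg hρ K f) ((nrm_nonneg hρ K _).trans ih)

theorem RB.add {n : ℕ} {ρ b b' : ℚ} (hρ : 0 ≤ ρ) {f g : PowerSeries (MvPolynomial (Fin n) ℚ)} (hf : RB n ρ b f)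
    (hg : RB n ρ b' g) : RB n ρ (b + b') (f + g) := by
  exact fun K => (nrm_add hρ K f g).trans (add_le_add (hf K) (hg K))

/-- Proof: `∑_{k < K} ‖∑_{i + j = k} f_i g_j‖ ρ ^ k ≤ (∑_{i < K} ‖f_i‖ ρ ^ i) (∑_{j < K} ‖g_j‖ ρ ^ j)` (`l1M_mul_le`). -/
theorem RB.mul {n : ℕ} {ρ b b' : ℚ} (hρ : 0 ≤ ρ) {f g : PowerSeries (MvPolynomial (Fin n) ℚ)} (hf : RB n ρ b f)
    (hg : RB n ρ b' g) : RB n ρ (b * b') (f * g) := by
  intro K
  refine (nrm_mul hρ K f g).trans ?_
  exact mul_le_mul (hf K) (hg K) (nrm_nonneg hρ K g) ((nrm_nonneg hρ K f).trans (hf K))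

theorem RB.pow {n : ℕ} {ρ b : ℚ} (hρ : 0 ≤ ρ) {f : PowerSeries (MvPolynomial (Fin n) ℚ)} (hf : RB n ρ b f) (k : ℕ) :
    RB n ρ (b ^ k) (f ^ k) := by
  exact fun K => nrm_pow hρ K (hf K) k

theorem RB.mono {n : ℕ} {ρ b b' : ℚ} (h : b ≤ b') {f : PowerSeries (MvPolynomial (Fin n) ℚ)} (hf : RB n ρ b f) :
    RB n ρ b' f := by
  exact fun K => (hf K).trans h

/-- Proof: partial sums of non negative terms are bounded. -/
theorem RB.sw {n : ℕ} {τ b : ℚ} {f : PowerSeries (MvPolynomial (Fin n) ℚ)} (hf : RB n |τ| b f) : SW n τ f := by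
  refine summable_of_sum_range_le (c := (b : ℝ)) (fun k => ?_) fun K => ?_
  · refine mul_nonneg ?_ (pow_nonneg (abs_nonneg _) _)
    exact_mod_cast Tame_l1M_nonneg _
  · have h := hf K
    have h2 : ((∑ k ∈ Finset.range K, l1M (PowerSeries.coeff k f) * |τ| ^ k : ℚ) : ℝ) ≤ (b : ℝ) := by
      exact_mod_cast h
    refine le_trans (le_of_eq ?_) h2
    push_cast
    rfl

private theorem nrm_CX {n : ℕ} (ρ : ℚ) (K : ℕ) (l : Fin n) :
    nrmP ρ K (PowerSeries.C (X l : MvPolynomial (Fin n) ℚ)) ≤ 1 := by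
  refine (nrm_C ρ K (X l)).trans ?_
  have h2 := Tame_l1M_monomial (Finsupp.single l 1 : Fin n →₀ ℕ) 1
  rw [abs_one] at h2
  exact h2

private theorem nrm_prod {ι : Type*} {n : ℕ} {ρ : ℚ} (hρ : 0 ≤ ρ) (K : ℕ)
    (f : ι → PowerSeries (MvPolynomial (Fin n) ℚ)) (hf : ∀ i, nrmP ρ K (f i) ≤ 4) (u : ι → ℕ)
    (s : Finset ι) : nrmP ρ K (∏ i ∈ s, f i ^ u i) ≤ 4 ^ (∑ i ∈ s, u i) := by
  classical
  induction s using Finset.induction_on with
  | empty =>
    rw [Finset.prod_empty, Finset.sum_empty, pow_zero]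
    exact nrm_one ρ K
  | insert a s ha ih =>
    rw [Finset.prod_insert ha, Finset.sum_insert ha, pow_add]
    refine (nrm_mul hρ K _ _).trans ?_
    exact mul_le_mul (nrm_pow hρ K (hf a) _) ih (nrm_nonneg hρ K _) (by positivity)

private theorem nrm_th {n : ℕ} {ρ : ℚ} (hρ : 0 ≤ ρ) (hρ1 : ρ ≤ 1) (K : ℕ)
    (φ : Fin n → PowerSeries (MvPolynomial (Fin n) ℚ)) (hφ : ∀ l, nrmP ρ K (φ l) ≤ 9 / 8)
    (G : TP n ℚ) : nrmP ρ K (th φ G) ≤ nW G := by
  classical
  have hv : ∀ i : Fin (n + 1), nrmP ρ K ((Fin.cases PowerSeries.X φ : Fin (n + 1) →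
      PowerSeries (MvPolynomial (Fin n) ℚ)) i) ≤ 4 := by
    intro i
    refine Fin.cases ?_ (fun l => ?_) i
    · have h1 : nrmP ρ K (PowerSeries.X : PowerSeries (MvPolynomial (Fin n) ℚ)) ≤ 1 := by
        rcases K with _ | K
        · rw [nrmP, Finset.sum_range_zero]
          norm_num
        · have h2 := nrm_X_mul (n := n) ρ K 1
          rw [mul_one] at h2
          rw [h2]
          have h3 := nrm_one (n := n) ρ K
          have h4 := nrm_nonneg hρ K (1 : PowerSeries (MvPolynomial (Fin n) ℚ))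
          exact mul_le_one₀ hρ1 h4 h3
      exact h1.trans (by norm_num)
    · exact (hφ l).trans (by norm_num)
  have hm : ∀ (u : Fin (n + 1) →₀ ℕ) (a : ℚ),
      nrmP ρ K (th φ (monomial u a)) ≤ |a| * 4 ^ (∑ i, u i) := by
    intro u a
    have h1 : th φ (monomial u a) = PowerSeries.C (C a) *
        ∏ i, ((Fin.cases PowerSeries.X φ : Fin (n + 1) →
          PowerSeries (MvPolynomial (Fin n) ℚ)) i) ^ u i := by
      rw [th, coe_eval₂Hom, eval₂_monomial, Finsupp.prod_fintype _ _ (fun i => pow_zero _)]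
      rfl
    rw [h1]
    refine (nrm_mul hρ K _ _).trans ?_
    have h2 := (nrm_C ρ K (C a : MvPolynomial (Fin n) ℚ)).trans (Tame_l1M_monomial 0 a)
    exact mul_le_mul h2 (nrm_prod hρ K _ hv u Finset.univ) (nrm_nonneg hρ K _) (abs_nonneg _)
  have hs : ∀ s : Finset (Fin (n + 1) →₀ ℕ),
      nrmP ρ K (th φ (∑ u ∈ s, monomial u (coeff u G))) ≤
        ∑ u ∈ s, |coeff u G| * 4 ^ (∑ i, u i) := by
    intro s
    induction s using Finset.induction_on with
    | empty =>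
      rw [Finset.sum_empty, Finset.sum_empty, map_zero, nrmP]
      refine Finset.sum_nonpos fun k _ => ?_
      rw [map_zero, Tame_l1M_zero, zero_mul]
    | insert a s ha ih =>
      rw [Finset.sum_insert ha, Finset.sum_insert ha, map_add]
      exact (nrm_add hρ K _ _).trans (add_le_add (hm _ _) ih)
  have h := hs G.support
  rw [← G.as_sum] at h
  exact h

private theorem nrm_fix {n : ℕ} {c : CD n ℚ} {ρ : ℚ} (hs : Small c ρ) (K : ℕ)
    (hK : ∀ l, nrmP ρ K (c.phi l) ≤ 9 / 8) (l : Fin n) :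
    nrmP ρ (K + 1) (PowerSeries.X * (PowerSeries.C (X l) * th c.phi (c.q l) - th c.phi (c.p l))) ≤
      1 / 8 := by
  rw [nrm_X_mul]
  have h1 := nrm_th hs.nonneg hs.le_one K c.phi hK (c.q l)
  have h2 := nrm_th hs.nonneg hs.le_one K c.phi hK (c.p l)
  have h3 : nrmP ρ K (PowerSeries.C (X l) * th c.phi (c.q l)) ≤ nW (c.q l) := by
    refine (nrm_mul hs.nonneg K _ _).trans ?_
    have h4 := mul_le_mul (nrm_CX ρ K l) h1 (nrm_nonneg hs.nonneg K _) zero_le_one
    rwa [one_mul] at h4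
  have h5 := nrm_sub hs.nonneg K (PowerSeries.C (X l) * th c.phi (c.q l)) (th c.phi (c.p l))
  refine le_trans (mul_le_mul_of_nonneg_left ?_ hs.nonneg) (hs.pq l)
  linarith

/-- The bound for the formal inverse.

Proof. By induction on `K`: `∑_{k < K} ‖coeff k (φ l)‖ ρ ^ k ≤ 9 / 8` for all `l`. By `IsPhi.fix` the coefficient of index `k + 1` of `φ l` is the coefficient of index `k` of `C (X l) * th φ (q l) - th φ (p l)`, so the sum
for `K + 1` is at most `1 + ρ * (∑_{k < K} ‖coeff k (th φ (q l))‖ ρ ^ k + ∑_{k < K} ‖coeff k (th φ (p l))‖ ρ ^ k)` (`l1M (X l * f) ≤ l1M f`). If the partial sums up to `K` of all `φ l` are at most `9 / 8`, then those of `th φ G` are at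
most `nW G`, for every polynomial `G`: truncate (a version of `RB` for the partial sums up to `K` only, which satisfies the same rules), `MvPolynomial.induction_on'` or the sum over the monomials: a monomial
`c t ^ a x ^ m` gives at most `|c| ρ ^ a (9 / 8) ^ |m| ≤ |c| 4 ^ (a + |m|)`. -/
theorem phi_RB {n : ℕ} {c : CD n ℚ} {ρ : ℚ} (hs : Small c ρ) (l : Fin n) : RB n ρ (9 / 8) (c.phi l) := by
  intro K
  induction K generalizing l with
  | zero =>
    rw [Finset.sum_range_zero]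
    norm_num
  | succ K ih =>
    have h1 := nrm_fix hs K ih l
    have h2 : nrmP ρ (K + 1) (c.phi l) ≤
        nrmP ρ (K + 1) (PowerSeries.C (X l)) +
          nrmP ρ (K + 1) (PowerSeries.X * (PowerSeries.C (X l) * th c.phi (c.q l) -
            th c.phi (c.p l))) := by
      conv_lhs => rw [c.phi_spec.fix l]
      exact nrm_add hs.nonneg _ _ _
    have h3 := nrm_CX (n := n) ρ (K + 1) l
    have h4 : nrmP ρ (K + 1) (c.phi l) ≤ 9 / 8 := by linarith
    exact h4

theorem th_RB {n : ℕ} {c : CD n ℚ} {ρ : ℚ} (hs : Small c ρ) (G : TP n ℚ) : RB n ρ (nW G) (th c.phi G) := by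
  exact fun K => nrm_th hs.nonneg hs.le_one K c.phi (fun l => phi_RB hs l K) G

/-- Proof: `IsPhi.fix`. -/
theorem phi_sub_RB {n : ℕ} {c : CD n ℚ} {ρ : ℚ} (hs : Small c ρ) (l : Fin n) :
    RB n ρ (1 / 8) (c.phi l - PowerSeries.C (X l)) := by
  intro K
  have h1 : c.phi l - PowerSeries.C (X l) = PowerSeries.X * (PowerSeries.C (X l) *
      th c.phi (c.q l) - th c.phi (c.p l)) := by
    conv_lhs => rw [c.phi_spec.fix l]
    rw [add_sub_cancel_left]
  rw [h1]
  rcases K with _ | K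
  · rw [Finset.sum_range_zero]
    norm_num
  · exact nrm_fix hs K (fun l => phi_RB hs l K) l

/-- Proof: `th Q = 1 + X * th s`, the partial sums of `X * th s` are at most `ρ * nW s ≤ 1 / 2`; `h = 1 - X * th s * h`, so by induction on `K` the partial sums of `h` are at most `1 + 1 / 2 * 2 = 2`
(coefficient by coefficient: the partial sum up to `K + 1` of `X * f` is `ρ` times the partial sum up to `K` of `f`). -/
theorem h_RB {n : ℕ} {c : CD n ℚ} {ρ : ℚ} (hs : Small c ρ) : RB n ρ 2 c.h := by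
  have h1 : th c.phi c.Q = 1 + PowerSeries.X * th c.phi c.s := by
    have h2 : th c.phi (X 0) = PowerSeries.X := th_X0 c.phi
    rw [CD.Q, map_add, map_mul, map_one, h2]
  have h2 : th c.phi c.Q * c.h = 1 := by
    refine PowerSeries.mul_invOfUnit _ 1 ?_
    rw [h1, map_add, map_mul, map_one, PowerSeries.constantCoeff_X, zero_mul, add_zero]
    rfl
  have h3 : c.h = 1 - PowerSeries.X * (th c.phi c.s * c.h) := by
    rw [h1] at h2
    linear_combination h2
  intro K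
  induction K with
  | zero =>
    rw [Finset.sum_range_zero]
    norm_num
  | succ K ih =>
    have h4 : nrmP ρ (K + 1) c.h ≤ nrmP ρ (K + 1) (1 : PowerSeries (MvPolynomial (Fin n) ℚ)) +
        nrmP ρ (K + 1) (PowerSeries.X * (th c.phi c.s * c.h)) := by
      conv_lhs => rw [h3]
      exact nrm_sub hs.nonneg _ _ _
    have h5 := nrm_one (n := n) ρ (K + 1)
    rw [nrm_X_mul] at h4
    have h6 : nrmP ρ K (th c.phi c.s * c.h) ≤ nW c.s * 2 :=
      (nrm_mul hs.nonneg K _ _).trans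
        (mul_le_mul (nrm_th hs.nonneg hs.le_one K c.phi (fun l => phi_RB hs l K) c.s) ih
          (nrm_nonneg hs.nonneg K _) (nW_nonneg _))
    have h7 := mul_le_mul_of_nonneg_left h6 hs.nonneg
    have h8 := hs.s
    have h9 : nrmP ρ (K + 1) c.h ≤ 2 := by nlinarith
    exact h9

end Pool.Agent.Lib.MP_bbe012_lc.PT
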