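import Pool.Agent.Lib.MP_bbe012_lc.PT.RealA
import Pool.Agent.Lib.MP_bbe012_lc.PP.SC

/-!
# Stage 3: from relations between values to certificates
-/

namespace Pool.Agent.Lib.MP_bbe012_lc.PT

open MvPolynomial Pool.Agent.Lib.MP_bbe012_lc.PP

/-- Proof: as `cert_of_rel` (PP/SC.lean). -/
theorem cert_of_relT {n r : ℕ} (c : CD n ℚ) (A : Fin (r + 1) → TP n ℚ) (κ : Fin (r + 1) → ℕ)
    (τ : ℚ) (G : TP n ℚ) (K : ℕ) (c' : Polynomial ℚ) (a : Fin (r + 1) → Polynomial ℚ) (hc : c'.eval τ ≠ 0)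
    (ha : ∀ i, (a i).eval τ = 0)
    (h : (c' : PowerSeries ℚ) * PhiT c G K = ∑ i, (a i : PowerSeries ℚ) * PhiT c (A i) (κ i)) :
    ∃ (j : ℕ) (U : TP n ℚ), PhiT c (G * c.Q ^ j + (X 0 - C τ) * U) (K + j) = 0 := by
  have hda : ∀ i, (Polynomial.X - Polynomial.C τ) ∣ a i := fun i => Polynomial.dvd_iff_isRoot.2 (ha i)
  choose b hb using hda
  obtain ⟨b', hb'⟩ := Polynomial.X_sub_C_dvd_sub_C_eval (a := τ) (p := c')
  have hκ : ∀ i, κ i ≤ K + ∑ i, κ i := fun i =>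
    le_trans (Finset.single_le_sum (f := κ) (fun _ _ => Nat.zero_le _) (Finset.mem_univ i)) (Nat.le_add_left _ _)
  set j : ℕ := ∑ i, κ i with hj
  refine ⟨j, C ((c'.eval τ)⁻¹) * (inT n b' * (G * c.Q ^ j) -
    ∑ i, inT n (b i) * (A i * c.Q ^ (K + j - κ i))), ?_⟩
  have hXC : inT n (Polynomial.X - Polynomial.C τ) = X 0 - C τ := by
    rw [map_sub, MainB_inT_C, MainB_inT_X]
  have hcc : inT n c' = C (c'.eval τ) + (X 0 - C τ) * inT n b' := by
    have e : c' = Polynomial.C (c'.eval τ) + (Polynomial.X - Polynomial.C τ) * b' := by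
      rw [← hb']; ring
    conv_lhs => rw [e]
    rw [map_add, map_mul, MainB_inT_C, hXC]
  have haa : ∀ i, inT n (a i) = (X 0 - C τ) * inT n (b i) := by
    intro i
    rw [hb i, map_mul, hXC]
  have hinv : C (c'.eval τ) * C ((c'.eval τ)⁻¹) = (1 : TP n ℚ) := by
    rw [← C_mul, mul_inv_cancel₀ hc, C_1]
  have key : inT n (Polynomial.C (c'.eval τ)) * (G * c.Q ^ j + (X 0 - C τ) * (C ((c'.eval τ)⁻¹) *
      (inT n b' * (G * c.Q ^ j) - ∑ i, inT n (b i) * (A i * c.Q ^ (K + j - κ i))))) =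
      inT n c' * (G * c.Q ^ j) - ∑ i, inT n (a i) * (A i * c.Q ^ (K + j - κ i)) := by
    have e1 : ∑ i, inT n (a i) * (A i * c.Q ^ (K + j - κ i)) =
        (X 0 - C τ) * ∑ i, inT n (b i) * (A i * c.Q ^ (K + j - κ i)) := by
      rw [Finset.mul_sum]
      refine Finset.sum_congr rfl fun i _ => ?_
      rw [haa i, mul_assoc]
    rw [e1, hcc, MainB_inT_C]
    have e2 : ∀ S : TP n ℚ, C (c'.eval τ) * (G * c.Q ^ j + (X 0 - C τ) * (C ((c'.eval τ)⁻¹) *
        (inT n b' * (G * c.Q ^ j) - S))) =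
        C (c'.eval τ) * (G * c.Q ^ j) + (C (c'.eval τ) * C ((c'.eval τ)⁻¹)) * ((X 0 - C τ) *
        (inT n b' * (G * c.Q ^ j) - S)) := by
      intro S; ring
    rw [e2, hinv]
    ring
  have hPhi := congrArg (fun W => PhiT c W (K + j)) key
  rw [PhiT_inT_mul, PhiT_sub, PhiT_sum, PhiT_inT_mul, PhiT_shift, h] at hPhi
  have e3 : ∑ i, PhiT c (inT n (a i) * (A i * c.Q ^ (K + j - κ i))) (K + j) =
      ∑ i, (a i : PowerSeries ℚ) * PhiT c (A i) (κ i) := by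
    refine Finset.sum_congr rfl fun i _ => ?_
    rw [PhiT_inT_mul]
    have e4 : PhiT c (A i * c.Q ^ (K + j - κ i)) (K + j) = PhiT c (A i) (κ i) := by
      have e5 := PhiT_shift c (A i) (κ i) (K + j - κ i)
      have e6 : κ i + (K + j - κ i) = K + j := by
        have := hκ i
        omega
      rw [e6] at e5
      exact e5
    rw [e4]
  rw [e3, sub_self] at hPhi
  rcases mul_eq_zero.1 hPhi with h0 | h0
  · exfalso
    apply hc
    rw [← Polynomial.coe_zero] at h0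
    exact Polynomial.C_eq_zero.1 (Polynomial.coe_inj.1 h0)
  · exact h0

/-- Proof: as `good_of_relations` (PP/SC.lean), with `summable_PhiT`. -/
theorem good_of_relationsT {n r : ℕ} (c : CD n ℚ) (A : Fin (r + 1) → TP n ℚ) (κ : Fin (r + 1) → ℕ)
    (hspan : ∀ (G : TP n ℚ) (K : ℕ), ∃ (c' : Polynomial ℚ) (a : Fin (r + 1) → Polynomial ℚ), c' ≠ 0 ∧
      (c' : PowerSeries ℚ) * PhiT c G K = ∑ i, (a i : PowerSeries ℚ) * PhiT c (A i) (κ i))
    (τ : ℚ) (hs : Small c |τ|)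
    (hrel : ∀ lam : Fin (r + 1) → ℚ, ∑ i, (lam i : ℝ) * ev τ (PhiT c (A i) (κ i)) = 0 →
      ∃ b : Fin (r + 1) → Polynomial ℚ, ∑ i, (b i : PowerSeries ℚ) * PhiT c (A i) (κ i) = 0 ∧
        ∀ i, (b i).eval τ = lam i) :
    GoodT c τ := by
  refine ⟨hs, fun G K hev => ?_⟩
  obtain ⟨c₀, a₀, hc₀, h₀⟩ := hspan G K
  obtain ⟨c', a', hc', ha', h'⟩ := reduce_rel τ (PhiT c G K) (fun i => PhiT c (A i) (κ i)) hrel
    (fun d a hca => by
      have e1 : ev τ (∑ i, (a i : PowerSeries ℚ) * PhiT c (A i) (κ i)) =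
          ∑ i, ev τ ((a i : PowerSeries ℚ) * PhiT c (A i) (κ i)) := by
        refine MainB_ev_sum τ Finset.univ _ fun i _ => ?_
        rw [← PhiT_inT_mul]
        exact summable_PhiT hs _ _
      have e2 := ev_mul' d (PhiT c G K) τ (summable_PhiT hs G K)
      rw [hev, mul_zero] at e2
      have e3 : ev τ (∑ i, (a i : PowerSeries ℚ) * PhiT c (A i) (κ i)) = 0 := by
        rw [← hca]
        exact e2
      rw [← e3, e1]
      refine Finset.sum_congr rfl fun i _ => ?_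
      exact (ev_mul' (a i) (PhiT c (A i) (κ i)) τ (summable_PhiT hs _ _)).symm)
    c₀.natDegree c₀ a₀ hc₀ le_rfl h₀
  exact cert_of_relT c A κ τ G K c' a' hc' ha' h'

end Pool.Agent.Lib.MP_bbe012_lc.PT
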