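import Pool.Agent.Lib.MP_bbe012_lc.PT.SpT
import Pool.Agent.Lib.MP_bbe012_lc.PT.SCT
import Pool.Agent.Lib.MP_bbe012_lc.PT.GDT
import Pool.Agent.Lib.MP_bbe012_lc.PP.UE
import Pool.Agent.Lib.MP_bbe012_lc.PP.SB

/-!
# Stage 3: uniformity in the parameters
-/

namespace Pool.Agent.Lib.MP_bbe012_lc.PT

open MvPolynomial Pool.Agent.Lib.MP_bbe012_lc.PP

private theorem SDT_eval_le {q : ℕ} (f : MvPolynomial (Fin q) ℤ) (y : Fin q → ℤ) (H : ℕ) (hH : 1 ≤ H)
    (hy : ∀ i, (y i).natAbs ≤ H) : (eval y f).natAbs ≤ l1I f * H ^ f.totalDegree := by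
  rw [eval_eq', l1I, Finset.sum_mul]
  refine (Int.natAbs_sum_le _ _).trans (Finset.sum_le_sum fun d hd => ?_)
  rw [Int.natAbs_mul]
  refine Nat.mul_le_mul_left _ ?_
  have h1 : (∏ i, y i ^ d i).natAbs = ∏ i, (y i).natAbs ^ d i := by
    rw [← Int.natAbsHom_apply, map_prod]
    refine Finset.prod_congr rfl fun i _ => ?_
    rw [Int.natAbsHom_apply, Int.natAbs_pow]
  rw [h1]
  have h2 : ∏ i, (y i).natAbs ^ d i ≤ ∏ i : Fin q, H ^ d i :=
    Finset.prod_le_prod' fun i _ => Nat.pow_le_pow_left (hy i) _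
  refine h2.trans ?_
  rw [Finset.prod_pow_eq_pow_sum]
  refine Nat.pow_le_pow_right hH ?_
  have h3 := le_totalDegree hd
  rw [Finsupp.sum_fintype _ _ (fun _ => rfl)] at h3
  exact h3

private theorem SDT_sum_le {ι : Type} (s : Finset ι) (g t : ι → ℕ) (H : ℕ) (hH : 1 ≤ H) :
    ∑ u ∈ s, g u * H ^ t u ≤ (∑ u ∈ s, g u + ∑ u ∈ s, t u) * H ^ (∑ u ∈ s, g u + ∑ u ∈ s, t u) := by
  have h1 : ∑ u ∈ s, g u * H ^ t u ≤ ∑ u ∈ s, g u * H ^ (∑ u ∈ s, g u + ∑ u ∈ s, t u) := by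
    refine Finset.sum_le_sum fun u hu => Nat.mul_le_mul_left _ (Nat.pow_le_pow_right hH ?_)
    have := Finset.single_le_sum (f := t) (fun i _ => Nat.zero_le _) hu
    omega
  rw [← Finset.sum_mul] at h1
  exact h1.trans (Nat.mul_le_mul_right _ (Nat.le_add_right _ _))

private theorem SDT_le {c c₁ H : ℕ} (hH : 1 ≤ H) (h : c ≤ c₁) : c * H ^ c ≤ c₁ * H ^ c₁ :=
  Nat.mul_le_mul h (Nat.pow_le_pow_right hH h)

private theorem SDT_abs (τ : ℚ) : (τ.den : ℚ) * |τ| = (τ.num.natAbs : ℚ) := by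
  have h1 : (τ.den : ℚ) * τ = (τ.num : ℚ) := by
    rw [mul_comm]
    exact Rat.mul_den_eq_num τ
  have h2 : |(τ.den : ℚ) * τ| = |(τ.num : ℚ)| := by rw [h1]
  rw [abs_mul, Nat.abs_cast, ← Int.cast_abs, Int.abs_eq_natAbs, Int.cast_natCast] at h2
  exact h2

private theorem SDT_deg {m : ℕ} {R S : Type} [CommRing R] [CommRing S] (f : R →+* S)
    (p : MvPolynomial (Fin m) R) : (map f p).totalDegree ≤ p.totalDegree :=
  Finset.sup_mono (support_map_subset f p)

private theorem SDT_spC {q n : ℕ} (y : Fin q → ℤ) (c : CD n (MvPolynomial (Fin q) ℤ)) :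
    spC y c = (c.map (eval y)).map (Int.castRingHom ℚ) := by
  unfold spC CD.map
  simp only [MvPolynomial.map_map]

/-- The norm of a specialization. Proof: as `exists_l1I_spec` (PP/SB.lean): `nW (map cast p) = ∑ |coeff| 4 ^ |m|`. -/
theorem exists_nW_spec {q n : ℕ} (G : PF q n) : ∃ c : ℕ, ∀ (y : Fin q → ℤ) (H : ℕ), 1 ≤ H →
    (∀ i, (y i).natAbs ≤ H) → nW (spP y G) ≤ ((c * H ^ c : ℕ) : ℚ) := by
  refine ⟨∑ u ∈ G.support, l1I (coeff u G) * 4 ^ (∑ i, u i) +
    ∑ u ∈ G.support, (coeff u G).totalDegree, fun y H hH hy => ?_⟩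
  refine le_trans ?_ (Nat.cast_le.2 (SDT_sum_le G.support
    (fun u => l1I (coeff u G) * 4 ^ (∑ i, u i)) (fun u => (coeff u G).totalDegree) H hH))
  unfold nW spP
  refine (Finset.sum_le_sum_of_subset_of_nonneg (support_map_subset _ G)
    (fun _ _ _ => by positivity)).trans ?_
  rw [Nat.cast_sum]
  refine Finset.sum_le_sum fun u _ => ?_
  rw [coeff_map, RingHom.comp_apply, eq_intCast, ← Int.cast_abs, Int.abs_eq_natAbs,
    Int.cast_natCast]
  have h2 : ((eval y (coeff u G)).natAbs : ℚ) ≤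
      ((l1I (coeff u G) * H ^ (coeff u G).totalDegree : ℕ) : ℚ) :=
    Nat.cast_le.2 (SDT_eval_le (coeff u G) y H hH hy)
  refine (mul_le_mul_of_nonneg_right h2 (by positivity)).trans (le_of_eq ?_)
  push_cast
  ring

/-- Proof: as `stratum` (PP/SD.lean), with `family_baseT`, `exists_GDataT` (for the integral chart `c.map (eval y)`; total degrees do not increase under `map`), `exists_nW_spec` for the `p l`, `q l`, `s` of the chart and the `G j`,
`good_of_relationsT`; the condition `Small (spC y c) |τ|`: `|τ| * 16 L ≤ 1` (take `c₁` large in `arith_combine`: `2 * (c₁ * H ^ c₁) * a < b` with `8 L ≤ c₁ * H ^ c₁`). -/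
theorem stratumT {q n : ℕ} {c : CD n (MvPolynomial (Fin q) ℤ)} (hc : c.Ok)
    (I : Ideal (MvPolynomial (Fin q) ℚ)) [I.IsPrime] :
    ∃ (h : MvPolynomial (Fin q) ℚ) (N : ℕ), h ∉ I ∧ 1 ≤ N ∧ ∀ (y : Fin q → ℤ) (H : ℕ), 1 ≤ H →
      (∀ i, (y i).natAbs ≤ H) → (∀ f ∈ I, evQ y f = 0) → evQ y h ≠ 0 →
      ∀ τ : ℚ, τ ≠ 0 → N * (H * τ.num.natAbs) ^ N ≤ τ.den → GoodT (spC y c) τ := by
  obtain ⟨h, r, G, κ, T, e₀, hh, hTe, hfam⟩ := family_baseT hc I
  obtain ⟨A, hA⟩ : ∃ A : Fin (r + 1) → PF q n, A = Fin.cons 1 G := ⟨_, rfl⟩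
  obtain ⟨κ', hκ'⟩ : ∃ κ' : Fin (r + 1) → ℕ, κ' = Fin.cons 0 κ := ⟨_, rfl⟩
  have hA0 : A 0 = 1 := by rw [hA]; rfl
  have hAs : ∀ i : Fin r, A i.succ = G i := fun i => by rw [hA]; rfl
  have hκ0 : κ' 0 = 0 := by rw [hκ']; rfl
  have hκs : ∀ i : Fin r, κ' i.succ = κ i := fun i => by rw [hκ']; rfl
  choose cA hcA using fun j => exists_nW_spec (A j)
  choose cp hcp using fun l => exists_nW_spec (c.p l)
  choose cq hcq using fun l => exists_nW_spec (c.q l)
  obtain ⟨cs, hcs⟩ := exists_nW_spec c.s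
  obtain ⟨cT, hcT⟩ := exists_l1_spT T
  obtain ⟨e, he⟩ : ∃ e, e = e₀ + ∑ l, (c.p l).totalDegree + ∑ l, (c.q l).totalDegree +
    c.s.totalDegree + ∑ j, (A j).totalDegree := ⟨_, rfl⟩
  obtain ⟨κ0, hκ00⟩ : ∃ κ0, κ0 = ∑ j, κ' j := ⟨_, rfl⟩
  obtain ⟨c₀, hc1, hc0⟩ := exists_GDataT n (r + 1) e κ0
  obtain ⟨c₂, hc₂⟩ : ∃ c₂, c₂ = ∑ l, cp l + ∑ l, cq l + cs + ∑ j, cA j + cT + 1 := ⟨_, rfl⟩
  obtain ⟨c₁, hc₁⟩ : ∃ c₁, c₁ = 8 * c₂ := ⟨_, rfl⟩
  obtain ⟨N₀, hN₀, hval⟩ := values_relations r e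
  obtain ⟨N, hN1, hN⟩ := arith_combine N₀ c₀ c₁
  refine ⟨h, N, hh, hN1, fun y H hH hy hI hhy τ hτ hb => ?_⟩
  obtain ⟨hTne, ⟨B, hBdeg, hBsys⟩, hspan⟩ := hfam y hI hhy
  have ha : 1 ≤ τ.num.natAbs := by
    rw [Nat.one_le_iff_ne_zero, Ne, Int.natAbs_eq_zero]
    exact fun h => hτ (Rat.num_eq_zero.1 h)
  obtain ⟨hN1', hN2'⟩ := hN H τ.num.natAbs τ.den hH ha hb
  obtain ⟨L, hL⟩ : ∃ L, L = c₁ * H ^ c₁ := ⟨_, rfl⟩
  rw [← hL] at hN1' hN2'
  obtain ⟨L', hL'⟩ : ∃ L', L' = c₂ * H ^ c₂ := ⟨_, rfl⟩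
  have h8 : 8 * L' ≤ L := by
    rw [hL, hL', hc₁, ← mul_assoc]
    exact Nat.mul_le_mul_left _ (Nat.pow_le_pow_right hH (by omega))
  have hL1' : 1 ≤ L' := by
    rw [hL']
    exact Nat.mul_pos (by omega) (Nat.pow_pos hH)
  have hL1 : 1 ≤ L := by omega
  have hL1c : (L' : ℚ) ≤ (L : ℚ) := Nat.cast_le.2 (by omega)
  have h8q : (8 : ℚ) * (L' : ℚ) ≤ (L : ℚ) := by exact_mod_cast h8
  have hpL : ∀ l, nW (spP y (c.p l)) ≤ (L' : ℚ) := by
    intro l
    refine (hcp l y H hH hy).trans (Nat.cast_le.2 ?_)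
    rw [hL']
    refine SDT_le hH ?_
    have := Finset.single_le_sum (f := cp) (fun i _ => Nat.zero_le _) (Finset.mem_univ l)
    omega
  have hqL : ∀ l, nW (spP y (c.q l)) ≤ (L' : ℚ) := by
    intro l
    refine (hcq l y H hH hy).trans (Nat.cast_le.2 ?_)
    rw [hL']
    refine SDT_le hH ?_
    have := Finset.single_le_sum (f := cq) (fun i _ => Nat.zero_le _) (Finset.mem_univ l)
    omega
  have hsL : nW (spP y c.s) ≤ (L' : ℚ) := by
    refine (hcs y H hH hy).trans (Nat.cast_le.2 ?_)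
    rw [hL']
    exact SDT_le hH (by omega)
  have hAL : ∀ j, nW (spP y (A j)) ≤ (L' : ℚ) := by
    intro j
    refine (hcA j y H hH hy).trans (Nat.cast_le.2 ?_)
    rw [hL']
    refine SDT_le hH ?_
    have := Finset.single_le_sum (f := cA) (fun i _ => Nat.zero_le _) (Finset.mem_univ j)
    omega
  have hTL : l1 (spT y T) ≤ ((L : ℕ) : ℤ) := by
    refine (hcT y H hH hy).trans (Int.ofNat_le.2 ?_)
    rw [hL]
    exact SDT_le hH (by omega)
  have hpdeg : ∀ l, (map (eval y) (c.p l)).totalDegree ≤ e := by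
    intro l
    refine (SDT_deg (eval y) (c.p l)).trans ?_
    have := Finset.single_le_sum (f := fun l => (c.p l).totalDegree) (fun i _ => Nat.zero_le _)
      (Finset.mem_univ l)
    rw [he]
    omega
  have hqdeg : ∀ l, (map (eval y) (c.q l)).totalDegree ≤ e := by
    intro l
    refine (SDT_deg (eval y) (c.q l)).trans ?_
    have := Finset.single_le_sum (f := fun l => (c.q l).totalDegree) (fun i _ => Nat.zero_le _)
      (Finset.mem_univ l)
    rw [he]
    omega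
  have hsdeg : (map (eval y) c.s).totalDegree ≤ e := by
    refine (SDT_deg (eval y) c.s).trans ?_
    rw [he]
    omega
  have hAdeg : ∀ j, (map (eval y) (A j)).totalDegree ≤ e := by
    intro j
    refine (SDT_deg (eval y) (A j)).trans ?_
    have := Finset.single_le_sum (f := fun j => (A j).totalDegree) (fun i _ => Nat.zero_le _)
      (Finset.mem_univ j)
    rw [he]
    omega
  have hκle : ∀ j, κ' j ≤ κ0 := by
    intro j
    rw [hκ00]
    exact Finset.single_le_sum (f := κ') (fun i _ => Nat.zero_le _) (Finset.mem_univ j)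
  obtain ⟨d, hG⟩ := hc0 (c.map (eval y)) (fun j => map (eval y) (A j)) κ' L hL1
    hpdeg hqdeg hsdeg hAdeg hκle
    (fun l => by
      have h1 := (hpL l).trans hL1c
      rw [spP_eq] at h1
      exact h1)
    (fun l => by
      have h1 := (hqL l).trans hL1c
      rw [spP_eq] at h1
      exact h1)
    (by
      have h1 := hsL.trans hL1c
      rw [spP_eq] at h1
      exact h1)
    (fun j => by
      have h1 := (hAL j).trans hL1c
      rw [spP_eq] at h1
      exact h1)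
  obtain ⟨Y, hY⟩ : ∃ Y : Fin (r + 1) → PowerSeries ℚ,
      Y = fun i => PhiT (spC y c) (spP y (A i)) (κ' i) := ⟨_, rfl⟩
  have hYi : ∀ i, Y i = PhiT (spC y c) (spP y (A i)) (κ' i) := fun i => by rw [hY]
  have hGY : GData Y (c₀ * L ^ c₀) d := by
    have e1 : Y = fun i => PhiT ((c.map (eval y)).map (Int.castRingHom ℚ))
        (map (Int.castRingHom ℚ) (map (eval y) (A i))) (κ' i) := by
      funext i
      rw [hYi, spP_eq, SDT_spC]
    rw [e1]
    exact hG
  have hY0 : Y 0 = 1 := by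
    rw [hYi, hA0, hκ0, map_one, PhiT_one]
  have hden : (0 : ℚ) < (τ.den : ℚ) := Nat.cast_pos.2 τ.den_pos
  have hsmall : (2 : ℚ) * L * |τ| < 1 := by
    have h1 := SDT_abs τ
    have h2 : (2 : ℚ) * L * (τ.num.natAbs : ℚ) < (τ.den : ℚ) := by exact_mod_cast hN2'
    rw [← h1] at h2
    have h3 : (τ.den : ℚ) * (2 * L * |τ|) < (τ.den : ℚ) * 1 := by
      rw [mul_one]
      refine lt_of_eq_of_lt ?_ h2
      ring
    exact lt_of_mul_lt_mul_left h3 hden.le
  have hL1q : (1 : ℚ) ≤ (L : ℚ) := by exact_mod_cast hL1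
  have hτ0 : (0 : ℚ) ≤ |τ| := abs_nonneg τ
  have hτ1 : |τ| ≤ 1 := by nlinarith
  have hTτ : ((spT y T).map (Int.castRingHom ℚ)).eval τ ≠ 0 := by
    refine eval_ne_zero_small _ hTne τ hτ ?_
    have h1 : (l1 (spT y T) : ℚ) ≤ (L : ℚ) := by exact_mod_cast hTL
    have h2 := mul_le_mul_of_nonneg_right h1 hτ0
    nlinarith
  have h16 : (L' : ℚ) * |τ| ≤ 1 / 16 := by
    have h1 := mul_le_mul_of_nonneg_right h8q hτ0
    linarith
  have hw : Small (spC y c) |τ| := by
    refine ⟨hτ0, hτ1, fun l => ?_, ?_⟩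
    · have h1 : nW ((spC y c).p l) ≤ (L' : ℚ) := hpL l
      have h2 : nW ((spC y c).q l) ≤ (L' : ℚ) := hqL l
      have h3 := mul_le_mul_of_nonneg_left (add_le_add h1 h2) hτ0
      linarith
    · have h1 : nW (spC y c).s ≤ (L' : ℚ) := hsL
      have h3 := mul_le_mul_of_nonneg_left h1 hτ0
      linarith
  obtain ⟨B', hB'⟩ : ∃ B' : Fin (r + 1) → Fin (r + 1) → Polynomial ℚ,
      B' = Fin.cons (fun _ => 0) (fun i => Fin.cons 0 (B i)) := ⟨_, rfl⟩
  have hB0 : ∀ j, B' 0 j = 0 := fun j => by rw [hB']; rfl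
  have hBs0 : ∀ i : Fin r, B' i.succ 0 = 0 := fun i => by rw [hB']; rfl
  have hBss : ∀ i j : Fin r, B' i.succ j.succ = B i j := fun i j => by rw [hB']; rfl
  have hTdeg : ((spT y T).map (Int.castRingHom ℚ)).natDegree ≤ e := by
    refine Polynomial.natDegree_map_le.trans ?_
    refine (Polynomial.natDegree_map_le (f := eval y) (p := T)).trans (hTe.trans ?_)
    rw [he]
    omega
  have hBdeg' : ∀ i j, (B' i j).natDegree ≤ e := by
    intro i j
    induction i using Fin.cases with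
    | zero => rw [hB0, Polynomial.natDegree_zero]; exact Nat.zero_le _
    | succ i =>
      induction j using Fin.cases with
      | zero => rw [hBs0, Polynomial.natDegree_zero]; exact Nat.zero_le _
      | succ j =>
        rw [hBss]
        refine (hBdeg i j).trans ?_
        rw [he]
        omega
  have hsys : ∀ i, (((spT y T).map (Int.castRingHom ℚ) : Polynomial ℚ) : PowerSeries ℚ) *
      PowerSeries.derivative ℚ (Y i) = ∑ j, (B' i j : PowerSeries ℚ) * Y j := by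
    intro i
    induction i using Fin.cases with
    | zero =>
      rw [hY0, Derivation.map_one_eq_zero, mul_zero]
      symm
      refine Finset.sum_eq_zero fun j _ => ?_
      rw [hB0, Polynomial.coe_zero, zero_mul]
    | succ i =>
      rw [Fin.sum_univ_succ, hBs0, Polynomial.coe_zero, zero_mul, zero_add, hYi, hAs, hκs, hBsys]
      refine Finset.sum_congr rfl fun j _ => ?_
      rw [hBss, hYi, hAs, hκs]
  have hrel := hval (c₀ * L ^ c₀) L d (spT y T) B' Y hY0 hGY hL1 hTL hB0 hTdeg hBdeg' hsys τ hτ hTτ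
    (hN1' (c₀ * L ^ c₀) L le_rfl le_rfl)
  refine good_of_relationsT (spC y c) (fun i => spP y (A i)) κ' ?_ τ hw ?_
  · intro F K
    obtain ⟨c', a, hc', hca⟩ := hspan F K
    refine ⟨c', Fin.cons 0 a, hc', ?_⟩
    rw [Fin.sum_univ_succ, Fin.cons_zero, Polynomial.coe_zero, zero_mul, zero_add, hca]
    refine Finset.sum_congr rfl fun j _ => ?_
    rw [Fin.cons_succ, hAs, hκs]
  · intro lam hlam
    have h1 := hrel lam (by
      rw [← hlam]
      refine Finset.sum_congr rfl fun i _ => ?_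
      rw [hYi])
    obtain ⟨b, hb1, hb2⟩ := h1
    refine ⟨b, ?_, hb2⟩
    rw [← hb1]
    refine Finset.sum_congr rfl fun i _ => ?_
    rw [hYi]

/-- Proof: as `uniform_good` (PP/SD.lean), Noetherian induction. -/
theorem uniform_goodT {q n : ℕ} {c : CD n (MvPolynomial (Fin q) ℤ)} (hc : c.Ok) :
    ∃ N : ℕ, 1 ≤ N ∧ ∀ (y : Fin q → ℤ) (H : ℕ), 1 ≤ H → (∀ i, (y i).natAbs ≤ H) →
      ∀ τ : ℚ, τ ≠ 0 → N * (H * τ.num.natAbs) ^ N ≤ τ.den → GoodT (spC y c) τ := by
  have hmono : ∀ N₁ N H a b : ℕ, N₁ ≤ N → 1 ≤ H → 1 ≤ a → N * (H * a) ^ N ≤ b →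
      N₁ * (H * a) ^ N₁ ≤ b := by
    intro N₁ N H a b h1 hH ha hb
    exact (Nat.mul_le_mul h1 (Nat.pow_le_pow_right (Nat.mul_pos hH ha) h1)).trans hb
  have key : ∀ I : Ideal (MvPolynomial (Fin q) ℚ), ∃ N : ℕ, 1 ≤ N ∧ ∀ (y : Fin q → ℤ) (H : ℕ),
      1 ≤ H → (∀ i, (y i).natAbs ≤ H) → (∀ f ∈ I, evQ y f = 0) →
      ∀ τ : ℚ, τ ≠ 0 → N * (H * τ.num.natAbs) ^ N ≤ τ.den → GoodT (spC y c) τ := by
    intro I
    induction I using WellFoundedGT.induction with
    | ind I ih =>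
      by_cases htop : I = ⊤
      · refine ⟨1, le_rfl, fun y H hH hy hI => ?_⟩
        have h1 := hI 1 (by rw [htop]; exact Submodule.mem_top)
        rw [map_one] at h1
        exact absurd h1 one_ne_zero
      · by_cases hprime : I.IsPrime
        · obtain ⟨h, N₁, hh, hN₁, h1⟩ := stratumT hc I
          have hlt : I < I ⊔ Ideal.span {h} := by
            refine lt_of_le_of_ne le_sup_left fun heq => hh ?_
            rw [heq]
            exact (le_sup_right : Ideal.span {h} ≤ _) (Ideal.subset_span rfl)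
          obtain ⟨N₂, hN₂, h2⟩ := ih _ hlt
          refine ⟨max N₁ N₂, le_max_of_le_left hN₁, fun y H hH hy hI τ hτ hb => ?_⟩
          have ha : 1 ≤ τ.num.natAbs := by
            rw [Nat.one_le_iff_ne_zero, Ne, Int.natAbs_eq_zero]
            exact fun h => hτ (Rat.num_eq_zero.1 h)
          by_cases hhy : evQ y h = 0
          · refine h2 y H hH hy (fun f hf => ?_) τ hτ
              (hmono _ _ _ _ _ (le_max_right N₁ N₂) hH ha hb)
            have h3 : I ⊔ Ideal.span {h} ≤ RingHom.ker (evQ y) := by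
              refine sup_le (fun f hf => hI f hf) ?_
              rw [Ideal.span_le]
              rintro _ rfl
              exact hhy
            exact h3 hf
          · exact h1 y H hH hy hI hhy τ hτ (hmono _ _ _ _ _ (le_max_left N₁ N₂) hH ha hb)
        · obtain ⟨a, b, hab, ha, hb⟩ : ∃ a b, a * b ∈ I ∧ a ∉ I ∧ b ∉ I := by
            by_contra hcon
            push Not at hcon
            refine hprime ⟨htop, fun {a b} hab => ?_⟩
            by_cases ha : a ∈ I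
            · exact Or.inl ha
            · exact Or.inr (hcon a b hab ha)
          have hlt : ∀ f : MvPolynomial (Fin q) ℚ, f ∉ I → I < I ⊔ Ideal.span {f} := by
            intro f hf
            refine lt_of_le_of_ne le_sup_left fun heq => hf ?_
            rw [heq]
            exact (le_sup_right : Ideal.span {f} ≤ _) (Ideal.subset_span rfl)
          obtain ⟨N₁, hN₁, h1⟩ := ih _ (hlt a ha)
          obtain ⟨N₂, hN₂, h2⟩ := ih _ (hlt b hb)
          refine ⟨max N₁ N₂, le_max_of_le_left hN₁, fun y H hH hy hI τ hτ hbb => ?_⟩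
          have haa : 1 ≤ τ.num.natAbs := by
            rw [Nat.one_le_iff_ne_zero, Ne, Int.natAbs_eq_zero]
            exact fun h => hτ (Rat.num_eq_zero.1 h)
          have hker : ∀ g : MvPolynomial (Fin q) ℚ, evQ y g = 0 →
              ∀ f ∈ I ⊔ Ideal.span {g}, evQ y f = 0 := by
            intro g hg f hf
            have h3 : I ⊔ Ideal.span {g} ≤ RingHom.ker (evQ y) := by
              refine sup_le (fun f hf => hI f hf) ?_
              rw [Ideal.span_le]
              rintro _ rfl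
              exact hg
            exact h3 hf
          have h4 := hI _ hab
          rw [map_mul, mul_eq_zero] at h4
          rcases h4 with h4 | h4
          · exact h1 y H hH hy (hker a h4) τ hτ (hmono _ _ _ _ _ (le_max_left N₁ N₂) hH haa hbb)
          · exact h2 y H hH hy (hker b h4) τ hτ (hmono _ _ _ _ _ (le_max_right N₁ N₂) hH haa hbb)
  obtain ⟨N, hN, h1⟩ := key ⊥
  refine ⟨N, hN, fun y H hH hy τ hτ hb => h1 y H hH hy (fun f hf => ?_) τ hτ hb⟩
  rw [Ideal.mem_bot] at hf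
  rw [hf, map_zero]

end Pool.Agent.Lib.MP_bbe012_lc.PT
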