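import Pool.Agent.Lib.MP_bbe012_lc.PT.KT3
import Pool.Agent.Lib.MP_bbe012_lc.PT.CDex
import Pool.Agent.Lib.MP_bbe012_lc.PT.PhiT
import Pool.Agent.Lib.MP_bbe012_lc.PP.KH2

/-!
# Stage 3: specialization; the basis of a family of charts
-/

namespace Pool.Agent.Lib.MP_bbe012_lc.PT

open MvPolynomial Pool.Agent.Lib.MP_bbe012_lc.PP

/-- The member of a family of charts with parameter `y`. -/
noncomputable def spC {q n : ℕ} (y : Fin q → ℤ) (c : CD n (MvPolynomial (Fin q) ℤ)) : CD n ℚ :=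
  c.map ((Int.castRingHom ℚ).comp (eval y))

private theorem spt_inT {n : ℕ} {D : Type} [CommRing D] (ε : D →+* ℚ) (p : Polynomial D) :
    map ε (inTD n D p) = inT n (p.map ε) := by
  have h : (map ε).comp (inTD n D) = (inT n).comp (Polynomial.mapRingHom ε) := by
    apply Polynomial.ringHom_ext
    · intro a
      show map ε (Polynomial.aeval (X 0 : MvPolynomial (Fin (n + 1)) D) (Polynomial.C a)) =
        Polynomial.aeval (X 0 : P1 n) ((Polynomial.C a).map ε)
      rw [Polynomial.aeval_C, Polynomial.map_C, Polynomial.aeval_C, algebraMap_eq, map_C,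
        algebraMap_eq]
    · show map ε (Polynomial.aeval (X 0 : MvPolynomial (Fin (n + 1)) D) Polynomial.X) =
        Polynomial.aeval (X 0 : P1 n) (Polynomial.X.map ε)
      rw [Polynomial.aeval_X, Polynomial.map_X, Polynomial.aeval_X, map_X]
  exact RingHom.congr_fun h p

private theorem spt_ev {q : ℕ} (y : Fin q → ℤ) :
    (Int.castRingHom ℚ).comp (eval y) = (evQ y).comp (map (Int.castRingHom ℚ)) := by
  refine MvPolynomial.ringHom_ext (fun a => ?_) (fun i => ?_)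
  · rw [RingHom.comp_apply, RingHom.comp_apply, eval_C, map_C, evQ, eval_C]
  · rw [RingHom.comp_apply, RingHom.comp_apply, eval_X, map_X, evQ, eval_X, eq_intCast]

private theorem spt_inT_C (n : ℕ) (a : ℚ) : inT n (Polynomial.C a) = C a := by
  unfold inT
  change Polynomial.aeval (X 0 : P1 n) (Polynomial.C a) = C a
  rw [Polynomial.aeval_C]
  rfl

private theorem spt_PhiT_C {n : ℕ} (c : CD n ℚ) (G : TP n ℚ) (a : ℚ) (K : ℕ) :
    PhiT c (C a * G) K = ((Polynomial.C a : Polynomial ℚ) : PowerSeries ℚ) * PhiT c G K := by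
  rw [← spt_inT_C, PhiT_inT_mul]

private theorem spt_map_map {n : ℕ} {R R' R'' : Type} [CommRing R] [CommRing R'] [CommRing R'']
    (f : R →+* R') (g : R' →+* R'') (c : CD n R) : (c.map f).map g = c.map (g.comp f) := by
  unfold CD.map
  simp only [MvPolynomial.map_map]

/-- Proof: as `Phi_of_reduction` (PP/KH.lean), with `map_divT`, `PhiT_divT`, `map_ok`. -/
theorem PhiT_of_reduction {n : ℕ} {D : Type} [CommRing D] (ε : D →+* ℚ) {c : CD n D} (hc : c.Ok)
    {r : ℕ} {w : D} {ρ : Polynomial D} {e : Fin r → TP n D} {κ : Fin r → ℕ} {G : TP n D} {K m N : ℕ}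
    {a : Fin r → Polynomial D} {g : Fin n → TP n D} (hK : K ≤ N + 4) (hκ : ∀ k, κ k ≤ N + 4)
    (h : C w ^ (N + 4) * inTD n D ρ ^ m * (G * c.Q ^ (N + 4 - K)) =
      ∑ k, inTD n D (a k) * (e k * c.Q ^ (N + 4 - κ k)) + c.divT N g) :
    ((Polynomial.C (ε w) ^ (N + 4) * (ρ.map ε) ^ m : Polynomial ℚ) : PowerSeries ℚ) *
        PhiT (c.map ε) (map ε G) K =
      ∑ k, ((a k).map ε : PowerSeries ℚ) * PhiT (c.map ε) (map ε (e k)) (κ k) := by
  have h1 := congrArg (map ε) h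
  rw [map_mul, map_mul, map_pow, map_pow, map_C, spt_inT, map_mul, map_pow, map_add, ← map_divT,
    map_sum, ← spt_inT_C n (ε w), ← map_pow (inT n), ← map_pow (inT n), ← map_mul (inT n)] at h1
  have h2 := congrArg (fun P => PhiT (c.map ε) P (N + 4)) h1
  change PhiT (c.map ε) _ (N + 4) = PhiT (c.map ε) _ (N + 4) at h2
  rw [PhiT_add, PhiT_divT (map_ok ε hc), add_zero, PhiT_sum, PhiT_inT_mul] at h2
  have h3 : ∀ (G' : TP n ℚ) (J : ℕ), J ≤ N + 4 →
      PhiT (c.map ε) (G' * (map ε c.Q) ^ (N + 4 - J)) (N + 4) = PhiT (c.map ε) G' J := by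
    intro G' J hJ
    have h4 := PhiT_shift (c.map ε) G' J (N + 4 - J)
    rwa [Nat.add_sub_of_le hJ, map_Q] at h4
  rw [h3 _ _ hK] at h2
  rw [h2]
  refine Finset.sum_congr rfl fun k _ => ?_
  rw [map_mul, map_mul, map_pow, spt_inT, PhiT_inT_mul, h3 _ _ (hκ k)]

private theorem spt_core {q n : ℕ} {c : CD n (MvPolynomial (Fin q) ℤ)} (hc : c.Ok)
    {D : Type} [CommRing D] [IsDomain D] [Algebra ℚ D] [Algebra.FiniteType ℚ D]
    (π : MvPolynomial (Fin q) ℚ →+* D) (hπ : Function.Surjective π) :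
    ∃ (h : MvPolynomial (Fin q) ℚ) (r : ℕ) (G : Fin r → PF q n) (κ : Fin r → ℕ)
      (T : Polynomial (MvPolynomial (Fin q) ℤ)) (e : ℕ), π h ≠ 0 ∧ T.natDegree ≤ e ∧
      ∀ (y : Fin q → ℤ) (ε : D →+* ℚ), (∀ f, ε (π f) = evQ y f) → evQ y h ≠ 0 →
        spT y T ≠ 0 ∧
        (∃ B : Fin r → Fin r → Polynomial ℚ, (∀ i j, (B i j).natDegree ≤ e) ∧
          ∀ i, ((((spT y T).map (Int.castRingHom ℚ) : Polynomial ℚ)) : PowerSeries ℚ) *
            PowerSeries.derivative ℚ (PhiT (spC y c) (spP y (G i)) (κ i)) =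
              ∑ j, (B i j : PowerSeries ℚ) * PhiT (spC y c) (spP y (G j)) (κ j)) ∧
        ∀ (F : TP n ℚ) (K : ℕ), ∃ (c' : Polynomial ℚ) (a : Fin r → Polynomial ℚ), c' ≠ 0 ∧
          (c' : PowerSeries ℚ) * PhiT (spC y c) F K =
            ∑ j, (a j : PowerSeries ℚ) * PhiT (spC y c) (spP y (G j)) (κ j) := by
  obtain ⟨cD, hcD⟩ : ∃ cD : CD n D, cD = c.map (π.comp (map (Int.castRingHom ℚ))) := ⟨_, rfl⟩
  have hok : cD.Ok := by
    rw [hcD]
    exact map_ok _ hc
  obtain ⟨w, ρ, r, e, κ, hw, hρ, hred⟩ := family_reductionT hok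
  choose m N a g hK hκ hid using fun i : Fin r => hred (cD.numT (κ i) (e i)) (κ i + 2)
  obtain ⟨M0, hM0⟩ : ∃ M0, M0 = ∑ i, m i := ⟨_, rfl⟩
  obtain ⟨A, hA⟩ : ∃ A, A = ∑ i, (N i + 4) := ⟨_, rfl⟩
  have hmle : ∀ i, m i ≤ M0 := by
    intro i
    rw [hM0]
    exact Finset.single_le_sum (f := m) (fun _ _ => Nat.zero_le _) (Finset.mem_univ i)
  have hNle : ∀ i, N i + 4 ≤ A := by
    intro i
    rw [hA]
    exact Finset.single_le_sum (f := fun i => N i + 4) (fun _ _ => Nat.zero_le _) (Finset.mem_univ i)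
  obtain ⟨T0, hT0⟩ : ∃ T0 : Polynomial D, T0 = Polynomial.C w ^ A * ρ ^ M0 := ⟨_, rfl⟩
  obtain ⟨a', ha'⟩ : ∃ a' : Fin r → Fin r → Polynomial D, a' = fun i k =>
      Polynomial.C w ^ (A - (N i + 4)) * ρ ^ (M0 - m i) * a i k := ⟨_, rfl⟩
  obtain ⟨h, hh⟩ := hπ (w * ρ.leadingCoeff)
  have hlc : w * ρ.leadingCoeff ≠ 0 := mul_ne_zero hw (Polynomial.leadingCoeff_ne_zero.2 hρ)
  choose F hF using fun k => MvPolynomial.map_surjective (σ := Fin (n + 1)) π hπ (e k)
  choose Mk G hMk hG using fun k => exists_lift_mv (F k)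
  obtain ⟨FT, hFT⟩ := Polynomial.map_surjective π hπ T0
  obtain ⟨MT, T, hMT, hT⟩ := exists_lift_poly FT
  refine ⟨h, r, G, κ, T, T.natDegree + ∑ i, ∑ k, (a' i k).natDegree, ?_, Nat.le_add_right _ _, ?_⟩
  · rw [hh]
    exact hlc
  intro y ε hε hhy
  have hmapε : ∀ f : MvPolynomial (Fin (n + 1)) (MvPolynomial (Fin q) ℚ),
      map ε (map π f) = map (evQ y) f := by
    intro f
    rw [map_map]
    congr 2
    exact RingHom.ext hε
  have hcy : cD.map ε = spC y c := by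
    rw [hcD, spt_map_map, spC, ← RingHom.comp_assoc]
    have h1 : ε.comp π = evQ y := RingHom.ext hε
    rw [h1, ← spt_ev]
  have hGy : ∀ k, spP y (G k) = C ((Mk k : ℕ) : ℚ) * map ε (e k) := by
    intro k
    rw [spP_eq', hG, map_mul, map_C, ← hmapε, hF]
    congr 2
    unfold evQ
    rw [eval_C]
  have hεh : ε w * ε ρ.leadingCoeff ≠ 0 := by
    rw [← map_mul, ← hh, hε]
    exact hhy
  have hεw : ε w ≠ 0 := left_ne_zero_of_mul hεh
  have hρε : ρ.map ε ≠ 0 := by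
    intro h1
    have h2 := congrArg (fun p => Polynomial.coeff p ρ.natDegree) h1
    simp only [Polynomial.coeff_map, Polynomial.coeff_zero] at h2
    exact right_ne_zero_of_mul hεh h2
  have hCw : (Polynomial.C (ε w) : Polynomial ℚ) ≠ 0 := Polynomial.C_ne_zero.2 hεw
  have hT0ε : T0.map ε = Polynomial.C (ε w) ^ A * (ρ.map ε) ^ M0 := by
    rw [hT0, Polynomial.map_mul, Polynomial.map_pow, Polynomial.map_pow, Polynomial.map_C]
  have hT0ne : T0.map ε ≠ 0 := by
    rw [hT0ε]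
    exact mul_ne_zero (pow_ne_zero _ hCw) (pow_ne_zero _ hρε)
  have hTy : (spT y T).map (Int.castRingHom ℚ) = Polynomial.C ((MT : ℕ) : ℚ) * T0.map ε := by
    rw [spT_eq', hT, Polynomial.map_mul, Polynomial.map_C, ← hFT, Polynomial.map_map]
    congr 2
    · unfold evQ
      rw [eval_C]
    · exact (RingHom.ext hε).symm
  have hMTq : ((MT : ℕ) : ℚ) ≠ 0 := Nat.cast_ne_zero.2 hMT
  have hMkq : ∀ k, ((Mk k : ℕ) : ℚ) ≠ 0 := fun k => Nat.cast_ne_zero.2 (hMk k)
  obtain ⟨P, hP⟩ : ∃ P : Fin r → PowerSeries ℚ,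
      P = fun k => PhiT (cD.map ε) (map ε (e k)) (κ k) := ⟨_, rfl⟩
  have hPk : ∀ k, PhiT (cD.map ε) (map ε (e k)) (κ k) = P k := fun k => by rw [hP]
  have hGP : ∀ k, PhiT (spC y c) (spP y (G k)) (κ k) =
      ((Polynomial.C ((Mk k : ℕ) : ℚ) : Polynomial ℚ) : PowerSeries ℚ) * P k := by
    intro k
    rw [hGy, spt_PhiT_C, ← hcy, hPk]
  have hPG : ∀ k (b : Polynomial ℚ), (b : PowerSeries ℚ) * P k =
      ((Polynomial.C (((Mk k : ℕ) : ℚ)⁻¹) * b : Polynomial ℚ) : PowerSeries ℚ) *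
        PhiT (spC y c) (spP y (G k)) (κ k) := by
    intro k b
    rw [hGP, ← mul_assoc, ← Polynomial.coe_mul]
    congr 2
    rw [mul_right_comm, ← Polynomial.C_mul, inv_mul_cancel₀ (hMkq k), Polynomial.C_1, one_mul]
  refine ⟨?_, ?_, ?_⟩
  · intro h1
    rw [h1, Polynomial.map_zero] at hTy
    exact mul_ne_zero (Polynomial.C_ne_zero.2 hMTq) hT0ne hTy.symm
  · refine ⟨fun i k => Polynomial.C (((Mk k : ℕ) : ℚ)⁻¹) *
      (Polynomial.C (((MT : ℕ) : ℚ) * ((Mk i : ℕ) : ℚ)) * (a' i k).map ε), fun i k => ?_, fun i => ?_⟩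
    · refine (Polynomial.natDegree_C_mul_le _ _).trans ((Polynomial.natDegree_C_mul_le _ _).trans
        (Polynomial.natDegree_map_le.trans ?_))
      have h1 := Finset.single_le_sum (f := fun k => (a' i k).natDegree) (fun _ _ => Nat.zero_le _)
        (Finset.mem_univ k)
      have h2 := Finset.single_le_sum (f := fun i => ∑ k, (a' i k).natDegree)
        (fun _ _ => Nat.zero_le _) (Finset.mem_univ i)
      exact (h1.trans h2).trans (Nat.le_add_left _ _)
    · have h1 := PhiT_of_reduction ε hok (hK i) (hκ i) (hid i)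
      rw [← map_numT, ← derivative_PhiT (map_ok ε hok), hPk] at h1
      have h2 : ((T0.map ε : Polynomial ℚ) : PowerSeries ℚ) * PowerSeries.derivative ℚ (P i) =
          ∑ k, (((a' i k).map ε : Polynomial ℚ) : PowerSeries ℚ) * P k := by
        have e1 : T0.map ε = (Polynomial.C (ε w) ^ (A - (N i + 4)) * (ρ.map ε) ^ (M0 - m i)) *
            (Polynomial.C (ε w) ^ (N i + 4) * (ρ.map ε) ^ m i) := by
          rw [hT0ε, mul_mul_mul_comm, ← pow_add, ← pow_add, Nat.sub_add_cancel (hNle i),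
            Nat.sub_add_cancel (hmle i)]
        rw [e1, Polynomial.coe_mul, mul_assoc, h1, Finset.mul_sum]
        refine Finset.sum_congr rfl fun k _ => ?_
        rw [hPk, ← mul_assoc, ← Polynomial.coe_mul]
        congr 2
        rw [ha']
        simp only [Polynomial.map_mul, Polynomial.map_pow, Polynomial.map_C]
      have h3 : PowerSeries.derivative ℚ (PhiT (spC y c) (spP y (G i)) (κ i)) =
          ((Polynomial.C ((Mk i : ℕ) : ℚ) : Polynomial ℚ) : PowerSeries ℚ) *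
            PowerSeries.derivative ℚ (P i) := by
        rw [hGP, Polynomial.coe_C, Derivation.leibniz, PowerSeries.derivative_C, smul_zero, add_zero,
          smul_eq_mul]
      rw [h3, hTy]
      have h4 : ((Polynomial.C ((MT : ℕ) : ℚ) * T0.map ε : Polynomial ℚ) : PowerSeries ℚ) *
          (((Polynomial.C ((Mk i : ℕ) : ℚ) : Polynomial ℚ) : PowerSeries ℚ) *
            PowerSeries.derivative ℚ (P i)) =
          ((Polynomial.C (((MT : ℕ) : ℚ) * ((Mk i : ℕ) : ℚ)) : Polynomial ℚ) : PowerSeries ℚ) *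
            (((T0.map ε : Polynomial ℚ) : PowerSeries ℚ) * PowerSeries.derivative ℚ (P i)) := by
        rw [Polynomial.coe_mul, Polynomial.C_mul, Polynomial.coe_mul]
        ring
      rw [h4, h2, Finset.mul_sum]
      refine Finset.sum_congr rfl fun k _ => ?_
      rw [← mul_assoc, ← Polynomial.coe_mul, hPG]
  · intro F' K
    obtain ⟨m', N', b, g', hK', hκ', hid'⟩ := hred (map (algebraMap ℚ D) F') K
    have h1 := PhiT_of_reduction ε hok hK' hκ' hid'
    have h2 : map ε (map (algebraMap ℚ D) F') = F' := by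
      rw [map_map]
      have h3 : ε.comp (algebraMap ℚ D) = RingHom.id ℚ := Subsingleton.elim _ _
      rw [h3, map_id]
    rw [h2] at h1
    refine ⟨Polynomial.C (ε w) ^ (N' + 4) * (ρ.map ε) ^ m',
      fun k => Polynomial.C (((Mk k : ℕ) : ℚ)⁻¹) * (b k).map ε,
      mul_ne_zero (pow_ne_zero _ hCw) (pow_ne_zero _ hρε), ?_⟩
    rw [← hcy, h1, hcy]
    refine Finset.sum_congr rfl fun k _ => ?_
    rw [← hPG, ← hPk, hcy]

/-- Proof: as `family_base` (PP/KH2.lean), with `family_reductionT` for the chart `c.map π` over `D = ℚ[y] ⧸ I`, `PhiT_of_reduction`, `derivative_PhiT` and `map_numT`. -/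
theorem family_baseT {q n : ℕ} {c : CD n (MvPolynomial (Fin q) ℤ)} (hc : c.Ok)
    (I : Ideal (MvPolynomial (Fin q) ℚ)) [I.IsPrime] :
    ∃ (h : MvPolynomial (Fin q) ℚ) (r : ℕ) (G : Fin r → PF q n) (κ : Fin r → ℕ)
      (T : Polynomial (MvPolynomial (Fin q) ℤ)) (e : ℕ), h ∉ I ∧ T.natDegree ≤ e ∧
      ∀ y : Fin q → ℤ, (∀ f ∈ I, evQ y f = 0) → evQ y h ≠ 0 →
        spT y T ≠ 0 ∧
        (∃ B : Fin r → Fin r → Polynomial ℚ, (∀ i j, (B i j).natDegree ≤ e) ∧
          ∀ i, ((((spT y T).map (Int.castRingHom ℚ) : Polynomial ℚ)) : PowerSeries ℚ) *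
            PowerSeries.derivative ℚ (PhiT (spC y c) (spP y (G i)) (κ i)) =
              ∑ j, (B i j : PowerSeries ℚ) * PhiT (spC y c) (spP y (G j)) (κ j)) ∧
        ∀ (F : TP n ℚ) (K : ℕ), ∃ (c' : Polynomial ℚ) (a : Fin r → Polynomial ℚ), c' ≠ 0 ∧
          (c' : PowerSeries ℚ) * PhiT (spC y c) F K =
            ∑ j, (a j : PowerSeries ℚ) * PhiT (spC y c) (spP y (G j)) (κ j) := by
  haveI : IsDomain (MvPolynomial (Fin q) ℚ ⧸ I) := Ideal.Quotient.isDomain I
  haveI : Algebra.FiniteType ℚ (MvPolynomial (Fin q) ℚ ⧸ I) := inferInstance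
  obtain ⟨h, r, G, κ, T, e, hh, hTe, hy⟩ := spt_core hc (Ideal.Quotient.mk I)
    Ideal.Quotient.mk_surjective
  refine ⟨h, r, G, κ, T, e, ?_, hTe, fun y hI hhy => ?_⟩
  · intro h1
    exact hh (Ideal.Quotient.eq_zero_iff_mem.2 h1)
  · exact hy y (Ideal.Quotient.lift I (evQ y) hI) (fun f => Ideal.Quotient.lift_mk I _ _) hhy

end Pool.Agent.Lib.MP_bbe012_lc.PT
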