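import Pool.Agent.Lib.MP_bbe012_lc.PP.RedDefs
import Pool.Agent.Lib.MP_bbe012_lc.PP.ClassDefs
import Pool.Agent.Lib.MP_bbe012_lc.PT.CertT
import Pool.Agent.Lib.MP_bbe012_lc.PT.Liou

/-!
# Stage 3: codes of the charts and of the certificates
-/

namespace Pool.Agent.Lib.MP_bbe012_lc.PT

open MvPolynomial Pool.Agent.Lib.MP_bbe012_lc.PP

/-- Code of a chart: `(((p, q), s), ((C, V), W))`. -/
abbrev CDC := ((List PCode × List PCode) × PCode) × ((List PCode × List (List PCode)) × List PCode)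

def cdP (c : CDC) (l : ℕ) : PCode := c.1.1.1.getD l []
def cdQ (c : CDC) (l : ℕ) : PCode := c.1.1.2.getD l []
def cdS (c : CDC) : PCode := c.1.2
def cdC (c : CDC) (l : ℕ) : PCode := c.2.1.1.getD l []
def cdV (c : CDC) (l j : ℕ) : PCode := (c.2.1.2.getD l []).getD j []
def cdW (c : CDC) (j : ℕ) : PCode := c.2.2.getD j []

/-- The chart with the code `c`. -/
noncomputable def toCD (n : ℕ) (c : CDC) : CD n ℚ where
  p l := pcPoly (n + 1) (cdP c l)
  q l := pcPoly (n + 1) (cdQ c l)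
  s := pcPoly (n + 1) (cdS c)
  C l := pcPoly (n + 1) (cdC c l)
  V l j := pcPoly (n + 1) (cdV c l j)
  W j := pcPoly (n + 1) (cdW c j)

/-- The code of `A_l`. -/
def aC (c : CDC) (l : ℕ) : PCode := pcVar (l + 1) ++ pcMul tC (cdP c l)

/-- The code of `B_l`. -/
def bC (c : CDC) (l : ℕ) : PCode := pcNat 1 ++ pcMul tC (cdQ c l)

/-- The code of `Q`. -/
def qC (c : CDC) : PCode := pcNat 1 ++ pcMul tC (cdS c)

/-- The code of `jac i j`. -/
def jacC (c : CDC) (i j : ℕ) : PCode :=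
  pcMul (bC c i) (pcDer j (aC c i)) ++ pcNeg (pcMul (aC c i) (pcDer j (bC c i)))

/-- The code of `Q ∂_j G - K G ∂_j Q`. -/
def derC (c : CDC) (j K : ℕ) (G : PCode) : PCode :=
  pcMul (qC c) (pcDer j G) ++ pcNeg (pcMul (pcNat K) (pcMul G (pcDer j (qC c))))

/-- The code of `numV`. -/
def numVC (n : ℕ) (c : CDC) (l K : ℕ) (G : PCode) : PCode :=
  pcSumRange n fun j => pcMul (cdV c l j) (derC c (j + 1) K G)

/-- The code of `numT`. -/
def numTC (n : ℕ) (c : CDC) (K : ℕ) (G : PCode) : PCode :=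
  pcMul (qC c) (derC c 0 K G) ++ pcNeg (pcSumRange n fun j => pcMul (cdW c j) (derC c (j + 1) K G))

/-- The code of `Ef`. -/
def efC (c : CDC) (l : ℕ) : PCode :=
  pcMul (pcMul (aC c l) (bC c l ++ pcNeg (aC c l))) (pcMul (cdC c l) (cdC c l))

/-- The code of `divT`. -/
def divTC (n : ℕ) (c : CDC) (K : ℕ) (g : List PCode) : PCode :=
  pcSumRange n fun l => numVC n c l (K + 2) (pcMul (efC c l) (g.getD l []))

/-- The code of `thN`. -/
def thNC (n : ℕ) (c : CDC) (K : ℕ) (S : PCode) (i : ℕ) : PCode :=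
  i.rec S fun i r => pcMul tC (numTC n c (K + 2 * i) r)

/-- The code of `dvW`. -/
def dvWC (n : ℕ) (c : CDC) : PCode :=
  pcSumRange n fun j => pcMul (qC c) (pcDer (j + 1) (cdW c j)) ++ pcNeg (pcMul (cdW c j) (pcDer (j + 1) (qC c)))

/-- The code of `1 + t J`. -/
def jC (J : PCode) : PCode := pcNat 1 ++ pcMul tC J

/-- Verification of the condition `JOk (1 + t J)`. -/
def jokC (n : ℕ) (c : CDC) (J : PCode) : Prop :=
  pcIsZero (n + 1) (numTC n c n (jC J) ++ pcMul (dvWC n c) (jC J))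

instance (n : ℕ) (c : CDC) (J : PCode) : Decidable (jokC n c J) := by unfold jokC; infer_instance

/-- Verification of the condition `Ok`. -/
def okC (n : ℕ) (c : CDC) : Prop :=
  (∀ l ∈ List.range n, pcIsZero (n + 1) (pcMul (bC c l) (cdC c l) ++ pcNeg (qC c))) ∧
    (∀ l ∈ List.range n, ∀ i ∈ List.range n, pcIsZero (n + 1)
      (pcSumRange n (fun j => pcMul (cdV c l j) (jacC c i (j + 1))) ++
        pcNeg (if l = i then pcMul (qC c) (pcMul (bC c i) (bC c i)) else []))) ∧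
    (∀ i ∈ List.range n, pcIsZero (n + 1)
      (pcSumRange n (fun j => pcMul (cdW c j) (jacC c i (j + 1))) ++ pcNeg (pcMul (qC c) (jacC c i 0))))

instance (n : ℕ) (c : CDC) : Decidable (okC n c) := by unfold okC; infer_instance

/-- The sum of the `|c| 4 ^ (sum of the exponents)` over the terms of a code. -/
def nwC (p : PCode) : QCode :=
  p.foldr (fun t acc => qadd (qmul (qabs t.1) (qnat (4 ^ t.2.sum))) acc) (qnat 0)

/-- Verification of the condition `Small`. -/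
def smallC (n : ℕ) (c : CDC) (τ : QCode) : Prop :=
  qleP (qabs τ) (qnat 1) ∧
    (∀ l ∈ List.range n, qleP (qmul (qabs τ) (qadd (nwC (cdP c l)) (nwC (cdQ c l)))) ((1, 0), 7)) ∧
    qleP (qmul (qabs τ) (nwC (cdS c))) ((1, 0), 1)

instance (n : ℕ) (c : CDC) (τ : QCode) : Decidable (smallC n c τ) := by unfold smallC; infer_instance

/-- Powers of coefficient codes. -/
def qpow (c : QCode) (k : ℕ) : QCode := k.rec (qnat 1) fun _ r => qmul c r

/-- The code of the polynomial at `t = τ`. -/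
def evC (τ : QCode) (p : PCode) : PCode :=
  p.map fun t => (qmul t.1 (qpow τ (t.2.getD 0 0)), t.2.drop 1)

/-- The code of `xP n τ G`. -/
def xC (n : ℕ) (τ : QCode) (G : PCode) : PCode := pcShift n n (evC τ G)

/-- The sum of the `|c| 2 ^ (sum of the exponents of index at least n)` over the terms of a code. -/
def nuC (n : ℕ) (p : PCode) : QCode :=
  p.foldr (fun t acc => qadd (qmul (qabs t.1) (qnat (2 ^ (t.2.drop n).sum))) acc) (qnat 0)

/-- Certificate for zero: `((((κ, K'), (ρ, L)), (j, K'')), ((z, a), (g, E)), (H, U))`. -/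
abbrev ZCT := (((ℕ × ℕ) × (ℕ × ℕ)) × (ℕ × ℕ)) × ((List (ℕ × ℕ) × List PCode) × (List PCode × List PCode)) ×
  (PCode × PCode)

/-- Difference of the two sides of `IsZeroT.exact`. -/
def exactTC (n : ℕ) (c : CDC) (S : PCode) (K κ K' ρ : ℕ) (z : List (ℕ × ℕ)) (a g : List PCode) : PCode :=
  pcMul (pcPow tC κ) (pcSumRange (ρ + 1) fun i =>
    pcMul (pcMul (constC (z.getD i (0, 0), 0) ++ pcMul tC (pcTrunc 1 (a.getD i []))) (thNC n c K S i))
      (pcPow (qC c) (K' + 4 - (K + 2 * i)))) ++ pcNeg (divTC n c K' g)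

/-- Difference of the two sides of `IsZeroT.init`. -/
def initTC (n : ℕ) (c : CDC) (S : PCode) (K K'' L : ℕ) (E : List PCode) (H : PCode) : PCode :=
  pcMul S (pcPow (qC c) (K'' + 4 - K)) ++ pcNeg (divTC n c K'' E ++ pcMul (pcPow tC (L + 1)) H)

/-- Verification of a certificate for zero of the value of `(G, K)` at `t = τ`. -/
def checkZT (n : ℕ) (c : CDC) (G : PCode) (K : ℕ) (τ : QCode) (x : ZCT) : Prop :=
  K + x.1.2.1 + 2 * x.1.1.2.1 ≤ x.1.1.1.2 + 4 ∧ K + x.1.2.1 ≤ x.1.2.2 + 4 ∧ zOK x.1.1.2.1 x.1.1.2.2 x.2.1.1.1 ∧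
    pcIsZero (n + 1) (exactTC n c (sC (qC c) G τ x.1.2.1 x.2.2.2) (K + x.1.2.1) x.1.1.1.1 x.1.1.1.2
      x.1.1.2.1 x.2.1.1.1 x.2.1.1.2 x.2.1.2.1) ∧
    pcIsZero (n + 1) (initTC n c (sC (qC c) G τ x.1.2.1 x.2.2.2) (K + x.1.2.1) x.1.2.2 x.1.1.2.2
      x.2.1.2.2 x.2.2.1)

instance (n : ℕ) (c : CDC) (G : PCode) (K : ℕ) (τ : QCode) (x : ZCT) : Decidable (checkZT n c G K τ x) := by
  unfold checkZT; infer_instance

/-- Certificate for non zero: `((a, E), (R, S))`. -/
abbrev NCT := (QCode × List PCode) × (PCode × List PCode)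

/-- The code of `∑ l, pderiv l ((X l - X l ^ 2) * E l)`. -/
def exC (n : ℕ) (E : List PCode) : PCode :=
  pcSumRange n fun l => pcDer l (pcMul (pcVar l ++ pcNeg (pcMul (pcVar l) (pcVar l))) (E.getD l []))

/-- Difference of the two sides of `IsNeT.eq`. -/
def neC (n : ℕ) (c : CDC) (G : PCode) (K : ℕ) (τ : QCode) (x : NCT) : PCode :=
  xC n τ G ++ pcNeg (pcMul (pcTrunc n (constC x.1.1 ++ exC n x.1.2)) (pcPow (xC n τ (qC c)) K) ++ x.2.1 ++
    pcSumRange n fun l => pcMul (x.2.2.getD l [])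
      (xC n τ (aC c l) ++ pcNeg (pcMul (pcVar l) (xC n τ (bC c l)))))

/-- Verification of a certificate for the value of `(G, K)` at `t = τ` to be non zero. -/
def checkNT (n : ℕ) (c : CDC) (G : PCode) (K : ℕ) (τ : QCode) (x : NCT) : Prop :=
  pcIsZero (n + n) (neC n c G K τ x) ∧ qltP (qmul (qnat (2 ^ K)) (nuC n x.2.1)) (qabs x.1.1)

instance (n : ℕ) (c : CDC) (G : PCode) (K : ℕ) (τ : QCode) (x : NCT) : Decidable (checkNT n c G K τ x) := by
  unfold checkNT; infer_instance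

/-- Input of the verification: `((n, K), ((c, G), τ))`. -/
abbrev CoreT := (ℕ × ℕ) × ((CDC × PCode) × QCode)

/-- Certificate: the answer and certificates for zero and for non zero. -/
abbrev CCT := Bool × (ZCT × NCT)

/-- Verification of the certificate. -/
def checkT (x : CoreT) (c : CCT) : Prop :=
  okC x.1.1 x.2.1.1 ∧ smallC x.1.1 x.2.1.1 x.2.2 ∧
    ((c.1 = true ∧ checkZT x.1.1 x.2.1.1 x.2.1.2 x.1.2 x.2.2 c.2.1) ∨
      (c.1 = false ∧ checkNT x.1.1 x.2.1.1 x.2.1.2 x.1.2 x.2.2 c.2.2))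

instance (x : CoreT) (c : CCT) : Decidable (checkT x c) := by unfold checkT; infer_instance

end Pool.Agent.Lib.MP_bbe012_lc.PT
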