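import Pool.Agent.Lib.MP_bbe012_lc.PT.TRedC
import Pool.Agent.Lib.MP_bbe012_lc.PT.TRedD
import Pool.Agent.Lib.MP_bbe012_lc.PT.TPrimC
import Pool.Agent.Lib.MP_bbe012_lc.PT.SDT

/-!
# Stage 3: the main theorem
-/

namespace Pool.Agent.Lib.MP_bbe012_lc.PT

open MvPolynomial Pool.Agent.Lib.MP_bbe012_lc.PP

/-- Soundness. Proof: `mem_decideT`, `checkFT_sound`. -/
theorem decideT_sound (E : ExT) (b : Bool) (h : b ∈ decideT E) : b = true ↔ extVal E = 0 := by
  obtain ⟨c, hc, rfl⟩ := mem_decideT h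
  exact checkFT_sound hc

private theorem TFinal_map {q m : ℕ} (y : Fin q → ℤ) (f : MvPolynomial (Fin m) (MvPolynomial (Fin q) ℤ)) :
    map ((Int.castRingHom ℚ).comp (eval y)) f = map (Int.castRingHom ℚ) (map (eval y) f) :=
  (map_map _ _ _).symm

/-- Termination.

Proof. `exists_ucharts n d μ (μ * δ) (fun b => (finProdFinEquiv.symm b).1)`: `q`, `c`, `T`, `cof`. `uniform_goodT` for `T` and for all `c k`: `N₀`, `N k`; `N = N₀ + ∑ k, N k + 1` (then `N' * (H a) ^ N' ≤ N * (H a) ^ N ≤ b` for `N' = N₀, N k`, as `H, a ≥ 1`: see `decide0_domU`, PP/FD.lean).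
Let `m, P` be the data of `InClassT`, `y` the parameter of the padded data `(P k).pad` (`pad_bdd`), `t` a code of `τ` (`exists_qval`). The charts `spC y (c k)`, `spC y T` are `Ok` (`map_ok`), and `Small` and good by `uniform_goodT`. `exists_rt` for these charts and `map _ (cof b)`
(`map_rename`, `map_Q`; `spC y c = c.map (castRingHom.comp (eval y))`, `(spC y c).p l = map (castRingHom) (map (eval y) (c.p l))` by `map_map`), with `itemSem_of_supp`; `checkT_of_good` for `toCoreT E r` (rewrite `rtM r = μ * δ`, `rtN r = n`; `okC_iff`), `dom_decideT`. -/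
theorem decideT_dom (n d δ μ : ℕ) :
    ∃ N : ℕ, 1 ≤ N ∧ ∀ (H : ℕ) (τ : ℚ), 1 ≤ H → τ ≠ 0 → N * (H * τ.num.natAbs) ^ N ≤ τ.den →
      ∀ E : ExT, InClassT n d H δ μ τ E → (decideT E).Dom := by
  obtain ⟨q, c, T, cof, hc, hT, hTp, hTq, hcof, hU⟩ :=
    exists_ucharts n d μ (μ * δ) (fun b => (finProdFinEquiv.symm b).1)
  obtain ⟨N₀, hN₀, g₀⟩ := uniform_goodT hT
  choose Nk hNk gk using fun k => uniform_goodT (hc k)
  refine ⟨N₀ + ∑ k, Nk k + 1, by omega, fun H τ hH hτ hle E hE => ?_⟩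
  obtain ⟨m, P, hmP, hE'⟩ := hE
  have ha : 1 ≤ τ.num.natAbs := by
    have : τ.num ≠ 0 := Rat.num_ne_zero.2 hτ
    omega
  have hHa : 1 ≤ H * τ.num.natAbs := Nat.mul_pos hH ha
  have hmono : ∀ N' : ℕ, N' ≤ N₀ + ∑ k, Nk k + 1 → N' * (H * τ.num.natAbs) ^ N' ≤ τ.den := by
    intro N' hN'
    exact (Nat.mul_le_mul hN' (Nat.pow_le_pow_right hHa hN')).trans hle
  obtain ⟨y, hyH, hy⟩ := hU H (fun k => (P k).pad (hmP k).1) (fun k => pad_bdd _ (hmP k).2)
  have hgT : GoodT (spC y T) τ := g₀ y H hH hyH τ hτ (hmono N₀ (by omega))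
  have hgc : ∀ k, GoodT (spC y (c k)) τ := fun k => gk k y H hH hyH τ hτ (hmono (Nk k) (by
    have h1 : Nk k ≤ ∑ k, Nk k :=
      Finset.single_le_sum (f := Nk) (fun i _ => Nat.zero_le _) (Finset.mem_univ k)
    omega))
  obtain ⟨t, rfl⟩ := exists_qval τ
  obtain ⟨r, hr, hrT, hrM, hrN, hrC, hrS⟩ := exists_rt (fun k => spC y (c k)) (spC y T)
    (fun b => map ((Int.castRingHom ℚ).comp (eval y)) (cof b)) (fun k => map_ok _ (hc k))
    (fun b l => by
      change map _ (T.p (finProdFinEquiv (b, l))) = rename _ (map _ _)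
      rw [hTp, map_rename])
    (fun b l => by
      change map _ (T.q (finProdFinEquiv (b, l))) = rename _ (map _ _)
      rw [hTq, map_rename])
    (fun b => by
      unfold spC
      rw [map_Q, map_Q, ← map_rename, ← map_mul, hcof])
    t (fun k => (hgc k).1) (E := E) (by
      intro L hL
      obtain ⟨h1, h2⟩ := hE' L hL
      refine ⟨h1, fun I hI => ?_⟩
      obtain ⟨k, hk⟩ := h2 I hI
      obtain ⟨y1, y2, y3⟩ := hy k
      refine ⟨k, itemSem_of_supp (hmP k).1 hk (fun l => ?_) (fun l => ?_) ?_⟩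
      · change map _ ((c k).p l) = _
        rw [TFinal_map, y1]
      · change map _ ((c k).q l) = _
        rw [TFinal_map, y2]
      · change _ ∣ ((c k).map ((Int.castRingHom ℚ).comp (eval y))).Q
        rw [map_Q, TFinal_map]
        have h3 := map_dvd (map (Int.castRingHom ℚ)) y3
        rw [map_add, map_one, map_mul, map_X] at h3
        exact h3)
  have hok : okC (μ * δ * n) (rtC r) := by
    rw [okC_iff, hrC]
    exact map_ok _ hT
  have hsm : smallC (μ * δ * n) (rtC r) t := hrS hgT.1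
  have hgr : GoodT (toCD (μ * δ * n) (rtC r)) (qval t) := by
    rw [hrC]
    exact hgT
  obtain ⟨c', hc'⟩ := checkT_of_good hok hsm hgr (numG E r) (rtM r * (rtK r + rtN r))
  have hcore : toCoreT E r =
      ((μ * δ * n, rtM r * (rtK r + rtN r)), ((rtC r, numG E r), t)) :=
    Prod.ext (Prod.ext (by
      change rtM r * rtN r = μ * δ * n
      rw [hrM, hrN]) rfl) (Prod.ext rfl hrT)
  rw [← hcore] at hc'
  exact dom_decideT (c := (r, c')) ⟨hr, hc'⟩

end Pool.Agent.Lib.MP_bbe012_lc.PT
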