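import Pool.Agent.Lib.MP_bbe012_lc.PT.TDefs
import Pool.Agent.Lib.MP_bbe012_lc.PP.CodePrim
import Pool.Agent.Lib.MP_bbe012_lc.PP.RedPrim

/-!
# Stage 3: the code functions are primitive recursive
-/

namespace Pool.Agent.Lib.MP_bbe012_lc.PT

open Primrec Pool.Agent.Lib.MP_bbe012_lc.PP

instance instPrimcodableListP : Primcodable (List PCode) := @Primcodable.list PCode inferInstance

instance instPrimcodableListListP : Primcodable (List (List PCode)) :=
  @Primcodable.list (List PCode) instPrimcodableListP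

instance instPrimcodableCDCA : Primcodable ((List PCode × List PCode) × PCode) :=
  @Primcodable.prod _ _ (@Primcodable.prod _ _ instPrimcodableListP instPrimcodableListP) inferInstance

instance instPrimcodableCDCB : Primcodable ((List PCode × List (List PCode)) × List PCode) :=
  @Primcodable.prod _ _ (@Primcodable.prod _ _ instPrimcodableListP instPrimcodableListListP) instPrimcodableListP

instance instPrimcodableCDC : Primcodable CDC := @Primcodable.prod _ _ instPrimcodableCDCA instPrimcodableCDCB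

variable {α : Type} [Primcodable α]

theorem pr_cdP {c : α → CDC} {l : α → ℕ} (hc : Primrec c) (hl : Primrec l) : Primrec fun a => cdP (c a) (l a) :=
  (list_getD []).comp (fst.comp (fst.comp (fst.comp hc))) hl

theorem pr_cdQ {c : α → CDC} {l : α → ℕ} (hc : Primrec c) (hl : Primrec l) : Primrec fun a => cdQ (c a) (l a) :=
  (list_getD []).comp (snd.comp (fst.comp (fst.comp hc))) hl

theorem pr_cdS {c : α → CDC} (hc : Primrec c) : Primrec fun a => cdS (c a) :=
  snd.comp (fst.comp hc)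

theorem pr_cdC {c : α → CDC} {l : α → ℕ} (hc : Primrec c) (hl : Primrec l) : Primrec fun a => cdC (c a) (l a) :=
  (list_getD []).comp (fst.comp (fst.comp (snd.comp hc))) hl

theorem pr_cdV {c : α → CDC} {l j : α → ℕ} (hc : Primrec c) (hl : Primrec l) (hj : Primrec j) :
    Primrec fun a => cdV (c a) (l a) (j a) :=
  (list_getD []).comp ((list_getD []).comp (snd.comp (fst.comp (snd.comp hc))) hl) hj

theorem pr_cdW {c : α → CDC} {l : α → ℕ} (hc : Primrec c) (hl : Primrec l) : Primrec fun a => cdW (c a) (l a) :=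
  (list_getD []).comp (snd.comp (snd.comp hc)) hl

theorem pr_aC {c : α → CDC} {l : α → ℕ} (hc : Primrec c) (hl : Primrec l) : Primrec fun a => aC (c a) (l a) :=
  pr_append (pr_var (succ.comp hl)) (pr_mul pr_tC (pr_cdP hc hl))

theorem pr_bC {c : α → CDC} {l : α → ℕ} (hc : Primrec c) (hl : Primrec l) : Primrec fun a => bC (c a) (l a) :=
  pr_append (pr_nat 1) (pr_mul pr_tC (pr_cdQ hc hl))

theorem pr_qC {c : α → CDC} (hc : Primrec c) : Primrec fun a => qC (c a) :=
  pr_append (pr_nat 1) (pr_mul pr_tC (pr_cdS hc))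

theorem pr_jacC {c : α → CDC} {i j : α → ℕ} (hc : Primrec c) (hi : Primrec i) (hj : Primrec j) :
    Primrec fun a => jacC (c a) (i a) (j a) :=
  pr_append (pr_mul (pr_bC hc hi) (pr_der hj (pr_aC hc hi)))
    (pr_neg (pr_mul (pr_aC hc hi) (pr_der hj (pr_bC hc hi))))

theorem pr_derC {c : α → CDC} {j K : α → ℕ} {G : α → PCode} (hc : Primrec c) (hj : Primrec j) (hK : Primrec K)
    (hG : Primrec G) : Primrec fun a => derC (c a) (j a) (K a) (G a) :=
  pr_append (pr_mul (pr_qC hc) (pr_der hj hG))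
    (pr_neg (pr_mul (pr_natv hK) (pr_mul hG (pr_der hj (pr_qC hc)))))

theorem pr_numVC {n l K : α → ℕ} {c : α → CDC} {G : α → PCode} (hn : Primrec n) (hc : Primrec c)
    (hl : Primrec l) (hK : Primrec K) (hG : Primrec G) :
    Primrec fun a => numVC (n a) (c a) (l a) (K a) (G a) :=
  pr_sumRange (g := fun a j => pcMul (cdV (c a) (l a) j) (derC (c a) (j + 1) (K a) (G a))) hn
    (pr_mul (pr_cdV (hc.comp fst) (hl.comp fst) snd)
      (pr_derC (hc.comp fst) (succ.comp snd) (hK.comp fst) (hG.comp fst))).to₂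

theorem pr_numTC {n K : α → ℕ} {c : α → CDC} {G : α → PCode} (hn : Primrec n) (hc : Primrec c)
    (hK : Primrec K) (hG : Primrec G) : Primrec fun a => numTC (n a) (c a) (K a) (G a) :=
  pr_append (pr_mul (pr_qC hc) (pr_derC hc (const 0) hK hG))
    (pr_neg (pr_sumRange (g := fun a j => pcMul (cdW (c a) j) (derC (c a) (j + 1) (K a) (G a))) hn
      (pr_mul (pr_cdW (hc.comp fst) snd)
        (pr_derC (hc.comp fst) (succ.comp snd) (hK.comp fst) (hG.comp fst))).to₂))

theorem pr_efC {c : α → CDC} {l : α → ℕ} (hc : Primrec c) (hl : Primrec l) : Primrec fun a => efC (c a) (l a) :=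
  pr_mul (pr_mul (pr_aC hc hl) (pr_append (pr_bC hc hl) (pr_neg (pr_aC hc hl))))
    (pr_mul (pr_cdC hc hl) (pr_cdC hc hl))

theorem pr_divTC {n K : α → ℕ} {c : α → CDC} {g : α → List PCode} (hn : Primrec n) (hc : Primrec c)
    (hK : Primrec K) (hg : Primrec g) : Primrec fun a => divTC (n a) (c a) (K a) (g a) :=
  pr_sumRange (g := fun a l => numVC (n a) (c a) l (K a + 2) (pcMul (efC (c a) l) ((g a).getD l [])))
    hn (pr_numVC (hn.comp fst) (hc.comp fst) snd (nat_add.comp (hK.comp fst) (const 2))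
      (pr_mul (pr_efC (hc.comp fst) snd) ((list_getD []).comp (hg.comp fst) snd))).to₂

/-- Proof: `Primrec.nat_rec'`, as `pr_thetaC` (PP/CodePrim.lean). -/
theorem pr_thNC {n K i : α → ℕ} {c : α → CDC} {S : α → PCode} (hn : Primrec n) (hc : Primrec c)
    (hK : Primrec K) (hS : Primrec S) (hi : Primrec i) : Primrec fun a => thNC (n a) (c a) (K a) (S a) (i a) := by
  have hr : Primrec fun q : α × ℕ × PCode => q.2.2 := snd.comp snd
  have hKi : Primrec fun q : α × ℕ × PCode => K q.1 + 2 * q.2.1 :=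
    nat_add.comp (hK.comp fst) (nat_mul.comp (const 2) (fst.comp snd))
  have hs : Primrec₂ fun (a : α) (p : ℕ × PCode) =>
      pcMul tC (numTC (n a) (c a) (K a + 2 * p.1) p.2) :=
    (pr_mul pr_tC (pr_numTC (hn.comp fst) (hc.comp fst) hKi hr)).to₂
  exact nat_rec' hi hS hs

theorem pr_jC {J : α → PCode} (hJ : Primrec J) : Primrec fun a => jC (J a) :=
  pr_append (pr_nat 1) (pr_mul pr_tC hJ)

private theorem pr_dvWC {n : α → ℕ} {c : α → CDC} (hn : Primrec n) (hc : Primrec c) :
    Primrec fun a => dvWC (n a) (c a) :=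
  pr_sumRange (g := fun a j => pcMul (qC (c a)) (pcDer (j + 1) (cdW (c a) j)) ++
    pcNeg (pcMul (cdW (c a) j) (pcDer (j + 1) (qC (c a))))) hn
    (pr_append (pr_mul (pr_qC (hc.comp fst)) (pr_der (succ.comp snd) (pr_cdW (hc.comp fst) snd)))
      (pr_neg (pr_mul (pr_cdW (hc.comp fst) snd) (pr_der (succ.comp snd) (pr_qC (hc.comp fst)))))).to₂

theorem pr_jokC {n : α → ℕ} {c : α → CDC} {J : α → PCode} (hn : Primrec n) (hc : Primrec c) (hJ : Primrec J) :
    PrimrecPred fun a => jokC (n a) (c a) (J a) :=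
  pr_isZero (succ.comp hn) (pr_append (pr_numTC hn hc hn (pr_jC hJ)) (pr_mul (pr_dvWC hn hc) (pr_jC hJ)))

/-- Proof: bounded quantifiers as in `primrecPred_rcOK` (PP/RedPrim.lean). -/
theorem pr_okC {n : α → ℕ} {c : α → CDC} (hn : Primrec n) (hc : Primrec c) :
    PrimrecPred fun a => okC (n a) (c a) := by
  have h1 : PrimrecRel fun (l : ℕ) (a : α) =>
      pcIsZero (n a + 1) (pcMul (bC (c a) l) (cdC (c a) l) ++ pcNeg (qC (c a))) :=
    pr_isZero (succ.comp (hn.comp snd)) (pr_append (pr_mul (pr_bC (hc.comp snd) fst)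
      (pr_cdC (hc.comp snd) fst)) (pr_neg (pr_qC (hc.comp snd))))
  have h1' : PrimrecPred fun a : α => ∀ l ∈ List.range (n a),
      pcIsZero (n a + 1) (pcMul (bC (c a) l) (cdC (c a) l) ++ pcNeg (qC (c a))) :=
    h1.forall_mem_list.comp (list_range.comp hn) Primrec.id
  have hcz : Primrec fun q : ℕ × (α × ℕ) => c q.2.1 := hc.comp (fst.comp snd)
  have hnz : Primrec fun q : ℕ × (α × ℕ) => n q.2.1 := hn.comp (fst.comp snd)
  have hif : Primrec fun q : ℕ × (α × ℕ) =>
      (if q.2.2 = q.1 then pcMul (qC (c q.2.1)) (pcMul (bC (c q.2.1) q.1) (bC (c q.2.1) q.1)) else [] : PCode) :=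
    Primrec.ite (Primrec.eq.comp (snd.comp snd) fst)
      (pr_mul (pr_qC hcz) (pr_mul (pr_bC hcz fst) (pr_bC hcz fst))) (const [])
  have hsum2 : Primrec fun q : ℕ × (α × ℕ) =>
      pcSumRange (n q.2.1) (fun j => pcMul (cdV (c q.2.1) q.2.2 j) (jacC (c q.2.1) q.1 (j + 1))) :=
    pr_sumRange (g := fun (q : ℕ × (α × ℕ)) j => pcMul (cdV (c q.2.1) q.2.2 j) (jacC (c q.2.1) q.1 (j + 1)))
      hnz (pr_mul (pr_cdV (hcz.comp fst) (snd.comp (snd.comp fst)) snd)
        (pr_jacC (hcz.comp fst) (fst.comp fst) (succ.comp snd))).to₂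
  have h2 : PrimrecRel fun (i : ℕ) (z : α × ℕ) => pcIsZero (n z.1 + 1)
      (pcSumRange (n z.1) (fun j => pcMul (cdV (c z.1) z.2 j) (jacC (c z.1) i (j + 1))) ++
        pcNeg (if z.2 = i then pcMul (qC (c z.1)) (pcMul (bC (c z.1) i) (bC (c z.1) i)) else [])) :=
    pr_isZero (succ.comp hnz) (pr_append hsum2 (pr_neg hif))
  have h2' : PrimrecPred fun z : α × ℕ => ∀ i ∈ List.range (n z.1), pcIsZero (n z.1 + 1)
      (pcSumRange (n z.1) (fun j => pcMul (cdV (c z.1) z.2 j) (jacC (c z.1) i (j + 1))) ++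
        pcNeg (if z.2 = i then pcMul (qC (c z.1)) (pcMul (bC (c z.1) i) (bC (c z.1) i)) else [])) :=
    h2.forall_mem_list.comp (list_range.comp (hn.comp fst)) Primrec.id
  have h3 : PrimrecRel fun (l : ℕ) (a : α) => ∀ i ∈ List.range (n a), pcIsZero (n a + 1)
      (pcSumRange (n a) (fun j => pcMul (cdV (c a) l j) (jacC (c a) i (j + 1))) ++
        pcNeg (if l = i then pcMul (qC (c a)) (pcMul (bC (c a) i) (bC (c a) i)) else [])) :=
    h2'.comp (pair snd fst)
  have h3' : PrimrecPred fun a : α => ∀ l ∈ List.range (n a), ∀ i ∈ List.range (n a), pcIsZero (n a + 1)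
      (pcSumRange (n a) (fun j => pcMul (cdV (c a) l j) (jacC (c a) i (j + 1))) ++
        pcNeg (if l = i then pcMul (qC (c a)) (pcMul (bC (c a) i) (bC (c a) i)) else [])) :=
    h3.forall_mem_list.comp (list_range.comp hn) Primrec.id
  have hcy : Primrec fun q : ℕ × α => c q.2 := hc.comp snd
  have hsum4 : Primrec fun q : ℕ × α =>
      pcSumRange (n q.2) (fun j => pcMul (cdW (c q.2) j) (jacC (c q.2) q.1 (j + 1))) :=
    pr_sumRange (g := fun (q : ℕ × α) j => pcMul (cdW (c q.2) j) (jacC (c q.2) q.1 (j + 1)))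
      (hn.comp snd) (pr_mul (pr_cdW (hcy.comp fst) snd)
        (pr_jacC (hcy.comp fst) (fst.comp fst) (succ.comp snd))).to₂
  have h4 : PrimrecRel fun (i : ℕ) (a : α) => pcIsZero (n a + 1)
      (pcSumRange (n a) (fun j => pcMul (cdW (c a) j) (jacC (c a) i (j + 1))) ++
        pcNeg (pcMul (qC (c a)) (jacC (c a) i 0))) :=
    pr_isZero (succ.comp (hn.comp snd)) (pr_append hsum4
      (pr_neg (pr_mul (pr_qC hcy) (pr_jacC hcy fst (const 0)))))
  have h4' : PrimrecPred fun a : α => ∀ i ∈ List.range (n a), pcIsZero (n a + 1)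
      (pcSumRange (n a) (fun j => pcMul (cdW (c a) j) (jacC (c a) i (j + 1))) ++
        pcNeg (pcMul (qC (c a)) (jacC (c a) i 0))) :=
    h4.forall_mem_list.comp (list_range.comp hn) Primrec.id
  exact h1'.and (h3'.and h4')

private theorem tprimA_sum {f : α → List ℕ} (hf : Primrec f) : Primrec fun a => (f a).sum := by
  have h : Primrec fun a => (f a).foldr (fun b s => b + s) 0 :=
    list_foldr (f := f) (g := fun _ => 0) (h := fun _ x => x.1 + x.2) hf (const 0)
      (nat_add.comp (fst.comp snd) (snd.comp snd)).to₂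
  exact h.of_eq fun a => List.sum_eq_foldr.symm

private theorem tprimA_pow (b : ℕ) {f : α → ℕ} (hf : Primrec f) : Primrec fun a => b ^ f a := by
  have h : Primrec₂ fun (_ : α) (p : ℕ × ℕ) => p.2 * b :=
    (nat_mul.comp (snd.comp snd) (const b)).to₂
  refine (nat_rec' hf (const 1) h).of_eq fun y => ?_
  have hk : ∀ k : ℕ, (Nat.rec (motive := fun _ => ℕ) 1 (fun _ r => r * b) k : ℕ) = b ^ k := by
    intro k
    induction k with
    | zero => rfl
    | succ k ih => rw [pow_succ, ← ih]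
  exact hk _

private theorem tprimA_qpow {τ : α → QCode} {k : α → ℕ} (hτ : Primrec τ) (hk : Primrec k) :
    Primrec fun a => qpow (τ a) (k a) := by
  have h : Primrec₂ fun (a : α) (p : ℕ × QCode) => qmul (τ a) p.2 :=
    (primrec_qmul.comp (hτ.comp fst) (snd.comp snd)).to₂
  exact nat_rec' hk (const (qnat 1)) h

/-- Proof: as `pr_normC`; `List.sum` and powers are primitive recursive (fold; `Primrec.nat_rec`). -/
theorem pr_nwC {p : α → PCode} (hp : Primrec p) : Primrec fun a => nwC (p a) := by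
  have hs : Primrec fun q : α × ((QCode × List ℕ) × QCode) => q.2.1.2.sum :=
    tprimA_sum (snd.comp (fst.comp snd))
  exact list_foldr (f := p) (g := fun _ => qnat 0)
    (h := fun _ x => qadd (qmul (qabs x.1.1) (qnat (4 ^ x.1.2.sum))) x.2) hp (const (qnat 0))
    (primrec_qadd.comp (primrec_qmul.comp (pr_qabs (fst.comp (fst.comp snd)))
      (primrec_qnat.comp (tprimA_pow 4 hs))) (snd.comp snd)).to₂

theorem pr_smallC {n : α → ℕ} {c : α → CDC} {τ : α → QCode} (hn : Primrec n) (hc : Primrec c) (hτ : Primrec τ) :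
    PrimrecPred fun a => smallC (n a) (c a) (τ a) := by
  have h1 : PrimrecPred fun a => qleP (qabs (τ a)) (qnat 1) := pr_qleP (pr_qabs hτ) (const (qnat 1))
  have h2 : PrimrecRel fun (l : ℕ) (a : α) =>
      qleP (qmul (qabs (τ a)) (qadd (nwC (cdP (c a) l)) (nwC (cdQ (c a) l)))) ((1, 0), 7) :=
    pr_qleP (primrec_qmul.comp (pr_qabs (hτ.comp snd)) (primrec_qadd.comp
      (pr_nwC (pr_cdP (hc.comp snd) fst)) (pr_nwC (pr_cdQ (hc.comp snd) fst)))) (const ((1, 0), 7))
  have h2' : PrimrecPred fun a : α => ∀ l ∈ List.range (n a),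
      qleP (qmul (qabs (τ a)) (qadd (nwC (cdP (c a) l)) (nwC (cdQ (c a) l)))) ((1, 0), 7) :=
    h2.forall_mem_list.comp (list_range.comp hn) Primrec.id
  have h3 : PrimrecPred fun a => qleP (qmul (qabs (τ a)) (nwC (cdS (c a)))) ((1, 0), 1) :=
    pr_qleP (primrec_qmul.comp (pr_qabs hτ) (pr_nwC (pr_cdS hc))) (const ((1, 0), 1))
  exact h1.and (h2'.and h3)

theorem pr_evC {τ : α → QCode} {p : α → PCode} (hτ : Primrec τ) (hp : Primrec p) :
    Primrec fun a => evC (τ a) (p a) := by
  have hk : Primrec fun q : α × (QCode × List ℕ) => q.2.2.getD 0 0 :=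
    (list_getD 0).comp (snd.comp snd) (const 0)
  exact list_map hp (pair (primrec_qmul.comp (fst.comp snd) (tprimA_qpow (hτ.comp fst) hk))
    (list_drop.comp (const 1) (snd.comp snd))).to₂

theorem pr_xC {n : α → ℕ} {τ : α → QCode} {G : α → PCode} (hn : Primrec n) (hτ : Primrec τ) (hG : Primrec G) :
    Primrec fun a => xC (n a) (τ a) (G a) :=
  pr_shift hn hn (pr_evC hτ hG)

theorem pr_nuC {n : α → ℕ} {p : α → PCode} (hn : Primrec n) (hp : Primrec p) : Primrec fun a => nuC (n a) (p a) := by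
  have hs : Primrec fun q : α × ((QCode × List ℕ) × QCode) => (q.2.1.2.drop (n q.1)).sum :=
    tprimA_sum (list_drop.comp (hn.comp fst) (snd.comp (fst.comp snd)))
  exact list_foldr (f := p) (g := fun _ => qnat 0)
    (h := fun a x => qadd (qmul (qabs x.1.1) (qnat (2 ^ (x.1.2.drop (n a)).sum))) x.2) hp
    (const (qnat 0))
    (primrec_qadd.comp (primrec_qmul.comp (pr_qabs (fst.comp (fst.comp snd)))
      (primrec_qnat.comp (tprimA_pow 2 hs))) (snd.comp snd)).to₂

end Pool.Agent.Lib.MP_bbe012_lc.PT
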