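import Pool.Agent.Lib.MP_bbe012_lc.PT.RealB
import Pool.Agent.Lib.MP_bbe012_lc.PP.RedA
import Pool.Agent.Lib.MP_bbe012_lc.PT.PhiT

/-!
# Stage 3: products of charts
-/

namespace Pool.Agent.Lib.MP_bbe012_lc.PT

open MvPolynomial MeasureTheory Set Pool.Agent.Lib.MP_bbe012_lc.PP

private theorem ta_summable {n : ℕ} {c : CD n ℚ} {τ : ℚ} (hs : Small c |τ|) (G : TP n ℚ) (K : ℕ) :
    Summable fun k => ((PowerSeries.coeff k (PhiT c G K) : ℚ) : ℝ) * (τ : ℝ) ^ k := by
  refine Summable.of_norm ((summable_PhiT hs G K).congr fun k => ?_)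
  rw [norm_mul, norm_pow, Real.norm_eq_abs, Real.norm_eq_abs]

private theorem ta_pt {n : ℕ} (c : CD n ℚ) (τ : ℚ) (u : Fin n → ℝ) :
    pts c τ u = pt n τ fun l => pts c τ u l.succ := by
  funext i
  refine Fin.cases ?_ (fun l => ?_) i
  · rfl
  · rfl

private theorem ta_pos {n : ℕ} {c : CD n ℚ} {τ : ℚ} (hs : Small c |τ|) {u : Fin n → ℝ}
    (hu : u ∈ Icc (0 : Fin n → ℝ) 1) : 0 < aeval (pts c τ u) c.Q := by
  rw [ta_pt c τ u]
  exact lt_of_lt_of_le (by norm_num) (half_le_Q hs fun l => pts_box hs hu l)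

/-- Proof: `JT_eq_ev`, `PhiT_sum`, and linearity of `ev` for summable series (`summable_PhiT`). -/
theorem JT_sum {n : ℕ} {ι : Type} {c : CD n ℚ} {τ : ℚ} (hs : Small c |τ|) (s : Finset ι) (G : ι → TP n ℚ) (K : ℕ) :
    JT c (∑ i ∈ s, G i) K τ = ∑ i ∈ s, JT c (G i) K τ := by
  rw [JT_eq_ev hs, PhiT_sum]
  have h1 : ∀ i ∈ s, JT c (G i) K τ = ev τ (PhiT c (G i) K) := fun i _ => JT_eq_ev hs (G i) K
  rw [Finset.sum_congr rfl h1]
  unfold ev
  have h2 : ∀ i ∈ s, Summable fun k =>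
      ((PowerSeries.coeff k (PhiT c (G i) K) : ℚ) : ℝ) * (τ : ℝ) ^ k := fun i _ =>
    ta_summable hs (G i) K
  rw [← Summable.tsum_finsetSum h2]
  refine tsum_congr fun k => ?_
  rw [map_sum, Rat.cast_sum, Finset.sum_mul]

/-- Proof: the integrand is `1` (`half_le_Q` at the point `pts`, `pts_box`), and the volume of the cube is `1`. -/
theorem JT_pow_Q {n : ℕ} {c : CD n ℚ} {τ : ℚ} (hs : Small c |τ|) (K : ℕ) : JT c (c.Q ^ K) K τ = 1 := by
  unfold JT
  have h1 : EqOn (fun u => aeval (pts c τ u) (c.Q ^ K) / aeval (pts c τ u) c.Q ^ K)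
      (fun _ => (1 : ℝ)) (Icc (0 : Fin n → ℝ) 1) := by
    intro u hu
    have hpos := ta_pos hs hu
    change aeval (pts c τ u) (c.Q ^ K) / aeval (pts c τ u) c.Q ^ K = 1
    rw [map_pow, div_self (pow_pos hpos K).ne']
  rw [setIntegral_congr_fun measurableSet_Icc h1, setIntegral_const, measureReal_def,
    Real.volume_Icc_pi]
  simp

/-- The blocks of a product chart `T`.

Proof. `bidx n ν b 0 = 0` and `pts _ _ _ 0 = τ`; for `l.succ`: `uniq_box` for `c`, at the point `bco n ν b u` of the cube (`bco_mem`), with `x l = pts T τ u (bidx n ν b l.succ)` (in the box by `pts_box hT`) and `y l = pts c τ (bco n ν b u) l.succ`: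
`aeval (pt n τ x) F = aeval (pts T τ u) (rename (bidx n ν b) F)` (`aeval_rename`), `T.A (finProdFinEquiv (b, l)) = rename (bidx n ν b) (c.A l)`, the same for `B`, `pts_eq hT` and `pts_eq hs`. -/
theorem pts_block {n ν : ℕ} {c : CD n ℚ} {T : CD (ν * n) ℚ} {τ : ℚ} {b : Fin ν} (hs : Small c |τ|)
    (hT : Small T |τ|) (hp : ∀ l, T.p (finProdFinEquiv (b, l)) = rename (bidx n ν b) (c.p l))
    (hq : ∀ l, T.q (finProdFinEquiv (b, l)) = rename (bidx n ν b) (c.q l)) {u : Fin (ν * n) → ℝ}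
    (hu : u ∈ Icc (0 : Fin (ν * n) → ℝ) 1) :
    (fun i => pts T τ u (bidx n ν b i)) = pts c τ (bco n ν b u) := by
  have hA : ∀ l, T.A (finProdFinEquiv (b, l)) = rename (bidx n ν b) (c.A l) := by
    intro l
    unfold CD.A
    rw [map_add, map_mul, rename_X, rename_X, hp l]
    rfl
  have hB : ∀ l, T.B (finProdFinEquiv (b, l)) = rename (bidx n ν b) (c.B l) := by
    intro l
    unfold CD.B
    rw [map_add, map_mul, rename_X, hq l, map_one]
    rfl
  have e : ∀ F : TP n ℚ, aeval (pt n τ fun l => pts T τ u (bidx n ν b l.succ)) F =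
      aeval (pts T τ u) (rename (bidx n ν b) F) := by
    intro F
    rw [aeval_rename]
    refine congrArg (fun z => aeval z F) (funext fun j => ?_)
    refine Fin.cases ?_ (fun l => ?_) j
    · rfl
    · rfl
  have e' : (pt n τ fun l => pts c τ (bco n ν b u) l.succ) = pts c τ (bco n ν b u) :=
    (ta_pt c τ (bco n ν b u)).symm
  have key := uniq_box hs (bco_mem b hu) (x := fun l => pts T τ u (bidx n ν b l.succ))
    (y := fun l => pts c τ (bco n ν b u) l.succ)
    (fun l => pts_box hT hu (finProdFinEquiv (b, l)))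
    (fun l => pts_box hs (bco_mem b hu) l)
    (fun l => by
      rw [e, e, ← hA, ← hB]
      exact pts_eq hT hu (finProdFinEquiv (b, l)))
    (fun l => by
      rw [e']
      exact pts_eq hs (bco_mem b hu) l)
  funext i
  refine Fin.cases ?_ (fun l => ?_) i
  · rfl
  · exact congrFun key l

/-- The value of a sum of products on a product chart.

Proof. `JT_sum` for `T`. For fixed `j` and `u` in the cube: `aeval (pts T τ u) (rename (bidx n ν b) F) = aeval (pts (c b) τ (bco n ν b u)) F` (`aeval_rename`, `pts_block`); with `Q_b`, `cof_b` the values at this point, `Q_b * cof_b` is the value of `T.Q`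
for all `b`, it is not `0` (`half_le_Q`), and `∏ b, (A_b * cof_b ^ k) / (T.Q) ^ (ν * k) = ∏ b, A_b / Q_b ^ k` (`pow_mul`, `Finset.prod_div_distrib`, `Finset.prod_const`). `integral_blocks`. -/
theorem JT_blocks {n ν M : ℕ} {c : Fin ν → CD n ℚ} {T : CD (ν * n) ℚ} {cof : Fin ν → TP (ν * n) ℚ} {τ : ℚ}
    (hs : ∀ b, Small (c b) |τ|) (hT : Small T |τ|)
    (hp : ∀ b l, T.p (finProdFinEquiv (b, l)) = rename (bidx n ν b) ((c b).p l))
    (hq : ∀ b l, T.q (finProdFinEquiv (b, l)) = rename (bidx n ν b) ((c b).q l))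
    (hQ : ∀ b, rename (bidx n ν b) (c b).Q * cof b = T.Q) (A : Fin M → Fin ν → TP n ℚ) (k : ℕ) :
    JT T (∑ j : Fin M, ∏ b : Fin ν, rename (bidx n ν b) (A j b) * cof b ^ k) (ν * k) τ =
      ∑ j : Fin M, ∏ b : Fin ν, JT (c b) (A j b) k τ := by
  rw [JT_sum hT]
  refine Finset.sum_congr rfl fun j _ => ?_
  have h0 := integral_blocks n ν fun b v =>
    aeval (pts (c b) τ v) (A j b) / aeval (pts (c b) τ v) (c b).Q ^ k
  have h1 : JT T (∏ b : Fin ν, rename (bidx n ν b) (A j b) * cof b ^ k) (ν * k) τ =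
      ∫ u in Icc (0 : Fin (ν * n) → ℝ) 1, ∏ b : Fin ν,
        aeval (pts (c b) τ (bco n ν b u)) (A j b) /
          aeval (pts (c b) τ (bco n ν b u)) (c b).Q ^ k := by
    unfold JT
    refine setIntegral_congr_fun measurableSet_Icc fun u hu => ?_
    change aeval (pts T τ u) (∏ b : Fin ν, rename (bidx n ν b) (A j b) * cof b ^ k) /
      aeval (pts T τ u) T.Q ^ (ν * k) = _
    have hv : ∀ (b : Fin ν) (F : TP n ℚ), aeval (pts T τ u) (rename (bidx n ν b) F) =
        aeval (pts (c b) τ (bco n ν b u)) F := by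
      intro b F
      rw [aeval_rename]
      exact congrArg (fun z => aeval z F) (pts_block (hs b) hT (hp b) (hq b) hu)
    have hpos := ta_pos hT hu
    have hcard : aeval (pts T τ u) T.Q ^ (ν * k) =
        ∏ _b : Fin ν, aeval (pts T τ u) T.Q ^ k := by
      rw [Finset.prod_const, Finset.card_univ, Fintype.card_fin, ← pow_mul, mul_comm k ν]
    rw [hcard, map_prod, ← Finset.prod_div_distrib]
    refine Finset.prod_congr rfl fun b _ => ?_
    have h2 : aeval (pts (c b) τ (bco n ν b u)) (c b).Q * aeval (pts T τ u) (cof b) =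
        aeval (pts T τ u) T.Q := by
      rw [← hv b, ← map_mul, hQ b]
    have h3 : aeval (pts T τ u) (cof b) ≠ 0 := by
      intro h
      rw [h, mul_zero] at h2
      exact hpos.ne h2
    rw [map_mul, map_pow, hv b, ← h2, mul_pow, mul_div_mul_right _ _ (pow_ne_zero k h3)]
  rw [h1, h0]
  rfl

/-- Padding of variables.

Proof. `n = m + r`; the map `(Fin (m + r) → ℝ) ≃ᵐ (Fin m → ℝ) × (Fin r → ℝ)` is measure preserving (see the proof of `integral_pad`, PP/RedA.lean, and `integral_mul_split`, Split.lean); `integral_prod_mul` (no integrability is needed) for the indicator functions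
`S.indicator f` and `(Icc 0 1).indicator 1` (volume `1`). -/
theorem integral_padT {m n : ℕ} (h : m ≤ n) {S : Set (Fin m → ℝ)} (hS : MeasurableSet S)
    (f : (Fin m → ℝ) → ℝ) :
    ∫ x in {x : Fin n → ℝ | (fun i => x (Fin.castLE h i)) ∈ S ∧ ∀ l : Fin n, m ≤ (l : ℕ) → 0 ≤ x l ∧ x l ≤ 1},
      f (fun i => x (Fin.castLE h i)) = ∫ y in S, f y := by
  obtain ⟨b, rfl⟩ := Nat.exists_eq_add_of_le h
  have hset : {x : Fin (m + b) → ℝ | (fun i => x (Fin.castLE h i)) ∈ S ∧
      ∀ l : Fin (m + b), m ≤ (l : ℕ) → 0 ≤ x l ∧ x l ≤ 1} =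
      split m b ⁻¹' (S ×ˢ Icc (0 : Fin b → ℝ) 1) := by
    ext x
    rw [mem_preimage, split_apply, mem_prod]
    constructor
    · rintro ⟨h1, h2⟩
      exact ⟨h1, fun i => (h2 (Fin.natAdd m i) (Nat.le_add_right m i)).1,
        fun i => (h2 (Fin.natAdd m i) (Nat.le_add_right m i)).2⟩
    · rintro ⟨h1, h2⟩
      refine ⟨h1, fun l => ?_⟩
      refine Fin.addCases (fun i hi => ?_) (fun i _ => ?_) l
      · exact absurd hi (not_le.2 i.2)
      · exact ⟨h2.1 i, h2.2 i⟩
  have hmeas : MeasurableSet (split m b ⁻¹' (S ×ˢ Icc (0 : Fin b → ℝ) 1)) :=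
    (split m b).measurable (hS.prod measurableSet_Icc)
  rw [hset, ← integral_indicator hmeas]
  have h1 : (split m b ⁻¹' (S ×ˢ Icc (0 : Fin b → ℝ) 1)).indicator
      (fun x => f (fun i => x (Fin.castLE h i))) =
      fun x => (fun w : (Fin m → ℝ) × (Fin b → ℝ) => S.indicator f w.1 *
        (Icc (0 : Fin b → ℝ) 1).indicator (fun _ => (1 : ℝ)) w.2) (split m b x) := by
    funext x
    by_cases hx : split m b x ∈ S ×ˢ Icc (0 : Fin b → ℝ) 1
    · rw [indicator_of_mem (show x ∈ split m b ⁻¹' (S ×ˢ Icc (0 : Fin b → ℝ) 1) from hx)]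
      dsimp only
      rw [indicator_of_mem hx.1, indicator_of_mem hx.2, mul_one, split_apply]
      rfl
    · rw [indicator_of_notMem (show x ∉ split m b ⁻¹' (S ×ˢ Icc (0 : Fin b → ℝ) 1) from hx)]
      dsimp only
      by_cases h4 : (split m b x).1 ∈ S
      · rw [indicator_of_notMem (s := Icc (0 : Fin b → ℝ) 1) (fun h5 => hx ⟨h4, h5⟩), mul_zero]
      · rw [indicator_of_notMem h4, zero_mul]
  have h2 := (measurePreserving_split m b).integral_comp (MeasurableEquiv.measurableEmbedding _)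
    (fun w : (Fin m → ℝ) × (Fin b → ℝ) => S.indicator f w.1 *
      (Icc (0 : Fin b → ℝ) 1).indicator (fun _ => (1 : ℝ)) w.2)
  have h3 : ∫ w : (Fin m → ℝ) × (Fin b → ℝ), S.indicator f w.1 *
      (Icc (0 : Fin b → ℝ) 1).indicator (fun _ => (1 : ℝ)) w.2 =
      (∫ x, S.indicator f x) * ∫ x, (Icc (0 : Fin b → ℝ) 1).indicator (fun _ => (1 : ℝ)) x :=
    integral_prod_mul (μ := volume) (ν := volume) (S.indicator f)
      ((Icc (0 : Fin b → ℝ) 1).indicator fun _ => (1 : ℝ))
  have h4 : ∫ x : Fin b → ℝ, (Icc (0 : Fin b → ℝ) 1).indicator (fun _ => (1 : ℝ)) x = 1 := by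
    rw [integral_indicator measurableSet_Icc, setIntegral_const, measureReal_def,
      Real.volume_Icc_pi]
    simp
  rw [h1, h2, h3, h4, mul_one, integral_indicator hS]

end Pool.Agent.Lib.MP_bbe012_lc.PT
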