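import Pool.Agent.Lib.MP_bbe012_lc.PT.TRed
import Pool.Agent.Lib.MP_bbe012_lc.PT.TRedA
import Pool.Agent.Lib.MP_bbe012_lc.PT.TCodeA
import Pool.Agent.Lib.MP_bbe012_lc.PT.TCodeB
import Pool.Agent.Lib.MP_bbe012_lc.PP.RedB

/-!
# Stage 3: the value of one factor
-/

namespace Pool.Agent.Lib.MP_bbe012_lc.PT

open MvPolynomial MeasureTheory Set Pool.Agent.Lib.MP_bbe012_lc.PP

private theorem trb_sp {n : ℕ} (τ : ℚ) (x : Fin n → ℝ) (F : TP n ℚ) :
    aeval x (spQ n τ F) = aeval (pt n τ x) F := by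
  have h : (aeval x).comp (spQ n τ) = (aeval (pt n τ x) : TP n ℚ →ₐ[ℚ] ℝ) := by
    refine MvPolynomial.algHom_ext fun i => ?_
    refine Fin.cases ?_ (fun l => ?_) i
    · simp [spQ, pt]
    · simp [spQ, pt]
  exact DFunLike.congr_fun h F

private theorem trb_pts {n : ℕ} (c : CD n ℚ) (τ : ℚ) (u : Fin n → ℝ) :
    pts c τ u = pt n τ (fun l => pts c τ u l.succ) := by
  funext i
  refine Fin.cases ?_ (fun l => ?_) i
  · rfl
  · rfl

private theorem trb_zero {n : ℕ} {p q : PCode} (h : pcIsZero n (p ++ pcNeg q)) :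
    pcPoly n p = pcPoly n q := by
  have h1 := (pcIsZero_iff n _).1 h
  rw [pcPoly_append, pcPoly_neg] at h1
  exact add_neg_eq_zero.1 h1

private theorem trb_trunc {m n : ℕ} (h : m ≤ n) (x : Fin n → ℝ) (p : PCode) :
    aeval x (pcPoly n (pcTrunc m p)) = pcEval m p (fun i => x (Fin.castLE h i)) := by
  rw [pcPoly_trunc_castLE h, aeval_rename]
  rfl

private theorem trb_A {n k : ℕ} {τ : QCode} {c : CDC} {I : CIT} {W : PCode} (h : itemOK n τ k c I W)
    (x : Fin n → ℝ) (l : Fin n) :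
    aeval (pt n (qval τ) x) ((toCD n c).A l) = aeval x (pcPoly n (domA I l)) ∧
      aeval (pt n (qval τ) x) ((toCD n c).B l) = aeval x (pcPoly n (domB I l)) := by
  obtain ⟨h1, h2⟩ := h.2.2.1 l (List.mem_range.2 l.isLt)
  rw [trb_zero h1, trb_zero h2, pcPoly_evC, pcPoly_evC, pcPoly_aC, pcPoly_bC, trb_sp, trb_sp]
  exact ⟨rfl, rfl⟩

private theorem trb_lt {n k : ℕ} {τ : QCode} {c : CDC} {I : CIT} {W : PCode} (h : itemOK n τ k c I W)
    (x : Fin n → ℝ) (l : Fin n) (hl : (l : ℕ) < I.1) :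
    aeval (pt n (qval τ) x) ((toCD n c).A l) =
        pcEval I.1 (I.2.2.getD l ([], [])).1 (fun i => x (Fin.castLE h.1 i)) ∧
      aeval (pt n (qval τ) x) ((toCD n c).B l) =
        pcEval I.1 (I.2.2.getD l ([], [])).2 (fun i => x (Fin.castLE h.1 i)) := by
  obtain ⟨h1, h2⟩ := trb_A h x l
  rw [h1, h2, domA, domB, if_pos hl, if_pos hl, trb_trunc h.1, trb_trunc h.1]
  exact ⟨rfl, rfl⟩

private theorem trb_ge {n k : ℕ} {τ : QCode} {c : CDC} {I : CIT} {W : PCode} (h : itemOK n τ k c I W)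
    (x : Fin n → ℝ) (l : Fin n) (hl : I.1 ≤ (l : ℕ)) :
    aeval (pt n (qval τ) x) ((toCD n c).A l) = x l ∧
      aeval (pt n (qval τ) x) ((toCD n c).B l) = 1 := by
  obtain ⟨h1, h2⟩ := trb_A h x l
  rw [h1, h2, domA, domB, if_neg (not_lt.2 hl), if_neg (not_lt.2 hl), pcPoly_var l.isLt, pcPoly_nat]
  simp

/-- Proof: an intersection of closed sets, polynomials are continuous. -/
theorem isClosed_domT (I : CIT) : IsClosed (domT I) := by
  have h : domT I = (⋂ l : Fin I.1, {x : Fin I.1 → ℝ | -1 ≤ x l} ∩ {x | x l ≤ 2}) ∩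
      ⋂ a ∈ I.2.2, {x | 0 ≤ pcEval I.1 a.1 x} ∩ {x | pcEval I.1 a.1 x ≤ pcEval I.1 a.2 x} := by
    ext x
    simp only [domT, Set.mem_ofPred_eq, Set.mem_inter_iff, Set.mem_iInter]
  rw [h]
  refine IsClosed.inter ?_ ?_
  · refine isClosed_iInter fun l => IsClosed.inter ?_ ?_
    · exact isClosed_le continuous_const (continuous_apply l)
    · exact isClosed_le (continuous_apply l) continuous_const
  · refine isClosed_iInter fun a => isClosed_iInter fun _ => IsClosed.inter ?_ ?_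
    · exact isClosed_le continuous_const (continuous_pcEval I.1 a.1)
    · exact isClosed_le (continuous_pcEval I.1 a.1) (continuous_pcEval I.1 a.2)

/-- The domain of the chart is the padded domain of the integral.

Proof. `aeval (pt n τ x) (toCD n c).A l = aeval x (spQ n τ ((toCD n c).A l)) = aeval x (pcPoly n (evC τ (aC c l))) = aeval x (pcPoly n (domA I l))` (`pcPoly_evC`, `pcPoly_aC`, `pcIsZero_iff`), for `l < m` equal to `pcEval m (dom_l).1 (x ∘ castLE)` (`pcPoly_trunc_castLE`, `aeval_rename`),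
for `m ≤ l` equal to `x l`; the same for `B` (`1` for `m ≤ l`). As `I.2.2.length = m`, `∀ a ∈ I.2.2` is `∀ l < m` (`List.mem_iff_getElem`). For `m ≤ l`, `0 ≤ x l ≤ 1` implies `-1 ≤ x l ≤ 2`. -/
theorem sig_eq_pad {n k : ℕ} {τ : QCode} {c : CDC} {I : CIT} {W : PCode} (h : itemOK n τ k c I W) :
    sig (toCD n c) (qval τ) = {x : Fin n → ℝ | (fun i => x (Fin.castLE h.1 i)) ∈ domT I ∧
      ∀ l : Fin n, I.1 ≤ (l : ℕ) → 0 ≤ x l ∧ x l ≤ 1} := by
  ext x
  constructor
  · intro hx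
    refine ⟨⟨fun l => (hx (Fin.castLE h.1 l)).1, fun a ha => ?_⟩, fun l hl => ?_⟩
    · obtain ⟨i, hi, rfl⟩ := List.mem_iff_getElem.1 ha
      have him : i < I.1 := lt_of_lt_of_eq hi h.2.1
      have hin : i < n := lt_of_lt_of_le him h.1
      obtain ⟨h1, h2⟩ := trb_lt h x ⟨i, hin⟩ him
      have h3 := (hx ⟨i, hin⟩).2
      rw [h1, h2] at h3
      have h4 : I.2.2.getD i ([], []) = I.2.2[i] := by
        rw [List.getD_eq_getElem?_getD, List.getElem?_eq_getElem hi]
        rfl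
      simp only [h4] at h3
      exact h3
    · obtain ⟨h1, h2⟩ := trb_ge h x l hl
      have h3 := (hx l).2
      rw [h1, h2] at h3
      exact h3
  · rintro ⟨⟨hb, hd⟩, hr⟩ l
    by_cases hl : (l : ℕ) < I.1
    · refine ⟨hb ⟨l, hl⟩, ?_⟩
      obtain ⟨h1, h2⟩ := trb_lt h x l hl
      rw [h1, h2]
      have hi : (l : ℕ) < I.2.2.length := lt_of_lt_of_eq hl h.2.1.symm
      have h4 : I.2.2.getD (l : ℕ) ([], []) = I.2.2[(l : ℕ)] := by
        rw [List.getD_eq_getElem?_getD, List.getElem?_eq_getElem hi]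
        rfl
      rw [h4]
      exact hd _ (List.getElem_mem hi)
    · obtain ⟨h1, h2⟩ := trb_ge h x l (not_lt.1 hl)
      rw [h1, h2]
      have h3 := hr l (not_lt.1 hl)
      exact ⟨⟨by linarith [h3.1], by linarith [h3.2]⟩, h3⟩

/-- The value of one factor.

Proof. Let `f y = pcEval m P y / pcEval m D y` (`m = I.1`). `integral_padT` with `sig_eq_pad`: `citVal I = ∫ x in sig (toCD n c) τ, f (x ∘ castLE)`; `integral_sig`: `= ∫ u in Icc 0 1, f (x ∘ castLE) * (det V / Q ^ n)(pts)`, with `x l = pts c τ u l.succ`. The last condition of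
`itemOK` at `x`: `D(x) W(x) = Q(τ, x) ^ k`, and `Q(τ, x) = aeval (pts c τ u) Q ≠ 0` (`half_le_Q`, `pts_box`), so `f = P W / Q ^ k`; and `det V = 1 + X 0 * J` (`jokC_det`). The numerator is the value at `pts` of `pcPoly (n + 1)` of the code
(`pcPoly_shift_succ`, `pcPoly_trunc_castLE`, `aeval_rename`). -/
theorem citVal_eqT {n k : ℕ} {τ : QCode} {c : CDC} {I : CIT} {W J : PCode} (h : itemOK n τ k c I W)
    (hc : okC n c) (hJ : jokC n c J) (hs : smallC n c τ) :
    citVal I = JT (toCD n c) (pcPoly (n + 1) (pcMul (pcShift 1 n (pcMul (pcTrunc I.1 I.2.1.1) W)) (jC J)))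
      (k + n) (qval τ) := by
  have hS := small_of_smallC hs
  have hdet := jokC_det hc hJ
  have hW := trb_zero h.2.2.2
  rw [pcPoly_mul, pcPoly_pow, pcPoly_evC, pcPoly_qC] at hW
  have key : ∀ x : Fin n → ℝ, (∀ l, -1 ≤ x l ∧ x l ≤ 2) →
      pcEval I.1 I.2.1.1 (fun i => x (Fin.castLE h.1 i)) / pcEval I.1 I.2.1.2 (fun i => x (Fin.castLE h.1 i)) *
        (aeval (pt n (qval τ) x) (Matrix.det (Matrix.of (toCD n c).V)) /
          aeval (pt n (qval τ) x) (toCD n c).Q ^ n) =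
      aeval (pt n (qval τ) x)
        (pcPoly (n + 1) (pcMul (pcShift 1 n (pcMul (pcTrunc I.1 I.2.1.1) W)) (jC J))) /
          aeval (pt n (qval τ) x) (toCD n c).Q ^ (k + n) := by
    intro x hbox
    have hQ := half_le_Q hS hbox
    have h2 : aeval x (pcPoly n (pcTrunc I.1 I.2.1.2) * pcPoly n W) =
        aeval x (spQ n (qval τ) (toCD n c).Q ^ k) := by rw [hW]
    rw [map_mul, map_pow, trb_sp, trb_trunc h.1] at h2
    have hQ0 : aeval (pt n (qval τ) x) (toCD n c).Q ^ k ≠ 0 := pow_ne_zero _ (by linarith)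
    have hW0 : aeval x (pcPoly n W) ≠ 0 := by
      rw [← h2] at hQ0
      exact right_ne_zero_of_mul hQ0
    rw [pcPoly_mul, hdet, pcPoly_shift_succ, pcPoly_mul, map_mul, aeval_succ, map_mul, trb_trunc h.1,
      ← mul_div_mul_right _ _ hW0, h2, div_mul_div_comm, pow_add]
  have h1 : citVal I = ∫ y in domT I, (fun y => pcEval I.1 I.2.1.1 y / pcEval I.1 I.2.1.2 y) y := rfl
  rw [h1, ← integral_padT h.1 (isClosed_domT I).measurableSet, ← sig_eq_pad h,
    integral_sig ((okC_iff n c).1 hc) hS, JT]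
  refine setIntegral_congr_fun measurableSet_Icc fun u hu => ?_
  have h5 := key (fun l : Fin n => pts (toCD n c) (qval τ) u l.succ) (fun l => pts_box hS hu l)
  rw [← trb_pts (toCD n c) (qval τ) u] at h5
  exact h5

end Pool.Agent.Lib.MP_bbe012_lc.PT
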