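import Pool.Agent.Lib.MP_bbe012_lc.PT.TRed
import Pool.Agent.Lib.MP_bbe012_lc.PT.CDex
import Pool.Agent.Lib.MP_bbe012_lc.PP.FA
import Pool.Agent.Lib.MP_bbe012_lc.PP.FC

/-!
# Stage 3: universal charts
-/

namespace Pool.Agent.Lib.MP_bbe012_lc.PT

open MvPolynomial Pool.Agent.Lib.MP_bbe012_lc.PP

/-- The universal polynomial of degree at most `d`.

Proof. As `exists_universal` (PP/FA.lean), but simpler: `S` is the finite set of all the exponents with `m i ≤ d` for all `i`, `U = ∑ k, monomial (μ k) (X k)`, and `y k = coeff (μ k) f`. -/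
theorem exists_upoly (m d : ℕ) : ∃ (q : ℕ) (U : MvPolynomial (Fin m) (MvPolynomial (Fin q) ℤ)),
    ∀ (H : ℕ) (f : MvPolynomial (Fin m) ℤ), BddP d H f →
      ∃ y : Fin q → ℤ, (∀ i, (y i).natAbs ≤ H) ∧ map (eval y) U = f := by
  classical
  obtain ⟨S, hS⟩ : ∃ S : Finset (Fin m →₀ ℕ), ∀ e, e ∈ S ↔ ∀ i, e i ≤ d := by
    refine ⟨Finset.univ.finsupp fun _ => Finset.range (d + 1), fun e => ?_⟩
    rw [Finset.mem_finsupp_iff]
    constructor
    · rintro ⟨-, h2⟩ i
      have h4 := Finset.mem_range.1 (h2 i (Finset.mem_univ i))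
      omega
    · intro h4
      refine ⟨Finset.subset_univ _, fun i _ => Finset.mem_range.2 ?_⟩
      have h5 := h4 i
      omega
  obtain ⟨μ, hμ⟩ : ∃ μ : Fin S.card → (Fin m →₀ ℕ),
      ∀ f : (Fin m →₀ ℕ) → MvPolynomial (Fin m) ℤ, ∑ k, f (μ k) = ∑ e ∈ S, f e := by
    refine ⟨fun k => (S.equivFin.symm k).1, fun f => ?_⟩
    rw [← Finset.sum_coe_sort S f]
    exact Equiv.sum_comp S.equivFin.symm (fun m => f m.1)
  refine ⟨S.card, ∑ k, monomial (μ k) (X k), ?_⟩
  intro H f hf
  refine ⟨fun k => coeff (μ k) f, fun k => ?_, ?_⟩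
  · have h1 := hf.2 (μ k)
    rw [Int.abs_eq_natAbs] at h1
    exact_mod_cast h1
  · rw [map_sum]
    have h1 : ∀ k, map (eval fun k => coeff (μ k) f) (monomial (μ k) (X k)) =
        monomial (μ k) (coeff (μ k) f) := by
      intro k
      rw [map_monomial, eval_X]
    rw [Finset.sum_congr rfl fun k _ => h1 k, hμ (fun e => monomial e (coeff e f))]
    ext e
    rw [coeff_sum]
    simp only [coeff_monomial]
    rw [Finset.sum_ite_eq']
    by_cases h2 : e ∈ S
    · rw [if_pos h2]
    · rw [if_neg h2]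
      symm
      rw [hS] at h2
      push Not at h2
      obtain ⟨i, hi⟩ := h2
      by_contra h4
      have h5 := le_totalDegree (mem_support_iff.2 h4)
      have h6 : e i ≤ e.sum fun _ a => a := by
        rw [Finsupp.sum]
        by_cases h7 : e i = 0
        · omega
        · exact Finset.single_le_sum (f := fun j => e j) (fun _ _ => Nat.zero_le _)
            (Finsupp.mem_support_iff.2 h7)
      have h8 := hf.1
      omega

/-- Several universal polynomials with independent parameters.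

Proof. `q = r * q₀`, `U i = map (rename fun k => finProdFinEquiv (i, k)) U₀`, `y = fun k => y_i (finProdFinEquiv.symm k).2` with `i = (finProdFinEquiv.symm k).1`; `map (eval y) (map (rename g) U₀) = map (eval (y ∘ g)) U₀` (`map_map`, `eval_rename`). -/
theorem exists_upolys (r m d : ℕ) : ∃ (q : ℕ) (U : Fin r → MvPolynomial (Fin m) (MvPolynomial (Fin q) ℤ)),
    ∀ (H : ℕ) (f : Fin r → MvPolynomial (Fin m) ℤ), (∀ i, BddP d H (f i)) →
      ∃ y : Fin q → ℤ, (∀ i, (y i).natAbs ≤ H) ∧ ∀ i, map (eval y) (U i) = f i := by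
  obtain ⟨q₀, U₀, hU₀⟩ := exists_upoly m d
  refine ⟨r * q₀, fun i => map (rename fun k => finProdFinEquiv (i, k)).toRingHom U₀, ?_⟩
  intro H f hf
  choose y hy1 hy2 using fun i => hU₀ H (f i) (hf i)
  refine ⟨fun k => y (finProdFinEquiv.symm k).1 (finProdFinEquiv.symm k).2, fun k => hy1 _ _,
    fun i => ?_⟩
  have h1 : (eval fun k => y (finProdFinEquiv.symm k).1 (finProdFinEquiv.symm k).2).comp
      (rename (R := ℤ) fun k => finProdFinEquiv (i, k)).toRingHom = eval (y i) := by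
    refine MvPolynomial.ringHom_ext (fun a => ?_) (fun k => ?_)
    · simp
    · show eval (fun k => y (finProdFinEquiv.symm k).1 (finProdFinEquiv.symm k).2)
        (rename (R := ℤ) (fun k => finProdFinEquiv (i, k)) (X k)) = eval (y i) (X k)
      rw [rename_X, eval_X, eval_X, Equiv.symm_apply_apply]
  rw [map_map, h1]
  exact hy2 i

/-- The same for a finite type of indices. -/
private theorem TUniv_upolys (ι : Type) [Fintype ι] (m d : ℕ) :
    ∃ (q : ℕ) (U : ι → MvPolynomial (Fin m) (MvPolynomial (Fin q) ℤ)),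
    ∀ (H : ℕ) (f : ι → MvPolynomial (Fin m) ℤ), (∀ i, BddP d H (f i)) →
      ∃ y : Fin q → ℤ, (∀ i, (y i).natAbs ≤ H) ∧ ∀ i, map (eval y) (U i) = f i := by
  classical
  obtain ⟨q, U, hU⟩ := exists_upolys (Fintype.card ι) m d
  refine ⟨q, fun i => U (Fintype.equivFin ι i), fun H f hf => ?_⟩
  obtain ⟨y, hy1, hy2⟩ := hU H (fun j => f ((Fintype.equivFin ι).symm j)) (fun j => hf _)
  refine ⟨y, hy1, fun i => ?_⟩
  have h1 := hy2 (Fintype.equivFin ι i)
  rwa [Equiv.symm_apply_apply] at h1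

private theorem TUniv_prod {N : ℕ} {R : Type} [CommRing R] {ι : Type} [DecidableEq ι] (s : Finset ι)
    (f : ι → TP N R) : ∃ g : TP N R, ∏ b ∈ s, (1 + X 0 * f b) = 1 + X 0 * g := by
  induction s using Finset.induction_on with
  | empty => exact ⟨0, by rw [Finset.prod_empty, mul_zero, add_zero]⟩
  | insert a s ha ih =>
    obtain ⟨g, hg⟩ := ih
    refine ⟨f a + g + X 0 * (f a * g), ?_⟩
    rw [Finset.prod_insert ha, hg]
    ring

/-- Universal charts.

Proof. `exists_upolys` for `r = μ * (n + n + 1)` (`finProdFinEquiv`; `Fin (n + n + 1)` codes the `p l`, the `q l` and `s`) gives `p k l`, `q k l`, `s k` over `D = MvPolynomial (Fin q) ℤ`; `exists_cd (p k) (q k) (s k)` the charts `c k`. Let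
`F = ∏ b, rename (bidx n ν b) (c (ty b)).Q`; it is `1 + X 0 * s₀` (`atZD F = 1`, see `fA_bidx` in PP/FA.lean, and `exists_div_X0` in Th.lean, or directly: each factor is `1 + X 0 * _`, since `bidx` fixes `0`); `exists_cd` for
`P j = rename (bidx n ν b) (p (ty b) l)`, `(b, l) = finProdFinEquiv.symm j`, gives `T` with `F ∣ T.Q`, and each factor of `F` divides `T.Q`. -/
theorem exists_ucharts (n d μ ν : ℕ) (ty : Fin ν → Fin μ) :
    ∃ (q : ℕ) (c : Fin μ → CD n (MvPolynomial (Fin q) ℤ)) (T : CD (ν * n) (MvPolynomial (Fin q) ℤ))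
      (cof : Fin ν → TP (ν * n) (MvPolynomial (Fin q) ℤ)),
      (∀ k, (c k).Ok) ∧ T.Ok ∧
      (∀ b l, T.p (finProdFinEquiv (b, l)) = rename (bidx n ν b) ((c (ty b)).p l)) ∧
      (∀ b l, T.q (finProdFinEquiv (b, l)) = rename (bidx n ν b) ((c (ty b)).q l)) ∧
      (∀ b, rename (bidx n ν b) (c (ty b)).Q * cof b = T.Q) ∧
      ∀ (H : ℕ) (P : Fin μ → Pert n), (∀ k, (P k).Bdd d H) → ∃ y : Fin q → ℤ, (∀ i, (y i).natAbs ≤ H) ∧
        ∀ k, (∀ l, map (eval y) ((c k).p l) = (P k).p l) ∧ (∀ l, map (eval y) ((c k).q l) = (P k).q l) ∧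
          (1 + X 0 * (P k).s) ∣ map (eval y) (c k).Q := by
  classical
  obtain ⟨q, U, hU⟩ := TUniv_upolys (Fin μ × (Fin n ⊕ (Fin n ⊕ Unit))) (n + 1) d
  choose c hc1 hc2 hc3 hc4 using fun k : Fin μ => exists_cd (n := n)
    (fun l => U (k, Sum.inl l)) (fun l => U (k, Sum.inr (Sum.inl l))) (U (k, Sum.inr (Sum.inr ())))
  have hQ : ∀ b : Fin ν, rename (bidx n ν b) (c (ty b)).Q =
      1 + X 0 * rename (bidx n ν b) (c (ty b)).s := by
    intro b
    rw [CD.Q, map_add, map_one, map_mul, rename_X]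
    rfl
  obtain ⟨g, hg⟩ := TUniv_prod (N := ν * n) (Finset.univ : Finset (Fin ν))
    (fun b => rename (bidx n ν b) (c (ty b)).s)
  obtain ⟨T, hT1, hT2, hT3, hT4⟩ := exists_cd (n := ν * n) (R := MvPolynomial (Fin q) ℤ)
    (fun j => rename (bidx n ν (finProdFinEquiv.symm j).1)
      ((c (ty (finProdFinEquiv.symm j).1)).p (finProdFinEquiv.symm j).2))
    (fun j => rename (bidx n ν (finProdFinEquiv.symm j).1)
      ((c (ty (finProdFinEquiv.symm j).1)).q (finProdFinEquiv.symm j).2)) g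
  have hdv : ∀ b : Fin ν, ∃ w, T.Q = rename (bidx n ν b) (c (ty b)).Q * w := by
    intro b
    have h1 : rename (bidx n ν b) (c (ty b)).Q ∣ T.Q := by
      refine Dvd.dvd.trans ?_ hT4
      rw [← hg, hQ b]
      exact Finset.dvd_prod_of_mem
        (fun b => (1 + X 0 * rename (bidx n ν b) (c (ty b)).s : TP (ν * n) (MvPolynomial (Fin q) ℤ)))
        (Finset.mem_univ b)
    exact h1
  choose cof hcof using hdv
  refine ⟨q, c, T, cof, hc1, hT1, ?_, ?_, fun b => (hcof b).symm, ?_⟩
  · intro b l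
    rw [hT2]
    dsimp only
    rw [Equiv.symm_apply_apply]
  · intro b l
    rw [hT3]
    dsimp only
    rw [Equiv.symm_apply_apply]
  · intro H P hP
    obtain ⟨y, hy1, hy2⟩ := hU H
      (fun x => Sum.elim (P x.1).p (Sum.elim (P x.1).q fun _ => (P x.1).s) x.2) (by
        rintro ⟨k, a | a | a⟩
        · exact (hP k).1 a
        · exact (hP k).2.1 a
        · exact (hP k).2.2)
    refine ⟨y, hy1, fun k => ⟨fun l => ?_, fun l => ?_, ?_⟩⟩
    · rw [hc2]
      exact hy2 (k, Sum.inl l)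
    · rw [hc3]
      exact hy2 (k, Sum.inr (Sum.inl l))
    · have h1 := map_dvd (map (eval y)) (hc4 k)
      rw [map_add, map_one, map_mul, map_X] at h1
      have h2 := hy2 (k, Sum.inr (Sum.inr ()))
      dsimp only [Sum.elim_inr] at h2
      rw [h2] at h1
      exact h1

/-- Padding with variables. -/
noncomputable def Pert.pad {m n : ℕ} (h : m ≤ n) (T : Pert m) : Pert n where
  p l := if hl : (l : ℕ) < m then rename (Fin.castLE (Nat.succ_le_succ h)) (T.p ⟨l, hl⟩) else 0
  q l := if hl : (l : ℕ) < m then rename (Fin.castLE (Nat.succ_le_succ h)) (T.q ⟨l, hl⟩) else 0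
  s := rename (Fin.castLE (Nat.succ_le_succ h)) T.s

private theorem TUniv_bdd_rename {m n d H : ℕ} {f : MvPolynomial (Fin m) ℤ} (hf : BddP d H f)
    (g : Fin m → Fin n) (hg : Function.Injective g) : BddP d H (rename g f) := by
  refine ⟨(totalDegree_rename_le g f).trans hf.1, fun e => ?_⟩
  by_cases h : ∃ u : Fin m →₀ ℕ, u.mapDomain g = e
  · obtain ⟨u, rfl⟩ := h
    rw [coeff_rename_mapDomain g hg]
    exact hf.2 u
  · rw [coeff_rename_eq_zero g f e (fun u hu => absurd ⟨u, hu⟩ h), abs_zero]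
    exact Int.natCast_nonneg H

private theorem TUniv_bdd_zero {m d H : ℕ} : BddP d H (0 : MvPolynomial (Fin m) ℤ) := by
  refine ⟨?_, fun e => ?_⟩
  · rw [totalDegree_zero]
    exact Nat.zero_le d
  · rw [coeff_zero, abs_zero]
    exact Int.natCast_nonneg H

/-- Proof: `totalDegree_rename_le`; `coeff_rename_mapDomain` and `coeff_rename_eq_zero` (injective renaming). -/
theorem pad_bdd {m n d H : ℕ} (h : m ≤ n) {T : Pert m} (hT : T.Bdd d H) : (T.pad h).Bdd d H := by
  refine ⟨fun l => ?_, fun l => ?_, ?_⟩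
  · by_cases hl : (l : ℕ) < m
    · simp only [Pert.pad, dif_pos hl]
      exact TUniv_bdd_rename (hT.1 _) _ (Fin.castLE_injective _)
    · simp only [Pert.pad, dif_neg hl]
      exact TUniv_bdd_zero
  · by_cases hl : (l : ℕ) < m
    · simp only [Pert.pad, dif_pos hl]
      exact TUniv_bdd_rename (hT.2.1 _) _ (Fin.castLE_injective _)
    · simp only [Pert.pad, dif_neg hl]
      exact TUniv_bdd_zero
  · exact TUniv_bdd_rename hT.2.2 _ (Fin.castLE_injective _)

/-- The integral `I` is supported on the chart `c`, at the level of polynomials. -/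
def ItemSem (n : ℕ) (τ : ℚ) (c : CD n ℚ) (I : CIT) : Prop :=
  I.1 ≤ n ∧ I.2.2.length = I.1 ∧
    (∀ l : Fin n, pcPoly n (domA I l) = spQ n τ (c.A l) ∧ pcPoly n (domB I l) = spQ n τ (c.B l)) ∧
    ∃ k : ℕ, pcPoly n (pcTrunc I.1 I.2.1.2) ∣ spQ n τ c.Q ^ k

private theorem TUniv_spec {m n : ℕ} (h : m ≤ n) (τ : ℚ) (f : MvPolynomial (Fin (m + 1)) ℤ) :
    rename (Fin.castLE h) (specialise m τ f) =
      spQ n τ (map (Int.castRingHom ℚ) (rename (Fin.castLE (Nat.succ_le_succ h)) f)) := by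
  have h1 : ((rename (Fin.castLE h) : MvPolynomial (Fin m) ℚ →ₐ[ℚ] MvPolynomial (Fin n) ℚ) :
        MvPolynomial (Fin m) ℚ →+* MvPolynomial (Fin n) ℚ).comp
      (((spQ m τ : P1 m →ₐ[ℚ] MvPolynomial (Fin m) ℚ) : P1 m →+* MvPolynomial (Fin m) ℚ).comp
        (map (Int.castRingHom ℚ))) =
      (((spQ n τ : P1 n →ₐ[ℚ] MvPolynomial (Fin n) ℚ) : P1 n →+* MvPolynomial (Fin n) ℚ).comp
        (map (Int.castRingHom ℚ))).comp
        ((rename (Fin.castLE (Nat.succ_le_succ h)) :
          MvPolynomial (Fin (m + 1)) ℤ →ₐ[ℤ] MvPolynomial (Fin (n + 1)) ℤ) :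
          MvPolynomial (Fin (m + 1)) ℤ →+* MvPolynomial (Fin (n + 1)) ℤ) := by
    refine MvPolynomial.ringHom_ext (fun a => ?_) (fun i => ?_)
    · simp [spQ]
    · refine Fin.cases ?_ (fun j => ?_) i
      · show rename (Fin.castLE h) (spQ m τ (map (Int.castRingHom ℚ) (X 0))) =
          spQ n τ (map (Int.castRingHom ℚ) (rename (Fin.castLE (Nat.succ_le_succ h)) (X 0)))
        rw [rename_X, map_X, map_X]
        unfold spQ
        rw [aeval_X, aeval_X]
        show rename (Fin.castLE h) (C τ) = C τ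
        rw [rename_C]
      · show rename (Fin.castLE h) (spQ m τ (map (Int.castRingHom ℚ) (X j.succ))) =
          spQ n τ (map (Int.castRingHom ℚ) (rename (Fin.castLE (Nat.succ_le_succ h)) (X j.succ)))
        rw [rename_X, map_X, map_X]
        unfold spQ
        rw [aeval_X, aeval_X]
        show rename (Fin.castLE h) (X j) = X (Fin.castLE h j)
        rw [rename_X]
  rw [specialise_eq]
  exact RingHom.congr_fun h1 f

private theorem TUniv_spQ0 (n : ℕ) (τ : ℚ) : spQ n τ (X 0) = C τ := by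
  unfold spQ
  rw [aeval_X]
  rfl

private theorem TUniv_spQs (n : ℕ) (τ : ℚ) (l : Fin n) : spQ n τ (X l.succ) = X l := by
  unfold spQ
  rw [aeval_X]
  rfl

/-- Proof. `subst` the equality `I.1 = m` (write `I = (m, _)`). For `l < m`: `pcPoly n (pcTrunc m a) = rename (Fin.castLE h) (pcPoly m a)` (`pcPoly_trunc_castLE`) and `rename (Fin.castLE h) (specialise m τ f) = spQ n τ (map _ (rename (Fin.castLE _) f))` (`specialise_eq` (PP/FC.lean),
an identity of algebra homomorphisms). For `m ≤ l`: `c.p l = 0`, `c.q l = 0`, so `A l = X l.succ`, `B l = 1`. The last condition: `D ∣ (1 + τ s(τ, x)) ^ k`, apply `rename`, and `1 + X 0 * s ∣ c.Q`. -/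
theorem itemSem_of_supp {m n : ℕ} (h : m ≤ n) {T : Pert m} {τ : ℚ} {I : CIT} (hI : Supp τ T I) {c : CD n ℚ}
    (hp : ∀ l, c.p l = map (Int.castRingHom ℚ) ((T.pad h).p l))
    (hq : ∀ l, c.q l = map (Int.castRingHom ℚ) ((T.pad h).q l))
    (hQ : (1 + X 0 * map (Int.castRingHom ℚ) (T.pad h).s) ∣ c.Q) : ItemSem n τ c I := by
  obtain ⟨m', J⟩ := I
  obtain ⟨h1, h2, h3, k, h4⟩ := hI
  dsimp only at h1 h2 h3 h4
  subst h1
  refine ⟨h, h2, fun l => ?_, k, ?_⟩
  · by_cases hl : (l : ℕ) < m'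
    · have hA : domA (m', J) l = pcTrunc m' (J.2.getD l ([], [])).1 := by
        unfold domA
        exact if_pos hl
      have hB : domB (m', J) l = pcTrunc m' (J.2.getD l ([], [])).2 := by
        unfold domB
        exact if_pos hl
      have h5 := h3 ⟨l, hl⟩
      dsimp only at h5
      have hpl : (T.pad h).p l = rename (Fin.castLE (Nat.succ_le_succ h)) (T.p ⟨l, hl⟩) := by
        unfold Pert.pad
        exact dif_pos hl
      have hql : (T.pad h).q l = rename (Fin.castLE (Nat.succ_le_succ h)) (T.q ⟨l, hl⟩) := by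
        unfold Pert.pad
        exact dif_pos hl
      constructor
      · rw [hA, pcPoly_trunc_castLE h, h5.1, map_add, map_mul, rename_X, rename_C,
          TUniv_spec h, CD.A, map_add, map_mul, TUniv_spQ0, TUniv_spQs, hp, hpl]
        rfl
      · rw [hB, pcPoly_trunc_castLE h, h5.2, map_add, map_mul, map_one, rename_C,
          TUniv_spec h, CD.B, map_add, map_mul, map_one, TUniv_spQ0, hq, hql]
    · have hA : domA (m', J) l = pcVar l := by
        unfold domA
        exact if_neg hl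
      have hB : domB (m', J) l = pcNat 1 := by
        unfold domB
        exact if_neg hl
      have hpl : (T.pad h).p l = 0 := by
        unfold Pert.pad
        exact dif_neg hl
      have hql : (T.pad h).q l = 0 := by
        unfold Pert.pad
        exact dif_neg hl
      constructor
      · rw [hA, pcPoly_var l.isLt, CD.A, hp, hpl, map_zero, mul_zero, add_zero, TUniv_spQs]
      · rw [hB, pcPoly_nat, CD.B, hq, hql, map_zero, mul_zero, add_zero, map_one, Nat.cast_one,
          C_1]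
  · have h5 := map_dvd (rename (Fin.castLE h) :
      MvPolynomial (Fin m') ℚ →ₐ[ℚ] MvPolynomial (Fin n) ℚ) h4
    have h6 := map_dvd (spQ n τ) hQ
    rw [pcPoly_trunc_castLE h]
    refine h5.trans ?_
    rw [map_pow]
    refine pow_dvd_pow_of_dvd ?_ k
    refine Dvd.dvd.trans ?_ h6
    rw [map_add, map_mul, map_one, rename_C, TUniv_spec h, map_add, map_mul, map_one, TUniv_spQ0]
    exact dvd_rfl

end Pool.Agent.Lib.MP_bbe012_lc.PT
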