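import Pool.Agent.Lib.MP_bbe012_lc.PT.CD

/-!
# Stage 3: the formal inverse
-/

namespace Pool.Agent.Lib.MP_bbe012_lc.PT

open MvPolynomial Pool.Agent.Lib.MP_bbe012_lc.PP

variable {n : ℕ} {R R' : Type} [CommRing R] [CommRing R']

theorem th_C (φ : Fin n → PowerSeries (MvPolynomial (Fin n) R)) (a : R) :
    th φ (C a) = PowerSeries.C (C a) := by
  rw [th, eval₂Hom_C]
  rfl

theorem th_X0 (φ : Fin n → PowerSeries (MvPolynomial (Fin n) R)) : th φ (X 0) = PowerSeries.X := by
  rw [th, eval₂Hom_X']
  rfl

theorem th_Xs (φ : Fin n → PowerSeries (MvPolynomial (Fin n) R)) (l : Fin n) : th φ (X l.succ) = φ l := by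
  rw [th, eval₂Hom_X']
  rfl

/-- Proof: `MvPolynomial.ringHom_ext`. -/
theorem cc_th {φ : Fin n → PowerSeries (MvPolynomial (Fin n) R)}
    (h : ∀ l, PowerSeries.constantCoeff (φ l) = X l) (G : TP n R) :
    PowerSeries.constantCoeff (th φ G) = atZD n R G := by
  have h1 : (PowerSeries.constantCoeff (R := MvPolynomial (Fin n) R)).comp (th φ) =
      (atZD n R).toRingHom := by
    refine MvPolynomial.ringHom_ext (fun a => ?_) (fun i => ?_)
    · rw [RingHom.comp_apply, th_C, PowerSeries.constantCoeff_C]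
      show C a = atZD n R (C a)
      rw [atZD, aeval_C]
      rfl
    · rw [RingHom.comp_apply]
      show _ = atZD n R (X i)
      rw [atZD, aeval_X]
      refine Fin.cases ?_ (fun l => ?_) i
      · rw [th_X0, PowerSeries.constantCoeff_X]
        rfl
      · rw [th_Xs, h]
        rfl
  exact RingHom.congr_fun h1 G

/-- Every polynomial is the sum of its value at `t = 0` and a multiple of `t`. Proof: induction on `G` (see `CodeC_div` in PP/CodeC.lean). -/
theorem exists_div_X0 (G : TP n R) : ∃ V : TP n R, G = rename Fin.succ (atZD n R G) + X 0 * V := by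
  have h0 : atZD n R (X 0) = 0 := by
    rw [atZD, aeval_X]
    rfl
  have h1 : ∀ l : Fin n, atZD n R (X l.succ) = X l := fun l => by
    rw [atZD, aeval_X]
    rfl
  induction G using MvPolynomial.induction_on with
  | C a =>
    refine ⟨0, ?_⟩
    have h2 : atZD n R (C a) = C a := by
      rw [atZD, aeval_C]
      rfl
    rw [h2, rename_C, mul_zero, add_zero]
  | add p q hp hq =>
    obtain ⟨U, hU⟩ := hp
    obtain ⟨V, hV⟩ := hq
    refine ⟨U + V, ?_⟩
    rw [map_add, map_add]
    linear_combination hU + hV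
  | mul_X p i hp =>
    obtain ⟨U, hU⟩ := hp
    refine Fin.cases ?_ (fun l => ?_) i
    · refine ⟨p, ?_⟩
      rw [map_mul, map_mul, h0, map_zero]
      ring
    · refine ⟨U * X l.succ, ?_⟩
      rw [map_mul, map_mul, h1, rename_X]
      linear_combination (X l.succ) * hU

private theorem th_congr {φ ψ : Fin n → PowerSeries (MvPolynomial (Fin n) R)} {j : ℕ}
    (h : ∀ l, (PowerSeries.X : PowerSeries (MvPolynomial (Fin n) R)) ^ j ∣ φ l - ψ l)
    (G : TP n R) :
    (PowerSeries.X : PowerSeries (MvPolynomial (Fin n) R)) ^ j ∣ th φ G - th ψ G := by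
  induction G using MvPolynomial.induction_on with
  | C a =>
    rw [th_C, th_C, sub_self]
    exact dvd_zero _
  | add p q hp hq =>
    have h1 : th φ (p + q) - th ψ (p + q) = (th φ p - th ψ p) + (th φ q - th ψ q) := by
      rw [map_add, map_add]
      ring
    rw [h1]
    exact dvd_add hp hq
  | mul_X p i hp =>
    have h1 : th φ (p * X i) - th ψ (p * X i) =
        th φ p * (th φ (X i) - th ψ (X i)) + (th φ p - th ψ p) * th ψ (X i) := by
      rw [map_mul, map_mul]
      ring
    rw [h1]
    refine dvd_add (Dvd.dvd.mul_left ?_ _) (Dvd.dvd.mul_right hp _)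
    refine Fin.cases ?_ (fun l => ?_) i
    · rw [th_X0, th_X0, sub_self]
      exact dvd_zero _
    · rw [th_Xs, th_Xs]
      exact h l

private noncomputable def thF (c : CD n R) (ψ : Fin n → PowerSeries (MvPolynomial (Fin n) R))
    (l : Fin n) : PowerSeries (MvPolynomial (Fin n) R) :=
  PowerSeries.C (X l) + PowerSeries.X * (PowerSeries.C (X l) * th ψ (c.q l) - th ψ (c.p l))

private theorem thF_congr (c : CD n R) {φ ψ : Fin n → PowerSeries (MvPolynomial (Fin n) R)} {j : ℕ}
    (h : ∀ l, (PowerSeries.X : PowerSeries (MvPolynomial (Fin n) R)) ^ j ∣ φ l - ψ l) (l : Fin n) :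
    (PowerSeries.X : PowerSeries (MvPolynomial (Fin n) R)) ^ (j + 1) ∣ thF c φ l - thF c ψ l := by
  have h1 : thF c φ l - thF c ψ l = PowerSeries.X * (PowerSeries.C (X l) *
      (th φ (c.q l) - th ψ (c.q l)) - (th φ (c.p l) - th ψ (c.p l))) := by
    unfold thF
    ring
  rw [h1, pow_succ']
  exact mul_dvd_mul_left _ (dvd_sub (Dvd.dvd.mul_left (th_congr h _) _) (th_congr h _))

private theorem th_kill {f : PowerSeries (MvPolynomial (Fin n) R)}
    (h : ∀ j, (PowerSeries.X : PowerSeries (MvPolynomial (Fin n) R)) ^ j ∣ f) : f = 0 := by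
  ext1 k
  rw [map_zero]
  exact (PowerSeries.X_pow_dvd_iff.1 (h (k + 1))) k (Nat.lt_succ_self k)

private noncomputable def thIt (c : CD n R) : ℕ → Fin n → PowerSeries (MvPolynomial (Fin n) R)
  | 0 => fun l => PowerSeries.C (X l)
  | k + 1 => thF c (thIt c k)

private theorem thIt_step (c : CD n R) (k : ℕ) (l : Fin n) :
    (PowerSeries.X : PowerSeries (MvPolynomial (Fin n) R)) ^ (k + 1) ∣
      thIt c (k + 1) l - thIt c k l := by
  induction k generalizing l with
  | zero =>
    have h1 : thIt c (0 + 1) l - thIt c 0 l = PowerSeries.X * (PowerSeries.C (X l) *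
        th (thIt c 0) (c.q l) - th (thIt c 0) (c.p l)) := by
      show thF c (thIt c 0) l - PowerSeries.C (X l) = _
      unfold thF
      ring
    rw [h1, zero_add, pow_one]
    exact dvd_mul_right _ _
  | succ k ih => exact thF_congr c ih l

private theorem thIt_coeff (c : CD n R) (i k : ℕ) (l : Fin n) :
    PowerSeries.coeff i (thIt c (i + k) l) = PowerSeries.coeff i (thIt c i l) := by
  induction k with
  | zero => rfl
  | succ k ih =>
    rw [← ih, ← sub_eq_zero, ← map_sub]
    exact (PowerSeries.X_pow_dvd_iff.1 (thIt_step c (i + k) l)) i (by omega)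

/-- Existence of the formal inverse.

Proof. The equation is `φ_l = u_l + t * (u_l * th φ (q_l) - th φ (p_l))` (with `u_l = C (X l)`). Define `φ^0_l = C (X l)`, `φ^(k+1)_l = C (X l) + X * (C (X l) * th φ^k (q_l) - th φ^k (p_l))`.
If `X ^ j ∣ φ_l - ψ_l` for all `l`, then `X ^ j ∣ th φ G - th ψ G` for every `G` (induction on `G`), so `X ^ (k + 1) ∣ φ^(k+1)_l - φ^k_l` by induction on `k`. Let `φ_l = mk fun k => coeff k (φ^k_l)`; then
`X ^ (k + 1) ∣ φ_l - φ^k_l` for all `k`, so both sides of the equation are congruent modulo `X ^ (k + 1)` for all `k` (`PowerSeries.X_pow_dvd_iff`). -/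
theorem exists_phi (c : CD n R) : ∃ φ, IsPhi c φ := by
  have hd : ∀ k l, (PowerSeries.X : PowerSeries (MvPolynomial (Fin n) R)) ^ (k + 1) ∣
      (PowerSeries.mk fun i => PowerSeries.coeff i (thIt c i l)) - thIt c k l := by
    intro k l
    rw [PowerSeries.X_pow_dvd_iff]
    intro i hi
    have h1 := thIt_coeff c i (k - i) l
    have h2 : i + (k - i) = k := by omega
    rw [h2] at h1
    rw [map_sub, PowerSeries.coeff_mk, h1, sub_self]
  have hfix : ∀ l, (PowerSeries.mk fun i => PowerSeries.coeff i (thIt c i l)) =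
      thF c (fun l => PowerSeries.mk fun i => PowerSeries.coeff i (thIt c i l)) l := by
    intro l
    rw [← sub_eq_zero]
    apply th_kill
    intro j
    have h1 := hd (j + 1) l
    have h2 := thF_congr c (hd j) l
    have h3 : thF c (thIt c j) l = thIt c (j + 1) l := rfl
    have h4 := dvd_sub h1 h2
    rw [h3] at h4
    refine dvd_trans (pow_dvd_pow _ (by omega : j ≤ j + 1 + 1)) (dvd_trans h4 (dvd_of_eq ?_))
    ring
  refine ⟨fun l => PowerSeries.mk fun i => PowerSeries.coeff i (thIt c i l), ⟨fun l => ?_,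
    fun l => ?_⟩⟩
  · show PowerSeries.constantCoeff (PowerSeries.mk fun i => PowerSeries.coeff i (thIt c i l)) = X l
    rw [hfix l, thF, map_add, map_mul, PowerSeries.constantCoeff_X, zero_mul, add_zero,
      PowerSeries.constantCoeff_C]
  · have h1 := hfix l
    unfold thF at h1
    rw [CD.A, CD.B, map_add, map_add, map_mul, map_mul, map_one, th_X0, th_Xs]
    linear_combination h1

/-- Proof: the equation `φ_l = u_l + t * (u_l * th φ (q_l) - th φ (p_l))`. -/
theorem IsPhi.fix {c : CD n R} {φ : Fin n → PowerSeries (MvPolynomial (Fin n) R)} (h : IsPhi c φ) (l : Fin n) :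
    φ l = PowerSeries.C (X l) + PowerSeries.X * (PowerSeries.C (X l) * th φ (c.q l) - th φ (c.p l)) := by
  have h1 := h.eq l
  rw [CD.A, CD.B, map_add, map_add, map_mul, map_mul, map_one, th_X0, th_Xs] at h1
  linear_combination h1

/-- Uniqueness. Proof: if `X ^ j ∣ φ_l - ψ_l` for all `l`, then `X ^ (j + 1) ∣ φ_l - ψ_l` by `IsPhi.fix`. -/
theorem phi_unique {c : CD n R} {φ ψ : Fin n → PowerSeries (MvPolynomial (Fin n) R)} (h : IsPhi c φ)
    (h' : IsPhi c ψ) : φ = ψ := by
  have h1 : ∀ (j : ℕ) (l : Fin n),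
      (PowerSeries.X : PowerSeries (MvPolynomial (Fin n) R)) ^ j ∣ φ l - ψ l := by
    intro j
    induction j with
    | zero =>
      intro l
      rw [pow_zero]
      exact one_dvd _
    | succ j ih =>
      intro l
      have h2 := thF_congr c ih l
      have h3 : thF c φ l = φ l := (h.fix l).symm
      have h4 : thF c ψ l = ψ l := (h'.fix l).symm
      rwa [h3, h4] at h2
  funext l
  rw [← sub_eq_zero]
  exact th_kill fun j => h1 j l

private theorem th_dvd {φ : Fin n → PowerSeries (MvPolynomial (Fin n) R)}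
    (h : ∀ l, PowerSeries.constantCoeff (φ l) = X l) (k : ℕ) (G : TP n R)
    (hG : (PowerSeries.X : PowerSeries (MvPolynomial (Fin n) R)) ^ k ∣ th φ G) : X 0 ^ k ∣ G := by
  induction k generalizing G with
  | zero =>
    rw [pow_zero]
    exact one_dvd _
  | succ k ih =>
    obtain ⟨V, hV⟩ := exists_div_X0 G
    have h1 : atZD n R G = 0 := by
      rw [← cc_th h, ← PowerSeries.coeff_zero_eq_constantCoeff_apply]
      exact (PowerSeries.X_pow_dvd_iff.1 hG) 0 (Nat.succ_pos k)
    rw [h1, map_zero, zero_add] at hV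
    rw [hV, map_mul, th_X0] at hG
    have h2 : (PowerSeries.X : PowerSeries (MvPolynomial (Fin n) R)) ^ k ∣ th φ V := by
      rw [PowerSeries.X_pow_dvd_iff] at hG ⊢
      intro m hm
      have h3 := hG (m + 1) (by omega)
      rwa [PowerSeries.coeff_succ_X_mul] at h3
    rw [hV, pow_succ']
    exact mul_dvd_mul_left _ (ih V h2)

/-- Proof: write `G = X 0 ^ k * G₁` with `atZD G₁ ≠ 0` (`exists_div_X0`; if `G ≠ 0` is divisible by all powers of `X 0`, look at degrees), then `th φ G = X ^ k * th φ G₁` and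
`constantCoeff (th φ G₁) = atZD G₁ ≠ 0`. -/
theorem th_injective {φ : Fin n → PowerSeries (MvPolynomial (Fin n) R)}
    (h : ∀ l, PowerSeries.constantCoeff (φ l) = X l) : Function.Injective (th φ) := by
  rw [injective_iff_map_eq_zero]
  intro G hG
  by_contra hne
  obtain ⟨m, hm⟩ := MvPolynomial.ne_zero_iff.1 hne
  have h1 : (X 0 : TP n R) ^ (m 0 + 1) ∣ G := th_dvd h (m 0 + 1) G (by
    rw [hG]
    exact dvd_zero _)
  obtain ⟨V, hV⟩ := h1
  apply hm
  rw [hV, X_pow_eq_monomial, coeff_monomial_mul', if_neg]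
  intro h2
  have h3 := h2 0
  rw [Finsupp.single_eq_same] at h3
  omega

/-- Proof: induction on `k` with `exists_div_X0` and `cc_th`. -/
theorem X_pow_dvd_th {φ : Fin n → PowerSeries (MvPolynomial (Fin n) R)}
    (h : ∀ l, PowerSeries.constantCoeff (φ l) = X l) (k : ℕ) (G : TP n R)
    (hG : (PowerSeries.X : PowerSeries (MvPolynomial (Fin n) R)) ^ k ∣ th φ G) : X 0 ^ k ∣ G := by
  exact th_dvd h k G hG

private theorem th_map (f : R →+* R') (φ : Fin n → PowerSeries (MvPolynomial (Fin n) R))
    (G : TP n R) :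
    th (fun l => PowerSeries.map (MvPolynomial.map f) (φ l)) (MvPolynomial.map f G) =
      PowerSeries.map (MvPolynomial.map f) (th φ G) := by
  have h : (th (fun l => PowerSeries.map (MvPolynomial.map f) (φ l))).comp
      (MvPolynomial.map f) = (PowerSeries.map (MvPolynomial.map f)).comp (th φ) := by
    refine MvPolynomial.ringHom_ext (fun a => ?_) (fun i => ?_)
    · rw [RingHom.comp_apply, RingHom.comp_apply, MvPolynomial.map_C, th_C, th_C,
        PowerSeries.map_C, MvPolynomial.map_C]
    · rw [RingHom.comp_apply, RingHom.comp_apply, MvPolynomial.map_X]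
      refine Fin.cases ?_ (fun l => ?_) i
      · rw [th_X0, th_X0, PowerSeries.map_X]
      · rw [th_Xs, th_Xs]
  exact RingHom.congr_fun h G

/-- Change of coefficients. Proof: `MvPolynomial.ringHom_ext` for `th`. -/
theorem map_isPhi (f : R →+* R') {c : CD n R} {φ : Fin n → PowerSeries (MvPolynomial (Fin n) R)} (h : IsPhi c φ) :
    IsPhi (c.map f) fun l => PowerSeries.map (MvPolynomial.map f) (φ l) := by
  refine ⟨fun l => ?_, fun l => ?_⟩
  · show PowerSeries.constantCoeff (PowerSeries.map (MvPolynomial.map f) (φ l)) = X l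
    rw [← PowerSeries.coeff_zero_eq_constantCoeff_apply, PowerSeries.coeff_map,
      PowerSeries.coeff_zero_eq_constantCoeff_apply, h.c0, MvPolynomial.map_X]
  · have hA : (c.map f).A l = MvPolynomial.map f (c.A l) := by
      rw [CD.A, CD.A, map_add, map_mul, MvPolynomial.map_X, MvPolynomial.map_X]
      rfl
    have hB : (c.map f).B l = MvPolynomial.map f (c.B l) := by
      rw [CD.B, CD.B, map_add, map_mul, map_one, MvPolynomial.map_X]
      rfl
    rw [hA, hB, th_map, th_map, h.eq, map_mul, PowerSeries.map_C, MvPolynomial.map_X]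

theorem map_th (f : R →+* R') (φ : Fin n → PowerSeries (MvPolynomial (Fin n) R)) (G : TP n R) :
    th (fun l => PowerSeries.map (MvPolynomial.map f) (φ l)) (MvPolynomial.map f G) =
      PowerSeries.map (MvPolynomial.map f) (th φ G) := by
  exact th_map f φ G

end Pool.Agent.Lib.MP_bbe012_lc.PT
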